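import Pool.Agent.H220.C6.Qmp

set_option autoImplicit false

open Filter Metric Set Topology MeasureTheory
open scoped ContDiff

namespace Pool.Agent.H220.C6

variable {g : P → ℝ}

lemma maDensity_congr {v w : E → ℝ} {p : E} (h : v =ᶠ[𝓝 p] w) :
    maDensity v p = maDensity w p := by
  have : fderiv ℝ (fderiv ℝ v) p = fderiv ℝ (fderiv ℝ w) p := (h.fderiv).fderiv_eq
  unfold maDensity complexHessian
  rw [this]

lemma continuous_entry (hg : ContDiff ℝ ∞ g) (a b : P) :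
    Continuous fun p => fderiv ℝ (fderiv ℝ g) p a b := by
  have e : (fun p => fderiv ℝ (fderiv ℝ g) p a b) = fun y => fderiv ℝ (fun q => fderiv ℝ g q b) y a :=
    funext fun y => (fderiv_fderiv_apply hg y a b).symm
  rw [e]
  exact (contDiff_fderiv_apply (contDiff_fderiv_apply hg b) a).continuous

lemma continuous_hd (hg : ContDiff ℝ ∞ g) : Continuous (hd g) := by
  have h := continuous_entry hg
  have e : hd g = fun p => dt (fderiv ℝ (fderiv ℝ g) p) := rfl
  rw [e]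
  simp only [dt_eq]
  have h1 := fun a b => h a b
  fun_prop

lemma continuous_hd2 (hg : ContDiff ℝ ∞ g) : Continuous (hd2 g) := by
  have h := continuous_entry hg
  unfold hd2
  fun_prop

lemma smoothPsh_comp (hg : ContDiff ℝ ∞ g) {δ : ℝ} {O : Set E} (hO : ∀ z ∈ O, Good δ z.2.2)
    (h2 : ∀ z ∈ O, ∀ v, 0 ≤ fderiv ℝ (fderiv ℝ g) (Psi δ z) v v)
    (h1 : ∀ z ∈ O, 0 ≤ fderiv ℝ g (Psi δ z) (0, 0, 1)) :
    IsSmoothPsh (fun z => g (Psi δ z)) O := by
  refine ⟨fun z hz => (hg.contDiffAt.comp z (contDiffAt_Psi (hO z hz))).contDiffWithinAt,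
    fun z hz a => ?_⟩
  rw [hess_comp hg (hO z hz), hess_comp hg (hO z hz)]
  have e := laplace_psi (hO z hz) a.2.2
  have e1 : (Complex.I • a).2.2 = Complex.I * a.2.2 := rfl
  rw [e1]
  have h3 := h2 z hz (dPsi δ z a)
  have h4 := h2 z hz (dPsi δ z (Complex.I • a))
  have h5 := h1 z hz
  have h6 : 0 ≤ 4 * δ * Complex.normSq a.2.2 / (Complex.normSq z.2.2 + δ) ^ 2 := by
    have := (hO z hz).1
    have := Complex.normSq_nonneg a.2.2
    positivity
  have h7 := mul_nonneg h5 h6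
  rw [← e] at h7
  linarith

/-- dominated convergence -/
lemma dct {η : E → ℝ} (hη : Continuous η) (hηs : HasCompactSupport η) {F : ℕ → E → ℝ}
    {f : E → ℝ} {K : ℝ} (hm : ∀ m, AEStronglyMeasurable (F m) volume)
    (hb : ∀ m, ∀ z ∈ tsupport η, |F m z| ≤ K)
    (hl : ∀ᵐ z : E, z ∈ tsupport η → Tendsto (fun m => F m z) atTop (𝓝 (f z))) :
    Tendsto (fun m => ∫ z, η z * F m z) atTop (𝓝 (∫ z, η z * f z)) := by
  refine tendsto_integral_of_dominated_convergence (fun z => |η z| * |K|)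
    (fun m => hη.aestronglyMeasurable.mul (hm m)) ?_ (fun m => ?_) ?_
  · exact (hη.integrable_of_hasCompactSupport hηs).abs.mul_const _
  · refine Eventually.of_forall fun z => ?_
    rw [Real.norm_eq_abs, abs_mul]
    by_cases hz : z ∈ tsupport η
    · exact mul_le_mul_of_nonneg_left ((hb m z hz).trans (le_abs_self K)) (abs_nonneg _)
    · rw [image_eq_zero_of_notMem_tsupport hz]; simp
  · filter_upwards [hl] with z hz
    by_cases hz' : z ∈ tsupport η
    · exact (hz hz').const_mul _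
    · rw [image_eq_zero_of_notMem_tsupport hz']; simp

section

variable {ρ U : P → ℝ}

/-- the approximating convex functions -/
noncomputable def ga (ρ U : P → ℝ) (ε c : ℝ) (p : P) : ℝ := mol ρ U ε p + c

lemma ga_contDiff (h : Ker ρ) (hU : Prof U) {ε : ℝ} (hε : 0 < ε) (c : ℝ) :
    ContDiff ℝ ∞ (ga ρ U ε c) := (mol_contDiff h hU.continuous hε).add contDiff_const

lemma ga_fderiv (ε c : ℝ) : fderiv ℝ (ga ρ U ε c) = fderiv ℝ (mol ρ U ε) := by
  ext1 p
  exact fderiv_add_const c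

lemma ga_hd (ε c : ℝ) : hd (ga ρ U ε c) = hd (mol ρ U ε) := by
  unfold hd
  rw [ga_fderiv]

lemma ga_hd2 (ε c : ℝ) : hd2 (ga ρ U ε c) = hd2 (mol ρ U ε) := by
  unfold hd2
  rw [ga_fderiv]

lemma mol_symm (h : Ker ρ) (hU : Prof U) {ε : ℝ} (hε : 0 < ε) (p a b : P) :
    fderiv ℝ (fderiv ℝ (mol ρ U ε)) p a b = fderiv ℝ (fderiv ℝ (mol ρ U ε)) p b a := by
  have hs := mol_contDiff h hU.continuous hε
  exact second_symm (hs.differentiable (by norm_num))
    ((hs.fderiv_right (m := 1) (by norm_cast)).differentiable one_ne_zero p) a b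

lemma mol_entries (h : Ker ρ) (hU : Prof U) (R : ℝ) : ∃ C : ℝ, 0 ≤ C ∧ ∀ ε : ℝ, 0 < ε → ε ≤ 1 →
    ∀ p : P, |p.2.1| ≤ R → 0 ≤ hd (mol ρ U ε) p ∧ hd (mol ρ U ε) p ≤ C ∧
      |hd2 (mol ρ U ε) p| ≤ C := by
  obtain ⟨C, hC, hb⟩ := mol_hess h hU R
  refine ⟨6 * (2 * |C|) ^ 3 + 2 * (2 * |C|) ^ 2, by positivity, fun ε hε hε1 p hp => ?_⟩
  have hent : ∀ i j, |fderiv ℝ (fderiv ℝ (mol ρ U ε)) p (pb i) (pb j)| ≤ 2 * |C| := fun i j =>
    entry_bound (mol_symm h hU hε p) (fun v => (hb ε hε hε1 p v hp).1)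
      (fun v => (hb ε hε hε1 p v hp).2) (pb_norm i) (pb_norm j)
  refine ⟨dt_nonneg (mol_symm h hU hε p) fun v => (hb ε hε hε1 p v hp).1, ?_, ?_⟩
  · have h1 := (le_abs_self _).trans (abs_dt_le (by positivity) hent)
    have h2 : 0 ≤ 2 * (2 * |C|) ^ 2 := by positivity
    have h3 : hd (mol ρ U ε) p ≤ 6 * (2 * |C|) ^ 3 := h1
    linarith
  · have e00 := hent 0 0
    have e01 := hent 0 1
    have e10 := hent 1 0
    have e11 := hent 1 1
    simp only [pb, Matrix.cons_val_zero, Matrix.cons_val_one] at e00 e01 e10 e11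
    have h2 : 0 ≤ 6 * (2 * |C|) ^ 3 := by positivity
    have prod : ∀ x y : ℝ, |x| ≤ 2 * |C| → |y| ≤ 2 * |C| → |x * y| ≤ (2 * |C|) ^ 2 := by
      intro x y hx hy
      rw [abs_mul]
      calc |x| * |y| ≤ (2 * |C|) * (2 * |C|) := by gcongr
        _ = (2 * |C|) ^ 2 := by ring
    have p1 := abs_le.1 (prod _ _ e00 e11)
    have p2 := abs_le.1 (prod _ _ e01 e10)
    unfold hd2
    rw [abs_le]
    constructor <;> linarith [p1.1, p1.2, p2.1, p2.2]

lemma hd_tendsto (h : Ker ρ) (hU : Prof U) {p : P} (hp : DifferentiableAt ℝ (fderiv ℝ U) p) :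
    Tendsto (fun ε => hd (mol ρ U ε) p) (𝓝[>] 0) (𝓝 (hd U p)) := by
  have ht := fun a b => mol_tendsto h hU hp a b
  unfold hd
  simp only [dt_eq]
  exact ((((((ht _ _).mul (ht _ _)).mul (ht _ _)).sub (((ht _ _).mul (ht _ _)).mul (ht _ _))).sub
    (((ht _ _).mul (ht _ _)).mul (ht _ _))).add (((ht _ _).mul (ht _ _)).mul (ht _ _))).add
    (((ht _ _).mul (ht _ _)).mul (ht _ _)) |>.sub (((ht _ _).mul (ht _ _)).mul (ht _ _))

lemma mol_dtau_nonneg (h : Ker ρ) (hU : Prof U) {ε : ℝ} (hε : 0 < ε) (p : P) :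
    0 ≤ fderiv ℝ (mol ρ U ε) p (0, 0, 1) := by
  have h1 := mol_lower h hU hε p (-(0, 0, 1))
  have hc := hU.continuous
  have h2 : mol ρ U ε (p + -(0, 0, 1)) ≤ mol ρ U ε p := by
    unfold mol
    refine h.int_mono (by fun_prop) (by fun_prop) fun y _ => ?_
    have h3 := hU.mono (p - ε • y).1 (p - ε • y).2.1 (τ := (p - ε • y).2.2 - 1)
      (τ' := (p - ε • y).2.2) (by linarith)
    have e : p + -(0, 0, 1) - ε • y =
        ((p - ε • y).1, (p - ε • y).2.1, (p - ε • y).2.2 - 1) := by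
      refine Prod.ext ?_ (Prod.ext ?_ ?_)
      · simp
      · simp
      · simp; ring
    rw [e]
    exact h3
  rw [map_neg] at h1
  linarith

end

end Pool.Agent.H220.C6
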