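import Pool.Agent.H220.C6.Approx

set_option autoImplicit false

open Filter Metric Set Topology MeasureTheory
open scoped ContDiff

namespace Pool.Agent.H220.C6

variable {U : P → ℝ}

/-- conclusion of the local approximation statements: in the open set `O` the function `u` is a
decreasing limit of smooth psh functions whose Monge–Ampère densities converge weakly to `f` -/
def LocMA (O : Set E) (u f : E → ℝ) : Prop :=
  ∃ v : ℕ → E → ℝ, (∀ m, IsSmoothPsh (v m) O) ∧ (∀ m, ∀ z ∈ O, v (m + 1) z ≤ v m z) ∧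
    (∀ z ∈ O, Tendsto (fun m => v m z) atTop (𝓝 (u z))) ∧
    ∀ η : E → ℝ, Continuous η → HasCompactSupport η → tsupport η ⊆ O →
      Tendsto (fun m => ∫ z, η z * maDensity (v m) z) atTop (𝓝 (∫ z, η z * f z))

lemma abs_re_le (z : E) : |z.1.re| ≤ ‖z‖ ∧ |z.2.1.re| ≤ ‖z‖ ∧ ‖z.2.2‖ ≤ ‖z‖ := by
  refine ⟨(Complex.abs_re_le_norm _).trans (norm_fst_le z), ?_, ?_⟩
  · exact (Complex.abs_re_le_norm _).trans ((norm_fst_le z.2).trans (norm_snd_le z))
  · exact (norm_snd_le z.2).trans (norm_snd_le z)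

/-- the approximation away from the zero section -/
lemma locMA_interior (hU : Prof U) {O : Set E} {R : ℝ} (hR : ∀ z ∈ O, ‖z‖ ≤ R)
    (hξ : ∀ z ∈ O, z.2.2 ≠ 0) :
    LocMA O (fun z => U (Psi 0 z))
      (fun z => 1 / 16 * ((Complex.normSq z.2.2)⁻¹ * hd U (Psi 0 z))) := by
  obtain ⟨ρ, h⟩ := exists_ker
  obtain ⟨C₁, hC₁, hle⟩ := mol_le h hU R
  obtain ⟨C₂, hC₂, hess⟩ := mol_hess h hU R
  obtain ⟨C₃, hC₃, hent⟩ := mol_entries h hU R
  have hεpos : ∀ m : ℕ, (0 : ℝ) < (1 / 2) ^ m := fun m => by positivity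
  have hε1 : ∀ m : ℕ, ((1 : ℝ) / 2) ^ m ≤ 1 := fun m => pow_le_one₀ (by norm_num) (by norm_num)
  have hgood : ∀ z ∈ O, Good 0 z.2.2 := fun z hz =>
    ⟨le_rfl, by rw [add_zero]; exact Complex.normSq_pos.2 (hξ z hz)⟩
  have hRe : ∀ z ∈ O, |(Psi 0 z).2.1| ≤ R := fun z hz => (abs_re_le z).2.1.trans (hR z hz)
  refine ⟨fun m z => ga ρ U ((1 / 2) ^ m) (2 * C₁ * (1 / 2) ^ m) (Psi 0 z), fun m => ?_,
    fun m z hz => ?_, fun z hz => ?_, fun η hη hηs hηO => ?_⟩
  · refine smoothPsh_comp (ga_contDiff h hU (hεpos m) _) hgood (fun z hz v => ?_) fun z hz => ?_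
    · rw [ga_fderiv]
      exact (hess _ (hεpos m) (hε1 m) _ v (hRe z hz)).1
    · rw [ga_fderiv]
      exact mol_dtau_nonneg h hU (hεpos m) _
  · have h1 := hle ((1 / 2) ^ (m + 1)) (Psi 0 z) (hRe z hz)
    have h2 := mol_ge h hU ((1 / 2) ^ m) (Psi 0 z)
    have h3 : (((1 : ℝ) / 2) ^ (m + 1)) ^ 2 ≤ (1 / 2) ^ m := by
      rw [← pow_mul]
      exact pow_le_pow_of_le_one (by norm_num) (by norm_num) (by omega)
    have h4 : C₁ * (((1 : ℝ) / 2) ^ (m + 1)) ^ 2 ≤ C₁ * (1 / 2) ^ m := by gcongr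
    have h5 : ((1 : ℝ) / 2) ^ (m + 1) = (1 / 2) ^ m / 2 := by ring
    simp only [ga]
    rw [h5] at h4 h1 ⊢
    linarith
  · have hz0 : Tendsto (fun m : ℕ => ((1 : ℝ) / 2) ^ m) atTop (𝓝 0) :=
      tendsto_pow_atTop_nhds_zero_of_lt_one (by norm_num) (by norm_num)
    have l1 : Tendsto (fun m : ℕ => U (Psi 0 z) + 2 * C₁ * (1 / 2) ^ m) atTop
        (𝓝 (U (Psi 0 z) + 2 * C₁ * 0)) := (hz0.const_mul _).const_add _
    have l2 : Tendsto (fun m : ℕ => U (Psi 0 z) + C₁ * (((1 : ℝ) / 2) ^ m) ^ 2 +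
        2 * C₁ * (1 / 2) ^ m) atTop (𝓝 (U (Psi 0 z) + C₁ * 0 ^ 2 + 2 * C₁ * 0)) :=
      (((hz0.pow 2).const_mul _).const_add _).add (hz0.const_mul _)
    simp only [mul_zero, add_zero, ne_eq, OfNat.ofNat_ne_zero, not_false_eq_true, zero_pow] at l1 l2
    refine tendsto_of_tendsto_of_tendsto_of_le_of_le l1 l2 (fun m => ?_) fun m => ?_
    · have := mol_ge h hU ((1 / 2) ^ m) (Psi 0 z)
      simp only [ga]; linarith
    · have := hle ((1 / 2) ^ m) (Psi 0 z) (hRe z hz)
      simp only [ga]; linarith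
  · -- a lower bound for `|ξ|²` on the support
    obtain ⟨m₀, hm₀, hlow⟩ : ∃ m₀ > 0, ∀ z ∈ tsupport η, m₀ ≤ Complex.normSq z.2.2 := by
      rcases (tsupport η).eq_empty_or_nonempty with he | hne
      · exact ⟨1, one_pos, fun z hz => by rw [he] at hz; exact hz.elim⟩
      · obtain ⟨z0, hz0, hmin⟩ := IsCompact.exists_isMinOn (s := tsupport η) hηs hne
          (f := fun z : E => Complex.normSq z.2.2)
          ((Complex.continuous_normSq.comp (continuous_snd.comp continuous_snd)).continuousOn)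
        exact ⟨_, Complex.normSq_pos.2 (hξ z0 (hηO hz0)), fun z hz => hmin hz⟩
    have hform : ∀ m : ℕ, ∀ z : E, z.2.2 ≠ 0 →
        maDensity (fun z => ga ρ U ((1 / 2) ^ m) (2 * C₁ * (1 / 2) ^ m) (Psi 0 z)) z =
          1 / 16 * ((Complex.normSq z.2.2)⁻¹ * hd (mol ρ U ((1 / 2) ^ m)) (Psi 0 z)) := by
      intro m z hz
      have hg : Good 0 z.2.2 := ⟨le_rfl, by rw [add_zero]; exact Complex.normSq_pos.2 hz⟩
      rw [ma_comp (ga_contDiff h hU (hεpos m) _) hg, ga_hd]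
      have hn : Complex.normSq z.2.2 ≠ 0 := (Complex.normSq_pos.2 hz).ne'
      have e : Complex.normSq z.2.2 / (Complex.normSq z.2.2 + 0) ^ 2 =
          (Complex.normSq z.2.2)⁻¹ := by
        rw [add_zero]; field_simp
      rw [e, zero_div, zero_mul, add_zero]
    have hmeas : Measurable (Psi 0) := (qmp_Psi le_rfl).measurable
    refine dct hη hηs (K := 1 / 16 * (m₀⁻¹ * C₃)) (fun m => ?_) (fun m z hz => ?_) ?_
    · have h1 : Measurable fun z : E =>
          1 / 16 * ((Complex.normSq z.2.2)⁻¹ * hd (mol ρ U ((1 / 2) ^ m)) (Psi 0 z)) := by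
        have h2 : Measurable fun z : E => Complex.normSq z.2.2 :=
          (Complex.continuous_normSq.comp (continuous_snd.comp continuous_snd)).measurable
        have h3 : Measurable fun z : E => hd (mol ρ U ((1 / 2) ^ m)) (Psi 0 z) :=
          (continuous_hd (mol_contDiff h hU.continuous (hεpos m))).measurable.comp hmeas
        exact (h2.inv.mul h3).const_mul _
      refine h1.aestronglyMeasurable.congr ?_
      filter_upwards [ae_ne_zero] with z hz
      exact (hform m z hz).symm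
    · rw [hform m z (hξ z (hηO hz))]
      obtain ⟨e1, e2, -⟩ := hent _ (hεpos m) (hε1 m) _ (hRe z (hηO hz))
      have e3 : 0 < Complex.normSq z.2.2 := Complex.normSq_pos.2 (hξ z (hηO hz))
      have e4 : (Complex.normSq z.2.2)⁻¹ ≤ m₀⁻¹ := inv_anti₀ hm₀ (hlow z hz)
      rw [abs_of_nonneg (by positivity)]
      gcongr
    · filter_upwards [ae_Psi le_rfl hU.ae_differentiableAt] with z hz hzη
      have h1 : Tendsto (fun m : ℕ => ((1 : ℝ) / 2) ^ m) atTop (𝓝[>] 0) :=
        tendsto_nhdsWithin_iff.2 ⟨tendsto_pow_atTop_nhds_zero_of_lt_one (by norm_num) (by norm_num),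
          Eventually.of_forall fun m => hεpos m⟩
      have h2 := (hd_tendsto h hU hz).comp h1
      have h3 : ∀ m : ℕ, maDensity
          (fun z => ga ρ U ((1 / 2) ^ m) (2 * C₁ * (1 / 2) ^ m) (Psi 0 z)) z =
          1 / 16 * ((Complex.normSq z.2.2)⁻¹ * hd (mol ρ U ((1 / 2) ^ m)) (Psi 0 z)) :=
        fun m => hform m z (hξ z (hηO hzη))
      simp only [h3]
      exact (h2.const_mul _).const_mul _

/-! ### The integral of `δ / (|ξ|² + δ)²` -/

/-- the density -/
noncomputable def kap (δ : ℝ) (ξ : ℂ) : ℝ := δ / (Complex.normSq ξ + δ) ^ 2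

lemma kap_nonneg {δ : ℝ} (hδ : 0 ≤ δ) (ξ : ℂ) : 0 ≤ kap δ ξ := by
  unfold kap; positivity

lemma continuous_kap {δ : ℝ} (hδ : 0 < δ) : Continuous (kap δ) := by
  unfold kap
  refine continuous_const.div ((Complex.continuous_normSq.add continuous_const).pow 2) fun ξ => ?_
  have := Complex.normSq_nonneg ξ
  positivity

lemma kap_one_integrable : Integrable (kap 1) := by
  have h := integrable_rpow_neg_one_add_norm_sq (E := ℂ) (μ := volume) (r := 4)
    (by rw [Complex.finrank_real_complex]; norm_num)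
  refine h.congr (Eventually.of_forall fun ξ => ?_)
  simp only [kap]
  rw [show (-4 : ℝ) / 2 = -((2 : ℕ) : ℝ) by norm_num, Real.rpow_neg (by positivity),
    Real.rpow_natCast, Complex.normSq_eq_norm_sq, one_div, add_comm]

lemma kap_scale {δ : ℝ} (hδ : 0 < δ) (ξ : ℂ) :
    kap δ (Real.sqrt δ • ξ) = δ⁻¹ * kap 1 ξ := by
  unfold kap
  have h1 : Complex.normSq (Real.sqrt δ • ξ) = δ * Complex.normSq ξ := by
    rw [Complex.real_smul, map_mul, Complex.normSq_ofReal, Real.mul_self_sqrt hδ.le]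
  have h2 : 0 < Complex.normSq ξ + 1 := by
    have := Complex.normSq_nonneg ξ; linarith
  rw [h1]
  have h3 : δ * Complex.normSq ξ + δ = δ * (Complex.normSq ξ + 1) := by ring
  rw [h3]
  field_simp

lemma kap_integrable {δ : ℝ} (hδ : 0 < δ) : Integrable (kap δ) := by
  have h1 : Integrable (fun ξ => kap δ (Real.sqrt δ • ξ)) := by
    have : (fun ξ => kap δ (Real.sqrt δ • ξ)) = fun ξ => δ⁻¹ * kap 1 ξ :=
      funext fun ξ => kap_scale hδ ξ
    rw [this]
    exact kap_one_integrable.const_mul _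
  exact (integrable_comp_smul_iff volume (kap δ) (Real.sqrt_pos.2 hδ).ne').1 h1

lemma kap_integral {δ : ℝ} (hδ : 0 < δ) : ∫ ξ, kap δ ξ = ∫ ξ, kap 1 ξ := by
  have h1 := Measure.integral_comp_smul_of_nonneg (volume : Measure ℂ) (kap δ) (Real.sqrt δ)
    (hR := Real.sqrt_nonneg δ)
  rw [Complex.finrank_real_complex, Real.sq_sqrt hδ.le, smul_eq_mul] at h1
  have h2 : ∫ ξ, kap δ (Real.sqrt δ • ξ) = δ⁻¹ * ∫ ξ, kap 1 ξ := by
    rw [← integral_const_mul]
    exact integral_congr_ae (Eventually.of_forall fun ξ => kap_scale hδ ξ)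
  rw [h2] at h1
  have h3 : δ⁻¹ ≠ 0 := (inv_pos.2 hδ).ne'
  exact (mul_left_cancel₀ h3 h1).symm

/-- the integral over the ball is bounded -/
lemma kap_ball {δ : ℝ} (hδ : 0 < δ) (c : E) (r : ℝ) :
    ∫ z in closedBall c r, kap δ z.2.2 ≤
      (volume (closedBall c.1 r)).toReal * ((volume (closedBall c.2.1 r)).toReal *
        ∫ ξ, kap 1 ξ) := by
  have hset : closedBall c r = closedBall c.1 r ×ˢ (closedBall c.2.1 r ×ˢ closedBall c.2.2 r) := by
    rw [closedBall_prod_same, closedBall_prod_same]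
  set B1 := closedBall c.1 r
  set B2 := closedBall c.2.1 r
  set G : E → ℝ := fun z => B1.indicator (1 : ℂ → ℝ) z.1 *
    ((fun w : ℂ × ℂ => B2.indicator (1 : ℂ → ℝ) w.1 * kap δ w.2) z.2) with hG
  have i1 : Integrable (B1.indicator (1 : ℂ → ℝ)) :=
    (integrable_indicator_iff measurableSet_closedBall).2
      (integrableOn_const (by exact (isCompact_closedBall _ _).measure_lt_top.ne))
  have i2 : Integrable (B2.indicator (1 : ℂ → ℝ)) :=
    (integrable_indicator_iff measurableSet_closedBall).2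
      (integrableOn_const (by exact (isCompact_closedBall _ _).measure_lt_top.ne))
  have i3 : Integrable (fun w : ℂ × ℂ => B2.indicator (1 : ℂ → ℝ) w.1 * kap δ w.2) :=
    i2.mul_prod (kap_integrable hδ)
  have i4 : Integrable G := i1.mul_prod i3
  have hG0 : ∀ z, 0 ≤ G z := fun z => by
    have h1 : 0 ≤ B1.indicator (1 : ℂ → ℝ) z.1 := indicator_nonneg (fun _ _ => zero_le_one) _
    have h2 : 0 ≤ B2.indicator (1 : ℂ → ℝ) z.2.1 := indicator_nonneg (fun _ _ => zero_le_one) _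
    exact mul_nonneg h1 (mul_nonneg h2 (kap_nonneg hδ.le _))
  have e1 : ∫ z in closedBall c r, kap δ z.2.2 = ∫ z in closedBall c r, G z := by
    refine setIntegral_congr_fun measurableSet_closedBall fun z hz => ?_
    rw [hset] at hz
    simp only [hG]
    rw [indicator_of_mem hz.1, indicator_of_mem hz.2.1]
    simp
  have e2 : ∫ z in closedBall c r, G z ≤ ∫ z, G z :=
    setIntegral_le_integral i4 (Eventually.of_forall hG0)
  have e3 : ∫ z, G z = (∫ z, B1.indicator (1 : ℂ → ℝ) z) *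
      ((∫ z, B2.indicator (1 : ℂ → ℝ) z) * ∫ ξ, kap δ ξ) := by
    have h1 : ∫ z, G z = (∫ z, B1.indicator (1 : ℂ → ℝ) z) *
        ∫ w : ℂ × ℂ, B2.indicator (1 : ℂ → ℝ) w.1 * kap δ w.2 :=
      integral_prod_mul (B1.indicator (1 : ℂ → ℝ))
        (fun w : ℂ × ℂ => B2.indicator (1 : ℂ → ℝ) w.1 * kap δ w.2)
    have h2 : ∫ w : ℂ × ℂ, B2.indicator (1 : ℂ → ℝ) w.1 * kap δ w.2 =
        (∫ z, B2.indicator (1 : ℂ → ℝ) z) * ∫ ξ, kap δ ξ :=
      integral_prod_mul (B2.indicator (1 : ℂ → ℝ)) (kap δ)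
    rw [h1, h2]
  have e4 : ∫ z, B1.indicator (1 : ℂ → ℝ) z = (volume B1).toReal := by
    rw [integral_indicator_one measurableSet_closedBall]; rfl
  have e5 : ∫ z, B2.indicator (1 : ℂ → ℝ) z = (volume B2).toReal := by
    rw [integral_indicator_one measurableSet_closedBall]; rfl
  rw [e1]
  refine e2.trans ?_
  rw [e3, e4, e5, kap_integral hδ]

end Pool.Agent.H220.C6
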