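import Pool.Agent.H220.C6.Approx2

set_option autoImplicit false

open Filter Metric Set Topology MeasureTheory
open scoped ContDiff

namespace Pool.Agent.H220.C6

variable {U ρ : P → ℝ}

/-- the function on the chart, with the limit at the zero section -/
noncomputable def uu0 (U : P → ℝ) (z : E) : ℝ :=
  if z.2.2 = 0 then ⨅ τ : ℝ, U (z.1.re, z.2.1.re, τ) else U (Psi 0 z)

lemma Prof.bddBelow (hU : Prof U) (x y : ℝ) : BddBelow (range fun τ : ℝ => U (x, y, τ)) := by
  obtain ⟨M, hM⟩ := hU.bdd (max |x| |y|)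
  refine ⟨-M, ?_⟩
  rintro _ ⟨τ, rfl⟩
  have h1 := hM (x, y, min τ (max |x| |y|)) (le_max_left _ _) (le_max_right _ _) (min_le_right _ _)
  have h2 := hU.mono x y (min_le_left τ (max |x| |y|))
  have h3 := (abs_le.1 h1).1
  simp only
  linarith

lemma Prof.tendsto_bot (hU : Prof U) (x y : ℝ) :
    Tendsto (fun τ : ℝ => U (x, y, τ)) atBot (𝓝 (⨅ τ : ℝ, U (x, y, τ))) :=
  tendsto_atBot_ciInf (fun _ _ h => hU.mono x y h) (hU.bddBelow x y)

lemma mol_slope (h : Ker ρ) (hU : Prof U) (R : ℝ) (hR : 0 ≤ R) : ∃ M : ℝ, 0 ≤ M ∧ ∀ ε : ℝ, 0 < ε →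
    ε ≤ 1 → ∀ p : P, |p.1| ≤ R → |p.2.1| ≤ R → p.2.2 < 0 →
      fderiv ℝ (mol ρ U ε) p (0, 0, 1) ≤ M / |p.2.2| := by
  obtain ⟨M, hM⟩ := hU.bdd (R + 1)
  have hM0 : 0 ≤ M := (abs_nonneg _).trans (hM (0, 0, 0) (by simp; linarith) (by simp; linarith)
    (by simp; linarith))
  refine ⟨2 * M, by positivity, fun ε hε hε1 p hp1 hp2 hp3 => ?_⟩
  have hc := hU.continuous
  have hbd : ∀ q : P, |q.1| ≤ R → |q.2.1| ≤ R → q.2.2 ≤ 0 → |mol ρ U ε q| ≤ M := by
    intro q h1 h2 h3
    have hin : ∀ y : P, ‖y‖ ≤ 1 → |U (q - ε • y)| ≤ M := by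
      intro y hy
      have y1 := (abs_le_norm1 y).trans hy
      have y2 := (abs_le_norm2 y).trans hy
      have y3 := (abs_le_norm3 y).trans hy
      have e : ∀ t : ℝ, |t| ≤ 1 → |ε * t| ≤ 1 := by
        intro t ht
        rw [abs_mul, abs_of_pos hε]
        nlinarith [abs_nonneg t]
      refine hM _ ?_ ?_ ?_
      · show |q.1 - ε * y.1| ≤ R + 1
        exact (abs_sub _ _).trans (add_le_add h1 (e _ y1))
      · show |q.2.1 - ε * y.2.1| ≤ R + 1
        exact (abs_sub _ _).trans (add_le_add h2 (e _ y2))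
      · show q.2.2 - ε * y.2.2 ≤ R + 1
        have := (abs_le.1 (e _ y3)).1
        linarith
    rw [abs_le]
    constructor
    · rw [← h.int_const (-M)]
      exact h.int_mono continuous_const (by fun_prop) fun y hy => (abs_le.1 (hin y hy)).1
    · rw [← h.int_const M]
      exact h.int_mono (by fun_prop) continuous_const fun y hy => (abs_le.1 (hin y hy)).2
  have h1 := mol_lower h hU hε p ((-p.2.2) • (0, 0, 1))
  have e : p + (-p.2.2) • ((0, 0, 1) : P) = (p.1, p.2.1, 0) := by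
    refine Prod.ext ?_ (Prod.ext ?_ ?_) <;> simp
  rw [e, map_smul, smul_eq_mul] at h1
  have h2 := (abs_le.1 (hbd (p.1, p.2.1, 0) hp1 hp2 le_rfl)).2
  have h3 := (abs_le.1 (hbd p hp1 hp2 hp3.le)).1
  rw [abs_of_neg hp3, le_div_iff₀ (by linarith)]
  linarith

/-- the elementary inequality behind the vanishing of the mass on the zero section -/
lemma kap_log {s n T : ℝ} (hs : 0 < s) (hs1 : 2 * s < 1) (hn : 0 ≤ n) (hT : T ≤ -1)
    (hN : n + s ^ 4 ≤ Real.exp T) :
    s ^ 4 / (n + s ^ 4) ^ 2 / |Real.log (n + s ^ 4)| ≤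
      s ^ 2 + s ^ 4 / (n + s ^ 4) ^ 2 / |Real.log (2 * s)| := by
  have hs4 : 0 < s ^ 4 := by positivity
  have hN0 : 0 < n + s ^ 4 := by linarith
  have hlog : Real.log (n + s ^ 4) ≤ T := by
    rw [← Real.log_exp T]
    exact Real.log_le_log hN0 hN
  have hlog1 : 1 ≤ |Real.log (n + s ^ 4)| := by
    rw [abs_of_nonpos (by linarith)]; linarith
  have hk : 0 ≤ s ^ 4 / (n + s ^ 4) ^ 2 := by positivity
  rcases le_or_gt n s with h | h
  · have h1 : n + s ^ 4 ≤ 2 * s := by
      have : s ^ 4 ≤ s := by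
        calc s ^ 4 = s * s ^ 3 := by ring
          _ ≤ s * 1 := by
            gcongr
            exact pow_le_one₀ hs.le (by linarith)
          _ = s := mul_one s
      linarith
    have h2 : Real.log (n + s ^ 4) ≤ Real.log (2 * s) := Real.log_le_log hN0 h1
    have h3 : Real.log (2 * s) < 0 := Real.log_neg (by linarith) hs1
    have h4 : |Real.log (2 * s)| ≤ |Real.log (n + s ^ 4)| := by
      rw [abs_of_neg h3, abs_of_nonpos (by linarith)]; linarith
    have h5 : s ^ 4 / (n + s ^ 4) ^ 2 / |Real.log (n + s ^ 4)| ≤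
        s ^ 4 / (n + s ^ 4) ^ 2 / |Real.log (2 * s)| :=
      div_le_div_of_nonneg_left hk (abs_pos.2 h3.ne) h4
    have : 0 ≤ s ^ 2 := by positivity
    linarith
  · have h1 : s ^ 4 / (n + s ^ 4) ^ 2 ≤ s ^ 2 := by
      rw [div_le_iff₀ (by positivity)]
      have : s ^ 2 ≤ (n + s ^ 4) ^ 2 := by
        have : s ≤ n + s ^ 4 := by linarith
        gcongr
      nlinarith [sq_nonneg s]
    have h2 : s ^ 4 / (n + s ^ 4) ^ 2 / |Real.log (n + s ^ 4)| ≤ s ^ 4 / (n + s ^ 4) ^ 2 :=
      div_le_self hk hlog1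
    have h3 : 0 ≤ s ^ 4 / (n + s ^ 4) ^ 2 / |Real.log (2 * s)| := by positivity
    linarith

/-- the first part of the Monge–Ampère mass of the approximations -/
noncomputable def FF (ρ U : P → ℝ) (c : E) (r δ ε : ℝ) : ℝ :=
  ∫ z in closedBall c r,
    Complex.normSq z.2.2 / (Complex.normSq z.2.2 + δ) ^ 2 * hd (mol ρ U ε) (Psi δ z)

lemma continuous_Psi {δ : ℝ} (hδ : 0 < δ) : Continuous (Psi δ) := by
  have h1 : ∀ z : E, ContDiffAt ℝ ∞ (Psi δ) z := fun z =>
    contDiffAt_Psi ⟨hδ.le, by have := Complex.normSq_nonneg z.2.2; linarith⟩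
  exact continuous_iff_continuousAt.2 fun z => (h1 z).continuousAt

lemma continuous_weight {δ : ℝ} (hδ : 0 < δ) :
    Continuous fun z : E => Complex.normSq z.2.2 / (Complex.normSq z.2.2 + δ) ^ 2 := by
  have h : Continuous fun z : E => Complex.normSq z.2.2 :=
    Complex.continuous_normSq.comp (continuous_snd.comp continuous_snd)
  refine h.div ((h.add continuous_const).pow 2) fun z => ?_
  have := Complex.normSq_nonneg z.2.2
  positivity

lemma weight_le {δ : ℝ} (hδ : 0 < δ) (n : ℝ) (hn : 0 ≤ n) : n / (n + δ) ^ 2 ≤ δ⁻¹ := by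
  rw [div_le_iff₀ (by positivity), ← div_eq_inv_mul, le_div_iff₀ hδ]
  nlinarith [sq_nonneg n, sq_nonneg δ, mul_nonneg hn hδ.le]

lemma FF_tendsto (h : Ker ρ) (hU : Prof U) {c : E} {r R T δ : ℝ} (hδ : 0 < δ)
    (hR : ∀ z ∈ closedBall c r, |z.2.1.re| ≤ R) (hT : ∀ z ∈ closedBall c r, psi δ z.2.2 ≤ T)
    (hdeg : ∀ᵐ p : P, |p.2.1| ≤ R → p.2.2 ≤ T → hd U p = 0) :
    Tendsto (FF ρ U c r δ) (𝓝[>] 0) (𝓝 0) := by
  obtain ⟨C₃, hC₃, hent⟩ := mol_entries h hU R
  have hlt : ∀ᶠ ε : ℝ in 𝓝[>] 0, ε ≤ 1 := mem_nhdsWithin_of_mem_nhds (Iic_mem_nhds one_pos)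
  suffices hs : Tendsto (FF ρ U c r δ) (𝓝[>] 0) (𝓝 (∫ z in closedBall c r, (0 : ℝ))) by
    simpa using hs
  refine tendsto_integral_filter_of_dominated_convergence (fun _ => δ⁻¹ * C₃) ?_ ?_ ?_ ?_
  · filter_upwards [self_mem_nhdsWithin] with ε hε
    exact ((continuous_weight hδ).mul ((continuous_hd (mol_contDiff h hU.continuous hε)).comp
      (continuous_Psi hδ))).aestronglyMeasurable
  · filter_upwards [self_mem_nhdsWithin, hlt] with ε hε hε1
    refine (ae_restrict_iff' measurableSet_closedBall).2 (Eventually.of_forall fun z hz => ?_)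
    obtain ⟨e1, e2, -⟩ := hent ε hε hε1 (Psi δ z) (hR z hz)
    have e3 := Complex.normSq_nonneg z.2.2
    have e4 := weight_le hδ _ e3
    rw [Real.norm_eq_abs, abs_of_nonneg (by positivity)]
    have : 0 ≤ δ⁻¹ := by positivity
    gcongr
  · exact integrableOn_const (by exact (isCompact_closedBall _ _).measure_lt_top.ne)
  · refine (ae_restrict_iff' measurableSet_closedBall).2 ?_
    filter_upwards [ae_Psi hδ.le hU.ae_differentiableAt, ae_Psi hδ.le hdeg] with z hz1 hz2 hz
    have h1 := hd_tendsto h hU hz1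
    rw [hz2 (hR z hz) (hT z hz)] at h1
    have h2 := h1.const_mul (Complex.normSq z.2.2 / (Complex.normSq z.2.2 + δ) ^ 2)
    rwa [mul_zero] at h2

/-- the approximation near the zero section -/
lemma locMA_end (hU : Prof U) {c : E} (hc : c.2.2 = 0) {r R T : ℝ} (hr : 0 < r) (hr1 : r ≤ 1)
    (hR1 : ‖c‖ + 1 ≤ R) (hT : T ≤ -1) (hrT : r ^ 2 ≤ Real.exp T / 2)
    (hdeg : ∀ᵐ p : P, |p.2.1| ≤ R → p.2.2 ≤ T → hd U p = 0) :
    LocMA (ball c r) (uu0 U) (fun _ => 0) := by
  obtain ⟨ρ, h⟩ := exists_ker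
  have hR0 : 0 ≤ R := by linarith [norm_nonneg c]
  obtain ⟨C₁, hC₁, hle⟩ := mol_le h hU R
  obtain ⟨C₂, hC₂, hess⟩ := mol_hess h hU R
  obtain ⟨C₃, hC₃, hent⟩ := mol_entries h hU R
  obtain ⟨M, hM0, hslope⟩ := mol_slope h hU R hR0
  -- geometry of the ball
  have hnorm : ∀ z ∈ closedBall c r, ‖z‖ ≤ R := by
    intro z hz
    have : ‖z - c‖ ≤ r := by rwa [mem_closedBall, dist_eq_norm] at hz
    calc ‖z‖ = ‖(z - c) + c‖ := by rw [sub_add_cancel]
      _ ≤ ‖z - c‖ + ‖c‖ := norm_add_le _ _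
      _ ≤ R := by linarith
  have hre1 : ∀ z ∈ closedBall c r, |z.1.re| ≤ R := fun z hz =>
    (abs_re_le z).1.trans (hnorm z hz)
  have hre2 : ∀ z ∈ closedBall c r, |z.2.1.re| ≤ R := fun z hz =>
    (abs_re_le z).2.1.trans (hnorm z hz)
  have hsq : ∀ z ∈ closedBall c r, Complex.normSq z.2.2 ≤ Real.exp T / 2 := by
    intro z hz
    have h1 : ‖z - c‖ ≤ r := by rwa [mem_closedBall, dist_eq_norm] at hz
    have h2 : ‖z.2.2‖ ≤ r := by
      have h3 := (abs_re_le (z - c)).2.2
      have h4 : (z - c).2.2 = z.2.2 := by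
        show z.2.2 - c.2.2 = z.2.2
        rw [hc, sub_zero]
      rw [h4] at h3
      exact h3.trans h1
    rw [Complex.normSq_eq_norm_sq]
    exact (pow_le_pow_left₀ (norm_nonneg _) h2 2).trans hrT
  -- the parameters
  set σ : ℝ := Real.exp T / 4 with hσ
  have hexp : Real.exp T < 1 := by
    rw [Real.exp_lt_one_iff]; linarith
  have hexp0 := Real.exp_pos T
  have hσ0 : 0 < σ := by positivity
  set s : ℕ → ℝ := fun m => σ * (1 / 2) ^ m with hs
  have hs0 : ∀ m, 0 < s m := fun m => by positivity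
  have hpow1 : ∀ m : ℕ, ((1 : ℝ) / 2) ^ m ≤ 1 := fun m => pow_le_one₀ (by norm_num) (by norm_num)
  have hsσ : ∀ m, s m ≤ σ := fun m => by
    have := mul_le_mul_of_nonneg_left (hpow1 m) hσ0.le
    simpa [hs] using this
  have hs1 : ∀ m, 2 * s m < 1 := fun m => by linarith [hsσ m]
  have hs4 : ∀ m, s m ^ 4 ≤ Real.exp T / 2 := fun m => by
    have h1 : s m ^ 4 ≤ s m := by
      calc s m ^ 4 = s m * s m ^ 3 := by ring
        _ ≤ s m * 1 := by
          have : s m ^ 3 ≤ 1 := pow_le_one₀ (hs0 m).le (by linarith [hs1 m])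
          exact mul_le_mul_of_nonneg_left this (hs0 m).le
        _ = s m := mul_one _
    linarith [hsσ m]
  have hslim : Tendsto s atTop (𝓝 0) := by
    have := (tendsto_pow_atTop_nhds_zero_of_lt_one (r := (1 : ℝ) / 2) (by norm_num)
      (by norm_num)).const_mul σ
    rwa [mul_zero] at this
  set δ : ℕ → ℝ := fun m => s m ^ 4 with hδ
  have hδ0 : ∀ m, 0 < δ m := fun m => pow_pos (hs0 m) 4
  have hNle : ∀ m, ∀ z ∈ closedBall c r, Complex.normSq z.2.2 + δ m ≤ Real.exp T := fun m z hz => by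
    have h1 := hsq z hz
    have h2 := hs4 m
    simp only [hδ]; linarith
  have hNpos : ∀ m (z : E), 0 < Complex.normSq z.2.2 + δ m := fun m z => by
    have := Complex.normSq_nonneg z.2.2
    have := hδ0 m
    linarith
  have hpsi : ∀ m, ∀ z ∈ closedBall c r, psi (δ m) z.2.2 ≤ T := fun m z hz => by
    rw [psi, ← Real.log_exp T]
    exact Real.log_le_log (hNpos m z) (hNle m z hz)
  have hgood : ∀ m (z : E), Good (δ m) z.2.2 := fun m z => ⟨(hδ0 m).le, hNpos m z⟩
  -- the choice of `ε`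
  have hchoice : ∀ m : ℕ, ∃ ε : ℝ, 0 < ε ∧ ε ≤ (1 / 2) ^ m ∧ FF ρ U c r (δ m) ε ≤ (1 / 2) ^ m := by
    intro m
    have hp : (0 : ℝ) < (1 / 2) ^ m := by positivity
    have h1 := (FF_tendsto h hU (hδ0 m) hre2 (hpsi m) hdeg).eventually (gt_mem_nhds hp)
    have h2 : ∀ᶠ ε : ℝ in 𝓝[>] 0, ε ≤ (1 / 2) ^ m := mem_nhdsWithin_of_mem_nhds (Iic_mem_nhds hp)
    obtain ⟨ε, ⟨h3, h4⟩, h5⟩ := ((h1.and h2).and self_mem_nhdsWithin).exists
    exact ⟨ε, h5, h4, h3.le⟩
  choose ε hε0 hεm hεF using hchoice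
  have hε1 : ∀ m, ε m ≤ 1 := fun m => (hεm m).trans (hpow1 m)
  refine ⟨fun m z => ga ρ U (ε m) (2 * C₁ * (1 / 2) ^ m) (Psi (δ m) z), fun m => ?_,
    fun m z hz => ?_, fun z hz => ?_, fun η hη hηs hηO => ?_⟩
  · refine smoothPsh_comp (ga_contDiff h hU (hε0 m) _) (fun z _ => hgood m z) (fun z hz v => ?_)
      fun z hz => ?_
    · rw [ga_fderiv]
      exact (hess _ (hε0 m) (hε1 m) _ v (hre2 z (ball_subset_closedBall hz))).1
    · rw [ga_fderiv]
      exact mol_dtau_nonneg h hU (hε0 m) _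
  · have hz' := ball_subset_closedBall hz
    have h1 := hle (ε (m + 1)) (Psi (δ (m + 1)) z) (hre2 z hz')
    have h2 := mol_ge h hU (ε m) (Psi (δ m) z)
    have h3 : (ε (m + 1)) ^ 2 ≤ (1 / 2) ^ m := by
      calc (ε (m + 1)) ^ 2 ≤ ((1 / 2) ^ (m + 1)) ^ 2 := by
            have := hεm (m + 1)
            have := (hε0 (m + 1)).le
            gcongr
        _ ≤ (1 / 2) ^ m := by
            rw [← pow_mul]
            exact pow_le_pow_of_le_one (by norm_num) (by norm_num) (by omega)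
    have h4 : C₁ * (ε (m + 1)) ^ 2 ≤ C₁ * (1 / 2) ^ m := by gcongr
    have h5 : ((1 : ℝ) / 2) ^ (m + 1) = (1 / 2) ^ m / 2 := by ring
    have h6 : U (Psi (δ (m + 1)) z) ≤ U (Psi (δ m) z) := by
      refine hU.mono _ _ ?_
      refine Real.log_le_log (hNpos _ z) ?_
      have : δ (m + 1) ≤ δ m := by
        have h7 : s (m + 1) ≤ s m := by
          simp only [hs]
          gcongr ?_ * ?_
          exact pow_le_pow_of_le_one (by norm_num) (by norm_num) (by omega)
        exact pow_le_pow_left₀ (hs0 _).le h7 4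
      linarith
    simp only [ga]
    rw [h5]
    linarith
  · have hz' := ball_subset_closedBall hz
    -- the limit
    have hUlim : Tendsto (fun m => U (Psi (δ m) z)) atTop (𝓝 (uu0 U z)) := by
      have hδlim : Tendsto δ atTop (𝓝 0) := by
        have := hslim.pow 4
        simpa using this
      unfold uu0
      by_cases hz0 : z.2.2 = 0
      · rw [if_pos hz0]
        have h1 : Tendsto (fun m => Real.log (δ m)) atTop atBot :=
          Real.tendsto_log_nhdsGT_zero.comp (tendsto_nhdsWithin_iff.2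
            ⟨hδlim, Eventually.of_forall hδ0⟩)
        have h2 := (hU.tendsto_bot z.1.re z.2.1.re).comp h1
        refine h2.congr fun m => ?_
        simp [Psi, psi, hz0]
      · rw [if_neg hz0]
        have hn : Complex.normSq z.2.2 + 0 ≠ 0 := by
          rw [add_zero]; exact (Complex.normSq_pos.2 hz0).ne'
        have h1 : Tendsto (fun m => psi (δ m) z.2.2) atTop (𝓝 (psi 0 z.2.2)) :=
          (Real.continuousAt_log hn).tendsto.comp (hδlim.const_add _)
        have h2 : Tendsto (fun m => Psi (δ m) z) atTop (𝓝 (Psi 0 z)) :=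
          tendsto_const_nhds.prodMk_nhds (tendsto_const_nhds.prodMk_nhds h1)
        exact (hU.continuous.tendsto _).comp h2
    have hp0 : Tendsto (fun m : ℕ => ((1 : ℝ) / 2) ^ m) atTop (𝓝 0) :=
      tendsto_pow_atTop_nhds_zero_of_lt_one (by norm_num) (by norm_num)
    have l2 : Tendsto (fun m : ℕ => U (Psi (δ m) z) + (C₁ * (1 / 2) ^ m + 2 * C₁ * (1 / 2) ^ m))
        atTop (𝓝 (uu0 U z + (C₁ * 0 + 2 * C₁ * 0))) :=
      hUlim.add ((hp0.const_mul _).add (hp0.const_mul _))
    simp only [mul_zero, add_zero] at l2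
    refine tendsto_of_tendsto_of_tendsto_of_le_of_le hUlim l2 (fun m => ?_) fun m => ?_
    · have := mol_ge h hU (ε m) (Psi (δ m) z)
      have h3 : 0 ≤ 2 * C₁ * (1 / 2) ^ m := by positivity
      simp only [ga]; linarith
    · have h1 := hle (ε m) (Psi (δ m) z) (hre2 z hz')
      have h3 : (ε m) ^ 2 ≤ (1 / 2) ^ m := by
        calc (ε m) ^ 2 ≤ ((1 / 2) ^ m) ^ 2 := by
              have := hεm m
              have := (hε0 m).le
              gcongr
          _ ≤ (1 / 2) ^ m := by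
              rw [← pow_mul]
              exact pow_le_pow_of_le_one (by norm_num) (by norm_num) (by omega)
      have h4 : C₁ * (ε m) ^ 2 ≤ C₁ * (1 / 2) ^ m := by gcongr
      simp only [ga]; linarith
  · -- the masses
    obtain ⟨Bη, hBη⟩ := hη.bounded_above_of_compact_support hηs
    have hB0 : 0 ≤ Bη := (norm_nonneg _).trans (hBη c)
    set K := closedBall c r with hK
    have hKfin : volume K ≠ ⊤ := (isCompact_closedBall _ _).measure_lt_top.ne
    set J : ℝ := (volume (closedBall c.1 r)).toReal * ((volume (closedBall c.2.1 r)).toReal *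
      ∫ ξ, kap 1 ξ) with hJ
    set Gm : ℕ → E → ℝ := fun m z =>
      Complex.normSq z.2.2 / (Complex.normSq z.2.2 + δ m) ^ 2 * hd (mol ρ U (ε m)) (Psi (δ m) z) +
        M * C₃ * (s m ^ 2 + kap (δ m) z.2.2 / |Real.log (2 * s m)|) with hGm
    have hform : ∀ m z, maDensity (fun z => ga ρ U (ε m) (2 * C₁ * (1 / 2) ^ m) (Psi (δ m) z)) z =
        1 / 16 * (Complex.normSq z.2.2 / (Complex.normSq z.2.2 + δ m) ^ 2 *
          hd (mol ρ U (ε m)) (Psi (δ m) z) + kap (δ m) z.2.2 *
            (fderiv ℝ (mol ρ U (ε m)) (Psi (δ m) z) (0, 0, 1) *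
              hd2 (mol ρ U (ε m)) (Psi (δ m) z))) := by
      intro m z
      rw [ma_comp (ga_contDiff h hU (hε0 m) _) (hgood m z), ga_hd, ga_hd2, ga_fderiv]
      rfl
    have hbound : ∀ m, ∀ z ∈ K,
        |maDensity (fun z => ga ρ U (ε m) (2 * C₁ * (1 / 2) ^ m) (Psi (δ m) z)) z| ≤ Gm m z := by
      intro m z hz
      rw [hform m z]
      obtain ⟨e1, e2, e3⟩ := hent _ (hε0 m) (hε1 m) (Psi (δ m) z) (hre2 z hz)
      have e4 := Complex.normSq_nonneg z.2.2
      have e5 : (Psi (δ m) z).2.2 < 0 := lt_of_le_of_lt (hpsi m z hz) (by linarith)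
      have e6 := hslope _ (hε0 m) (hε1 m) (Psi (δ m) z) (hre1 z hz) (hre2 z hz) e5
      have e7 := mol_dtau_nonneg h hU (hε0 m) (Psi (δ m) z)
      have e8 := kap_nonneg (hδ0 m).le z.2.2
      have e9 := kap_log (hs0 m) (hs1 m) e4 hT (hNle m z hz)
      have e10 : |kap (δ m) z.2.2 * (fderiv ℝ (mol ρ U (ε m)) (Psi (δ m) z) (0, 0, 1) *
              hd2 (mol ρ U (ε m)) (Psi (δ m) z))| ≤
          M * C₃ * (kap (δ m) z.2.2 / |(Psi (δ m) z).2.2|) := by
        rw [abs_mul, abs_mul, abs_of_nonneg e8, abs_of_nonneg e7]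
        calc kap (δ m) z.2.2 * (fderiv ℝ (mol ρ U (ε m)) (Psi (δ m) z) (0, 0, 1) *
              |hd2 (mol ρ U (ε m)) (Psi (δ m) z)|)
            ≤ kap (δ m) z.2.2 * (M / |(Psi (δ m) z).2.2| * C₃) := by gcongr
          _ = M * C₃ * (kap (δ m) z.2.2 / |(Psi (δ m) z).2.2|) := by ring
      have e11 : kap (δ m) z.2.2 / |(Psi (δ m) z).2.2| ≤
          s m ^ 2 + kap (δ m) z.2.2 / |Real.log (2 * s m)| := e9
      have e12 : M * C₃ * (kap (δ m) z.2.2 / |(Psi (δ m) z).2.2|) ≤
          M * C₃ * (s m ^ 2 + kap (δ m) z.2.2 / |Real.log (2 * s m)|) := by gcongr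
      have e13 : 0 ≤ Complex.normSq z.2.2 / (Complex.normSq z.2.2 + δ m) ^ 2 *
          hd (mol ρ U (ε m)) (Psi (δ m) z) := by positivity
      simp only [hGm]
      rw [abs_mul, abs_of_nonneg (by norm_num : (0 : ℝ) ≤ 1 / 16)]
      have e14 := abs_add_le (Complex.normSq z.2.2 / (Complex.normSq z.2.2 + δ m) ^ 2 *
          hd (mol ρ U (ε m)) (Psi (δ m) z)) (kap (δ m) z.2.2 *
            (fderiv ℝ (mol ρ U (ε m)) (Psi (δ m) z) (0, 0, 1) *
              hd2 (mol ρ U (ε m)) (Psi (δ m) z)))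
      rw [abs_of_nonneg e13] at e14
      have e15 := abs_nonneg (Complex.normSq z.2.2 / (Complex.normSq z.2.2 + δ m) ^ 2 *
          hd (mol ρ U (ε m)) (Psi (δ m) z) + kap (δ m) z.2.2 *
            (fderiv ℝ (mol ρ U (ε m)) (Psi (δ m) z) (0, 0, 1) *
              hd2 (mol ρ U (ε m)) (Psi (δ m) z)))
      linarith
    have i1 : ∀ m, IntegrableOn (fun z : E => Complex.normSq z.2.2 /
        (Complex.normSq z.2.2 + δ m) ^ 2 * hd (mol ρ U (ε m)) (Psi (δ m) z)) K := fun m =>
      ((continuous_weight (hδ0 m)).mul ((continuous_hd (mol_contDiff h hU.continuous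
        (hε0 m))).comp (continuous_Psi (hδ0 m)))).continuousOn.integrableOn_compact
          (isCompact_closedBall _ _)
    have i2 : ∀ m, IntegrableOn (fun z : E => kap (δ m) z.2.2) K := fun m =>
      ((continuous_kap (hδ0 m)).comp (continuous_snd.comp continuous_snd)).continuousOn
        |>.integrableOn_compact (isCompact_closedBall _ _)
    have i3 : ∀ m, IntegrableOn (fun z : E => M * C₃ * (s m ^ 2 +
        kap (δ m) z.2.2 / |Real.log (2 * s m)|)) K := fun m =>
      ((integrableOn_const hKfin).add ((i2 m).div_const _)).const_mul _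
    have i4 : ∀ m, IntegrableOn (fun _ : E => s m ^ 2) K := fun m => integrableOn_const hKfin
    have i5 : ∀ m, IntegrableOn (fun z : E => kap (δ m) z.2.2 / |Real.log (2 * s m)|) K :=
      fun m => (i2 m).div_const _
    have hGint : ∀ m, ∫ z in K, Gm m z ≤ (1 / 2) ^ m +
        M * C₃ * ((volume K).toReal * s m ^ 2 + J / |Real.log (2 * s m)|) := by
      intro m
      simp only [hGm]
      rw [integral_add (i1 m) (i3 m), integral_const_mul,
        integral_add (i4 m) (i5 m), integral_div,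
        setIntegral_const]
      have h1 : ∫ z in K, Complex.normSq z.2.2 / (Complex.normSq z.2.2 + δ m) ^ 2 *
        hd (mol ρ U (ε m)) (Psi (δ m) z) ≤ (1 / 2) ^ m := hεF m
      have h2 := kap_ball (hδ0 m) c r
      have h3 : (∫ z in K, kap (δ m) z.2.2) / |Real.log (2 * s m)| ≤ J / |Real.log (2 * s m)| :=
        div_le_div_of_nonneg_right h2 (abs_nonneg _)
      have h4 : 0 ≤ M * C₃ := by positivity
      have h5 : volume.real K • s m ^ 2 = (volume K).toReal * s m ^ 2 := rfl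
      rw [h5]
      gcongr
    -- the integrals of the densities
    have hmain : ∀ m, |∫ z, η z * maDensity (fun z => ga ρ U (ε m) (2 * C₁ * (1 / 2) ^ m)
        (Psi (δ m) z)) z| ≤ Bη * ((1 / 2) ^ m +
        M * C₃ * ((volume K).toReal * s m ^ 2 + J / |Real.log (2 * s m)|)) := by
      intro m
      have hi : Integrable (K.indicator (fun z => Bη * Gm m z)) :=
        (integrable_indicator_iff measurableSet_closedBall).2 (((i1 m).add (i3 m)).const_mul Bη)
      rw [← Real.norm_eq_abs]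
      refine (norm_integral_le_of_norm_le hi (Eventually.of_forall fun z => ?_)).trans ?_
      · by_cases hz : z ∈ tsupport η
        · have hzK : z ∈ K := ball_subset_closedBall (hηO hz)
          rw [indicator_of_mem hzK, norm_mul]
          have h1 := hbound m z hzK
          rw [← Real.norm_eq_abs] at h1
          have h2 := hBη z
          gcongr
        · rw [image_eq_zero_of_notMem_tsupport hz, zero_mul, norm_zero]
          by_cases hzK : z ∈ K
          · rw [indicator_of_mem hzK]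
            exact mul_nonneg hB0 ((abs_nonneg _).trans (hbound m z hzK))
          · rw [indicator_of_notMem hzK]
      · rw [integral_indicator measurableSet_closedBall, integral_const_mul]
        exact mul_le_mul_of_nonneg_left (hGint m) hB0
    have hloglim : Tendsto (fun m => |Real.log (2 * s m)|) atTop atTop := by
      have h1 : Tendsto (fun m => 2 * s m) atTop (𝓝[>] 0) := by
        refine tendsto_nhdsWithin_iff.2 ⟨?_, Eventually.of_forall fun m => ?_⟩
        · have := hslim.const_mul 2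
          rwa [mul_zero] at this
        · exact mul_pos two_pos (hs0 m)
      exact tendsto_abs_atBot_atTop.comp (Real.tendsto_log_nhdsGT_zero.comp h1)
    have hp0 : Tendsto (fun m : ℕ => ((1 : ℝ) / 2) ^ m) atTop (𝓝 0) :=
      tendsto_pow_atTop_nhds_zero_of_lt_one (by norm_num) (by norm_num)
    have hlim : Tendsto (fun m => Bη * ((1 / 2) ^ m +
        M * C₃ * ((volume K).toReal * s m ^ 2 + J / |Real.log (2 * s m)|))) atTop
        (𝓝 (Bη * (0 + M * C₃ * ((volume K).toReal * 0 ^ 2 + 0)))) :=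
      (hp0.add ((((hslim.pow 2).const_mul _).add (hloglim.const_div_atTop J)).const_mul _)).const_mul _
    simp only [ne_eq, OfNat.ofNat_ne_zero, not_false_eq_true, zero_pow, mul_zero, add_zero] at hlim
    simp only [mul_zero, integral_zero]
    exact squeeze_zero_norm (fun m => by rw [Real.norm_eq_abs]; exact hmain m) hlim

end Pool.Agent.H220.C6
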