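import Mathlib

set_option autoImplicit false

open Filter Metric Set Topology MeasureTheory
open scoped ContDiff Convolution

namespace Pool.Agent.H220.C6

section

variable {G : Type*} [NormedAddCommGroup G] [NormedSpace ℝ G]

lemma fderiv_fderiv_apply {f : G → ℝ} (hf : ContDiff ℝ ∞ f) (p a b : G) :
    fderiv ℝ (fun q => fderiv ℝ f q b) p a = fderiv ℝ (fderiv ℝ f) p a b := by
  have h1 : ContDiff ℝ 1 (fderiv ℝ f) := hf.fderiv_right (m := 1) (by norm_cast)
  have h2 : DifferentiableAt ℝ (fderiv ℝ f) p := h1.differentiable one_ne_zero p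
  have h3 := (h2.hasFDerivAt.clm_apply (hasFDerivAt_const b p)).fderiv
  rw [h3]
  simp

lemma contDiff_fderiv_apply {f : G → ℝ} (hf : ContDiff ℝ ∞ f) (b : G) :
    ContDiff ℝ ∞ (fun q => fderiv ℝ f q b) :=
  (hf.fderiv_right (m := ∞) (by norm_cast)).clm_apply contDiff_const

lemma compact_fderiv_apply {f : G → ℝ} (hf : HasCompactSupport f) (b : G) :
    HasCompactSupport (fun q => fderiv ℝ f q b) := by
  have h1 : HasCompactSupport (fderiv ℝ f) := hf.fderiv ℝ
  refine h1.mono fun t ht => ?_
  rw [Function.mem_support] at ht ⊢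
  intro h0
  exact ht (by rw [h0]; rfl)

variable [FiniteDimensional ℝ G]
  [MeasurableSpace G] [BorelSpace G] {μ : Measure G} [μ.IsAddHaarMeasure]

lemma conv_contDiff {k U : G → ℝ} (hkc : HasCompactSupport k) (hks : ContDiff ℝ ∞ k)
    (hU : Continuous U) : ContDiff ℝ ∞ (fun p => ∫ t, k t * U (p - t) ∂μ) := by
  have e0 : (fun p => ∫ t, k t * U (p - t) ∂μ) =
      (k ⋆[ContinuousLinearMap.lsmul ℝ ℝ, μ] U) := by
    ext x
    simp [convolution_def]
  rw [e0]
  exact hkc.contDiff_convolution_left _ hks hU.locallyIntegrable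

lemma conv_first {k U : G → ℝ} (hkc : HasCompactSupport k) (hks : ContDiff ℝ ∞ k)
    (hU : Continuous U) (p b : G) :
    fderiv ℝ (fun p => ∫ t, k t * U (p - t) ∂μ) p b = ∫ t, fderiv ℝ k t b * U (p - t) ∂μ := by
  have hUl : LocallyIntegrable U μ := hU.locallyIntegrable
  have e0 : (fun p => ∫ t, k t * U (p - t) ∂μ) =
      (k ⋆[ContinuousLinearMap.lsmul ℝ ℝ, μ] U) := by
    ext x
    simp [convolution_def]
  have e1 := (hkc.hasFDerivAt_convolution_left (ContinuousLinearMap.lsmul ℝ ℝ)
    (hks.of_le (by norm_num)) hUl p).fderiv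
  rw [e0, e1, convolution_def]
  have e3 : (fun t => (ContinuousLinearMap.precompL G (ContinuousLinearMap.lsmul ℝ ℝ))
      (fderiv ℝ k t) (U (p - t))) = fun t => U (p - t) • fderiv ℝ k t := by
    ext t x
    simp only [ContinuousLinearMap.precompL_apply, ContinuousLinearMap.lsmul_apply,
      smul_apply, smul_eq_mul]
    ring
  rw [e3]
  have c1 : Continuous (fderiv ℝ k) := hks.continuous_fderiv (by norm_num)
  have hcont : Continuous fun t => U (p - t) • fderiv ℝ k t := by fun_prop
  have hcs2 : HasCompactSupport (fderiv ℝ k) := hkc.fderiv ℝ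
  have hcs : HasCompactSupport fun t => U (p - t) • fderiv ℝ k t := by
    refine hcs2.mono fun t ht => ?_
    rw [Function.mem_support] at ht ⊢
    intro h0
    exact ht (by rw [h0, smul_zero])
  have hint : Integrable (fun t => U (p - t) • fderiv ℝ k t) μ :=
    hcont.integrable_of_hasCompactSupport hcs
  rw [ContinuousLinearMap.integral_apply hint]
  congr 1
  ext t
  simp only [smul_apply, smul_eq_mul]
  ring

/-- the second derivative of a convolution, with both derivatives on the kernel -/
lemma conv_second {k U : G → ℝ} (hkc : HasCompactSupport k) (hks : ContDiff ℝ ∞ k)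
    (hU : Continuous U) (p a b : G) :
    fderiv ℝ (fderiv ℝ (fun p => ∫ t, k t * U (p - t) ∂μ)) p a b =
      ∫ t, fderiv ℝ (fderiv ℝ k) t a b * U (p - t) ∂μ := by
  rw [← fderiv_fderiv_apply (conv_contDiff hkc hks hU)]
  have e : (fun q => fderiv ℝ (fun p => ∫ t, k t * U (p - t) ∂μ) q b) =
      fun q => ∫ t, fderiv ℝ k t b * U (q - t) ∂μ :=
    funext fun q => conv_first hkc hks hU q b
  rw [e, conv_first (compact_fderiv_apply hkc b) (contDiff_fderiv_apply hks b) hU]
  congr 1
  ext t
  rw [fderiv_fderiv_apply hks]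

end

end Pool.Agent.H220.C6
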