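import Mathlib

/-!
# Degenerate complex Monge–Ampère equations on compact Kähler threefolds: definitions
-/

set_option autoImplicit false

open Filter Metric Set Topology MeasureTheory
open scoped Manifold ContDiff

namespace Pool.Agent.H220.C6

/-- The model space of the complex manifolds of dimension three. -/
abbrev E : Type := ℂ × ℂ × ℂ

section Manifold

variable {X : Type} [TopologicalSpace X] [ChartedSpace E X]

/-- `f` is a holomorphic map from the disc `|ζ| < r` into the subset `S` of `X`. -/
def IsHolDisc (S : Set X) (r : ℝ) (f : ℂ → X) : Prop :=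
  ContMDiffOn 𝓘(ℂ, ℂ) 𝓘(ℂ, E) ω f (ball 0 r) ∧ MapsTo f (ball 0 r) S

variable (X) in
/-- A smooth closed real `(1,1)`-form on `X`, given by its local potentials: `X` is covered by open
sets `V j` with smooth real functions `pot j` on `V j`, the differences `pot j - pot k` are
pluriharmonic on `V j ∩ V k` (that is, harmonic along all holomorphic discs), and the form is
`dd^c (pot j)` on `V j`. -/
structure ClosedForm where
  J : Type
  V : J → Set X
  pot : J → X → ℝ
  isOpen_V : ∀ j, IsOpen (V j)
  cover : ∀ x, ∃ j, x ∈ V j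
  smooth : ∀ j, ContMDiffOn 𝓘(ℝ, E) 𝓘(ℝ, ℝ) ∞ (pot j) (V j)
  pluriharmonic : ∀ (j k : J) (r : ℝ) (f : ℂ → X), 0 < r → IsHolDisc (V j ∩ V k) r f →
    InnerProductSpace.HarmonicAt (fun ζ => pot j (f ζ) - pot k (f ζ)) 0

/-- The form is semipositive: for every holomorphic disc `f` its value on the tangent vector of `f`
at `0`, which is up to a positive factor the Laplacian at `0` of a local potential along `f`, is
nonnegative. -/
def ClosedForm.IsSemipositive (θ : ClosedForm X) : Prop :=
  ∀ (j : θ.J) (r : ℝ) (f : ℂ → X), 0 < r → IsHolDisc (θ.V j) r f →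
    0 ≤ Laplacian.laplacian (fun ζ => θ.pot j (f ζ)) 0

/-- The form is positive definite at the point `x`: it is positive on the tangent vectors at `0` of
all holomorphic discs `f` with `f 0 = x` and `f' 0 ≠ 0`. -/
def ClosedForm.IsPositiveAt (θ : ClosedForm X) (x : X) : Prop :=
  ∀ (j : θ.J) (r : ℝ) (f : ℂ → X), 0 < r → IsHolDisc (θ.V j) r f → f 0 = x →
    mfderiv 𝓘(ℂ, ℂ) 𝓘(ℂ, E) f 0 ≠ 0 → 0 < Laplacian.laplacian (fun ζ => θ.pot j (f ζ)) 0

/-- The form is a Kähler form. -/
def ClosedForm.IsKahler (κ : ClosedForm X) : Prop := ∀ x, κ.IsPositiveAt x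

/-- A semipositive form `θ` on the compact manifold `X` is big, `∫_X θ³ > 0`, if and only if the
continuous nonnegative form `θ³` is not identically zero, that is, if and only if `θ` is positive
definite at some point. -/
def ClosedForm.IsBig (θ : ClosedForm X) : Prop := ∃ x, θ.IsPositiveAt x

/-- The real function `u` is plurisubharmonic on the open set `S`: it is upper semicontinuous and
for every holomorphic map `f` from a neighbourhood of the closed unit disc into `S`, the value
`u (f 0)` is at most the average of `u ∘ f` over the unit circle, that is, at most the average of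
every continuous function `g ≥ u ∘ f`. -/
def IsPshOn (S : Set X) (u : X → ℝ) : Prop :=
  UpperSemicontinuousOn u S ∧
  ∀ (r : ℝ) (f : ℂ → X), 1 < r → IsHolDisc S r f → ∀ g : ℂ → ℝ, Continuous g →
    (∀ ζ : ℂ, ‖ζ‖ = 1 → u (f ζ) ≤ g ζ) → u (f 0) ≤ Real.circleAverage g 0 1

/-- The real function `φ` on `X` is `θ`-plurisubharmonic: for every local potential `pot j` of `θ`
the function `φ + pot j` is plurisubharmonic. -/
def ClosedForm.IsPsh (θ : ClosedForm X) (φ : X → ℝ) : Prop :=
  ∀ j, IsPshOn (θ.V j) (fun x => φ x + θ.pot j x)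

end Manifold

/-- The standard basis of `ℂ³`. -/
def bas : Fin 3 → E := ![(1, 0, 0), (0, 1, 0), (0, 0, 1)]

/-- The complex Hessian `(∂² v / ∂z_j ∂z̄_k)` of the real function `v` on `ℂ³` at the point `p`:
its entries are `(v_{x_j x_k} + v_{y_j y_k} + i (v_{x_j y_k} - v_{y_j x_k})) / 4`. -/
noncomputable def complexHessian (v : E → ℝ) (p : E) : Matrix (Fin 3) (Fin 3) ℂ := fun j k =>
  (((fderiv ℝ (fderiv ℝ v) p (bas j) (bas k) +
      fderiv ℝ (fderiv ℝ v) p (Complex.I • bas j) (Complex.I • bas k) : ℝ) : ℂ) +
    Complex.I * ((fderiv ℝ (fderiv ℝ v) p (bas j) (Complex.I • bas k) -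
      fderiv ℝ (fderiv ℝ v) p (Complex.I • bas j) (bas k) : ℝ) : ℂ)) / 4

/-- The determinant of the complex Hessian (a real number, as the matrix is Hermitian for smooth
`v`). For smooth `v` the form `(dd^c v)³` is `maDensity v` times a universal constant times the
Lebesgue measure of `ℂ³`. -/
noncomputable def maDensity (v : E → ℝ) (p : E) : ℝ := (complexHessian v p).det.re

/-- `v` is smooth and plurisubharmonic on the open subset `O` of `ℂ³`: its Levi form is
nonnegative. -/
def IsSmoothPsh (v : E → ℝ) (O : Set E) : Prop :=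
  ContDiffOn ℝ ∞ v O ∧ ∀ p ∈ O, ∀ a : E,
    0 ≤ fderiv ℝ (fderiv ℝ v) p a a +
      fderiv ℝ (fderiv ℝ v) p (Complex.I • a) (Complex.I • a)

section Manifold

variable {X : Type} [TopologicalSpace X] [ChartedSpace E X]

/-- The bounded `θ`-psh function `φ` solves the Monge–Ampère equation `(θ + dd^c φ)³ = f κ³` in the
sense of Bedford and Taylor: every point has a holomorphic coordinate chart `e` (with local
potentials of `θ` and `κ` on its domain) in which the plurisubharmonic function `u = φ + pot` is the
limit of a decreasing sequence of smooth plurisubharmonic functions `v m` such that the measures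
`(dd^c v m)³` converge weakly to `f κ³`. (By the theorem of Bedford and Taylor the weak limit is
`(dd^c u)³` for every decreasing sequence, so it is the same to ask this for one or for all
sequences and charts.) -/
def SolvesMA (θ κ : ClosedForm X) (φ f : X → ℝ) : Prop :=
  ∀ x : X, ∃ (e : OpenPartialHomeomorph X E) (j : θ.J) (k : κ.J) (v : ℕ → E → ℝ),
    e ∈ IsManifold.maximalAtlas 𝓘(ℂ, E) ω X ∧ x ∈ e.source ∧
    e.source ⊆ θ.V j ∧ e.source ⊆ κ.V k ∧
    (∀ m, IsSmoothPsh (v m) e.target) ∧
    (∀ m, ∀ z ∈ e.target, v (m + 1) z ≤ v m z) ∧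
    (∀ z ∈ e.target,
      Tendsto (fun m => v m z) atTop (𝓝 (φ (e.symm z) + θ.pot j (e.symm z)))) ∧
    ∀ η : E → ℝ, Continuous η → HasCompactSupport η → tsupport η ⊆ e.target →
      Tendsto (fun m => ∫ z, η z * maDensity (v m) z) atTop
        (𝓝 (∫ z, η z * (f (e.symm z) * maDensity (fun w => κ.pot k (e.symm w)) z)))

/-- The function `φ` on the compact manifold `X` is Hölder continuous: for some `α > 0` every point
has a neighbourhood on which `φ` is Hölder continuous with exponent `α` with respect to the
distance in some coordinate chart. (As `X` is compact this is equivalent to Hölder continuity on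
`X` for any Riemannian distance.) -/
def IsHolder (φ : X → ℝ) : Prop :=
  ∃ α : ℝ, 0 < α ∧ ∀ x : X, ∃ e ∈ IsManifold.maximalAtlas 𝓘(ℂ, E) ω X, x ∈ e.source ∧
    ∃ (C : ℝ), ∃ W ∈ 𝓝 x, W ⊆ e.source ∧
      ∀ y ∈ W, ∀ y' ∈ W, |φ y - φ y'| ≤ C * ‖e y - e y'‖ ^ α

end Manifold

end Pool.Agent.H220.C6
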