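import Pool.Agent.H220.C6.Surf2

/-!
# The threefold is a compact connected Hausdorff space
-/

set_option autoImplicit false
set_option linter.style.haveILetI false

open Filter Metric Set Topology
open scoped Manifold ContDiff Real

namespace Pool.Agent.H220.C6

/-- points of the fibre coordinate in `N` over a small neighbourhood of the base point of `z` -/
def box (z : E) (N : Set ℂ) : Set E :=
  {t | t.1 ∈ ball z.1 (1 / 4) ∧ t.2.1 ∈ ball z.2.1 (1 / 4) ∧ t.2.2 ∈ N}

lemma isOpen_box (z : E) {N : Set ℂ} (hN : IsOpen N) : IsOpen (box z N) :=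
  (isOpen_ball.preimage continuous_fst).inter
    ((isOpen_ball.preimage (continuous_fst.comp continuous_snd)).inter
      (hN.preimage (continuous_snd.comp continuous_snd)))

lemma mem_box {z z' : E} {N : Set ℂ} (h1 : z'.1 = z.1) (h2 : z'.2.1 = z.2.1) (h3 : z'.2.2 ∈ N) :
    z' ∈ box z N :=
  ⟨by rw [h1]; exact mem_ball_self (by norm_num), by rw [h2]; exact mem_ball_self (by norm_num), h3⟩

lemma box_close {z t t' : E} {N N' : Set ℂ} (ht : t ∈ box z N) (ht' : t' ∈ box z N') :
    ‖t'.1 - t.1‖ < 1 ∧ ‖t'.2.1 - t.2.1‖ < 1 := by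
  obtain ⟨h1, h2, -⟩ := ht
  obtain ⟨h1', h2', -⟩ := ht'
  rw [mem_ball, dist_eq_norm] at h1 h2 h1' h2'
  constructor
  · have e : t'.1 - t.1 = (t'.1 - z.1) - (t.1 - z.1) := by abel
    rw [e]
    have := norm_sub_le (t'.1 - z.1) (t.1 - z.1)
    linarith
  · have e : t'.2.1 - t.2.1 = (t'.2.1 - z.2.1) - (t.2.1 - z.2.1) := by abel
    rw [e]
    have := norm_sub_le (t'.2.1 - z.2.1) (t.2.1 - z.2.1)
    linarith

lemma sep_same (i : Bool) {z z' : E} (h1 : z'.1 = z.1) (h2 : z'.2.1 = z.2.1)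
    (h3 : z.2.2 ≠ z'.2.2) :
    ∃ u v : Set X3, IsOpen u ∧ IsOpen v ∧ kp i z ∈ u ∧ kp i z' ∈ v ∧ Disjoint u v := by
  obtain ⟨N, N', hN, hN', hz, hz', hd⟩ := t2_separation h3
  refine ⟨kp i '' box z N, kp i '' box z N', isOpenMap_kp i _ (isOpen_box z hN),
    isOpenMap_kp i _ (isOpen_box z hN'), mem_image_of_mem _ (mem_box rfl rfl hz),
    mem_image_of_mem _ (mem_box h1 h2 hz'), ?_⟩
  rw [Set.disjoint_left]
  rintro s ⟨t, ht, rfl⟩ ⟨t', ht', hs⟩
  obtain ⟨a, b, m, n, rfl⟩ := eq_dk hs.symm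
  have hc := box_close ht ht'
  have he := dk_close hc.1 hc.2
  rw [he] at ht'
  exact Set.disjoint_left.1 hd ht.2.2 ht'.2.2

lemma sep_base (i j : Bool) {z z' : E} (h1 : z'.1 = z.1) (h2 : z'.2.1 = z.2.1)
    (hne : kp i z ≠ kp j z') :
    ∃ u v : Set X3, IsOpen u ∧ IsOpen v ∧ kp i z ∈ u ∧ kp j z' ∈ v ∧ Disjoint u v := by
  by_cases hij : j = i
  · subst hij
    exact sep_same j h1 h2 fun h => hne (by rw [Prod.ext h1.symm (Prod.ext h2.symm h)])
  · have hij' : j = !i := by cases i <;> cases j <;> simp_all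
    subst hij'
    by_cases hz : z.2.2 = 0
    · by_cases hz' : z'.2.2 = 0
      · refine ⟨kp i '' box z (ball 0 1), kp (!i) '' box z (ball 0 1),
          isOpenMap_kp i _ (isOpen_box z isOpen_ball), isOpenMap_kp _ _ (isOpen_box z isOpen_ball),
          mem_image_of_mem _ (mem_box rfl rfl (by rw [hz]; exact mem_ball_self one_pos)),
          mem_image_of_mem _ (mem_box h1 h2 (by rw [hz']; exact mem_ball_self one_pos)), ?_⟩
        rw [Set.disjoint_left]
        rintro s ⟨t, ht, rfl⟩ ⟨t', ht', hs⟩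
        obtain ⟨h0, a, b, m, n, rfl⟩ := eq_iv hs.symm
        have hc := box_close ht ht'
        have he : dk i a b m n t = t := dk_close hc.1 hc.2
        rw [he] at ht'
        have h5 := ht.2.2
        have h6 : ‖(iv t).2.2‖ < 1 := by
          have := ht'.2.2
          rwa [mem_ball_zero_iff] at this
        rw [mem_ball_zero_iff] at h5
        have h7 : (iv t).2.2 = t.2.2⁻¹ := rfl
        rw [h7, norm_inv] at h6
        have h8 : 1 < ‖t.2.2‖⁻¹ := (one_lt_inv₀ (norm_pos_iff.2 h0)).2 h5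
        linarith
      · have h4 : kp i (iv z') = kp (!i) z' := by
          have := kp_iv (!i) hz'
          rwa [Bool.not_not] at this
        rw [← h4] at hne ⊢
        refine sep_same i (z' := iv z') h1 h2 fun h => hne ?_
        rw [show z = iv z' from Prod.ext h1.symm (Prod.ext h2.symm h)]
    · rw [← kp_iv i hz] at hne ⊢
      exact sep_same (!i) (z := iv z) h1 h2 fun h => hne (by
        rw [show iv z = z' from Prod.ext h1.symm (Prod.ext h2.symm h)])

instance : T2Space X3 := by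
  refine ⟨fun s s' hne => ?_⟩
  by_cases hb : s.b = s'.b
  · obtain ⟨i, z, rfl⟩ := kp_surj s
    obtain ⟨j, z', rfl⟩ := kp_surj s'
    rw [b_kp, b_kp] at hb
    obtain ⟨a, b, m, n, h1, h2⟩ := pr_eq.1 hb
    have h3 : kp j (dk j (-a) (-b) (-m) (-n) z') = kp j z' := kp_dk _ _ _ _ _ _
    rw [← h3] at hne ⊢
    refine sep_base i j ?_ ?_ hne
    · simp only [dk, h1]
      push_cast
      ring
    · simp only [dk, h2]
      push_cast
      ring
  · obtain ⟨u, v, hu, hv, h1, h2, hd⟩ := t2_separation hb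
    exact ⟨X3.b ⁻¹' u, X3.b ⁻¹' v, hu.preimage continuous_b, hv.preimage continuous_b, h1, h2,
      hd.preimage _⟩

/-- representatives in a compact set -/
lemma kp_bdd (s : X3) : ∃ i z, ‖z‖ ≤ 2 ∧ ‖z.2.2‖ ≤ 1 ∧ kp i z = s := by
  obtain ⟨i, z, rfl⟩ := kp_surj s
  set z' := dk i (-⌊z.1.re⌋) (-⌊z.1.im⌋) (-⌊z.2.1.re⌋) (-⌊z.2.1.im⌋) z with hz'
  have hk : kp i z' = kp i z := kp_dk _ _ _ _ _ _
  have hfl : ∀ w : ℂ, ‖w + (((-⌊w.re⌋ : ℤ) : ℂ) + ((-⌊w.im⌋ : ℤ) : ℂ) * Complex.I)‖ ≤ 2 := by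
    intro w
    refine (Complex.norm_le_abs_re_add_abs_im _).trans ?_
    have e1 : (w + (((-⌊w.re⌋ : ℤ) : ℂ) + ((-⌊w.im⌋ : ℤ) : ℂ) * Complex.I)).re =
        Int.fract w.re := by
      rw [Int.fract]; simp [-Int.self_sub_floor]; ring
    have e2 : (w + (((-⌊w.re⌋ : ℤ) : ℂ) + ((-⌊w.im⌋ : ℤ) : ℂ) * Complex.I)).im =
        Int.fract w.im := by
      rw [Int.fract]; simp [-Int.self_sub_floor]; ring
    rw [e1, e2, abs_of_nonneg (Int.fract_nonneg _), abs_of_nonneg (Int.fract_nonneg _)]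
    have := Int.fract_lt_one w.re
    have := Int.fract_lt_one w.im
    linarith
  have h1 : ‖z'.1‖ ≤ 2 := hfl z.1
  have h2 : ‖z'.2.1‖ ≤ 2 := hfl z.2.1
  by_cases h3 : ‖z'.2.2‖ ≤ 1
  · exact ⟨i, z', max_le h1 (max_le h2 (by linarith)), h3, hk⟩
  · push Not at h3
    have h0 : z'.2.2 ≠ 0 := by
      intro h; rw [h, norm_zero] at h3; linarith
    have h4 : ‖(iv z').2.2‖ ≤ 1 := by
      change ‖z'.2.2⁻¹‖ ≤ 1
      rw [norm_inv]
      exact inv_le_one_of_one_le₀ h3.le
    exact ⟨!i, iv z', max_le h1 (max_le h2 (by linarith)), h4, (kp_iv i h0).trans hk⟩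

instance : CompactSpace X3 := by
  refine ⟨?_⟩
  have h1 : (univ : Set X3) = kp false '' closedBall 0 2 ∪ kp true '' closedBall 0 2 := by
    refine (eq_univ_of_forall fun s => ?_).symm
    obtain ⟨i, z, hz, -, rfl⟩ := kp_bdd s
    have hz' : z ∈ closedBall (0 : E) 2 := mem_closedBall_zero_iff.2 hz
    cases i with
    | false => exact Or.inl (mem_image_of_mem _ hz')
    | true => exact Or.inr (mem_image_of_mem _ hz')
  rw [h1]
  exact ((isCompact_closedBall 0 2).image (continuous_kp false)).union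
    ((isCompact_closedBall 0 2).image (continuous_kp true))

instance : ConnectedSpace X3 := by
  have h1 : (univ : Set X3) = range (kp false) ∪ range (kp true) := by
    refine (eq_univ_of_forall fun s => ?_).symm
    obtain ⟨i, z, rfl⟩ := kp_surj s
    cases i with
    | false => exact Or.inl (mem_range_self _)
    | true => exact Or.inr (mem_range_self _)
  have h2 : kp true (0, 0, 1) = kp false (0, 0, 1) := by
    have := kp_iv false (z := ((0, 0, 1) : E)) one_ne_zero
    simpa [iv] using this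
  have hp : IsPreconnected (univ : Set X3) := by
    rw [h1]
    exact IsPreconnected.union (kp false (0, 0, 1)) (mem_range_self _) ⟨_, h2⟩
      (isPreconnected_range (continuous_kp false)) (isPreconnected_range (continuous_kp true))
  exact { toPreconnectedSpace := ⟨hp⟩, toNonempty := ⟨kp false 0⟩ }

/-- functions on the threefold are given by functions in the coordinates -/
lemma descend {Y : Type*} (F : Bool → E → Y) (h1 : ∀ i a b m n z, F i (dk i a b m n z) = F i z)
    (h2 : ∀ i z, z.2.2 ≠ 0 → F (!i) (iv z) = F i z) :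
    ∃ f : X3 → Y, ∀ i z, f (kp i z) = F i z := by
  choose i z h using kp_surj
  refine ⟨fun s => F (i s) (z s), fun j w => ?_⟩
  have h3 := h (kp j w)
  set s := kp j w
  by_cases hij : j = i s
  · obtain ⟨a, b, m, n, h4⟩ := eq_dk (i := j) (h3.symm.trans (by rw [← hij] : kp (i s) (z s) =
      kp j (z s)))
    change F (i s) (z s) = F j w
    rw [← hij, h4, h1]
  · have hij' : i s = !j := by cases hj : j <;> cases hs : i s <;> simp_all
    rw [hij'] at h3
    obtain ⟨h0, a, b, m, n, h4⟩ := eq_iv (i := j) h3.symm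
    change F (i s) (z s) = F j w
    rw [hij', h4, h2 j _ (dk_third_ne h0), h1]

end Pool.Agent.H220.C6
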