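import Pool.Agent.H220.C6.Pot
import Pool.Agent.H220.C6.Surf3
import Pool.Graph.R_pool_sql_team_seeded_620a6dc7.Y810.SP.J_stLev

/-!
# The two forms on the threefold
-/

set_option autoImplicit false
set_option linter.style.haveILetI false

open Filter Metric Set Topology
open scoped Manifold ContDiff Real

namespace Pool.Agent.H220.C6

lemma lg_eq (i : Bool) (z : E) : lg i z = cn i * (2 * π * z.2.1.re ^ 2) +
    Real.log (1 + Complex.normSq z.2.2 * Real.exp (sn i * (2 * π * z.2.1.re ^ 2))) := by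
  have h := PP_eq 0 0 i z
  simp only [PP, ell, zero_mul, sub_zero, add_zero] at h
  linarith

lemma normSq_exp (w : ℂ) : Complex.normSq (Complex.exp w) = Real.exp (2 * w.re) := by
  rw [Complex.normSq_eq_norm_sq, Complex.norm_exp, ← Real.exp_nat_mul]
  norm_num

lemma au_re (m : ℤ) (w : ℂ) : (au m w).re = 2 * π * m * w.re + π * m ^ 2 := by
  have h1 : (au m w) = ((2 * π * m : ℝ) : ℂ) * w + ((π * m ^ 2 : ℝ) : ℂ) := by
    rw [au]; push_cast; ring
  rw [h1, Complex.add_re, Complex.re_ofReal_mul, Complex.ofReal_re]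

lemma normSq_dk (i : Bool) (a b m n : ℤ) (z : E) : Complex.normSq (dk i a b m n z).2.2 =
    Complex.normSq z.2.2 * Real.exp (-(sn i * (4 * π * m * z.2.1.re + 2 * π * m ^ 2))) := by
  simp only [dk, map_mul, normSq_exp]
  congr 2
  cases i with
  | false => simp only [sg, sn, neg_mul, one_mul, Complex.neg_re, au_re]; ring
  | true => simp only [sg, sn, one_mul, au_re]; ring

lemma re1_dk (i : Bool) (a b m n : ℤ) (z : E) : (dk i a b m n z).1.re = z.1.re + a := by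
  simp [dk]

lemma re2_dk (i : Bool) (a b m n : ℤ) (z : E) : (dk i a b m n z).2.1.re = z.2.1.re + m := by
  simp [dk]

lemma lg_dk (i : Bool) (a b m n : ℤ) (z : E) : lg i (dk i a b m n z) =
    lg i z + cn i * (4 * π * m * z.2.1.re + 2 * π * m ^ 2) := by
  rw [lg_eq, lg_eq, normSq_dk, re2_dk, mul_assoc (Complex.normSq z.2.2), ← Real.exp_add]
  have h1 : -(sn i * (4 * π * m * z.2.1.re + 2 * π * m ^ 2)) +
      sn i * (2 * π * (z.2.1.re + m) ^ 2) = sn i * (2 * π * z.2.1.re ^ 2) := by ring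
  rw [h1]
  ring

lemma PP_dk (a' ε : ℝ) (i : Bool) (a b m n : ℤ) : ∃ c₁ c₂ c₀ : ℝ, ∀ z : E,
    PP a' ε i (dk i a b m n z) = PP a' ε i z + (c₁ * z.1.re + c₂ * z.2.1.re + c₀) := by
  refine ⟨2 * (a - a' * m), -(2 * a' * (a - a' * m)) + 2 * ε * m + cn i * (4 * π * m),
    (a - a' * m) ^ 2 + ε * m ^ 2 + cn i * (2 * π * m ^ 2), fun z => ?_⟩
  simp only [PP, lg_dk, re1_dk, re2_dk, ell]
  ring

lemma lg_iv (i : Bool) {z : E} (hz : z.2.2 ≠ 0) :
    lg (!i) (iv z) = lg i z - Real.log (Complex.normSq z.2.2) := by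
  have h0 : 0 < Complex.normSq z.2.2 := Complex.normSq_pos.2 hz
  have hexp := Real.exp_pos (qq z.2.1.re)
  cases i with
  | false =>
    simp only [lg, iv, Bool.not_false, Complex.normSq_inv]
    rw [← Real.log_div (by positivity) h0.ne']
    congr 1
    field_simp
  | true =>
    simp only [lg, iv, Bool.not_true, Complex.normSq_inv]
    rw [← Real.log_div (by positivity) h0.ne']
    congr 1
    field_simp

lemma PP_iv (a' ε : ℝ) (i : Bool) {z : E} (hz : z.2.2 ≠ 0) :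
    PP a' ε (!i) (iv z) = PP a' ε i z - Real.log (Complex.normSq z.2.2) := by
  simp only [PP, lg_iv i hz]
  simp only [iv]
  ring

open InnerProductSpace in
lemma harmonic_aff {γ : ℂ → E} (hγ : AnalyticAt ℂ γ 0) (c₁ c₂ c₀ : ℝ) :
    HarmonicAt (fun ζ => c₁ * (γ ζ).1.re + c₂ * (γ ζ).2.1.re + c₀) 0 := by
  have h1 : AnalyticAt ℂ (fun ζ => (γ ζ).1) 0 := analyticAt_fst.comp hγ
  have h0 : AnalyticAt ℂ (fun ζ => (γ ζ).2) 0 := analyticAt_snd.comp hγ
  have h2 : AnalyticAt ℂ (fun ζ => (γ ζ).2.1) 0 :=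
    AnalyticAt.comp (g := fun p : ℂ × ℂ => p.1) (f := fun ζ => (γ ζ).2) analyticAt_fst h0
  have h3 := (h1.harmonicAt_re).const_smul (c := c₁)
  have h4 := (h2.harmonicAt_re).const_smul (c := c₂)
  exact (h3.add h4).add (harmonicAt_const c₀)

open InnerProductSpace in
lemma harmonic_log {γ : ℂ → E} (hγ : AnalyticAt ℂ γ 0) (h0 : (γ 0).2.2 ≠ 0) :
    HarmonicAt (fun ζ => Real.log (Complex.normSq (γ ζ).2.2)) 0 := by
  have h0' : AnalyticAt ℂ (fun ζ => (γ ζ).2) 0 := analyticAt_snd.comp hγ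
  have h1 : AnalyticAt ℂ (fun ζ => (γ ζ).2.2) 0 :=
    AnalyticAt.comp (g := fun p : ℂ × ℂ => p.2) (f := fun ζ => (γ ζ).2) analyticAt_snd h0'
  have h2 := (h1.harmonicAt_log_norm h0).const_smul (c := (2 : ℝ))
  refine (harmonicAt_congr_nhds (Eventually.of_forall fun ζ => ?_)).2 h2
  simp only [Pi.smul_apply, smul_eq_mul, Complex.normSq_eq_norm_sq, Real.log_pow]
  norm_num

/-- the lift of a disc to a coordinate ball -/
lemma lift_disc (j : Ix) {r : ℝ} (hr : 0 < r) {f : ℂ → X3}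
    (hf : IsHolDisc (kp j.1 '' ball j.2.1 (min j.2.2 (1 / 4))) r f) :
    AnalyticAt ℂ (fun ζ => chr j (f ζ)) 0 ∧
    (∀ᶠ ζ in 𝓝 (0 : ℂ), chr j (f ζ) ∈ ball j.2.1 (min j.2.2 (1 / 4)) ∧
      kp j.1 (chr j (f ζ)) = f ζ) := by
  obtain ⟨h1, h2, -⟩ := GG0.lift j hf
  exact ⟨h1.analyticAt (isOpen_ball.mem_nhds (mem_ball_self hr)),
    eventually_of_mem (isOpen_ball.mem_nhds (mem_ball_self hr)) h2⟩

/-- the closed form with the local potentials `PP a ε` -/
noncomputable def form (a' ε : ℝ) : ClosedForm X3 where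
  J := Ix
  V j := kp j.1 '' ball j.2.1 (min j.2.2 (1 / 4))
  pot j s := PP a' ε j.1 (chr j s)
  isOpen_V j := (chr j).open_source
  cover s := by
    obtain ⟨i, z, rfl⟩ := kp_surj s
    exact ⟨(i, z, 1), mem_image_of_mem _ (mem_V i z)⟩
  smooth j := by
    refine GG0.contMDiffOn_of j _ ?_
    refine (contDiff_PP a' ε j.1).contDiffOn.congr fun z hz => ?_
    change PP a' ε j.1 (chr j (kp j.1 z)) = _
    rw [chr_apply j hz]
  pluriharmonic j k r f hr hf := by
    have hfj : IsHolDisc (kp j.1 '' ball j.2.1 (min j.2.2 (1 / 4))) r f :=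
      ⟨hf.1, hf.2.mono_right inter_subset_left⟩
    have hfk : IsHolDisc (kp k.1 '' ball k.2.1 (min k.2.2 (1 / 4))) r f :=
      ⟨hf.1, hf.2.mono_right inter_subset_right⟩
    obtain ⟨hj, hj'⟩ := lift_disc j hr hfj
    obtain ⟨hk, hk'⟩ := lift_disc k hr hfk
    set γ := fun ζ => chr j (f ζ) with hγ
    set γ' := fun ζ => chr k (f ζ) with hγ'
    change InnerProductSpace.HarmonicAt (fun ζ => PP a' ε j.1 (γ ζ) - PP a' ε k.1 (γ' ζ)) 0
    have h0 : kp j.1 (γ 0) = kp k.1 (γ' 0) := by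
      rw [hj'.self_of_nhds.2, hk'.self_of_nhds.2]
    by_cases hij : k.1 = j.1
    · rw [hij] at h0 hk' ⊢
      obtain ⟨a, b, m, n, h1⟩ := eq_dk h0
      have h2 : ∀ᶠ ζ in 𝓝 (0 : ℂ), γ' ζ = dk j.1 a b m n (γ ζ) := by
        have hc : ContinuousAt (fun ζ => dk j.1 a b m n (γ ζ)) 0 :=
          (contDiff_dk j.1 a b m n).continuous.continuousAt.comp hj.continuousAt
        have h3 : ∀ᶠ ζ in 𝓝 (0 : ℂ), dk j.1 a b m n (γ ζ) ∈ ball k.2.1 (min k.2.2 (1 / 4)) :=
          hc (isOpen_ball.mem_nhds (by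
            show dk j.1 a b m n (γ 0) ∈ _
            rw [← h1]; exact hk'.self_of_nhds.1))
        filter_upwards [hj', hk', h3] with ζ h4 h5 h6
        have hinj := GG0.inj k
        change InjOn (kp k.1) (ball k.2.1 (min k.2.2 (1 / 4))) at hinj
        rw [hij] at hinj
        refine hinj h5.1 h6 ?_
        rw [h5.2, kp_dk, h4.2]
      obtain ⟨c₁, c₂, c₀, h3⟩ := PP_dk a' ε j.1 a b m n
      have h4 := harmonic_aff hj (-c₁) (-c₂) (-c₀)
      refine (InnerProductSpace.harmonicAt_congr_nhds ?_).2 h4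
      filter_upwards [h2] with ζ hζ
      rw [hζ, h3]
      ring
    · have hij' : k.1 = !j.1 := by cases h : j.1 <;> cases h' : k.1 <;> simp_all
      rw [hij'] at h0 hk' ⊢
      obtain ⟨hne, a, b, m, n, h1⟩ := eq_iv h0
      have hne' : ∀ᶠ ζ in 𝓝 (0 : ℂ), (γ ζ).2.2 ≠ 0 :=
        ((continuous_snd.comp continuous_snd).continuousAt.comp hj.continuousAt).eventually_ne hne
      have h2 : ∀ᶠ ζ in 𝓝 (0 : ℂ), γ' ζ = iv (dk j.1 a b m n (γ ζ)) := by
        have hc : ContinuousAt (fun ζ => iv (dk j.1 a b m n (γ ζ))) 0 :=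
          ((contDiffAt_iv (dk_third_ne hne)).continuousAt.comp
            (contDiff_dk j.1 a b m n).continuous.continuousAt).comp hj.continuousAt
        have h3 : ∀ᶠ ζ in 𝓝 (0 : ℂ), iv (dk j.1 a b m n (γ ζ)) ∈ ball k.2.1 (min k.2.2 (1 / 4)) :=
          hc (isOpen_ball.mem_nhds (by
            show iv (dk j.1 a b m n (γ 0)) ∈ _
            rw [← h1]; exact hk'.self_of_nhds.1))
        filter_upwards [hj', hk', h3, hne'] with ζ h4 h5 h6 h7
        have hinj := GG0.inj k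
        change InjOn (kp k.1) (ball k.2.1 (min k.2.2 (1 / 4))) at hinj
        rw [hij'] at hinj
        refine hinj h5.1 h6 ?_
        rw [h5.2, kp_iv _ (dk_third_ne h7), kp_dk, h4.2]
      obtain ⟨c₁, c₂, c₀, h3⟩ := PP_dk a' ε j.1 a b m n
      have h4 := (harmonic_aff hj (-c₁) (-c₂ - sn j.1 * (4 * π * m))
        (-c₀ - sn j.1 * (2 * π * m ^ 2))).add (harmonic_log hj hne)
      refine (InnerProductSpace.harmonicAt_congr_nhds ?_).2 h4
      filter_upwards [h2, hne'] with ζ hζ h7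
      rw [hζ, PP_iv _ _ _ (dk_third_ne h7), h3, normSq_dk,
        Real.log_mul (Complex.normSq_pos.2 h7).ne' (Real.exp_pos _).ne', Real.log_exp]
      simp only [Pi.add_apply]
      ring

/-- the Laplacian of a local potential along a disc -/
lemma laplace_form (a' ε : ℝ) (j : Ix) {r : ℝ} (hr : 0 < r) {f : ℂ → X3}
    (hf : IsHolDisc ((form a' ε).V j) r f) : ∃ v : E,
      (mfderiv 𝓘(ℂ, ℂ) 𝓘(ℂ, E) f 0 ≠ 0 → v ≠ 0) ∧ kp j.1 (chr j (f 0)) = f 0 ∧
      Laplacian.laplacian (fun ζ => (form a' ε).pot j (f ζ)) 0 =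
        fderiv ℝ (fderiv ℝ (PP a' ε j.1)) (chr j (f 0)) v v +
        fderiv ℝ (fderiv ℝ (PP a' ε j.1)) (chr j (f 0)) (Complex.I • v) (Complex.I • v) := by
  obtain ⟨h1, h2⟩ := lift_disc j hr hf
  obtain ⟨-, -, h3⟩ := GG0.lift j hf
  refine ⟨deriv (fun ζ => chr j (f ζ)) 0, fun h4 h5 => h4 (h3 hr h5), h2.self_of_nhds.2, ?_⟩
  exact Pool.Agent.Y810.SP.JstLev.disc_gen (PP a' ε j.1) (fun ζ => chr j (f ζ)) h1
    ((contDiff_PP a' ε j.1).contDiffAt.of_le (by norm_cast))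

lemma frac_mem {Y : ℝ} (hY : 0 ≤ Y) : 0 ≤ Y / (1 + Y) ∧ Y / (1 + Y) < 1 := by
  refine ⟨by positivity, ?_⟩
  rw [div_lt_one (by positivity)]
  linarith

/-- the curvature term is nonnegative -/
lemma curv_nonneg (i : Bool) {Y : ℝ} (hY : 0 ≤ Y) : 0 ≤ cn i + sn i * (Y / (1 + Y)) := by
  obtain ⟨h1, h2⟩ := frac_mem hY
  cases i with
  | false => simp only [cn, sn]; linarith
  | true => simp only [cn, sn]; linarith

lemma levi_nonneg (a' ε : ℝ) (hε : 0 ≤ ε) (i : Bool) (z v : E) :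
    0 ≤ fderiv ℝ (fderiv ℝ (PP a' ε i)) z v v +
      fderiv ℝ (fderiv ℝ (PP a' ε i)) z (Complex.I • v) (Complex.I • v) := by
  rw [levi_PP]
  have hY : 0 ≤ Complex.normSq z.2.2 * Real.exp (sn i * (2 * π * z.2.1.re ^ 2)) :=
    mul_nonneg (Complex.normSq_nonneg _) (Real.exp_pos _).le
  have h1 := curv_nonneg i hY
  have h2 := Complex.normSq_nonneg (v.1 - a' * v.2.1)
  have h3 := Complex.normSq_nonneg v.2.1
  have h4 := Complex.normSq_nonneg (2 * v.2.2 +
    (sn i * (4 * π * z.2.1.re) : ℝ) * (z.2.2 * v.2.1))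
  positivity

lemma levi_pos (a' ε : ℝ) (hε : 0 ≤ ε) (i : Bool) (z v : E) (hv : v ≠ 0)
    (h : 0 < ε ∨ 0 < cn i + sn i * (Complex.normSq z.2.2 *
      Real.exp (sn i * (2 * π * z.2.1.re ^ 2)) /
        (1 + Complex.normSq z.2.2 * Real.exp (sn i * (2 * π * z.2.1.re ^ 2))))) :
    0 < fderiv ℝ (fderiv ℝ (PP a' ε i)) z v v +
      fderiv ℝ (fderiv ℝ (PP a' ε i)) z (Complex.I • v) (Complex.I • v) := by
  rw [levi_PP]
  have hY : 0 ≤ Complex.normSq z.2.2 * Real.exp (sn i * (2 * π * z.2.1.re ^ 2)) :=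
    mul_nonneg (Complex.normSq_nonneg _) (Real.exp_pos _).le
  have h1 := curv_nonneg i hY
  set Y := Complex.normSq z.2.2 * Real.exp (sn i * (2 * π * z.2.1.re ^ 2)) with hYd
  set Ex := Real.exp (sn i * (2 * π * z.2.1.re ^ 2)) with hEx
  have hEx0 : 0 < Ex := Real.exp_pos _
  set w := 2 * v.2.2 + (sn i * (4 * π * z.2.1.re) : ℝ) * (z.2.2 * v.2.1) with hw
  have n1 := Complex.normSq_nonneg (v.1 - a' * v.2.1)
  have n2 := Complex.normSq_nonneg v.2.1
  have n3 := Complex.normSq_nonneg w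
  have t1 : 0 ≤ 2 * Complex.normSq (v.1 - a' * v.2.1) := by positivity
  have t2 : 0 ≤ 2 * ε * Complex.normSq v.2.1 := by positivity
  have t3 : 0 ≤ 4 * π * Complex.normSq v.2.1 * (cn i + sn i * (Y / (1 + Y))) := by positivity
  have t4 : 0 ≤ Ex * Complex.normSq w / (1 + Y) ^ 2 := by positivity
  by_cases h2 : v.2.1 = 0
  · by_cases h3 : v.1 = 0
    · have h4 : v.2.2 ≠ 0 := fun h4 => hv (Prod.ext h3 (Prod.ext h2 h4))
      have h5 : w ≠ 0 := by
        rw [hw, h2, mul_zero, mul_zero, add_zero]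
        exact mul_ne_zero two_ne_zero h4
      have h6 : 0 < Ex * Complex.normSq w / (1 + Y) ^ 2 := by
        have := Complex.normSq_pos.2 h5
        positivity
      linarith
    · have h6 : 0 < 2 * Complex.normSq (v.1 - a' * v.2.1) := by
        rw [h2, mul_zero, sub_zero]
        have := Complex.normSq_pos.2 h3
        positivity
      linarith
  · have h5 := Complex.normSq_pos.2 h2
    rcases h with h | h
    · have h6 : 0 < 2 * ε * Complex.normSq v.2.1 := by positivity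
      linarith
    · have h6 : 0 < 4 * π * Complex.normSq v.2.1 * (cn i + sn i * (Y / (1 + Y))) := by positivity
      linarith

lemma form_semipositive (a' : ℝ) : (form a' 0).IsSemipositive := by
  intro j r f hr hf
  obtain ⟨v, -, -, h⟩ := laplace_form a' 0 j hr hf
  rw [h]
  exact levi_nonneg a' 0 le_rfl _ _ _

lemma form_kahler {ε : ℝ} (hε : 0 < ε) : (form 0 ε).IsKahler := by
  intro x j r f hr hf hx hd
  obtain ⟨v, hv, -, h⟩ := laplace_form 0 ε j hr hf
  rw [h]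
  exact levi_pos 0 ε hε.le _ _ _ (hv hd) (Or.inl hε)

lemma form_big (a' : ℝ) : (form a' 0).IsBig := by
  refine ⟨kp false (0, 0, 1), ?_⟩
  intro j r f hr hf hx hd
  obtain ⟨v, hv, hk, h⟩ := laplace_form a' 0 j hr hf
  rw [h]
  refine levi_pos a' 0 le_rfl _ _ _ (hv hd) (Or.inr ?_)
  rw [hx] at hk ⊢
  set z := chr j (kp false (0, 0, 1)) with hz
  have h0 : z.2.2 ≠ 0 := by
    by_cases hj : j.1 = false
    · rw [hj] at hk
      obtain ⟨a, b, m, n, h1⟩ := eq_dk hk.symm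
      rw [h1]
      exact dk_third_ne (z := ((0, 0, 1) : E)) one_ne_zero
    · have hj' : j.1 = !false := by simpa using hj
      rw [hj'] at hk
      exact ne_zero_of_eq (i := !false) (z' := ((0, 0, 1) : E)) (by rw [Bool.not_not]; exact hk)
  have hY : 0 < Complex.normSq z.2.2 * Real.exp (sn j.1 * (2 * π * z.2.1.re ^ 2)) :=
    mul_pos (Complex.normSq_pos.2 h0) (Real.exp_pos _)
  have h1 : 0 < (Complex.normSq z.2.2 * Real.exp (sn j.1 * (2 * π * z.2.1.re ^ 2))) /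
    (1 + Complex.normSq z.2.2 * Real.exp (sn j.1 * (2 * π * z.2.1.re ^ 2))) := by positivity
  have h2 := (frac_mem hY.le).2
  generalize (Complex.normSq z.2.2 * Real.exp (sn j.1 * (2 * π * z.2.1.re ^ 2))) /
    (1 + Complex.normSq z.2.2 * Real.exp (sn j.1 * (2 * π * z.2.1.re ^ 2))) = y at h1 h2 ⊢
  cases j.1 with
  | false => simp only [cn, sn]; linarith
  | true => simp only [cn, sn]; linarith

end Pool.Agent.H220.C6
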