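import Pool.Agent.H220.C6.Approx3
import Pool.Agent.H220.C6.Forms

/-!
# The volume form of the Kähler form
-/

set_option autoImplicit false

open Filter Metric Set Topology
open scoped ContDiff Real

namespace Pool.Agent.H220.C6

/-- the potential of the Kähler form in logarithmic coordinates -/
noncomputable def G0 (p : P) : ℝ :=
  p.1 ^ 2 + p.2.1 ^ 2 + Real.log (1 + Real.exp (p.2.2 + 2 * π * p.2.1 ^ 2))

/-- the derivative of `log (1 + e^t)` -/
noncomputable def F1 (t : ℝ) : ℝ := Real.exp t / (1 + Real.exp t)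

/-- the second derivative of `log (1 + e^t)` -/
noncomputable def F2 (t : ℝ) : ℝ := Real.exp t / (1 + Real.exp t) ^ 2

lemma F1_pos (t : ℝ) : 0 < F1 t := by unfold F1; positivity
lemma F2_pos (t : ℝ) : 0 < F2 t := by unfold F2; positivity

lemma hasDerivAt_F0 (t : ℝ) : HasDerivAt (fun t => Real.log (1 + Real.exp t)) (F1 t) t :=
  ((Real.hasDerivAt_exp t).const_add 1).log (by positivity)

lemma hasDerivAt_F1 (t : ℝ) : HasDerivAt F1 (F2 t) t := by
  refine ((Real.hasDerivAt_exp t).div ((Real.hasDerivAt_exp t).const_add 1)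
    (by positivity)).congr_deriv ?_
  rw [F2]
  congr 1
  ring

lemma contDiff_G0 : ContDiff ℝ ∞ G0 := by
  unfold G0
  have h : ∀ p : P, 1 + Real.exp (p.2.2 + 2 * π * p.2.1 ^ 2) ≠ 0 := fun p => by positivity
  fun_prop (disch := exact h _)

lemma hasF_one (p : P) : HasFDerivAt (fun q : P => q.1) (lin 1 0 0) p := by
  have e : (fun q : P => q.1) = lin 1 0 0 := by funext q; simp
  rw [e]; exact (lin 1 0 0).hasFDerivAt

lemma hasF_two (p : P) : HasFDerivAt (fun q : P => q.2.1) (lin 0 1 0) p := by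
  have e : (fun q : P => q.2.1) = lin 0 1 0 := by funext q; simp
  rw [e]; exact (lin 0 1 0).hasFDerivAt

lemma hasF_three (p : P) : HasFDerivAt (fun q : P => q.2.2) (lin 0 0 1) p := by
  have e : (fun q : P => q.2.2) = lin 0 0 1 := by funext q; simp
  rw [e]; exact (lin 0 0 1).hasFDerivAt

/-- the variable `t` -/
noncomputable def tt (p : P) : ℝ := p.2.2 + 2 * π * p.2.1 ^ 2

lemma hasFDerivAt_tt (p : P) : HasFDerivAt tt (lin 0 (4 * π * p.2.1) 1) p := by
  have h2 : HasFDerivAt (fun q : P => q.2.1) (lin 0 1 0) p := hasF_two p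
  have h3 : HasFDerivAt (fun q : P => q.2.2) (lin 0 0 1) p := hasF_three p
  refine (h3.add ((h2.pow 2).const_mul (2 * π))).congr_fderiv
    (ContinuousLinearMap.ext fun v => ?_)
  simp only [add_apply, smul_apply, lin_apply, smul_eq_mul]
  rw [show (2 : ℕ) - 1 = 1 from rfl]
  simp
  ring

lemma fderiv_G0 (p b : P) : fderiv ℝ G0 p b =
    2 * p.1 * b.1 + 2 * p.2.1 * b.2.1 + F1 (tt p) * (4 * π * p.2.1 * b.2.1 + b.2.2) := by
  have h1 : HasFDerivAt (fun q : P => q.1) (lin 1 0 0) p := hasF_one p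
  have h2 : HasFDerivAt (fun q : P => q.2.1) (lin 0 1 0) p := hasF_two p
  have h3 : HasFDerivAt (fun q : P => Real.log (1 + Real.exp (tt q)))
      (F1 (tt p) • lin 0 (4 * π * p.2.1) 1) p :=
    (hasDerivAt_F0 (tt p)).comp_hasFDerivAt p (hasFDerivAt_tt p)
  have h4 := ((h1.pow 2).add (h2.pow 2)).add h3
  have h5 : HasFDerivAt G0 _ p := h4
  rw [h5.fderiv]
  simp only [add_apply, smul_apply, lin_apply, smul_eq_mul]
  rw [show (2 : ℕ) - 1 = 1 from rfl]
  simp

lemma fderiv2_G0 (p a b : P) : fderiv ℝ (fderiv ℝ G0) p a b =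
    2 * a.1 * b.1 + 2 * a.2.1 * b.2.1 +
      F2 (tt p) * (4 * π * p.2.1 * a.2.1 + a.2.2) * (4 * π * p.2.1 * b.2.1 + b.2.2) +
      F1 (tt p) * (4 * π * a.2.1 * b.2.1) := by
  rw [fderiv2_apply (contDiff_G0.contDiffAt.of_le (by norm_cast))]
  have e : (fun q => fderiv ℝ G0 q b) = fun q => q.1 * (2 * b.1) + q.2.1 * (2 * b.2.1) +
      F1 (tt q) * (q.2.1 * (4 * π * b.2.1) + b.2.2) := by
    funext q
    rw [fderiv_G0]
    ring
  rw [e]
  have h1 : HasFDerivAt (fun q : P => q.1) (lin 1 0 0) p := hasF_one p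
  have h2 : HasFDerivAt (fun q : P => q.2.1) (lin 0 1 0) p := hasF_two p
  have h3 : HasFDerivAt (fun q : P => F1 (tt q)) (F2 (tt p) • lin 0 (4 * π * p.2.1) 1) p :=
    (hasDerivAt_F1 (tt p)).comp_hasFDerivAt p (hasFDerivAt_tt p)
  have h4 := ((h1.mul_const (2 * b.1)).add (h2.mul_const (2 * b.2.1))).add
    (h3.mul ((h2.mul_const (4 * π * b.2.1)).add_const b.2.2))
  have h5 : HasFDerivAt (fun q : P => q.1 * (2 * b.1) + q.2.1 * (2 * b.2.1) +
      F1 (tt q) * (q.2.1 * (4 * π * b.2.1) + b.2.2)) _ p := h4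
  rw [h5.fderiv]
  simp only [add_apply, smul_apply, lin_apply, smul_eq_mul]
  ring

lemma hd_G0 (p : P) : hd G0 p = 2 * F2 (tt p) * (2 + 4 * π * F1 (tt p)) := by
  rw [hd, dt_eq]
  simp only [fderiv2_G0]
  ring

lemma hd_G0_pos (p : P) : 0 < hd G0 p := by
  rw [hd_G0]
  have h1 := F1_pos (tt p)
  have h2 := F2_pos (tt p)
  positivity

/-- the potential at the other end of the fibre -/
noncomputable def G1 (p : P) : ℝ := G0 (refl p) + p.2.2

lemma contDiff_G1 : ContDiff ℝ ∞ G1 := by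
  unfold G1
  exact (contDiff_G0.comp refl.contDiff).add (by fun_prop)

lemma hd_G1 (p : P) : hd G1 p = hd G0 (refl p) := by
  have h1 : G1 = fun q => G0 (refl q + 0) + lin 0 0 1 q + 0 := by
    ext q
    simp [G1]
  have h2 : G0 = fun q => G1 (refl q + 0) + lin 0 0 1 q + 0 := by
    ext q
    simp [G1]
  have := hd_affine (contDiff_G0.differentiable (by simp)) (contDiff_G1.differentiable (by simp))
    refl refl 0 0 (lin 0 0 1) (lin 0 0 1) 0 0 h1 h2 (fun q => by simp) (fun B B' h => by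
      have e1 : refl (1, 0, 0) = (1, 0, 0) := by simp
      have e2 : refl (0, 1, 0) = (0, 1, 0) := by simp
      have e3 : refl (0, 0, 1) = -(0, 0, 1) := by simp
      rw [dt_eq, dt_eq]
      simp only [h, e1, e2, e3, map_neg, neg_apply]
      ring) p
  rwa [add_zero] at this

lemma PP_false {z : E} (hz : z.2.2 ≠ 0) : PP 0 1 false z = G0 (Psi 0 z) := by
  have h0 := Complex.normSq_pos.2 hz
  simp only [PP, ell, lg, G0, Psi, psi, qq, add_zero]
  rw [Real.exp_add, Real.exp_log h0]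
  ring

lemma PP_true {z : E} (hz : z.2.2 ≠ 0) : PP 0 1 true z = G1 (Psi 0 z) := by
  have h0 := Complex.normSq_pos.2 hz
  simp only [PP, ell, lg, G1, G0, Psi, psi, qq, add_zero, refl_apply]
  rw [Real.exp_add, Real.exp_neg, Real.exp_log h0]
  have h1 : Complex.normSq z.2.2 + Real.exp (2 * π * z.2.1.re ^ 2) =
      (1 + (Complex.normSq z.2.2)⁻¹ * Real.exp (2 * π * z.2.1.re ^ 2)) * Complex.normSq z.2.2 := by
    field_simp
  rw [h1, Real.log_mul (by positivity) h0.ne']
  ring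

lemma good_zero {z : E} (hz : z.2.2 ≠ 0) : Good 0 z.2.2 :=
  ⟨le_rfl, by rw [add_zero]; exact Complex.normSq_pos.2 hz⟩

lemma ma_zero {g : P → ℝ} (hg : ContDiff ℝ ∞ g) {z : E} (hz : z.2.2 ≠ 0) :
    maDensity (fun z => g (Psi 0 z)) z = 1 / 16 * ((Complex.normSq z.2.2)⁻¹ * hd g (Psi 0 z)) := by
  have h0 := Complex.normSq_pos.2 hz
  rw [ma_comp hg (good_zero hz)]
  simp only [add_zero, zero_div, zero_mul]
  field_simp

lemma eventually_ne {z : E} (hz : z.2.2 ≠ 0) : ∀ᶠ w : E in 𝓝 z, w.2.2 ≠ 0 :=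
  (continuous_snd.comp continuous_snd).continuousAt.eventually_ne hz

/-- the Monge–Ampère density of the Kähler form -/
lemma ma_kahler_false {z : E} (hz : z.2.2 ≠ 0) :
    maDensity (PP 0 1 false) z = 1 / 16 * ((Complex.normSq z.2.2)⁻¹ * hd G0 (Psi 0 z)) := by
  rw [← ma_zero contDiff_G0 hz]
  refine maDensity_congr ?_
  filter_upwards [eventually_ne hz] with w hw
  exact PP_false hw

lemma ma_kahler_true {z : E} (hz : z.2.2 ≠ 0) :
    maDensity (PP 0 1 true) z =
      1 / 16 * ((Complex.normSq z.2.2)⁻¹ * hd G0 (refl (Psi 0 z))) := by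
  rw [← hd_G1, ← ma_zero contDiff_G1 hz]
  refine maDensity_congr ?_
  filter_upwards [eventually_ne hz] with w hw
  exact PP_true hw

end Pool.Agent.H220.C6
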