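import Pool.Agent.H220.C6.Moll2

set_option autoImplicit false

open Filter Metric Set Topology MeasureTheory

namespace Pool.Agent.H220.C6

/-- the standard basis of `P` -/
def pb : Fin 3 → P := ![(1, 0, 0), (0, 1, 0), (0, 0, 1)]

/-- the matrix of a bilinear form -/
noncomputable def mat (B : P →L[ℝ] P →L[ℝ] ℝ) : Matrix (Fin 3) (Fin 3) ℝ := fun i j => B (pb i) (pb j)

/-- the determinant of a bilinear form -/
noncomputable def dt (B : P →L[ℝ] P →L[ℝ] ℝ) : ℝ := (mat B).det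

lemma dt_eq (B : P →L[ℝ] P →L[ℝ] ℝ) : dt B =
    B (1, 0, 0) (1, 0, 0) * B (0, 1, 0) (0, 1, 0) * B (0, 0, 1) (0, 0, 1) -
    B (1, 0, 0) (1, 0, 0) * B (0, 1, 0) (0, 0, 1) * B (0, 0, 1) (0, 1, 0) -
    B (1, 0, 0) (0, 1, 0) * B (0, 1, 0) (1, 0, 0) * B (0, 0, 1) (0, 0, 1) +
    B (1, 0, 0) (0, 1, 0) * B (0, 1, 0) (0, 0, 1) * B (0, 0, 1) (1, 0, 0) +
    B (1, 0, 0) (0, 0, 1) * B (0, 1, 0) (1, 0, 0) * B (0, 0, 1) (0, 1, 0) -
    B (1, 0, 0) (0, 0, 1) * B (0, 1, 0) (0, 1, 0) * B (0, 0, 1) (1, 0, 0) := by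
  rw [dt, Matrix.det_fin_three]
  simp [mat, pb]

/-- vectors from coordinates -/
def vec (x : Fin 3 → ℝ) : P := (x 0, x 1, x 2)

lemma vec_eq (x : Fin 3 → ℝ) : vec x = ∑ i, x i • pb i := by
  simp [vec, pb, Fin.sum_univ_three]

lemma mat_mulVec (B : P →L[ℝ] P →L[ℝ] ℝ) (x : Fin 3 → ℝ) (i : Fin 3) :
    (mat B).mulVec x i = B (pb i) (vec x) := by
  rw [vec_eq, map_sum]
  simp only [Matrix.mulVec, dotProduct, mat, map_smul, smul_eq_mul]
  refine Finset.sum_congr rfl fun j _ => by ring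

section

variable {B : P →L[ℝ] P →L[ℝ] ℝ} (hs : ∀ a b, B a b = B b a) (h0 : ∀ v, 0 ≤ B v v)
include hs h0

lemma ker_of_zero {v : P} (hv : B v v ≤ 0) (w : P) : B w v = 0 := by
  have hv0 : B v v = 0 := le_antisymm hv (h0 v)
  by_contra hne
  have key : ∀ s : ℝ, 0 ≤ 2 * s * B w v + s ^ 2 * B w w := by
    intro s
    have := h0 (v + s • w)
    simp only [map_add, map_smul, add_apply, smul_apply, smul_eq_mul] at this
    rw [hv0, hs v w] at this
    linarith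
  have hw := h0 w
  have h1 := key (-(B w v) / (B w w + 1))
  have h2 : 0 < B w w + 1 := by linarith
  have h3 : 2 * (-(B w v) / (B w w + 1)) * B w v + (-(B w v) / (B w w + 1)) ^ 2 * B w w =
      (B w v) ^ 2 * (-2 * (B w w + 1) + B w w) / (B w w + 1) ^ 2 := by
    field_simp
  rw [h3] at h1
  have h4 : (B w v) ^ 2 * (-2 * (B w w + 1) + B w w) / (B w w + 1) ^ 2 < 0 := by
    apply div_neg_of_neg_of_pos _ (by positivity)
    have : 0 < (B w v) ^ 2 := by positivity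
    nlinarith
  linarith

lemma dt_eq_zero {v : P} (hv0 : v ≠ 0) (hv : B v v ≤ 0) : dt B = 0 := by
  rw [dt, ← Matrix.exists_mulVec_eq_zero_iff]
  refine ⟨![v.1, v.2.1, v.2.2], ?_, ?_⟩
  · intro h
    apply hv0
    have e0 := congrFun h 0
    have e1 := congrFun h 1
    have e2 := congrFun h 2
    simp at e0 e1 e2
    exact Prod.ext e0 (Prod.ext e1 e2)
  · ext i
    rw [mat_mulVec]
    have : vec ![v.1, v.2.1, v.2.2] = v := rfl
    rw [this]
    exact ker_of_zero hs h0 hv _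

lemma dt_nonneg : 0 ≤ dt B := by
  rw [dt]
  apply Matrix.PosSemidef.det_nonneg
  refine Matrix.PosSemidef.of_dotProduct_mulVec_nonneg ?_ fun x => ?_
  · ext i j
    simp [mat, Matrix.conjTranspose_apply, hs (pb j) (pb i)]
  · have : star x ⬝ᵥ (mat B).mulVec x = B (vec x) (vec x) := by
      have e : B (vec x) (vec x) = ∑ i, x i * B (vec x) (pb i) := by
        conv_lhs => rw [show (B (vec x)) (vec x) = (B (vec x)) (∑ i, x i • pb i) by rw [← vec_eq]]
        rw [map_sum]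
        simp only [map_smul, smul_eq_mul]
      rw [e]
      simp only [dotProduct, mat_mulVec, Pi.star_apply, star_trivial]
      refine Finset.sum_congr rfl fun i _ => ?_
      rw [hs]
    rw [this]
    exact h0 _

lemma entry_bound {C : ℝ} (hC : ∀ v, B v v ≤ C * ‖v‖ ^ 2) {a b : P} (ha : ‖a‖ ≤ 1)
    (hb : ‖b‖ ≤ 1) : |B a b| ≤ 2 * |C| := by
  have h1 := h0 (a + b)
  have h2 := h0 (a - b)
  have h3 := hC (a + b)
  have h4 := hC (a - b)
  have h5 : ‖a + b‖ ^ 2 ≤ 4 := by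
    have : ‖a + b‖ ≤ 2 := (norm_add_le _ _).trans (by linarith)
    nlinarith [norm_nonneg (a + b)]
  have h6 : ‖a - b‖ ^ 2 ≤ 4 := by
    have : ‖a - b‖ ≤ 2 := (norm_sub_le _ _).trans (by linarith)
    nlinarith [norm_nonneg (a - b)]
  have h7 : C * ‖a + b‖ ^ 2 ≤ |C| * 4 :=
    (mul_le_mul_of_nonneg_right (le_abs_self C) (sq_nonneg _)).trans
      (mul_le_mul_of_nonneg_left h5 (abs_nonneg _))
  have h8 : C * ‖a - b‖ ^ 2 ≤ |C| * 4 :=
    (mul_le_mul_of_nonneg_right (le_abs_self C) (sq_nonneg _)).trans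
      (mul_le_mul_of_nonneg_left h6 (abs_nonneg _))
  have e : B (a + b) (a + b) - B (a - b) (a - b) = 4 * B a b := by
    simp only [map_add, map_sub, add_apply, sub_apply]
    rw [hs b a]; ring
  rw [abs_le]
  constructor <;> nlinarith [abs_nonneg C]

end

lemma pb_norm (i : Fin 3) : ‖pb i‖ ≤ 1 := by
  fin_cases i <;> simp [pb, Prod.norm_def]

lemma abs_dt_le {B : P →L[ℝ] P →L[ℝ] ℝ} {K : ℝ} (hK : 0 ≤ K)
    (h : ∀ i j, |B (pb i) (pb j)| ≤ K) : |dt B| ≤ 6 * K ^ 3 := by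
  have e00 := h 0 0
  have e01 := h 0 1
  have e02 := h 0 2
  have e10 := h 1 0
  have e11 := h 1 1
  have e12 := h 1 2
  have e20 := h 2 0
  have e21 := h 2 1
  have e22 := h 2 2
  simp only [pb, Matrix.cons_val_zero, Matrix.cons_val_one, Matrix.cons_val] at *
  have prod : ∀ x y z : ℝ, |x| ≤ K → |y| ≤ K → |z| ≤ K → |x * y * z| ≤ K ^ 3 := by
    intro x y z hx hy hz
    rw [abs_mul, abs_mul]
    calc |x| * |y| * |z| ≤ K * K * K := by gcongr
      _ = K ^ 3 := by ring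
  rw [dt_eq, abs_le]
  have p1 := abs_le.1 (prod _ _ _ e00 e11 e22)
  have p2 := abs_le.1 (prod _ _ _ e00 e12 e21)
  have p3 := abs_le.1 (prod _ _ _ e01 e10 e22)
  have p4 := abs_le.1 (prod _ _ _ e01 e12 e20)
  have p5 := abs_le.1 (prod _ _ _ e02 e10 e21)
  have p6 := abs_le.1 (prod _ _ _ e02 e11 e20)
  constructor <;> linarith [p1.1, p1.2, p2.1, p2.2, p3.1, p3.2, p4.1, p4.2, p5.1, p5.2, p6.1, p6.2]

/-- the Hessian determinant -/
noncomputable def hd (U : P → ℝ) (p : P) : ℝ := dt (fderiv ℝ (fderiv ℝ U) p)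

lemma Prof.hess {U : P → ℝ} (hU : Prof U) (R : ℝ) : ∃ C : ℝ, 0 ≤ C ∧ ∀ p v : P, |p.2.1| ≤ R →
    DifferentiableAt ℝ (fderiv ℝ U) p →
    0 ≤ fderiv ℝ (fderiv ℝ U) p v v ∧ fderiv ℝ (fderiv ℝ U) p v v ≤ C * ‖v‖ ^ 2 := by
  obtain ⟨C, hC, hb⟩ := hU.semi R
  refine ⟨C, hC, fun p v hR hp => ?_⟩
  refine second_bounds hU.differentiable hp v
    (Eventually.of_forall fun s => ?_) (Eventually.of_forall fun s => ?_)
  · have h1 := hU.lower p (s • v)
    have h2 := hU.lower p (-(s • v))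
    rw [map_neg, ← sub_eq_add_neg, ← sub_eq_add_neg] at h2
    linarith
  · have := hb p (s • v) hR
    rw [norm_smul, mul_pow, Real.norm_eq_abs, sq_abs] at this
    linarith

lemma Prof.hd_nonneg {U : P → ℝ} (hU : Prof U) (p : P) : 0 ≤ hd U p := by
  by_cases hp : DifferentiableAt ℝ (fderiv ℝ U) p
  · obtain ⟨C, -, h⟩ := hU.hess |p.2.1|
    exact dt_nonneg (fun a b => second_symm hU.differentiable hp a b) fun v => (h p v le_rfl hp).1
  · rw [hd, fderiv_zero_of_not_differentiableAt hp, dt_eq]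
    simp

lemma Prof.hd_le {U : P → ℝ} (hU : Prof U) (R : ℝ) : ∃ C : ℝ, 0 ≤ C ∧ ∀ p : P, |p.2.1| ≤ R →
    hd U p ≤ C := by
  obtain ⟨C, hC, h⟩ := hU.hess R
  refine ⟨6 * (2 * |C|) ^ 3, by positivity, fun p hR => ?_⟩
  by_cases hp : DifferentiableAt ℝ (fderiv ℝ U) p
  · refine (le_abs_self _).trans (abs_dt_le (by positivity) fun i j => ?_)
    exact entry_bound (fun a b => second_symm hU.differentiable hp a b)
      (fun v => (h p v hR hp).1) (fun v => (h p v hR hp).2) (pb_norm i) (pb_norm j)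
  · rw [hd, fderiv_zero_of_not_differentiableAt hp, dt_eq]
    simp only [zero_apply]
    have : 0 ≤ 6 * (2 * |C|) ^ 3 := by positivity
    simp

lemma Prof.hd_zero {U : P → ℝ} (hU : Prof U) {p : P} (hp : DifferentiableAt ℝ (fderiv ℝ U) p)
    {v : P} (hv : v ≠ 0) (hv0 : fderiv ℝ (fderiv ℝ U) p v v ≤ 0) : hd U p = 0 := by
  obtain ⟨C, -, h⟩ := hU.hess |p.2.1|
  exact dt_eq_zero (fun a b => second_symm hU.differentiable hp a b)
    (fun v => (h p v le_rfl hp).1) hv hv0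

end Pool.Agent.H220.C6
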