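import Mathlib

/-!
# The convex envelope
-/

set_option autoImplicit false

open Filter Metric Set Topology MeasureTheory
open Real (pi)

namespace Pool.Agent.H220.C6

open scoped Real

/-- real model space: `(x₁, x₂, τ)` -/
abbrev P : Type := ℝ × ℝ × ℝ

instance instHaarP : (volume : Measure P).IsAddHaarMeasure := Measure.prod.instIsAddHaarMeasure _ _

/-! ### Supporting affine functions of general functions -/

/-- affine minorants of `h` with slope in `[0,1]` in the last variable -/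
def Minor (h : P → ℝ) : Set (ℝ × (P →L[ℝ] ℝ)) :=
  {A | 0 ≤ A.2 (0, 0, 1) ∧ A.2 (0, 0, 1) ≤ 1 ∧ ∀ p, A.1 + A.2 p ≤ h p}

lemma isClosed_Minor (h : P → ℝ) : IsClosed (Minor h) := by
  have e : Minor h = {A | 0 ≤ A.2 (0, 0, 1)} ∩ ({A | A.2 (0, 0, 1) ≤ 1} ∩
      ⋂ p, {A : ℝ × (P →L[ℝ] ℝ) | A.1 + A.2 p ≤ h p}) := by
    ext A; simp [Minor]
  have hev : ∀ p : P, Continuous (fun A : ℝ × (P →L[ℝ] ℝ) => A.2 p) := fun p =>
    (ContinuousLinearMap.apply ℝ ℝ p).continuous.comp continuous_snd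
  rw [e]
  refine (isClosed_le continuous_const (hev _)).inter
    ((isClosed_le (hev _) continuous_const).inter (isClosed_iInter fun p => ?_))
  exact isClosed_le (continuous_fst.add (hev p)) continuous_const

lemma exists_max_minor {h : P → ℝ} (hc : Continuous h) (h0 : ∀ p, 0 ≤ h p) (p : P) :
    ∃ A ∈ Minor h, ∀ B ∈ Minor h, B.1 + B.2 p ≤ A.1 + A.2 p := by
  have hev : ∀ p : P, Continuous (fun A : ℝ × (P →L[ℝ] ℝ) => A.2 p) := fun p =>
    (ContinuousLinearMap.apply ℝ ℝ p).continuous.comp continuous_snd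
  set K : Set (ℝ × (P →L[ℝ] ℝ)) := Minor h ∩ {A | 0 ≤ A.1 + A.2 p} with hK
  have hKc : IsClosed K := (isClosed_Minor h).inter
    (isClosed_le continuous_const (continuous_fst.add (hev p)))
  obtain ⟨M, hM⟩ : ∃ M, ∀ q ∈ closedBall p 1, h q ≤ M := by
    obtain ⟨q, hq, hmax⟩ := (isCompact_closedBall p 1).exists_isMaxOn
      (nonempty_closedBall.2 zero_le_one) hc.continuousOn
    exact ⟨h q, fun y hy => hmax hy⟩
  have hM0 : 0 ≤ M := (h0 p).trans (hM p (mem_closedBall_self zero_le_one))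
  have hb : ∀ A ∈ K, ‖A.2‖ ≤ M := by
    rintro A ⟨⟨-, -, hA⟩, hA0⟩
    have key : ∀ v : P, ‖v‖ ≤ 1 → A.2 v ≤ M := by
      intro v hv
      have h1 := hA (p + v)
      have h2 := hM (p + v) (by rw [mem_closedBall, dist_eq_norm]; simpa using hv)
      rw [map_add] at h1
      have : 0 ≤ A.1 + A.2 p := hA0
      linarith
    refine ContinuousLinearMap.opNorm_le_of_unit_norm hM0 fun v hv => ?_
    rw [Real.norm_eq_abs, abs_le]
    constructor
    · have := key (-v) (by rw [norm_neg]; exact hv.le)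
      rw [map_neg] at this; linarith
    · exact key v hv.le
  have hKb : Bornology.IsBounded K := by
    rw [isBounded_iff_forall_norm_le]
    refine ⟨M + M * ‖p‖, fun A hA => ?_⟩
    have h1 := hb A hA
    have h2 : |A.2 p| ≤ M * ‖p‖ := by
      have := A.2.le_opNorm p
      rw [Real.norm_eq_abs] at this
      exact this.trans (mul_le_mul_of_nonneg_right h1 (norm_nonneg _))
    have h3 : A.1 + A.2 p ≤ M := (hA.1.2.2 p).trans (hM p (mem_closedBall_self zero_le_one))
    have h4 : 0 ≤ A.1 + A.2 p := hA.2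
    rw [Prod.norm_def, max_le_iff]
    constructor
    · rw [Real.norm_eq_abs, abs_le]
      rw [abs_le] at h2
      constructor <;> linarith [h2.1, h2.2]
    · exact h1.trans (by nlinarith [norm_nonneg p])
  have hKcomp : IsCompact K := Metric.isCompact_of_isClosed_isBounded hKc hKb
  have h0K : (0 : ℝ × (P →L[ℝ] ℝ)) ∈ K := by
    refine ⟨⟨by simp, by simp, fun q => by simpa using h0 q⟩, by simp⟩
  obtain ⟨A, hA, hmax⟩ := hKcomp.exists_isMaxOn ⟨0, h0K⟩
    (f := fun A : ℝ × (P →L[ℝ] ℝ) => A.1 + A.2 p) (continuous_fst.add (hev p)).continuousOn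
  refine ⟨A, hA.1, fun B hB => ?_⟩
  by_cases hB0 : 0 ≤ B.1 + B.2 p
  · exact hmax (⟨hB, hB0⟩ : B ∈ K)
  · have : 0 ≤ A.1 + A.2 p := hA.2
    linarith

/-! ### The functions -/

/-- the semipositive quadratic form -/
def ell (α x y : ℝ) : ℝ := (x - α * y) ^ 2

/-- the periodic obstacle -/
noncomputable def bb (x y : ℝ) : ℝ := Real.sin (π * x) ^ 2 + Real.sin (π * y) ^ 2

/-- the weight of the line bundle -/
noncomputable def qq (y : ℝ) : ℝ := 2 * π * y ^ 2

/-- truncation to `[0,1]` -/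
noncomputable def clamp (t : ℝ) : ℝ := max 0 (min t 1)

/-- the function `0`, `t²/2`, `t - 1/2` on `t ≤ 0`, `0 ≤ t ≤ 1`, `t ≥ 1` -/
noncomputable def chi (t : ℝ) : ℝ := clamp t * t - clamp t ^ 2 / 2

/-- the obstacle -/
noncomputable def hh (α : ℝ) (p : P) : ℝ :=
  ell α p.1 p.2.1 + bb p.1 p.2.1 + chi (p.2.2 + qq p.2.1)

lemma clamp_nonneg (t : ℝ) : 0 ≤ clamp t := le_max_left _ _
lemma clamp_le_one (t : ℝ) : clamp t ≤ 1 := max_le zero_le_one (min_le_right _ _)

lemma clamp_var (t μ : ℝ) (h0 : 0 ≤ μ) (h1 : μ ≤ 1) : 0 ≤ (clamp t - μ) * (t - clamp t) := by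
  unfold clamp
  rcases le_total t 0 with h | h
  · rw [min_eq_left (h.trans zero_le_one), max_eq_left h]
    nlinarith
  · rcases le_total t 1 with h' | h'
    · rw [min_eq_left h', max_eq_right h]; simp
    · rw [min_eq_right h', max_eq_right zero_le_one]; nlinarith

lemma chi_ge (t l : ℝ) (h0 : 0 ≤ l) (h1 : l ≤ 1) : l * t - l ^ 2 / 2 ≤ chi t := by
  have := clamp_var t l h0 h1
  unfold chi
  nlinarith [sq_nonneg (clamp t - l)]

lemma chi_add (t s : ℝ) : chi (t + s) ≤ chi t + clamp t * s + s ^ 2 / 2 := by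
  have h1 := clamp_var t (clamp (t + s)) (clamp_nonneg _) (clamp_le_one _)
  unfold chi
  nlinarith [sq_nonneg (clamp (t + s) - clamp t - s)]

lemma chi_of_nonpos {t : ℝ} (h : t ≤ 0) : chi t = 0 := by
  unfold chi clamp
  rw [min_eq_left (h.trans zero_le_one), max_eq_left h]; ring

lemma chi_of_one_le {t : ℝ} (h : 1 ≤ t) : chi t = t - 1 / 2 := by
  unfold chi clamp
  rw [min_eq_right h, max_eq_right zero_le_one]; ring

lemma chi_nonneg (t : ℝ) : 0 ≤ chi t := by
  have := chi_ge t 0 le_rfl zero_le_one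
  simpa using this

lemma chi_ge_sub (t : ℝ) : t - 1 / 2 ≤ chi t := by
  have := chi_ge t 1 zero_le_one le_rfl
  linarith

lemma chi_le (t : ℝ) : chi t ≤ |t| := by
  unfold chi
  have h0 := clamp_nonneg t
  have h1 := clamp_le_one t
  have : clamp t * t ≤ |t| := by
    calc clamp t * t ≤ |clamp t * t| := le_abs_self _
      _ = clamp t * |t| := by rw [abs_mul, abs_of_nonneg h0]
      _ ≤ 1 * |t| := mul_le_mul_of_nonneg_right h1 (abs_nonneg _)
      _ = |t| := one_mul _
  nlinarith [sq_nonneg (clamp t)]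

lemma continuous_clamp : Continuous clamp := by unfold clamp; fun_prop

lemma continuous_chi : Continuous chi := by
  have := continuous_clamp
  unfold chi; fun_prop

lemma ell_nonneg (α x y : ℝ) : 0 ≤ ell α x y := sq_nonneg _

lemma bb_nonneg (x y : ℝ) : 0 ≤ bb x y := add_nonneg (sq_nonneg _) (sq_nonneg _)

lemma bb_le (x y : ℝ) : bb x y ≤ 2 := by
  unfold bb
  nlinarith [Real.sin_sq_le_one (π * x), Real.sin_sq_le_one (π * y)]

lemma hh_nonneg (α : ℝ) (p : P) : 0 ≤ hh α p :=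
  add_nonneg (add_nonneg (ell_nonneg _ _ _) (bb_nonneg _ _)) (chi_nonneg _)

lemma continuous_hh (α : ℝ) : Continuous (hh α) := by
  have := continuous_chi
  unfold hh ell bb qq
  fun_prop

/-- linear forms -/
noncomputable def lin (a b c : ℝ) : P →L[ℝ] ℝ :=
  a • ContinuousLinearMap.fst ℝ ℝ (ℝ × ℝ) +
    b • (ContinuousLinearMap.fst ℝ ℝ ℝ).comp (ContinuousLinearMap.snd ℝ ℝ (ℝ × ℝ)) +
    c • (ContinuousLinearMap.snd ℝ ℝ ℝ).comp (ContinuousLinearMap.snd ℝ ℝ (ℝ × ℝ))

@[simp] lemma lin_apply (a b c : ℝ) (p : P) : lin a b c p = a * p.1 + b * p.2.1 + c * p.2.2 := by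
  simp [lin]

lemma clm_eq (a : P →L[ℝ] ℝ) (p : P) :
    a p = a (1, 0, 0) * p.1 + a (0, 1, 0) * p.2.1 + a (0, 0, 1) * p.2.2 := by
  have : p = p.1 • ((1, 0, 0) : P) + p.2.1 • ((0, 1, 0) : P) + p.2.2 • ((0, 0, 1) : P) := by
    ext <;> simp
  conv_lhs => rw [this]
  simp only [map_add, map_smul, smul_eq_mul]
  ring

/-! ### The envelope -/

/-- the envelope: the value at `p` of the largest affine minorant -/
noncomputable def UU (α : ℝ) (p : P) : ℝ :=
  (Classical.choose (exists_max_minor (continuous_hh α) (hh_nonneg α) p)).1 +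
    (Classical.choose (exists_max_minor (continuous_hh α) (hh_nonneg α) p)).2 p

variable {α : ℝ}

lemma exists_eq_UU (p : P) : ∃ A ∈ Minor (hh α), A.1 + A.2 p = UU α p :=
  ⟨_, (Classical.choose_spec (exists_max_minor (continuous_hh α) (hh_nonneg α) p)).1, rfl⟩

lemma le_UU {B : ℝ × (P →L[ℝ] ℝ)} (hB : B ∈ Minor (hh α)) (p : P) : B.1 + B.2 p ≤ UU α p :=
  (Classical.choose_spec (exists_max_minor (continuous_hh α) (hh_nonneg α) p)).2 B hB

/-- supporting affine functions -/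
lemma UU_supp (p : P) : ∃ a : P →L[ℝ] ℝ, 0 ≤ a (0, 0, 1) ∧ a (0, 0, 1) ≤ 1 ∧
    (∀ y, UU α p + a (y - p) ≤ UU α y) ∧ ∀ y, UU α p + a (y - p) ≤ hh α y := by
  obtain ⟨A, hA, hAp⟩ := exists_eq_UU (α := α) p
  refine ⟨A.2, hA.1, hA.2.1, fun y => ?_, fun y => ?_⟩
  · rw [← hAp, map_sub]
    have := le_UU hA y
    linarith
  · rw [← hAp, map_sub]
    have := hA.2.2 y
    linarith

lemma UU_le_hh (p : P) : UU α p ≤ hh α p := by
  obtain ⟨a, -, -, -, h⟩ := UU_supp (α := α) p
  simpa using h p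

/-- a function which is touched from below at each point by an affine function that is below
the obstacle -/
lemma le_UU_of_tangent (p : P) (c a b l : ℝ) (hl0 : 0 ≤ l) (hl1 : l ≤ 1)
    (h : ∀ q : P, c + a * (q.1 - p.1) + b * (q.2.1 - p.2.1) + l * (q.2.2 - p.2.2) ≤ hh α q) :
    c ≤ UU α p := by
  have hB : ((c - (a * p.1 + b * p.2.1 + l * p.2.2), lin a b l) : ℝ × (P →L[ℝ] ℝ)) ∈
      Minor (hh α) := by
    refine ⟨by simpa using hl0, by simpa using hl1, fun q => ?_⟩
    have := h q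
    simp only [lin_apply]
    linarith
  have := le_UU hB p
  simp only [lin_apply] at this
  linarith

lemma base_le_UU (x y τ : ℝ) : ell α x y + chi (τ + qq y) ≤ UU α (x, y, τ) := by
  set l := clamp (τ + qq y) with hl
  have hl0 := clamp_nonneg (τ + qq y)
  have hl1 := clamp_le_one (τ + qq y)
  refine le_UU_of_tangent (x, y, τ) _ (2 * (x - α * y)) (-2 * α * (x - α * y) + l * (4 * π * y)) l
    hl0 hl1 fun q => ?_
  obtain ⟨x', y', τ'⟩ := q
  have h1 := chi_ge (τ' + qq y') l hl0 hl1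
  have h2 := bb_nonneg x' y'
  have h3 : 0 ≤ l * (2 * π * (y' - y) ^ 2) := by
    have := Real.pi_pos
    have : 0 ≤ l := hl0
    positivity
  have e1 : chi (τ + qq y) = l * (τ + qq y) - l ^ 2 / 2 := rfl
  rw [e1]
  simp only [hh, ell]
  unfold qq at h1 ⊢
  nlinarith [sq_nonneg (x' - α * y' - (x - α * y))]

lemma UU_nonneg (p : P) : 0 ≤ UU α p :=
  (add_nonneg (ell_nonneg _ _ _) (chi_nonneg _)).trans (base_le_UU p.1 p.2.1 p.2.2)

end Pool.Agent.H220.C6
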