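import Pool.Agent.H220.C6.Env

set_option autoImplicit false

open Filter Metric Set Topology MeasureTheory

namespace Pool.Agent.H220.C6

open scoped Real

variable {α : ℝ}

/-! ### Monotonicity in the last variable -/

lemma UU_mono (x y : ℝ) {τ τ' : ℝ} (h : τ ≤ τ') : UU α (x, y, τ) ≤ UU α (x, y, τ') := by
  obtain ⟨a, ha, -, hs, -⟩ := UU_supp (α := α) (x, y, τ)
  have := hs (x, y, τ')
  rw [clm_eq a] at this
  simp at this
  nlinarith [mul_nonneg ha (sub_nonneg.2 h)]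

lemma UU_lip (x y : ℝ) {τ τ' : ℝ} (h : τ ≤ τ') : UU α (x, y, τ') ≤ UU α (x, y, τ) + (τ' - τ) := by
  obtain ⟨a, -, ha, hs, -⟩ := UU_supp (α := α) (x, y, τ')
  have := hs (x, y, τ)
  rw [clm_eq a] at this
  simp at this
  nlinarith [mul_nonneg (sub_nonneg.2 ha) (sub_nonneg.2 h)]

/-! ### The twisted translations -/

/-- translation by `(v, w, s)` in the coordinates `(x, y, t)`, `t = τ + q(y)` -/
noncomputable def tw (v w s : ℝ) (q : P) : P :=
  (q.1 + v, q.2.1 + w, q.2.2 + s - 4 * π * q.2.1 * w - 2 * π * w ^ 2)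

lemma tw_t (v w s : ℝ) (q : P) : (tw v w s q).2.2 + qq (tw v w s q).2.1 = q.2.2 + qq q.2.1 + s := by
  simp only [tw, qq]; ring

lemma sin_sq_second (x v : ℝ) :
    Real.sin (π * (x + v)) ^ 2 + Real.sin (π * (x - v)) ^ 2 ≤
      2 * Real.sin (π * x) ^ 2 + 2 * π ^ 2 * v ^ 2 := by
  have e1 : Real.sin (π * (x + v)) = Real.sin (π * x) * Real.cos (π * v) +
      Real.cos (π * x) * Real.sin (π * v) := by rw [mul_add, Real.sin_add]
  have e2 : Real.sin (π * (x - v)) = Real.sin (π * x) * Real.cos (π * v) -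
      Real.cos (π * x) * Real.sin (π * v) := by rw [mul_sub, Real.sin_sub]
  have h1 : Real.sin (π * v) ^ 2 ≤ π ^ 2 * v ^ 2 := by
    have := Real.abs_sin_le_abs (x := π * v)
    have h := sq_le_sq' (by linarith [abs_nonneg (Real.sin (π * v)), abs_nonneg (π * v)]) this
    rw [sq_abs, sq_abs] at h
    nlinarith
  have h2 := Real.cos_sq_le_one (π * x)
  have h3 := Real.sin_sq_le_one (π * x)
  have h4 := Real.sin_sq_add_cos_sq (π * x)
  have h5 := Real.sin_sq_add_cos_sq (π * v)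
  rw [e1, e2]
  nlinarith [mul_nonneg (sq_nonneg (Real.sin (π * v))) (sq_nonneg (Real.sin (π * x)))]

lemma hh_twist (v w s : ℝ) (q : P) :
    hh α (tw v w s q) + hh α (tw (-v) (-w) (-s) q) ≤
      2 * hh α q + (2 * (ell α v w + π ^ 2 * (v ^ 2 + w ^ 2)) + s ^ 2) := by
  unfold hh
  rw [tw_t, tw_t]
  have h1 := chi_add (q.2.2 + qq q.2.1) s
  have h2 := chi_add (q.2.2 + qq q.2.1) (-s)
  have h3 := sin_sq_second q.1 v
  have h4 := sin_sq_second q.2.1 w
  simp only [tw, ell, bb]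
  rw [show q.1 + -v = q.1 - v by ring, show q.2.1 + -w = q.2.1 - w by ring]
  nlinarith

lemma UU_twist (v w s : ℝ) (p : P) :
    UU α (tw v w s p) + UU α (tw (-v) (-w) (-s) p) ≤
      2 * UU α p + (2 * (ell α v w + π ^ 2 * (v ^ 2 + w ^ 2)) + s ^ 2) := by
  obtain ⟨a, ha0, ha1, -, ha⟩ := UU_supp (α := α) (tw v w s p)
  obtain ⟨b, hb0, hb1, -, hb⟩ := UU_supp (α := α) (tw (-v) (-w) (-s) p)
  have key := le_UU_of_tangent (α := α) p
    ((UU α (tw v w s p) + UU α (tw (-v) (-w) (-s) p)) / 2 -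
      (2 * (ell α v w + π ^ 2 * (v ^ 2 + w ^ 2)) + s ^ 2) / 2)
    ((a (1, 0, 0) + b (1, 0, 0)) / 2)
    ((a (0, 1, 0) - 4 * π * w * a (0, 0, 1) + b (0, 1, 0) + 4 * π * w * b (0, 0, 1)) / 2)
    ((a (0, 0, 1) + b (0, 0, 1)) / 2) (by linarith) (by linarith) (fun q => ?_)
  · linarith
  · have h1 := ha (tw v w s q)
    have h2 := hb (tw (-v) (-w) (-s) q)
    have h3 := hh_twist (α := α) v w s q
    rw [clm_eq a] at h1
    rw [clm_eq b] at h2
    simp only [tw, Prod.fst_sub, Prod.snd_sub] at h1 h2 h3 ⊢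
    nlinarith

lemma abs_le_norm1 (v : P) : |v.1| ≤ ‖v‖ := by
  rw [← Real.norm_eq_abs]; exact norm_fst_le v
lemma abs_le_norm2 (v : P) : |v.2.1| ≤ ‖v‖ := by
  rw [← Real.norm_eq_abs]; exact (norm_fst_le v.2).trans (norm_snd_le v)
lemma abs_le_norm3 (v : P) : |v.2.2| ≤ ‖v‖ := by
  rw [← Real.norm_eq_abs]; exact (norm_snd_le v.2).trans (norm_snd_le v)

/-- the constant in the second difference bound -/
noncomputable def CC (α R : ℝ) : ℝ :=
  2 * ((1 + |α|) ^ 2 + 2 * π ^ 2) + (1 + 4 * π * R) ^ 2 + 4 * π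

lemma CC_pos (α R : ℝ) : 0 < CC α R := by
  have := Real.pi_pos
  unfold CC
  positivity

lemma UU_semi (R : ℝ) (p v : P) (hp : |p.2.1| ≤ R) :
    UU α (p + v) + UU α (p - v) ≤ 2 * UU α p + CC α R * ‖v‖ ^ 2 := by
  obtain ⟨x, y, τ⟩ := p
  obtain ⟨v, w, s⟩ := v
  have h := UU_twist (α := α) v w (s + 4 * π * y * w) (x, y, τ)
  have hpi := Real.pi_pos
  have h1 : UU α ((x, y, τ) + (v, w, s)) ≤
      UU α (tw v w (s + 4 * π * y * w) (x, y, τ)) + 2 * π * w ^ 2 := by
    have := UU_lip (α := α) (x + v) (y + w)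
      (τ := τ + (s + 4 * π * y * w) - 4 * π * y * w - 2 * π * w ^ 2) (τ' := τ + s)
      (by nlinarith [mul_nonneg hpi.le (sq_nonneg w)])
    simp only [tw, Prod.mk_add_mk]
    linarith
  have h2 : UU α ((x, y, τ) - (v, w, s)) ≤
      UU α (tw (-v) (-w) (-(s + 4 * π * y * w)) (x, y, τ)) + 2 * π * w ^ 2 := by
    have := UU_lip (α := α) (x + -v) (y + -w)
      (τ := τ + -(s + 4 * π * y * w) - 4 * π * y * (-w) - 2 * π * (-w) ^ 2) (τ' := τ - s)
      (by nlinarith [mul_nonneg hpi.le (sq_nonneg w)])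
    simp only [tw, Prod.mk_sub_mk]
    rw [show x - v = x + -v by ring, show y - w = y + -w by ring]
    nlinarith
  set N := ‖((v, w, s) : P)‖ with hN
  have n1 : |v| ≤ N := abs_le_norm1 (v, w, s)
  have n2 : |w| ≤ N := abs_le_norm2 (v, w, s)
  have n3 : |s| ≤ N := abs_le_norm3 (v, w, s)
  have hN0 : 0 ≤ N := norm_nonneg _
  have e1 : v ^ 2 ≤ N ^ 2 := by rw [← sq_abs]; gcongr
  have e2 : w ^ 2 ≤ N ^ 2 := by rw [← sq_abs]; gcongr
  have e3 : ell α v w ≤ (1 + |α|) ^ 2 * N ^ 2 := by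
    unfold ell
    rw [← sq_abs, ← mul_pow]
    have : |v - α * w| ≤ (1 + |α|) * N := by
      calc |v - α * w| ≤ |v| + |α * w| := abs_sub _ _
        _ ≤ N + |α| * N := by rw [abs_mul]; gcongr
        _ = (1 + |α|) * N := by ring
    gcongr
  have e4 : (s + 4 * π * y * w) ^ 2 ≤ (1 + 4 * π * R) ^ 2 * N ^ 2 := by
    rw [← sq_abs, ← mul_pow]
    have hy : |y| ≤ R := hp
    have hR : 0 ≤ R := (abs_nonneg y).trans hy
    have : |s + 4 * π * y * w| ≤ (1 + 4 * π * R) * N := by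
      calc |s + 4 * π * y * w| ≤ |s| + |4 * π * y * w| := abs_add_le _ _
        _ = |s| + 4 * π * |y| * |w| := by
            rw [abs_mul, abs_mul, abs_of_pos (by positivity : (0 : ℝ) < 4 * π)]
        _ ≤ N + 4 * π * R * N := by gcongr
        _ = (1 + 4 * π * R) * N := by ring
    gcongr
  unfold CC
  nlinarith


/-! ### The lower bound -/

lemma cos_tangent (a b : ℝ) :
    Real.cos b ≤ Real.cos a - Real.sin a * (b - a) + (b - a) ^ 2 / 2 := by
  set f : ℝ → ℝ := fun x => Real.cos a - Real.sin a * (x - a) + (x - a) ^ 2 / 2 - Real.cos x with hf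
  have hd : ∀ x, HasDerivAt f ((x - a) + (Real.sin x - Real.sin a)) x := by
    intro x
    have h1 : HasDerivAt (fun x => Real.cos a - Real.sin a * (x - a) + (x - a) ^ 2 / 2 -
        Real.cos x) (0 - Real.sin a * 1 + (2 * (x - a) ^ (2 - 1) * 1) / 2 - (-Real.sin x)) x :=
      (((hasDerivAt_const x _).sub (((hasDerivAt_id x).sub_const a).const_mul _)).add
        ((((hasDerivAt_id x).sub_const a).pow 2).div_const 2)).sub (Real.hasDerivAt_cos x)
    convert h1 using 1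
    simp; ring
  have hs : ∀ x y, |Real.sin x - Real.sin y| ≤ |x - y| := by
    intro x y
    have := Real.lipschitzWith_sin.dist_le_mul x y
    simpa [Real.dist_eq] using this
  have hfa : f a = 0 := by simp [hf]
  have key : 0 ≤ f b := by
    rcases lt_trichotomy a b with h | h | h
    · obtain ⟨c, hc, hc'⟩ := exists_hasDerivAt_eq_slope f _ h
        (fun x _ => (hd x).continuousAt.continuousWithinAt) (fun x _ => hd x)
      rw [eq_div_iff (sub_pos.2 h).ne', hfa, sub_zero] at hc'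
      rw [← hc']
      have h2 := abs_le.1 (hs c a)
      rw [abs_of_pos (sub_pos.2 hc.1)] at h2
      exact mul_nonneg (by linarith [h2.1]) (sub_pos.2 h).le
    · rw [← h, hfa]
    · obtain ⟨c, hc, hc'⟩ := exists_hasDerivAt_eq_slope f _ h
        (fun x _ => (hd x).continuousAt.continuousWithinAt) (fun x _ => hd x)
      rw [eq_div_iff (sub_pos.2 h).ne', hfa, zero_sub] at hc'
      have h2 := abs_le.1 (hs c a)
      rw [abs_of_neg (sub_neg.2 hc.2)] at h2
      have h3 : (c - a + (Real.sin c - Real.sin a)) * (a - b) ≤ 0 :=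
        mul_nonpos_of_nonpos_of_nonneg (by linarith [h2.2]) (sub_pos.2 h).le
      linarith
  simp only [hf] at key
  linarith

lemma abs_sin_nat_mul (n : ℕ) (x : ℝ) : |Real.sin (n * x)| ≤ n * |Real.sin x| := by
  induction n with
  | zero => simp
  | succ n ih =>
    push_cast
    rw [add_mul, one_mul, Real.sin_add]
    calc |Real.sin (n * x) * Real.cos x + Real.cos (n * x) * Real.sin x|
        ≤ |Real.sin (n * x) * Real.cos x| + |Real.cos (n * x) * Real.sin x| := abs_add_le _ _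
      _ ≤ |Real.sin (n * x)| * 1 + 1 * |Real.sin x| := by
          rw [abs_mul, abs_mul]
          gcongr
          · exact Real.abs_cos_le_one _
          · exact Real.abs_cos_le_one _
      _ ≤ (n + 1) * |Real.sin x| := by linarith

lemma abs_sin_int_mul (n : ℤ) (x : ℝ) : |Real.sin (n * x)| ≤ |(n : ℝ)| * |Real.sin x| := by
  obtain ⟨m, rfl | rfl⟩ := n.eq_nat_or_neg
  · simpa using abs_sin_nat_mul m x
  · have := abs_sin_nat_mul m x
    push_cast
    rw [neg_mul, Real.sin_neg, abs_neg, abs_neg]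
    simpa using this

/-- the bump -/
noncomputable def GG (r : ℕ) (s : ℤ) (x y : ℝ) : ℝ :=
  1 / (4 * π ^ 2 * r ^ 2) * (1 - Real.cos (2 * π * (r * x - s * y)))

lemma GG_le_bb {r : ℕ} {s : ℤ} (hr : 0 < r) (hs : |(s : ℝ)| ≤ 2 * r) (x y : ℝ) :
    GG r s x y ≤ bb x y := by
  have hr' : (0 : ℝ) < r := by exact_mod_cast hr
  have e : 1 - Real.cos (2 * π * (r * x - s * y)) = 2 * Real.sin (π * (r * x - s * y)) ^ 2 := by
    have := Real.cos_two_mul (π * (r * x - s * y))
    have h2 := Real.sin_sq_add_cos_sq (π * (r * x - s * y))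
    rw [show 2 * π * (r * x - s * y) = 2 * (π * (r * x - s * y)) by ring]
    linarith
  have h1 : |Real.sin (π * (r * x - s * y))| ≤
      r * |Real.sin (π * x)| + 2 * r * |Real.sin (π * y)| := by
    have : π * (r * x - s * y) = r * (π * x) - s * (π * y) := by ring
    rw [this, Real.sin_sub]
    calc |Real.sin (r * (π * x)) * Real.cos (s * (π * y)) -
          Real.cos (r * (π * x)) * Real.sin (s * (π * y))|
        ≤ |Real.sin (r * (π * x)) * Real.cos (s * (π * y))| +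
          |Real.cos (r * (π * x)) * Real.sin (s * (π * y))| := abs_sub _ _
      _ ≤ |Real.sin (r * (π * x))| * 1 + 1 * |Real.sin (s * (π * y))| := by
          rw [abs_mul, abs_mul]
          gcongr
          · exact Real.abs_cos_le_one _
          · exact Real.abs_cos_le_one _
      _ ≤ r * |Real.sin (π * x)| + |(s : ℝ)| * |Real.sin (π * y)| := by
          rw [mul_one, one_mul]
          exact add_le_add (abs_sin_nat_mul _ _) (abs_sin_int_mul _ _)
      _ ≤ _ := by gcongr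
  have h2 : Real.sin (π * (r * x - s * y)) ^ 2 ≤
      2 * r ^ 2 * Real.sin (π * x) ^ 2 + 8 * r ^ 2 * Real.sin (π * y) ^ 2 := by
    have h30 := abs_nonneg (Real.sin (π * (r * x - s * y)))
    have h31 := h30.trans h1
    have h3 := sq_le_sq' (by linarith) h1
    rw [sq_abs] at h3
    have h4 : Real.sin (π * x) ^ 2 = (abs (Real.sin (π * x))) ^ 2 := (sq_abs _).symm
    have h5 : Real.sin (π * y) ^ 2 = (abs (Real.sin (π * y))) ^ 2 := (sq_abs _).symm
    rw [h4, h5]
    refine h3.trans ?_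
    have h6 := sq_nonneg ((r : ℝ) * abs (Real.sin (π * x)) - 2 * (r : ℝ) * abs (Real.sin (π * y)))
    linarith
  unfold GG bb
  rw [e]
  have hpi : 3 < π := Real.pi_gt_three
  have h4 : 1 / (4 * π ^ 2 * r ^ 2) * (2 * Real.sin (π * (r * x - s * y)) ^ 2) ≤
      1 / (4 * π ^ 2 * r ^ 2) * (2 * (2 * r ^ 2 * Real.sin (π * x) ^ 2 +
        8 * r ^ 2 * Real.sin (π * y) ^ 2)) := by gcongr
  have h5 : 1 / (4 * π ^ 2 * r ^ 2) * (2 * (2 * r ^ 2 * Real.sin (π * x) ^ 2 +
        8 * r ^ 2 * Real.sin (π * y) ^ 2)) =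
      1 / π ^ 2 * (Real.sin (π * x) ^ 2 + 4 * Real.sin (π * y) ^ 2) := by
    field_simp; ring
  have h6 : 1 / π ^ 2 ≤ 1 / 4 := by
    apply one_div_le_one_div_of_le (by norm_num); nlinarith
  have h7 : 0 ≤ 1 / π ^ 2 := by positivity
  have h8 : 1 / π ^ 2 * (Real.sin (π * x) ^ 2 + 4 * Real.sin (π * y) ^ 2) ≤
      1 / 4 * (Real.sin (π * x) ^ 2 + 4 * Real.sin (π * y) ^ 2) := by gcongr
  nlinarith [sq_nonneg (Real.sin (π * x)), sq_nonneg (Real.sin (π * y))]

/-- The lower bound for the envelope. -/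
lemma GG_le_UU {r : ℕ} {s : ℤ} (hr : 0 < r) (hs : |(s : ℝ)| ≤ 2 * r)
    (hα : |α - s / r| ≤ 1 / (r : ℝ) ^ 2) (x y τ : ℝ) :
    ell α x y + GG r s x y + 1 / (r : ℝ) ^ 4 * (τ + qq y) - (1 / (r : ℝ) ^ 4) ^ 2 / 2 ≤
      UU α (x, y, τ) := by
  have hr' : (0 : ℝ) < r := by exact_mod_cast hr
  have hr1 : (1 : ℝ) ≤ r := by exact_mod_cast hr
  set l : ℝ := 1 / (r : ℝ) ^ 4 with hl
  have hl0 : 0 ≤ l := by positivity
  have hl1 : l ≤ 1 := by
    rw [hl, div_le_one (by positivity)]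
    exact one_le_pow₀ hr1
  set S := Real.sin (2 * π * (r * x - s * y)) with hS
  refine le_UU_of_tangent (x, y, τ) _ (2 * (x - α * y) + 1 / (2 * π * r) * S)
    (-2 * α * (x - α * y) - s / (2 * π * r ^ 2) * S + l * (4 * π * y)) l
    hl0 hl1 fun q => ?_
  obtain ⟨x', y', τ'⟩ := q
  have h1 := chi_ge (τ' + qq y') l hl0 hl1
  have h2 := GG_le_bb hr hs x' y'
  have h3 := cos_tangent (2 * π * (r * x - s * y)) (2 * π * (r * x' - s * y'))
  rw [← hS] at h3
  have hpi := Real.pi_pos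
  -- the tangent inequality for `GG`
  have h4 : GG r s x y + 1 / (2 * π * r) * S * (x' - x) - s / (2 * π * r ^ 2) * S * (y' - y) -
      ((x' - x) - s / r * (y' - y)) ^ 2 / 2 ≤ GG r s x' y' := by
    unfold GG
    have e1 : 1 / (2 * π * r) * S * (x' - x) - s / (2 * π * r ^ 2) * S * (y' - y) =
      1 / (4 * π ^ 2 * r ^ 2) *
        (S * (2 * π * (r * x' - s * y') - 2 * π * (r * x - s * y))) := by
      field_simp; ring
    have e2 : ((x' - x) - s / r * (y' - y)) ^ 2 / 2 = 1 / (4 * π ^ 2 * r ^ 2) *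
        ((2 * π * (r * x' - s * y') - 2 * π * (r * x - s * y)) ^ 2 / 2) := by
      field_simp; ring
    have h5 : 0 ≤ 1 / (4 * π ^ 2 * (r : ℝ) ^ 2) := by positivity
    have h6 := mul_le_mul_of_nonneg_left h3 h5
    rw [add_sub_assoc, e1, e2]
    nlinarith
  have h5 : (α - s / r) ^ 2 ≤ l := by
    rw [← sq_abs, hl]
    calc |α - s / r| ^ 2 ≤ (1 / (r : ℝ) ^ 2) ^ 2 := by gcongr
      _ = 1 / (r : ℝ) ^ 4 := by rw [div_pow, one_pow, ← pow_mul]
  have h6 : ((x' - x) - s / r * (y' - y)) ^ 2 / 2 ≤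
      ((x' - x) - α * (y' - y)) ^ 2 + l * (2 * π * (y' - y) ^ 2) := by
    have h7 : ((x' - x) - s / r * (y' - y)) = ((x' - x) - α * (y' - y)) +
      (α - s / r) * (y' - y) := by ring
    have h8 : ((α - s / r) * (y' - y)) ^ 2 ≤ l * (y' - y) ^ 2 := by
      rw [mul_pow]; gcongr
    have h9 : l * (y' - y) ^ 2 ≤ l * (2 * π * (y' - y) ^ 2) := by
      have : (y' - y) ^ 2 ≤ 2 * π * (y' - y) ^ 2 := by
        nlinarith [Real.pi_gt_three, sq_nonneg (y' - y)]
      gcongr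
    rw [h7]
    nlinarith [sq_nonneg ((x' - x) - α * (y' - y) - (α - s / r) * (y' - y))]
  have e3 : ell α x' y' = ell α x y + 2 * (x - α * y) * ((x' - x) - α * (y' - y)) +
      ((x' - x) - α * (y' - y)) ^ 2 := by unfold ell; ring
  have e4 : l * (τ' + qq y') = l * (τ + qq y) + l * (τ' - τ) + l * (4 * π * y) * (y' - y) +
      l * (2 * π * (y' - y) ^ 2) := by unfold qq; ring
  simp only [hh]
  rw [e3]
  rw [e4] at h1
  linarith

end Pool.Agent.H220.C6
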