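import Pool.Agent.H220.C6.Env2

set_option autoImplicit false

open Filter Metric Set Topology MeasureTheory

namespace Pool.Agent.H220.C6

open scoped Real

variable {α : ℝ}

/-! ### The limit at `-∞` -/

lemma UU_convex : ConvexOn ℝ univ (UU α) := by
  refine ⟨convex_univ, fun p _ p' _ a b ha hb hab => ?_⟩
  obtain ⟨A, -, -, hA, -⟩ := UU_supp (α := α) (a • p + b • p')
  have h1 := hA p
  have h2 := hA p'
  simp only [map_sub, map_add, map_smul, smul_eq_mul] at h1 h2 ⊢
  have hb' : b = 1 - a := by linarith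
  subst hb'
  nlinarith [mul_le_mul_of_nonneg_left h1 ha, mul_le_mul_of_nonneg_left h2 hb]

/-- the limit of the envelope at `τ = -∞` -/
noncomputable def WW (α x y : ℝ) : ℝ := ⨅ τ : ℝ, UU α (x, y, τ)

lemma WW_bdd (x y : ℝ) : BddBelow (range fun τ : ℝ => UU α (x, y, τ)) :=
  ⟨0, by rintro _ ⟨τ, rfl⟩; exact UU_nonneg _⟩

lemma WW_le (x y τ : ℝ) : WW α x y ≤ UU α (x, y, τ) := ciInf_le (WW_bdd x y) τ

lemma ell_le_WW (x y : ℝ) : ell α x y ≤ WW α x y :=
  le_ciInf fun τ => by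
    have := base_le_UU (α := α) x y τ
    linarith [chi_nonneg (τ + qq y)]

lemma exists_UU_lt (x y : ℝ) {ε : ℝ} (hε : 0 < ε) :
    ∃ τ₀, ∀ τ ≤ τ₀, UU α (x, y, τ) < WW α x y + ε := by
  obtain ⟨τ₀, h⟩ := exists_lt_of_ciInf_lt (f := fun τ : ℝ => UU α (x, y, τ))
    (show (⨅ τ : ℝ, UU α (x, y, τ)) < WW α x y + ε by unfold WW; linarith)
  exact ⟨τ₀, fun τ hτ => (UU_mono x y hτ).trans_lt h⟩

lemma WW_convex (x y x' y' a b : ℝ) (ha : 0 ≤ a) (hb : 0 ≤ b) (hab : a + b = 1) :
    WW α (a * x + b * x') (a * y + b * y') ≤ a * WW α x y + b * WW α x' y' := by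
  refine le_of_forall_pos_le_add fun ε hε => ?_
  obtain ⟨t1, h1⟩ := exists_UU_lt (α := α) x y hε
  obtain ⟨t2, h2⟩ := exists_UU_lt (α := α) x' y' hε
  have h3 := h1 (min t1 t2) (min_le_left _ _)
  have h4 := h2 (min t1 t2) (min_le_right _ _)
  have h5 := (UU_convex (α := α)).2 (mem_univ (x, y, min t1 t2)) (mem_univ (x', y', min t1 t2))
    ha hb hab
  simp only [Prod.smul_mk, Prod.mk_add_mk, smul_eq_mul] at h5
  rw [← add_mul, hab, one_mul] at h5
  have h6 := WW_le (α := α) (a * x + b * x') (a * y + b * y') (min t1 t2)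
  have hb' : b = 1 - a := by linarith
  subst hb'
  nlinarith [mul_le_mul_of_nonneg_left h3.le ha, mul_le_mul_of_nonneg_left h4.le hb]

lemma WW_int (m n : ℤ) : WW α m n ≤ ell α m n := by
  have h1 := WW_le (α := α) m n (-qq n)
  have h2 := UU_le_hh (α := α) (m, n, -qq n)
  unfold hh bb at h2
  simp only [neg_add_cancel] at h2
  rw [chi_of_nonpos le_rfl, mul_comm π, mul_comm π, Real.sin_int_mul_pi, Real.sin_int_mul_pi] at h2
  linarith

lemma WW_upper (x y : ℝ) : WW α x y ≤ ell α x y + 2 := by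
  have h1 := WW_le (α := α) x y (-qq y)
  have h2 := UU_le_hh (α := α) (x, y, -qq y)
  unfold hh at h2
  simp only [neg_add_cancel] at h2
  rw [chi_of_nonpos le_rfl] at h2
  linarith [bb_le x y]

lemma WW_line (m n : ℤ) (s : ℝ) : WW α (m + s * α) (n + s) ≤ ((m : ℝ) - α * n) ^ 2 := by
  refine le_of_forall_pos_le_add fun ε hε => ?_
  obtain ⟨N, hN⟩ := exists_nat_gt (2 / ε)
  have hN0 : (0 : ℝ) < N := lt_trans (by positivity) hN
  have hN1 : (1 : ℝ) ≤ N := by exact_mod_cast Nat.one_le_iff_ne_zero.2 (by rintro rfl; simp at hN0)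
  have h1 := WW_convex (α := α) (m + N * s * α) (n + N * s) m n (1 / N) (1 - 1 / N) (by positivity)
    (by rw [sub_nonneg, div_le_one hN0]; exact hN1) (by ring)
  have e1 : 1 / (N : ℝ) * (m + N * s * α) + (1 - 1 / N) * m = m + s * α := by
    field_simp; ring
  have e2 : 1 / (N : ℝ) * (n + N * s) + (1 - 1 / N) * n = n + s := by
    field_simp; ring
  rw [e1, e2] at h1
  have h2 := WW_upper (α := α) (m + N * s * α) (n + N * s)
  have e3 : ell α (m + N * s * α) (n + N * s) = ((m : ℝ) - α * n) ^ 2 := by unfold ell; ring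
  have h3 := WW_int (α := α) m n
  have e4 : ell α m n = ((m : ℝ) - α * n) ^ 2 := rfl
  rw [e3] at h2
  rw [e4] at h3
  have h4 : 0 ≤ 1 / (N : ℝ) := by positivity
  have h5 : 0 ≤ 1 - 1 / (N : ℝ) := by rw [sub_nonneg, div_le_one hN0]; exact hN1
  have h6 : 1 / (N : ℝ) * 2 ≤ ε := by
    rw [div_lt_iff₀ hε] at hN
    rw [div_mul_eq_mul_div, div_le_iff₀ hN0]
    linarith
  nlinarith [mul_le_mul_of_nonneg_left h2 h4, mul_le_mul_of_nonneg_left h3 h5]

lemma WW_eq (hα : Irrational α) (x y : ℝ) : WW α x y = ell α x y := by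
  refine le_antisymm ?_ (ell_le_WW x y)
  have hdense : Dense ((AddSubgroup.closure {1, α} : AddSubgroup ℝ) : Set ℝ) := by
    rw [dense_addSubgroupClosure_pair_iff]
    simpa using hα.inv
  set u := x - α * y with hu
  have key : ∀ δ : ℝ, 0 < δ → WW α x y ≤ (|u| + δ) ^ 2 := by
    intro δ hδ
    obtain ⟨u1, hu1, hu1'⟩ := hdense.exists_between (show u < u + δ by linarith)
    obtain ⟨u2, hu2, hu2'⟩ := hdense.exists_between (show u - δ < u by linarith)
    obtain ⟨m1, n1, e1⟩ := AddSubgroup.mem_closure_pair.1 hu1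
    obtain ⟨m2, n2, e2⟩ := AddSubgroup.mem_closure_pair.1 hu2
    have f1 := WW_line (α := α) m1 (-n1) (y + n1)
    have f2 := WW_line (α := α) m2 (-n2) (y + n2)
    simp only [zsmul_eq_mul, mul_one] at e1 e2
    push_cast at f1 f2
    rw [show (m1 : ℝ) - α * -n1 = u1 by rw [← e1]; ring,
      show (m1 : ℝ) + (y + n1) * α = x + (u1 - u) by rw [← e1, hu]; ring,
      show -(n1 : ℝ) + (y + n1) = y by ring] at f1
    rw [show (m2 : ℝ) - α * -n2 = u2 by rw [← e2]; ring,
      show (m2 : ℝ) + (y + n2) * α = x + (u2 - u) by rw [← e2, hu]; ring,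
      show -(n2 : ℝ) + (y + n2) = y by ring] at f2
    have hd : 0 < u1 - u2 := by linarith [hu1'.1, hu2'.2]
    have h1 := WW_convex (α := α) (x + (u1 - u)) y (x + (u2 - u)) y ((u - u2) / (u1 - u2))
      ((u1 - u) / (u1 - u2)) (div_nonneg (by linarith [hu2'.2]) hd.le)
      (div_nonneg (by linarith [hu1'.1]) hd.le) (by field_simp; ring)
    have e3 : (u - u2) / (u1 - u2) * (x + (u1 - u)) + (u1 - u) / (u1 - u2) * (x + (u2 - u)) = x := by
      field_simp; ring
    have e4 : (u - u2) / (u1 - u2) * y + (u1 - u) / (u1 - u2) * y = y := by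
      field_simp; ring
    rw [e3, e4] at h1
    have g1 : u1 ^ 2 ≤ (|u| + δ) ^ 2 := by
      rw [← sq_abs u1]
      have : |u1| ≤ |u| + δ := by
        rw [abs_le]
        constructor
        · linarith [neg_abs_le u, hu1'.1]
        · linarith [le_abs_self u, hu1'.2]
      gcongr
    have g2 : u2 ^ 2 ≤ (|u| + δ) ^ 2 := by
      rw [← sq_abs u2]
      have : |u2| ≤ |u| + δ := by
        rw [abs_le]
        constructor
        · linarith [neg_abs_le u, hu2'.1]
        · linarith [le_abs_self u, hu2'.2]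
      gcongr
    have a1 : 0 ≤ (u - u2) / (u1 - u2) := div_nonneg (by linarith [hu2'.2]) hd.le
    have a2 : 0 ≤ (u1 - u) / (u1 - u2) := div_nonneg (by linarith [hu1'.1]) hd.le
    have a3 : (u - u2) / (u1 - u2) + (u1 - u) / (u1 - u2) = 1 := by field_simp; ring
    calc WW α x y ≤ (u - u2) / (u1 - u2) * WW α (x + (u1 - u)) y +
          (u1 - u) / (u1 - u2) * WW α (x + (u2 - u)) y := h1
      _ ≤ (u - u2) / (u1 - u2) * (|u| + δ) ^ 2 + (u1 - u) / (u1 - u2) * (|u| + δ) ^ 2 := by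
          gcongr
          · exact f1.trans g1
          · exact f2.trans g2
      _ = (|u| + δ) ^ 2 := by rw [← add_mul, a3, one_mul]
  have hlim : Tendsto (fun δ : ℝ => (|u| + δ) ^ 2) (𝓝[>] 0) (𝓝 ((|u| + 0) ^ 2)) := by
    apply Tendsto.mono_left _ nhdsWithin_le_nhds
    exact Continuous.tendsto (by fun_prop) 0
  have := ge_of_tendsto hlim (eventually_nhdsWithin_of_forall fun δ hδ => key δ hδ)
  rw [add_zero, sq_abs] at this
  exact this

end Pool.Agent.H220.C6
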