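import Pool.Agent.H220.C6.Det

set_option autoImplicit false

open Filter Metric Set Topology MeasureTheory

namespace Pool.Agent.H220.C6

open scoped Real

variable {α : ℝ}

/-! ### The two profiles -/

lemma hh_bound (R : ℝ) : ∃ M : ℝ, ∀ x y : ℝ, |x| ≤ R → |y| ≤ R →
    |hh α (x, y, R)| ≤ M ∧ |hh α (x, y, -R)| ≤ M := by
  have hc := continuous_hh α
  have hK : IsCompact (Icc (-R) R ×ˢ Icc (-R) R ×ˢ Icc (-|R|) |R| : Set P) :=
    isCompact_Icc.prod (isCompact_Icc.prod isCompact_Icc)
  obtain ⟨M, hM⟩ := hK.exists_bound_of_continuousOn hc.continuousOn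
  refine ⟨M, fun x y hx hy => ⟨?_, ?_⟩⟩
  · exact hM (x, y, R) ⟨abs_le.1 hx, abs_le.1 hy, neg_abs_le R, le_abs_self R⟩
  · exact hM (x, y, -R) ⟨abs_le.1 hx, abs_le.1 hy, neg_le_neg (le_abs_self R), neg_le_abs R⟩

lemma prof_UU (α : ℝ) : Prof (UU α) where
  supp p := by
    obtain ⟨a, h0, -, h1, -⟩ := UU_supp (α := α) p
    exact ⟨a, h0, h1⟩
  semi R := ⟨CC α R, (CC_pos α R).le, fun p v hp => UU_semi R p v hp⟩
  bdd R := by
    obtain ⟨M, hM⟩ := hh_bound (α := α) R
    refine ⟨M, fun p h1 h2 h3 => ?_⟩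
    obtain ⟨x, y, τ⟩ := p
    have h4 := UU_mono (α := α) x y h3
    have h5 := UU_le_hh (α := α) (x, y, R)
    have h6 := (hM x y h1 h2).1
    rw [abs_of_nonneg (UU_nonneg _)]
    linarith [le_abs_self (hh α (x, y, R))]

/-- the reflection of the last coordinate -/
noncomputable def refl : P →L[ℝ] P :=
  (ContinuousLinearMap.fst ℝ ℝ (ℝ × ℝ)).prod
    (((ContinuousLinearMap.fst ℝ ℝ ℝ).comp (ContinuousLinearMap.snd ℝ ℝ (ℝ × ℝ))).prod
      (-((ContinuousLinearMap.snd ℝ ℝ ℝ).comp (ContinuousLinearMap.snd ℝ ℝ (ℝ × ℝ)))))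

@[simp] lemma refl_apply (p : P) : refl p = (p.1, p.2.1, -p.2.2) := rfl

lemma refl_refl (p : P) : refl (refl p) = p := by simp

lemma norm_refl (p : P) : ‖refl p‖ = ‖p‖ := by
  simp [Prod.norm_def]

/-- the envelope at the other end of the fibre -/
noncomputable def VV (α : ℝ) (p : P) : ℝ := UU α (refl p) + p.2.2

lemma VV_mono (x y : ℝ) {τ τ' : ℝ} (h : τ ≤ τ') : VV α (x, y, τ) ≤ VV α (x, y, τ') := by
  have := UU_lip (α := α) x y (neg_le_neg h)
  simp only [VV, refl_apply]
  linarith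

lemma VV_ge (x y τ : ℝ) : ell α x y + qq y - 1 / 2 ≤ VV α (x, y, τ) := by
  have h1 := base_le_UU (α := α) x y (-τ)
  have h2 := chi_ge_sub (-τ + qq y)
  simp only [VV, refl_apply]
  linarith

lemma qq_nonneg (y : ℝ) : 0 ≤ qq y := by
  have := Real.pi_pos
  unfold qq; positivity

lemma prof_VV (α : ℝ) : Prof (VV α) where
  supp p := by
    obtain ⟨a, h0, h1, h2, -⟩ := UU_supp (α := α) (refl p)
    refine ⟨a.comp refl + lin 0 0 1, ?_, fun y => ?_⟩
    · have e : refl (0, 0, 1) = -(0, 0, 1) := by simp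
      rw [add_apply, ContinuousLinearMap.comp_apply, e, map_neg, lin_apply]
      simp only
      linarith
    · have h3 := h2 (refl y)
      rw [← map_sub] at h3
      simp only [VV, add_apply, ContinuousLinearMap.comp_apply, lin_apply, Prod.fst_sub,
        Prod.snd_sub]
      linarith
  semi R := by
    refine ⟨CC α R, (CC_pos α R).le, fun p v hp => ?_⟩
    have := UU_semi (α := α) R (refl p) (refl v) hp
    rw [← map_add, ← map_sub, norm_refl] at this
    simp only [VV, Prod.snd_add, Prod.snd_sub]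
    linarith
  bdd R := by
    obtain ⟨M, hM⟩ := hh_bound (α := α) R
    refine ⟨|M + R| + 1, fun p h1 h2 h3 => ?_⟩
    obtain ⟨x, y, τ⟩ := p
    have h4 := VV_mono (α := α) x y h3
    have h5 := UU_le_hh (α := α) (x, y, -R)
    have h6 := (hM x y h1 h2).2
    have h7 := VV_ge (α := α) x y τ
    have h8 := ell_nonneg α x y
    have h9 := qq_nonneg y
    have h10 : VV α (x, y, R) ≤ M + R := by
      simp only [VV, refl_apply]
      linarith [le_abs_self (hh α (x, y, -R))]
    rw [abs_le]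
    constructor
    · linarith [abs_nonneg (M + R)]
    · linarith [le_abs_self (M + R)]

/-! ### Affine changes of variables -/

lemma fderiv_affine {f : P → ℝ} (hf : Differentiable ℝ f) (A : P →L[ℝ] P) (c : P)
    (l : P →L[ℝ] ℝ) (d : ℝ) (p : P) :
    fderiv ℝ (fun q => f (A q + c) + l q + d) p = (fderiv ℝ f (A p + c)).comp A + l := by
  have h1 : HasFDerivAt (fun q => A q + c) A p := A.hasFDerivAt.add_const c
  have h2 := (((hf (A p + c)).hasFDerivAt.comp p h1).add l.hasFDerivAt).add_const d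
  exact h2.fderiv

lemma fderiv2_affine {f : P → ℝ} (hf : Differentiable ℝ f) (A : P →L[ℝ] P) (c : P)
    (l : P →L[ℝ] ℝ) (d : ℝ) (p : P) (hp : DifferentiableAt ℝ (fderiv ℝ f) (A p + c)) :
    DifferentiableAt ℝ (fderiv ℝ (fun q => f (A q + c) + l q + d)) p ∧ ∀ a b,
    fderiv ℝ (fderiv ℝ (fun q => f (A q + c) + l q + d)) p a b =
      fderiv ℝ (fderiv ℝ f) (A p + c) (A a) (A b) := by
  have e : fderiv ℝ (fun q => f (A q + c) + l q + d) =
      fun q => (fderiv ℝ f (A q + c)).comp A + l := funext fun q => fderiv_affine hf A c l d q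
  have h1 : HasFDerivAt (fun q => A q + c) A p := A.hasFDerivAt.add_const c
  have h2 : HasFDerivAt (fun q => fderiv ℝ f (A q + c))
      ((fderiv ℝ (fderiv ℝ f) (A p + c)).comp A) p := hp.hasFDerivAt.comp p h1
  have h3 := (h2.clm_comp (hasFDerivAt_const A p)).add_const l
  rw [e]
  refine ⟨h3.differentiableAt, fun a b => ?_⟩
  rw [h3.fderiv]
  simp

/-- the Hessian determinant is invariant under affine changes of determinant `±1` (in the form
needed here) -/
lemma hd_affine {f g : P → ℝ} (hf : Differentiable ℝ f) (hg : Differentiable ℝ g)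
    (A A' : P →L[ℝ] P) (c c' : P) (l l' : P →L[ℝ] ℝ) (d d' : ℝ)
    (hgf : g = fun q => f (A q + c) + l q + d) (hfg : f = fun q => g (A' q + c') + l' q + d')
    (hinv : ∀ q, A' (A q + c) + c' = q)
    (hA : ∀ B : P →L[ℝ] P →L[ℝ] ℝ, ∀ B' : P →L[ℝ] P →L[ℝ] ℝ,
      (∀ a b, B' a b = B (A a) (A b)) → dt B' = dt B) (p : P) : hd g p = hd f (A p + c) := by
  by_cases hp : DifferentiableAt ℝ (fderiv ℝ f) (A p + c)
  · have h1 := (fderiv2_affine hf A c l d p hp).2
    rw [← hgf] at h1
    exact hA _ _ h1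
  · have hp' : ¬ DifferentiableAt ℝ (fderiv ℝ g) p := fun hcon => by
      rw [← hinv p] at hcon
      have h1 := (fderiv2_affine hg A' c' l' d' (A p + c) hcon).1
      rw [← hfg] at h1
      exact hp h1
    rw [hd, hd, fderiv_zero_of_not_differentiableAt hp, fderiv_zero_of_not_differentiableAt hp']

lemma VV_eq : VV α = fun q => UU α (refl q + 0) + lin 0 0 1 q + 0 := by
  ext q
  simp [VV]

lemma UU_eq : UU α = fun q => VV α (refl q + 0) + lin 0 0 1 q + 0 := by
  ext q
  simp [VV]

lemma hd_VV (p : P) : hd (VV α) p = hd (UU α) (refl p) := by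
  have := hd_affine (prof_UU α).differentiable (prof_VV α).differentiable refl refl 0 0
    (lin 0 0 1) (lin 0 0 1) 0 0 VV_eq UU_eq (fun q => by simp) (fun B B' h => by
      have e1 : refl (1, 0, 0) = (1, 0, 0) := by simp
      have e2 : refl (0, 1, 0) = (0, 1, 0) := by simp
      have e3 : refl (0, 0, 1) = -(0, 0, 1) := by simp
      rw [dt_eq, dt_eq]
      simp only [h, e1, e2, e3, map_neg, neg_apply]
      ring) p
  rwa [add_zero] at this

lemma VV_diff {p : P} (hp : DifferentiableAt ℝ (fderiv ℝ (VV α)) p) :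
    DifferentiableAt ℝ (fderiv ℝ (UU α)) (refl p) := by
  have h := (fderiv2_affine (prof_VV α).differentiable refl 0 (lin 0 0 1) 0 (refl p)
    (by rwa [refl_refl, add_zero])).1
  rwa [← UU_eq] at h

/-! ### Periodicity -/

lemma tw_tw (v w : ℝ) (q : P) : tw (-v) (-w) 0 (tw v w 0 q) = q := by
  obtain ⟨x, y, τ⟩ := q
  simp only [tw]
  refine Prod.ext ?_ (Prod.ext ?_ ?_) <;> simp only <;> ring

lemma hh_period (m n : ℤ) (q : P) :
    hh α (tw m n 0 q) = hh α q + (ell α (q.1 + m) (q.2.1 + n) - ell α q.1 q.2.1) := by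
  unfold hh
  rw [tw_t]
  have h : ∀ (x : ℝ) (k : ℤ), Real.sin (π * (x + k)) ^ 2 = Real.sin (π * x) ^ 2 := by
    intro x k
    rw [mul_add, mul_comm π (k : ℝ), Real.sin_add_int_mul_pi, mul_pow]
    have : ((-1 : ℝ) ^ k) ^ 2 = 1 := by
      rw [← zpow_natCast, ← zpow_mul, mul_comm, zpow_mul]; norm_num
    rw [this, one_mul]
  simp only [tw, bb, h]
  ring_nf

lemma UU_period_le (m n : ℤ) (p : P) :
    UU α p + (ell α (p.1 + m) (p.2.1 + n) - ell α p.1 p.2.1) ≤ UU α (tw m n 0 p) := by
  obtain ⟨a, h0, h1, -, h2⟩ := UU_supp (α := α) p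
  refine le_UU_of_tangent (tw m n 0 p) _ (a (1, 0, 0) + 2 * (m - α * n))
    (a (0, 1, 0) + 4 * π * n * a (0, 0, 1) - 2 * α * (m - α * n)) (a (0, 0, 1)) h0 h1 fun q' => ?_
  have h3 := h2 (tw (-m) (-n) 0 q')
  have h4 := hh_period (α := α) m n (tw (-m) (-n) 0 q')
  have h5 : tw m n 0 (tw (-m) (-n) 0 q') = q' := by
    have := tw_tw (-m) (-n) q'
    rwa [neg_neg, neg_neg] at this
  rw [h5] at h4
  rw [clm_eq a] at h3
  rw [h4]
  simp only [tw, ell, Prod.fst_sub, Prod.snd_sub] at h3 ⊢
  nlinarith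

lemma UU_period (m n : ℤ) (p : P) :
    UU α (tw m n 0 p) = UU α p + (ell α (p.1 + m) (p.2.1 + n) - ell α p.1 p.2.1) := by
  refine le_antisymm ?_ (UU_period_le m n p)
  have h := UU_period_le (α := α) (-m) (-n) (tw m n 0 p)
  push_cast at h
  rw [tw_tw] at h
  simp only [tw] at h ⊢
  rw [show p.1 + (m : ℝ) + -m = p.1 by ring, show p.2.1 + (n : ℝ) + -n = p.2.1 by ring] at h
  linarith

/-- the linear part of the twisted translation -/
noncomputable def shear (w : ℝ) : P →L[ℝ] P :=
  (ContinuousLinearMap.fst ℝ ℝ (ℝ × ℝ)).prod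
    (((ContinuousLinearMap.fst ℝ ℝ ℝ).comp (ContinuousLinearMap.snd ℝ ℝ (ℝ × ℝ))).prod
      (lin 0 (-(4 * π * w)) 1))

@[simp] lemma shear_apply (w : ℝ) (p : P) :
    shear w p = (p.1, p.2.1, p.2.2 - 4 * π * w * p.2.1) := by
  refine Prod.ext rfl (Prod.ext rfl ?_)
  show lin 0 (-(4 * π * w)) 1 p = _
  rw [lin_apply]; ring

lemma tw_eq (v w : ℝ) (p : P) : tw v w 0 p = shear w p + (v, w, -(2 * π * w ^ 2)) := by
  simp only [tw, shear_apply, Prod.mk_add_mk]
  refine Prod.ext rfl (Prod.ext rfl ?_)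
  simp only
  ring

lemma UU_affine (m n : ℤ) : UU α =
    fun q => UU α (shear n q + ((m : ℝ), (n : ℝ), -(2 * π * (n : ℝ) ^ 2))) +
    lin (-(2 * (m - α * n))) (2 * α * (m - α * n)) 0 q + -(m - α * n) ^ 2 := by
  ext q
  rw [← tw_eq, UU_period]
  simp only [lin_apply, ell]
  ring

lemma hd_UU_period (m n : ℤ) (p : P) : hd (UU α) (tw m n 0 p) = hd (UU α) p := by
  have h1 := UU_affine (α := α) m n
  have h2 := UU_affine (α := α) (-m) (-n)
  set A : P →L[ℝ] P := shear n with hA
  set A' : P →L[ℝ] P := shear (-n : ℤ) with hA'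
  set c : P := ((m : ℝ), (n : ℝ), -(2 * π * (n : ℝ) ^ 2)) with hc
  set c' : P := (((-m : ℤ) : ℝ), ((-n : ℤ) : ℝ), -(2 * π * ((-n : ℤ) : ℝ) ^ 2)) with hc'
  have e1 : A (1, 0, 0) = (1, 0, 0) := by simp [hA]
  have e2 : A (0, 1, 0) = (0, 1, 0) + (-(4 * π * n)) • ((0, 0, 1) : P) := by simp [hA]
  have e3 : A (0, 0, 1) = (0, 0, 1) := by simp [hA]
  have hinv : ∀ q, A' (A q + c) + c' = q := by
    intro q
    have g1 : A q + c = tw m n 0 q := (tw_eq _ _ _).symm
    have g2 : ∀ q, A' q + c' = tw (-m : ℤ) (-n : ℤ) 0 q := fun q => (tw_eq _ _ _).symm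
    rw [g1, g2]
    push_cast
    exact tw_tw _ _ _
  have h := hd_affine (f := UU α) (g := UU α) (prof_UU α).differentiable
    (prof_UU α).differentiable A A' c c' _ _ _ _ h1 h2 hinv (fun B B' hB => by
      rw [dt_eq, dt_eq]
      simp only [hB, e1, e2, e3, map_add, map_smul, add_apply, smul_apply, smul_eq_mul]
      ring) p
  rw [h, tw_eq]

/-! ### Degeneracy away from `0 ≤ t ≤ 1` -/

lemma ne_pd_noncontact {p : P} (hp : DifferentiableAt ℝ (fderiv ℝ (UU α)) p)
    (hc : UU α p < hh α p) : ∃ v : P, v ≠ 0 ∧ fderiv ℝ (fderiv ℝ (UU α)) p v v ≤ 0 := by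
  by_contra hcon
  push Not at hcon
  set B := fderiv ℝ (fderiv ℝ (UU α)) p with hB
  set L := fderiv ℝ (UU α) p with hL
  -- a lower bound on the unit sphere
  obtain ⟨c, hc0, hcB⟩ : ∃ c > 0, ∀ v : P, c * ‖v‖ ^ 2 ≤ B v v := by
    have hcont : Continuous fun v : P => B v v := by fun_prop
    have hne : (sphere (0 : P) 1).Nonempty := ⟨(1, 0, 0), by simp [Prod.norm_def]⟩
    obtain ⟨v0, hv0, hmin⟩ := (isCompact_sphere (0 : P) 1).exists_isMinOn hne hcont.continuousOn
    have hv0' : v0 ≠ 0 := by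
      rintro rfl
      simp at hv0
    refine ⟨B v0 v0, hcon v0 hv0', fun v => ?_⟩
    rcases eq_or_ne v 0 with rfl | hv
    · simp
    · have hn : 0 < ‖v‖ := norm_pos_iff.2 hv
      have h1 : (‖v‖⁻¹ • v) ∈ sphere (0 : P) 1 := by
        simp [norm_smul, hn.ne']
      have h2 : B v0 v0 ≤ B (‖v‖⁻¹ • v) (‖v‖⁻¹ • v) := hmin h1
      simp only [map_smul, smul_apply, smul_eq_mul] at h2
      calc B v0 v0 * ‖v‖ ^ 2 ≤ (‖v‖⁻¹ * (‖v‖⁻¹ * B v v)) * ‖v‖ ^ 2 := by gcongr
        _ = B v v := by field_simp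
  obtain ⟨a, ha0, ha1, hsupp, -⟩ := UU_supp (α := α) p
  have haL : a = L := by
    obtain ⟨a', -, h1, h2⟩ := (prof_UU α).exists_quad p
    have e1 : a' = L := h2.fderiv.symm
    -- both are subgradients of a differentiable function
    have hder : HasFDerivAt (UU α) L p := ((prof_UU α).differentiable p).hasFDerivAt
    have key : ∀ v : P, a v ≤ L v := by
      intro v
      have hd : HasDerivAt (fun s : ℝ => UU α (p + s • v)) (L v) 0 := by
        have g1 : HasDerivAt (fun s : ℝ => p + s • v) v 0 := by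
          simpa using! ((hasDerivAt_id (0 : ℝ)).smul_const v).const_add p
        have g2 : HasFDerivAt (UU α) L (p + (0 : ℝ) • v) := by simpa using hder
        exact g2.comp_hasDerivAt (0 : ℝ) g1
      refine ge_of_tendsto hd.tendsto_slope_zero_right ?_
      filter_upwards [self_mem_nhdsWithin] with s hs
      have hs' : (0 : ℝ) < s := hs
      have g3 := hsupp (p + s • v)
      rw [add_sub_cancel_left, map_smul, smul_eq_mul] at g3
      rw [zero_add, zero_smul, add_zero, smul_eq_mul, le_inv_mul_iff₀ hs']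
      linarith
    refine ContinuousLinearMap.ext fun v => le_antisymm (key v) ?_
    have := key (-v)
    rw [map_neg, map_neg] at this
    linarith
  -- the Taylor expansion
  obtain ⟨δ, hδ, ht⟩ := taylor_two (prof_UU α).differentiable hp (ε := c / 4) (by positivity)
  rw [← hB, ← hL] at ht
  -- the continuity of the obstacle
  have hcont : Continuous fun v : P => hh α (p + v) - (UU α p + L v) - c / 4 * ‖v‖ ^ 2 := by
    have := continuous_hh α
    fun_prop
  have h0 : 0 < hh α (p + 0) - (UU α p + L 0) - c / 4 * ‖(0 : P)‖ ^ 2 := by simpa using hc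
  obtain ⟨δ', hδ', hh'⟩ := Metric.eventually_nhds_iff.1
    (hcont.continuousAt.eventually (lt_mem_nhds h0))
  have hcont2 : Continuous fun v : P => hh α (p + v) - (UU α p + L v) := by
    have := continuous_hh α
    fun_prop
  have h02 : (hh α p - UU α p) / 2 < hh α (p + 0) - (UU α p + L 0) := by
    simp only [add_zero, map_zero]; linarith
  obtain ⟨δ2, hδ2, hh2⟩ := Metric.eventually_nhds_iff.1
    (hcont2.continuousAt.eventually (lt_mem_nhds h02))
  obtain ⟨r, hr, hr1, hr2, hr3⟩ : ∃ r > 0, r ≤ δ ∧ r < δ2 ∧ c / 4 * r ^ 2 ≤ (hh α p - UU α p) / 2 := by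
    have hgap : 0 < (hh α p - UU α p) / 2 := by linarith
    refine ⟨min (min δ (δ2 / 2)) (min 1 (2 * ((hh α p - UU α p)) / c)), ?_, ?_, ?_, ?_⟩
    · have : 0 < 2 * (hh α p - UU α p) / c := by
        apply div_pos _ hc0; linarith
      exact lt_min (lt_min hδ (half_pos hδ2)) (lt_min one_pos this)
    · exact (min_le_left _ _).trans (min_le_left _ _)
    · exact ((min_le_left _ _).trans (min_le_right _ _)).trans_lt (half_lt_self hδ2)
    · set r := min (min δ (δ2 / 2)) (min 1 (2 * ((hh α p - UU α p)) / c)) with hr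
      have hrpos : 0 < r := by
        have : 0 < 2 * (hh α p - UU α p) / c := by
          apply div_pos _ hc0; linarith
        exact lt_min (lt_min hδ (half_pos hδ2)) (lt_min one_pos this)
      have h1 : r ≤ 1 := (min_le_right _ _).trans (min_le_left _ _)
      have h2 : r ≤ 2 * (hh α p - UU α p) / c := (min_le_right _ _).trans (min_le_right _ _)
      rw [le_div_iff₀ hc0] at h2
      nlinarith
  -- the shifted affine function is a minorant
  have hminor : ∀ q : P, UU α p + c / 4 * r ^ 2 + L (q - p) ≤ hh α q := by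
    intro q
    set v := q - p with hv
    have hq : q = p + v := by rw [hv]; abel
    rcases le_or_gt ‖v‖ r with hvr | hvr
    · have h1 := hh2 (y := v) (by rw [dist_zero_right]; linarith)
      rw [hq]
      linarith
    · have hn : 0 < ‖v‖ := hr.trans hvr
      set s := r / ‖v‖ with hs
      have hs0 : 0 < s := div_pos hr hn
      have hs1 : s ≤ 1 := by rw [hs, div_le_one hn]; exact hvr.le
      have hsv : ‖s • v‖ = r := by
        rw [norm_smul, Real.norm_eq_abs, abs_of_pos hs0, hs, div_mul_cancel₀ _ hn.ne']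
      have h1 := ht (s • v) (by rw [hsv]; exact hr1)
      have h2 := hcB (s • v)
      rw [hsv] at h1 h2
      have h3 : UU α (p + s • v) ≤ (1 - s) * UU α p + s * UU α (p + v) := by
        have := (UU_convex (α := α)).2 (mem_univ p) (mem_univ (p + v))
          (show 0 ≤ 1 - s by linarith) hs0.le (by ring)
        have e : (1 - s) • p + s • (p + v) = p + s • v := by module
        rw [e] at this
        simpa using this
      have h4 := (abs_le.1 h1).1
      rw [map_smul, smul_eq_mul] at h4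
      have h5 : UU α p + s * L v + c / 4 * r ^ 2 ≤ UU α (p + s • v) := by linarith
      have h6 : s * (UU α p + L v + c / 4 * r ^ 2) ≤ s * UU α (p + v) := by
        have : s * (c / 4 * r ^ 2) ≤ c / 4 * r ^ 2 := by
          have : 0 ≤ c / 4 * r ^ 2 := by positivity
          nlinarith
        linarith
      have h7 := le_of_mul_le_mul_left h6 hs0
      rw [hq]
      have h8 := UU_le_hh (α := α) (p + v)
      linarith
  have hfin : UU α p + c / 4 * r ^ 2 ≤ UU α p := by
    refine le_UU_of_tangent p _ (L (1, 0, 0)) (L (0, 1, 0)) (L (0, 0, 1)) (haL ▸ ha0) (haL ▸ ha1)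
      fun q => ?_
    have := hminor q
    rw [clm_eq L] at this
    simp only [Prod.fst_sub, Prod.snd_sub] at this
    linarith
  have : 0 < c / 4 * r ^ 2 := by positivity
  linarith

lemma UU_deg {p : P} (hp : DifferentiableAt ℝ (fderiv ℝ (UU α)) p)
    (ht : p.2.2 + qq p.2.1 < 0 ∨ 1 < p.2.2 + qq p.2.1) : hd (UU α) p = 0 := by
  have hU := prof_UU α
  rcases (UU_le_hh (α := α) p).lt_or_eq with hlt | heq
  · obtain ⟨v, hv, hv0⟩ := ne_pd_noncontact hp hlt
    exact hU.hd_zero hp hv hv0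
  · refine hU.hd_zero hp (v := (0, 0, 1)) (by simp) ?_
    refine (second_bounds hU.differentiable hp (0, 0, 1) (c := 0) (C := 0)
      (Eventually.of_forall fun s => ?_) ?_).2
    · have h1 := hU.lower p (s • (0, 0, 1))
      have h2 := hU.lower p (-(s • (0, 0, 1)))
      rw [map_neg, ← sub_eq_add_neg, ← sub_eq_add_neg] at h2
      linarith
    · obtain ⟨x, y, τ⟩ := p
      simp only at ht
      have hs : ∀ᶠ s : ℝ in 𝓝[>] 0, s < |τ + qq y - 1| ∧ s < |τ + qq y| := by
        have h1 : 0 < |τ + qq y - 1| := by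
          rw [abs_pos]; intro h; rcases ht with ht | ht <;> linarith
        have h2 : 0 < |τ + qq y| := by
          rw [abs_pos]; intro h; rcases ht with ht | ht <;> linarith
        have h3 : ∀ᶠ s : ℝ in 𝓝[>] 0, s < |τ + qq y - 1| :=
          mem_nhdsWithin_of_mem_nhds (Iio_mem_nhds h1)
        have h4 : ∀ᶠ s : ℝ in 𝓝[>] 0, s < |τ + qq y| :=
          mem_nhdsWithin_of_mem_nhds (Iio_mem_nhds h2)
        exact h3.and h4
      filter_upwards [hs, self_mem_nhdsWithin] with s hs hs0
      have hs0' : (0 : ℝ) < s := hs0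
      have e1 : (x, y, τ) + s • ((0, 0, 1) : P) = (x, y, τ + s) := by simp
      have e2 : (x, y, τ) - s • ((0, 0, 1) : P) = (x, y, τ - s) := by simp
      rw [e1, e2, heq]
      have h1 := UU_le_hh (α := α) (x, y, τ + s)
      have h2 := UU_le_hh (α := α) (x, y, τ - s)
      unfold hh at h1 h2 ⊢
      simp only at h1 h2 ⊢
      rcases ht with ht | ht
      · rw [abs_of_neg ht] at hs
        rw [chi_of_nonpos (by linarith [hs.2])] at h1
        rw [chi_of_nonpos (by linarith)] at h2
        rw [chi_of_nonpos ht.le]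
        linarith
      · rw [abs_of_pos (show 0 < τ + qq y - 1 by linarith)] at hs
        rw [chi_of_one_le (by linarith)] at h1
        rw [chi_of_one_le (by linarith [hs.1])] at h2
        rw [chi_of_one_le ht.le]
        linarith

end Pool.Agent.H220.C6
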