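import Pool.Agent.H220.C6.Dens

/-!
# The solution and the density on the threefold
-/

set_option autoImplicit false

open Filter Metric Set Topology
open scoped ContDiff Real

namespace Pool.Agent.H220.C6

variable {α : ℝ}

/-- the profile in the two coordinate systems -/
noncomputable def UV (α : ℝ) : Bool → P → ℝ
  | false => UU α
  | true => VV α

lemma prof_UV (α : ℝ) (i : Bool) : Prof (UV α i) := by
  cases i with
  | false => exact prof_UU α
  | true => exact prof_VV α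

lemma tw_int (m n : ℤ) (x y τ : ℝ) : tw m n 0 (x, y, τ) =
    (x + m, y + n, τ - (4 * π * n * y + 2 * π * n ^ 2)) := by
  simp only [tw]
  refine Prod.ext rfl (Prod.ext rfl ?_)
  simp only
  ring

lemma UV_period (i : Bool) (a m : ℤ) (x y τ : ℝ) :
    UV α i (x + a, y + m, τ - sn i * (4 * π * m * y + 2 * π * m ^ 2)) =
      UV α i (x, y, τ) + (ell α (x + a) (y + m) - ell α x y +
        cn i * (4 * π * m * y + 2 * π * m ^ 2)) := by
  cases i with
  | false =>
    have := UU_period (α := α) a m (x, y, τ)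
    rw [tw_int] at this
    simp only [UV, sn, cn, one_mul, zero_mul, add_zero]
    exact this
  | true =>
    have := UU_period (α := α) a m (x, y, -τ)
    rw [tw_int] at this
    simp only [UV, VV, refl_apply, sn, cn, one_mul]
    have e : -(τ - -1 * (4 * π * m * y + 2 * π * m ^ 2)) =
      -τ - (4 * π * m * y + 2 * π * m ^ 2) := by ring
    rw [e, this]
    ring

lemma uu0_dk (i : Bool) (a b m n : ℤ) (z : E) : uu0 (UV α i) (dk i a b m n z) =
    uu0 (UV α i) z + (ell α (z.1.re + a) (z.2.1.re + m) - ell α z.1.re z.2.1.re +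
      cn i * (4 * π * m * z.2.1.re + 2 * π * m ^ 2)) := by
  by_cases hz : z.2.2 = 0
  · have hz' : (dk i a b m n z).2.2 = 0 := by simp [dk, hz]
    rw [uu0, uu0, if_pos hz, if_pos hz', re1_dk, re2_dk]
    have h1 : ∀ τ : ℝ, UV α i (z.1.re + a, z.2.1.re + m,
        τ - sn i * (4 * π * m * z.2.1.re + 2 * π * m ^ 2)) = _ :=
      fun τ => UV_period i a m z.1.re z.2.1.re τ
    have h2 : (⨅ τ : ℝ, UV α i (z.1.re + a, z.2.1.re + m, τ)) =
        ⨅ τ : ℝ, UV α i (z.1.re + a, z.2.1.re + m,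
          τ - sn i * (4 * π * m * z.2.1.re + 2 * π * m ^ 2)) :=
      ((Equiv.subRight (sn i * (4 * π * m * z.2.1.re + 2 * π * m ^ 2))).iInf_comp
        (g := fun τ => UV α i (z.1.re + a, z.2.1.re + m, τ))).symm
    rw [h2]
    simp only [h1]
    exact (ciInf_add ((prof_UV α i).bddBelow _ _) _).symm
  · have hz' := dk_third_ne (i := i) (a := a) (b := b) (m := m) (n := n) hz
    rw [uu0, uu0, if_neg hz, if_neg hz']
    have h1 : Psi 0 (dk i a b m n z) = (z.1.re + a, z.2.1.re + m,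
        psi 0 z.2.2 - sn i * (4 * π * m * z.2.1.re + 2 * π * m ^ 2)) := by
      rw [Psi, re1_dk, re2_dk]
      refine Prod.ext rfl (Prod.ext rfl ?_)
      simp only [psi, add_zero]
      rw [normSq_dk, Real.log_mul (Complex.normSq_pos.2 hz).ne' (Real.exp_pos _).ne', Real.log_exp]
      ring
    rw [h1, UV_period]
    rfl

lemma Psi_iv {z : E} : Psi 0 (iv z) = refl (Psi 0 z) := by
  simp only [Psi, iv, psi, add_zero, refl_apply, Complex.normSq_inv, Real.log_inv]

lemma UV_refl (i : Bool) (p : P) : UV α (!i) (refl p) = UV α i p - p.2.2 := by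
  cases i with
  | false =>
    simp only [UV, VV, Bool.not_false, refl_refl]
    simp
    ring
  | true =>
    simp only [UV, VV, Bool.not_true]
    ring

lemma uu0_iv (i : Bool) {z : E} (hz : z.2.2 ≠ 0) :
    uu0 (UV α (!i)) (iv z) = uu0 (UV α i) z - Real.log (Complex.normSq z.2.2) := by
  have hz' : (iv z).2.2 ≠ 0 := inv_ne_zero hz
  rw [uu0, uu0, if_neg hz, if_neg hz', Psi_iv, UV_refl]
  simp [Psi, psi]

/-- the solution in the coordinates -/
noncomputable def Ph (α : ℝ) (i : Bool) (z : E) : ℝ := uu0 (UV α i) z - PP α 0 i z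

lemma PP_dk' (i : Bool) (a b m n : ℤ) (z : E) : PP α 0 i (dk i a b m n z) =
    PP α 0 i z + (ell α (z.1.re + a) (z.2.1.re + m) - ell α z.1.re z.2.1.re +
      cn i * (4 * π * m * z.2.1.re + 2 * π * m ^ 2)) := by
  simp only [PP, lg_dk, re1_dk, re2_dk]
  ring

lemma Ph_dk (i : Bool) (a b m n : ℤ) (z : E) : Ph α i (dk i a b m n z) = Ph α i z := by
  rw [Ph, Ph, uu0_dk, PP_dk']
  ring

lemma Ph_iv (i : Bool) (z : E) (hz : z.2.2 ≠ 0) : Ph α (!i) (iv z) = Ph α i z := by
  rw [Ph, Ph, uu0_iv i hz, PP_iv _ _ i hz]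
  ring

/-- the density in logarithmic coordinates -/
noncomputable def fd (α : ℝ) (p : P) : ℝ :=
  if 0 ≤ tt p ∧ tt p ≤ 1 then hd (UU α) p / hd G0 p else 0

/-- logarithmic coordinates -/
noncomputable def lc : Bool → E → P
  | false => fun z => Psi 0 z
  | true => fun z => refl (Psi 0 z)

open Classical in
/-- the density in the coordinates -/
noncomputable def Fd (α : ℝ) (i : Bool) (z : E) : ℝ := if z.2.2 = 0 then 0 else fd α (lc i z)

lemma lc_dk (i : Bool) (a b m n : ℤ) {z : E} (hz : z.2.2 ≠ 0) :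
    lc i (dk i a b m n z) = tw a m 0 (lc i z) := by
  have h1 : Psi 0 (dk i a b m n z) = (z.1.re + a, z.2.1.re + m,
      psi 0 z.2.2 - sn i * (4 * π * m * z.2.1.re + 2 * π * m ^ 2)) := by
    rw [Psi, re1_dk, re2_dk]
    refine Prod.ext rfl (Prod.ext rfl ?_)
    simp only [psi, add_zero]
    rw [normSq_dk, Real.log_mul (Complex.normSq_pos.2 hz).ne' (Real.exp_pos _).ne', Real.log_exp]
    ring
  have h2 : Psi 0 z = (z.1.re, z.2.1.re, psi 0 z.2.2) := rfl
  cases i with
  | false =>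
    change Psi 0 (dk false a b m n z) = tw a m 0 (Psi 0 z)
    rw [h1, h2, tw_int]
    simp [sn]
  | true =>
    change refl (Psi 0 (dk true a b m n z)) = tw a m 0 (refl (Psi 0 z))
    rw [h1, h2, refl_apply, refl_apply, tw_int]
    refine Prod.ext rfl (Prod.ext rfl ?_)
    simp only [sn]
    ring

lemma tt_tw (a m : ℤ) (p : P) : tt (tw a m 0 p) = tt p := by
  obtain ⟨x, y, τ⟩ := p
  rw [tw_int]
  simp only [tt]
  ring

lemma fd_tw (a m : ℤ) (p : P) : fd α (tw a m 0 p) = fd α p := by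
  simp only [fd, tt_tw, hd_UU_period, hd_G0]

lemma lc_iv (i : Bool) (z : E) : lc (!i) (iv z) = lc i z := by
  cases i with
  | false =>
    simp only [lc, Bool.not_false, Psi_iv, refl_refl]
  | true =>
    simp only [lc, Bool.not_true, Psi_iv]

lemma Fd_dk (i : Bool) (a b m n : ℤ) (z : E) : Fd α i (dk i a b m n z) = Fd α i z := by
  by_cases hz : z.2.2 = 0
  · have hz' : (dk i a b m n z).2.2 = 0 := by simp [dk, hz]
    rw [Fd, Fd, if_pos hz, if_pos hz']
  · rw [Fd, Fd, if_neg hz, if_neg (dk_third_ne hz), lc_dk i _ _ _ _ hz, fd_tw]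

lemma Fd_iv (i : Bool) (z : E) (hz : z.2.2 ≠ 0) : Fd α (!i) (iv z) = Fd α i z := by
  have hz' : (iv z).2.2 ≠ 0 := inv_ne_zero hz
  rw [Fd, Fd, if_neg hz, if_neg hz', lc_iv]

lemma exists_phi (α : ℝ) : ∃ φ : X3 → ℝ, ∀ i z, φ (kp i z) = Ph α i z :=
  descend (Ph α) Ph_dk Ph_iv

lemma exists_f (α : ℝ) : ∃ f : X3 → ℝ, ∀ i z, f (kp i z) = Fd α i z :=
  descend (Fd α) Fd_dk Fd_iv

/-! ### Bounds -/

lemma fd_nonneg (p : P) : 0 ≤ fd α p := by
  rw [fd]
  split_ifs
  · exact div_nonneg ((prof_UU α).hd_nonneg p) (hd_G0_pos p).le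
  · exact le_rfl

lemma fd_le (α : ℝ) : ∃ C : ℝ, 0 ≤ C ∧ ∀ p, fd α p ≤ C := by
  obtain ⟨C, hC, hC'⟩ := (prof_UU α).hd_le 1
  refine ⟨4 * C, by positivity, fun p => ?_⟩
  -- reduction to a bounded `y`
  have h0 : ∀ p : P, |p.2.1| ≤ 1 → fd α p ≤ 4 * C := by
    intro p hp
    rw [fd]
    split_ifs with h
    · have h1 : 1 / 4 ≤ hd G0 p := by
        rw [hd_G0]
        have h2 := F1_pos (tt p)
        have h3 : 1 / 16 ≤ F2 (tt p) := by
          rw [F2, div_le_div_iff₀ (by norm_num) (by positivity)]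
          have h4 : 1 ≤ Real.exp (tt p) := Real.one_le_exp h.1
          have h5 : Real.exp (tt p) ≤ 3 :=
            (Real.exp_le_exp.2 h.2).trans (Real.exp_one_lt_d9.le.trans (by norm_num))
          nlinarith
        have h4 : 0 ≤ 4 * π * F1 (tt p) := by positivity
        nlinarith
      rw [div_le_iff₀ (hd_G0_pos p)]
      have h2 := hC' p hp
      nlinarith
    · positivity
  have h1 : fd α p = fd α (tw (0 : ℤ) (-⌊p.2.1⌋ : ℤ) 0 p) := (fd_tw _ _ p).symm
  rw [h1]
  apply h0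
  obtain ⟨x, y, τ⟩ := p
  rw [tw_int]
  simp only
  push_cast
  rw [← sub_eq_add_neg, Int.self_sub_floor, abs_of_nonneg (Int.fract_nonneg _)]
  exact (Int.fract_lt_one _).le

lemma f_bounds {f : X3 → ℝ} (hf : ∀ i z, f (kp i z) = Fd α i z) :
    ∃ C, ∀ x, 0 ≤ f x ∧ f x ≤ C := by
  obtain ⟨C, hC, hC'⟩ := fd_le α
  refine ⟨C, fun x => ?_⟩
  obtain ⟨i, z, rfl⟩ := kp_surj x
  rw [hf, Fd]
  split_ifs
  · exact ⟨le_rfl, hC⟩
  · exact ⟨fd_nonneg _, hC' _⟩

/-- bound of the difference of the profiles -/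
lemma base_bound (t : ℝ) : |chi t - Real.log (1 + Real.exp t)| ≤ 2 := by
  have h1 := chi_nonneg t
  have h2 := chi_ge_sub t
  have hl : Real.log 2 < 1 := by
    have := Real.log_two_lt_d9; linarith
  rcases le_total t 0 with ht | ht
  · rw [chi_of_nonpos ht]
    have h3 : 0 ≤ Real.log (1 + Real.exp t) := Real.log_nonneg (by
      have := Real.exp_pos t; linarith)
    have h4 : Real.log (1 + Real.exp t) ≤ Real.log 2 :=
      Real.log_le_log (by positivity) (by have := Real.exp_le_one_iff.2 ht; linarith)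
    rw [abs_le]; constructor <;> linarith
  · have h3 : t ≤ Real.log (1 + Real.exp t) := by
      rw [Real.le_log_iff_exp_le (by positivity)]
      linarith
    have h4 : Real.log (1 + Real.exp t) ≤ Real.log 2 + t := by
      rw [Real.log_le_iff_le_exp (by positivity), Real.exp_add, Real.exp_log two_pos]
      have := Real.one_le_exp ht
      linarith
    have h5 := chi_le t
    rw [abs_of_nonneg ht] at h5
    rw [abs_le]; constructor <;> linarith

lemma Ph_false {z : E} (hz : z.2.2 ≠ 0) : |Ph α false z| ≤ 4 := by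
  have hn := Complex.normSq_pos.2 hz
  rw [Ph, uu0, if_neg hz]
  have h1 := base_le_UU (α := α) z.1.re z.2.1.re (psi 0 z.2.2)
  have h2 := UU_le_hh (α := α) (z.1.re, z.2.1.re, psi 0 z.2.2)
  have h3 := bb_nonneg z.1.re z.2.1.re
  have h4 := bb_le z.1.re z.2.1.re
  have h5 := base_bound (psi 0 z.2.2 + qq z.2.1.re)
  have h6 : PP α 0 false z = ell α z.1.re z.2.1.re +
      Real.log (1 + Real.exp (psi 0 z.2.2 + qq z.2.1.re)) := by
    simp only [PP, lg, psi, add_zero, zero_mul]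
    rw [Real.exp_add, Real.exp_log hn]
  have h7 : UV α false (Psi 0 z) = UU α (z.1.re, z.2.1.re, psi 0 z.2.2) := rfl
  rw [h6, h7]
  simp only [hh] at h2
  rw [abs_le] at h5 ⊢
  constructor <;> linarith [h5.1, h5.2]

lemma Ph_zero (hα : Irrational α) {z : E} (hz : z.2.2 = 0) : Ph α false z = 0 := by
  rw [Ph, uu0, if_pos hz]
  have h1 : (⨅ τ : ℝ, UV α false (z.1.re, z.2.1.re, τ)) = ell α z.1.re z.2.1.re :=
    WW_eq hα z.1.re z.2.1.re
  rw [h1]
  simp [PP, lg, hz]

lemma Ph_infty {z : E} (hz : z.2.2 = 0) : |Ph α true z| ≤ 4 := by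
  rw [Ph, uu0, if_pos hz]
  have h1 : ell α z.1.re z.2.1.re + qq z.2.1.re - 1 / 2 ≤
      ⨅ τ : ℝ, UV α true (z.1.re, z.2.1.re, τ) :=
    le_ciInf fun τ => VV_ge z.1.re z.2.1.re τ
  have h2 : (⨅ τ : ℝ, UV α true (z.1.re, z.2.1.re, τ)) ≤ VV α (z.1.re, z.2.1.re, -1) :=
    ciInf_le ((prof_UV α true).bddBelow _ _) (-1)
  have h3 := UU_le_hh (α := α) (z.1.re, z.2.1.re, 1)
  have h4 := bb_le z.1.re z.2.1.re
  have hq := qq_nonneg z.2.1.re
  simp only [hh] at h3
  rw [chi_of_one_le (by linarith)] at h3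
  simp only [VV, refl_apply, neg_neg] at h2
  have h6 : PP α 0 true z = ell α z.1.re z.2.1.re + qq z.2.1.re := by
    simp [PP, lg, hz]
  rw [h6, abs_le]
  constructor <;> linarith

lemma phi_bounds (hα : Irrational α) {φ : X3 → ℝ} (hφ : ∀ i z, φ (kp i z) = Ph α i z) :
    ∃ C, ∀ x, |φ x| ≤ C := by
  refine ⟨4, fun x => ?_⟩
  obtain ⟨i, z, rfl⟩ := kp_surj x
  rw [hφ]
  by_cases hz : z.2.2 = 0
  · cases i with
    | false => rw [Ph_zero hα hz]; norm_num
    | true => exact Ph_infty hz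
  · cases i with
    | false => exact Ph_false hz
    | true =>
      have := Ph_iv (α := α) true z hz
      rw [← this]
      exact Ph_false (z := iv z) (inv_ne_zero hz)

end Pool.Agent.H220.C6
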