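import Pool.Agent.H220.C6.Defs

/-!
# Gluing of complex manifolds of dimension three
-/

set_option autoImplicit false
set_option linter.style.haveILetI false

open Filter Metric Set Topology
open scoped Manifold ContDiff

namespace Pool.Agent.H220.C6

/-- gluing data: a set covered by the images of open sets of the model space -/
structure GData (ι S : Type) where
  V : ι → Set E
  κ : ι → E → S
  isOpen_V : ∀ i, IsOpen (V i)
  inj : ∀ i, InjOn (κ i) (V i)
  cover : ∀ s, ∃ i, ∃ z ∈ V i, κ i z = s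
  trans : ∀ i j z z', z ∈ V i → z' ∈ V j → κ i z = κ j z' →
    ∃ τ : E → E, ContDiffAt ℂ ω τ z ∧ ∀ᶠ t in 𝓝 z, τ t ∈ V j ∧ κ j (τ t) = κ i t

namespace GData

variable {ι S : Type} (G : GData ι S)

/-- the topology -/
@[instance_reducible] def top : TopologicalSpace S where
  IsOpen U := ∀ i, IsOpen (G.V i ∩ G.κ i ⁻¹' U)
  isOpen_univ := by intro i; simpa using G.isOpen_V i
  isOpen_inter := by
    intro s t hs ht i
    have := (hs i).inter (ht i)
    convert this using 1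
    ext z
    simp only [mem_inter_iff, mem_preimage]
    tauto
  isOpen_sUnion := by
    intro s hs i
    have : G.V i ∩ G.κ i ⁻¹' ⋃₀ s = ⋃ t ∈ s, (G.V i ∩ G.κ i ⁻¹' t) := by
      ext z
      simp only [mem_inter_iff, mem_preimage, mem_sUnion, mem_iUnion, exists_prop]
      constructor
      · rintro ⟨h1, t, ht, h2⟩; exact ⟨t, ht, h1, h2⟩
      · rintro ⟨t, ht, h1, h2⟩; exact ⟨h1, t, ht, h2⟩
    rw [this]
    exact isOpen_biUnion fun t ht => hs t ht i

lemma isOpen_image (i : ι) (W : Set E) (hW : IsOpen W) (hWV : W ⊆ G.V i) :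
    @IsOpen S (top G) (G.κ i '' W) := by
  intro j
  rw [isOpen_iff_mem_nhds]
  rintro z' ⟨hz', z, hz, hzz⟩
  obtain ⟨τ, hτ, hev⟩ := G.trans j i z' z hz' (hWV hz) hzz.symm
  have h1 := hev.self_of_nhds
  have h2 : τ z' = z := G.inj i h1.1 (hWV hz) (h1.2.trans hzz.symm)
  have h3 : ContinuousAt τ z' := hτ.continuousAt
  have h4 : ∀ᶠ t in 𝓝 z', τ t ∈ W := h3 (by rw [h2]; exact hW.mem_nhds hz)
  filter_upwards [h4, hev, (G.isOpen_V j).mem_nhds hz'] with t ht1 ht2 ht3
  exact ⟨ht3, τ t, ht1, ht2.2⟩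

/-- the charts -/
noncomputable def ch (i : ι) : @OpenPartialHomeomorph S E (top G) _ :=
  letI := top G
  { toFun := Function.invFunOn (G.κ i) (G.V i)
    invFun := G.κ i
    source := G.κ i '' G.V i
    target := G.V i
    map_source' := by
      rintro s ⟨z, hz, rfl⟩
      exact Function.invFunOn_mem ⟨z, hz, rfl⟩
    map_target' := fun z hz => mem_image_of_mem _ hz
    left_inv' := by
      rintro s ⟨z, hz, rfl⟩
      exact Function.invFunOn_eq ⟨z, hz, rfl⟩
    right_inv' := by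
      intro z hz
      exact (G.inj i).leftInvOn_invFunOn hz
    open_source := isOpen_image G i _ (G.isOpen_V i) subset_rfl
    open_target := G.isOpen_V i
    continuousOn_toFun := by
      have hop : IsOpen (G.κ i '' G.V i) := isOpen_image G i _ (G.isOpen_V i) subset_rfl
      rw [continuousOn_open_iff hop]
      intro W hW
      have : G.κ i '' G.V i ∩ Function.invFunOn (G.κ i) (G.V i) ⁻¹' W = G.κ i '' (G.V i ∩ W) := by
        ext s
        constructor
        · rintro ⟨⟨z, hz, rfl⟩, h2⟩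
          rw [mem_preimage, (G.inj i).leftInvOn_invFunOn hz] at h2
          exact ⟨z, ⟨hz, h2⟩, rfl⟩
        · rintro ⟨z, ⟨hz, hw⟩, rfl⟩
          refine ⟨⟨z, hz, rfl⟩, ?_⟩
          rw [mem_preimage, (G.inj i).leftInvOn_invFunOn hz]
          exact hw
      rw [this]
      exact isOpen_image G i _ ((G.isOpen_V i).inter hW) inter_subset_left
    continuousOn_invFun := by
      rw [continuousOn_open_iff (G.isOpen_V i)]
      intro U hU
      exact hU i }

lemma ch_symm (i : ι) : letI := top G; ((ch G i).symm : E → S) = G.κ i := rfl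

lemma ch_apply (i : ι) (z : E) (hz : z ∈ G.V i) : letI := top G; ch G i (G.κ i z) = z := by
  letI := top G
  exact (ch G i).right_inv hz

/-- the charted space -/
@[instance_reducible] noncomputable def cs : @ChartedSpace E _ S (top G) :=
  letI := top G
  { atlas := range (ch G)
    chartAt := fun s => ch G (Classical.choose (G.cover s))
    mem_chart_source := by
      intro s
      obtain ⟨z, hz, h⟩ := Classical.choose_spec (G.cover s)
      exact ⟨z, hz, h⟩
    chart_mem_atlas := fun s => mem_range_self _ }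

lemma trans_contDiffOn (i j : ι) : letI := top G;
    ContDiffOn ℂ ω ((ch G i).symm ≫ₕ ch G j) ((ch G i).symm ≫ₕ ch G j).source := by
  letI := top G
  intro z hz
  have hz1 : z ∈ G.V i := hz.1
  obtain ⟨z', hz', hzz⟩ : G.κ i z ∈ G.κ j '' G.V j := hz.2
  obtain ⟨τ, hτ, hev⟩ := G.trans i j z z' hz1 hz' hzz.symm
  refine ContDiffAt.contDiffWithinAt ?_
  refine hτ.congr_of_eventuallyEq ?_
  filter_upwards [hev] with t ht
  show ch G j (G.κ i t) = τ t
  rw [← ht.2, ch_apply G j _ ht.1]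

lemma man : letI := top G; letI := cs G; IsManifold 𝓘(ℂ, E) ω S := by
  letI := top G
  letI := cs G
  refine isManifold_of_contDiffOn _ _ _ ?_
  rintro _ _ ⟨i, rfl⟩ ⟨j, rfl⟩
  simpa using trans_contDiffOn G i j

lemma manR : letI := top G; letI := cs G; IsManifold 𝓘(ℝ, E) ∞ S := by
  letI := top G
  letI := cs G
  refine isManifold_of_contDiffOn _ _ _ ?_
  rintro _ _ ⟨i, rfl⟩ ⟨j, rfl⟩
  have h := trans_contDiffOn G i j
  have h2 : ContDiffOn ℝ ∞ ((ch G i).symm ≫ₕ ch G j) ((ch G i).symm ≫ₕ ch G j).source :=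
    (h.restrict_scalars ℝ).of_le le_top
  simpa using h2

lemma ch_mem (i : ι) : letI := top G; letI := cs G;
    ch G i ∈ IsManifold.maximalAtlas 𝓘(ℂ, E) ω S := by
  letI := top G
  letI := cs G
  haveI := man G
  exact IsManifold.subset_maximalAtlas ⟨i, rfl⟩

lemma ch_memR (i : ι) : letI := top G; letI := cs G;
    ch G i ∈ IsManifold.maximalAtlas 𝓘(ℝ, E) ∞ S := by
  letI := top G
  letI := cs G
  haveI := manR G
  exact IsManifold.subset_maximalAtlas ⟨i, rfl⟩

lemma map_nhds (i : ι) {z : E} (hz : z ∈ G.V i) : letI := top G;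
    map (G.κ i) (𝓝 z) = 𝓝 (G.κ i z) := by
  letI := top G
  exact (ch G i).symm.map_nhds_eq (x := z) hz

/-- a function on the manifold which is smooth in the coordinates is smooth -/
lemma contMDiffOn_of (i : ι) (u : S → ℝ) (hu : ContDiffOn ℝ ∞ (fun z => u (G.κ i z)) (G.V i)) :
    letI := top G; letI := cs G;
    ContMDiffOn 𝓘(ℝ, E) 𝓘(ℝ, ℝ) ∞ u (G.κ i '' G.V i) := by
  letI := top G
  letI := cs G
  haveI := manR G
  rintro s ⟨z, hz, rfl⟩
  refine ContMDiffAt.contMDiffWithinAt ?_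
  have hsrc : G.κ i z ∈ (ch G i).source := mem_image_of_mem _ hz
  have hez : ch G i (G.κ i z) = z := ch_apply G i z hz
  have h3 : ContMDiffAt 𝓘(ℝ, E) 𝓘(ℝ, E) ∞ (ch G i) (G.κ i z) :=
    contMDiffAt_of_mem_maximalAtlas (ch_memR G i) hsrc
  have h4 : ContMDiffAt 𝓘(ℝ, E) 𝓘(ℝ, ℝ) ∞ (fun t => u (G.κ i t)) (ch G i (G.κ i z)) := by
    rw [hez]
    exact contMDiffAt_iff_contDiffAt.2 (hu.contDiffAt ((G.isOpen_V i).mem_nhds hz))
  have h5 := ContMDiffAt.comp (G.κ i z) h4 h3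
  refine h5.congr_of_eventuallyEq ?_
  have h6 : (ch G i).source ∈ 𝓝 (G.κ i z) := (ch G i).open_source.mem_nhds hsrc
  filter_upwards [h6] with p hp
  rw [Function.comp_apply]
  have h7 : G.κ i (ch G i p) = p := (ch G i).left_inv hp
  rw [h7]

/-- lifting of holomorphic discs to the coordinates -/
lemma lift (i : ι) {r : ℝ} {f : ℂ → S} (hf : letI := top G; letI := cs G;
    IsHolDisc (G.κ i '' G.V i) r f) :
    letI := top G; letI := cs G;
    DifferentiableOn ℂ (fun ζ => ch G i (f ζ)) (ball 0 r) ∧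
      (∀ ζ ∈ ball (0 : ℂ) r, ch G i (f ζ) ∈ G.V i ∧ G.κ i (ch G i (f ζ)) = f ζ) ∧
      (0 < r → deriv (fun ζ => ch G i (f ζ)) 0 = 0 → mfderiv 𝓘(ℂ, ℂ) 𝓘(ℂ, E) f 0 = 0) := by
  letI := top G
  letI := cs G
  haveI := man G
  have hsrc : ∀ ζ ∈ ball (0 : ℂ) r, f ζ ∈ (ch G i).source := fun ζ hζ => hf.2 hζ
  have h1 : ∀ ζ ∈ ball (0 : ℂ) r, ContMDiffAt 𝓘(ℂ, ℂ) 𝓘(ℂ, E) ω (ch G i ∘ f) ζ := by
    intro ζ hζ
    have h3 : ContMDiffAt 𝓘(ℂ, E) 𝓘(ℂ, E) ω (ch G i) (f ζ) :=
      contMDiffAt_of_mem_maximalAtlas (ch_mem G i) (hsrc ζ hζ)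
    exact ContMDiffAt.comp ζ h3 (hf.1.contMDiffAt (isOpen_ball.mem_nhds hζ))
  refine ⟨fun ζ hζ => ?_, fun ζ hζ => ⟨(ch G i).map_source (hsrc ζ hζ),
    (ch G i).left_inv (hsrc ζ hζ)⟩, fun hr hd => ?_⟩
  · have h2 : ContDiffAt ℂ ω (fun ζ => ch G i (f ζ)) ζ := contMDiffAt_iff_contDiffAt.1 (h1 ζ hζ)
    exact (h2.differentiableAt (by simp)).differentiableWithinAt
  · have h0 : (0 : ℂ) ∈ ball (0 : ℂ) r := mem_ball_self hr
    have h8 : f =ᶠ[𝓝 0] (ch G i).symm ∘ (ch G i ∘ f) := by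
      filter_upwards [isOpen_ball.mem_nhds h0] with ζ hζ
      exact ((ch G i).left_inv (hsrc ζ hζ)).symm
    rw [h8.mfderiv_eq]
    have h9 : MDifferentiableAt 𝓘(ℂ, E) 𝓘(ℂ, E) (ch G i).symm ((ch G i ∘ f) 0) := by
      have h10 : (ch G i ∘ f) 0 ∈ (ch G i).target := (ch G i).map_source (hsrc 0 h0)
      have h11 : ContMDiffAt 𝓘(ℂ, E) 𝓘(ℂ, E) ω (ch G i).symm ((ch G i ∘ f) 0) :=
        contMDiffAt_symm_of_mem_maximalAtlas (ch_mem G i) h10
      exact h11.mdifferentiableAt (by simp)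
    have h10 : MDifferentiableAt 𝓘(ℂ, ℂ) 𝓘(ℂ, E) (ch G i ∘ f) 0 :=
      (h1 0 h0).mdifferentiableAt (by simp)
    rw [mfderiv_comp (0 : ℂ) h9 h10]
    have h11 : mfderiv 𝓘(ℂ, ℂ) 𝓘(ℂ, E) (ch G i ∘ f) 0 = 0 := by
      rw [mfderiv_eq_fderiv]
      have h12 : fderiv ℂ (ch G i ∘ f) 0 = 0 := by
        apply ContinuousLinearMap.ext_ring
        rw [fderiv_apply_one_eq_deriv]
        exact hd
      exact h12
    rw [h11]
    exact ContinuousLinearMap.comp_zero _

end GData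

end Pool.Agent.H220.C6
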