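import Pool.Agent.H220.C6.Env4
import Pool.Agent.H220.C6.Defs

set_option autoImplicit false

open Filter Metric Set Topology MeasureTheory
open scoped ContDiff

namespace Pool.Agent.H220.C6

instance instHaarC2 : (volume : Measure (ℂ × ℂ)).IsAddHaarMeasure :=
  Measure.prod.instIsAddHaarMeasure _ _

instance instHaarE : (volume : Measure E).IsAddHaarMeasure := Measure.prod.instIsAddHaarMeasure _ _

/-! ### The function `log (|ξ|² + δ)` -/

/-- the function `log (|ξ|² + δ)` -/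
noncomputable def psi (δ : ℝ) (ξ : ℂ) : ℝ := Real.log (Complex.normSq ξ + δ)

/-- the denominators are positive -/
def Good (δ : ℝ) (ξ : ℂ) : Prop := 0 ≤ δ ∧ 0 < Complex.normSq ξ + δ

lemma isOpen_good {δ : ℝ} (hδ : 0 ≤ δ) : IsOpen {ξ : ℂ | Good δ ξ} := by
  have : {ξ : ℂ | Good δ ξ} = {ξ : ℂ | 0 < Complex.normSq ξ + δ} := by
    ext ξ; simp [Good, hδ]
  rw [this]
  exact isOpen_lt continuous_const (Complex.continuous_normSq.add continuous_const)

lemma contDiff_normSq : ContDiff ℝ ∞ Complex.normSq := by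
  have : (Complex.normSq : ℂ → ℝ) = fun z => z.re * z.re + z.im * z.im := by
    ext z; exact Complex.normSq_apply z
  rw [this]
  exact (Complex.reCLM.contDiff.mul Complex.reCLM.contDiff).add
    (Complex.imCLM.contDiff.mul Complex.imCLM.contDiff)

lemma psi_contDiffAt {δ : ℝ} {ξ : ℂ} (h : Good δ ξ) : ContDiffAt ℝ ∞ (psi δ) ξ :=
  (contDiff_normSq.contDiffAt.add contDiffAt_const).log h.2.ne'

/-- the first derivative of `|ξ|²` -/
noncomputable def dn (ξ : ℂ) : ℂ →L[ℝ] ℝ := (2 * ξ.re) • Complex.reCLM + (2 * ξ.im) • Complex.imCLM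

lemma dn_apply (ξ v : ℂ) : dn ξ v = 2 * (ξ.re * v.re + ξ.im * v.im) := by
  simp [dn]; ring

lemma hasFDerivAt_normSq (ξ : ℂ) : HasFDerivAt (fun z => Complex.normSq z) (dn ξ) ξ := by
  have e : (fun z : ℂ => Complex.normSq z) = fun z => z.re * z.re + z.im * z.im := by
    ext z; exact Complex.normSq_apply z
  rw [e]
  have h1 : HasFDerivAt (fun z : ℂ => z.re) Complex.reCLM ξ := Complex.reCLM.hasFDerivAt
  have h2 : HasFDerivAt (fun z : ℂ => z.im) Complex.imCLM ξ := Complex.imCLM.hasFDerivAt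
  refine ((h1.mul h1).add (h2.mul h2)).congr_fderiv (ContinuousLinearMap.ext fun v => ?_)
  simp [dn]; ring

lemma hasFDerivAt_psi {δ : ℝ} {ξ : ℂ} (h : Good δ ξ) :
    HasFDerivAt (psi δ) ((Complex.normSq ξ + δ)⁻¹ • dn ξ) ξ :=
  ((hasFDerivAt_normSq ξ).add_const δ).log h.2.ne'

lemma fderiv_psi {δ : ℝ} {ξ : ℂ} (h : Good δ ξ) (v : ℂ) :
    fderiv ℝ (psi δ) ξ v = 2 * (ξ.re * v.re + ξ.im * v.im) / (Complex.normSq ξ + δ) := by
  rw [(hasFDerivAt_psi h).fderiv, smul_apply, dn_apply, smul_eq_mul]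
  field_simp

lemma fderiv2_apply {F : Type*} [NormedAddCommGroup F] [NormedSpace ℝ F] {f : F → ℝ} {p : F}
    (hf : ContDiffAt ℝ 2 f p) (a b : F) :
    fderiv ℝ (fderiv ℝ f) p a b = fderiv ℝ (fun q => fderiv ℝ f q b) p a := by
  have h1 : ContDiffAt ℝ 1 (fderiv ℝ f) p := hf.fderiv_right (m := 1) (by norm_num)
  have h2 : DifferentiableAt ℝ (fderiv ℝ f) p := h1.differentiableAt one_ne_zero
  have h3 := (h2.hasFDerivAt.clm_apply (hasFDerivAt_const b p)).fderiv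
  rw [h3]
  simp

lemma fderiv2_psi {δ : ℝ} {ξ : ℂ} (h : Good δ ξ) (v w : ℂ) :
    fderiv ℝ (fderiv ℝ (psi δ)) ξ v w =
      2 * (v.re * w.re + v.im * w.im) / (Complex.normSq ξ + δ) -
        4 * (ξ.re * w.re + ξ.im * w.im) * (ξ.re * v.re + ξ.im * v.im) /
          (Complex.normSq ξ + δ) ^ 2 := by
  rw [fderiv2_apply ((psi_contDiffAt h).of_le (by norm_cast))]
  have e : (fun q => fderiv ℝ (psi δ) q w) =ᶠ[𝓝 ξ]
      fun q => 2 * (q.re * w.re + q.im * w.im) * (Complex.normSq q + δ)⁻¹ := by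
    filter_upwards [(isOpen_good h.1).mem_nhds h] with q hq
    rw [fderiv_psi hq, div_eq_mul_inv]
  rw [e.fderiv_eq]
  have h1 : HasFDerivAt (fun z : ℂ => z.re) Complex.reCLM ξ := Complex.reCLM.hasFDerivAt
  have h2 : HasFDerivAt (fun z : ℂ => z.im) Complex.imCLM ξ := Complex.imCLM.hasFDerivAt
  have h3 := ((h1.mul_const w.re).add (h2.mul_const w.im)).const_mul 2
  have h4 : HasFDerivAt (fun q : ℂ => (Complex.normSq q + δ)⁻¹)
      ((-((Complex.normSq ξ + δ) ^ 2)⁻¹) • dn ξ) ξ :=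
    (hasDerivAt_inv h.2.ne').comp_hasFDerivAt ξ ((hasFDerivAt_normSq ξ).add_const δ)
  have h5 : HasFDerivAt (fun q : ℂ => 2 * (q.re * w.re + q.im * w.im) *
      (Complex.normSq q + δ)⁻¹) _ ξ := h3.mul h4
  rw [h5.fderiv]
  have hN := h.2.ne'
  simp only [add_apply, smul_apply, dn_apply, smul_eq_mul, Complex.reCLM_apply,
    Complex.imCLM_apply, Pi.add_apply]
  field_simp
  ring

lemma laplace_psi {δ : ℝ} {ξ : ℂ} (h : Good δ ξ) (v : ℂ) :
    fderiv ℝ (fderiv ℝ (psi δ)) ξ v v +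
      fderiv ℝ (fderiv ℝ (psi δ)) ξ (Complex.I * v) (Complex.I * v) =
      4 * δ * Complex.normSq v / (Complex.normSq ξ + δ) ^ 2 := by
  rw [fderiv2_psi h, fderiv2_psi h]
  have hN := h.2.ne'
  simp only [Complex.mul_re, Complex.mul_im, Complex.I_re, Complex.I_im, zero_mul, one_mul,
    zero_sub, zero_add]
  rw [Complex.normSq_apply v]
  field_simp
  rw [Complex.normSq_apply ξ]
  ring

/-! ### The composition -/

/-- the map `(z₁, z₂, ξ) ↦ (Re z₁, Re z₂, ψ(ξ))` -/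
noncomputable def Psi (δ : ℝ) (z : E) : P := (z.1.re, z.2.1.re, psi δ z.2.2)

/-- real parts -/
noncomputable def re1 : E →L[ℝ] ℝ := Complex.reCLM.comp (ContinuousLinearMap.fst ℝ ℂ (ℂ × ℂ))
noncomputable def re2 : E →L[ℝ] ℝ := Complex.reCLM.comp
  ((ContinuousLinearMap.fst ℝ ℂ ℂ).comp (ContinuousLinearMap.snd ℝ ℂ (ℂ × ℂ)))
noncomputable def pr3 : E →L[ℝ] ℂ :=
  (ContinuousLinearMap.snd ℝ ℂ ℂ).comp (ContinuousLinearMap.snd ℝ ℂ (ℂ × ℂ))

@[simp] lemma re1_apply (z : E) : re1 z = z.1.re := rfl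
@[simp] lemma re2_apply (z : E) : re2 z = z.2.1.re := rfl
@[simp] lemma pr3_apply (z : E) : pr3 z = z.2.2 := rfl

/-- the derivative of `Psi` -/
noncomputable def dPsi (δ : ℝ) (z : E) : E →L[ℝ] P :=
  re1.prod (re2.prod ((fderiv ℝ (psi δ) z.2.2).comp pr3))

@[simp] lemma dPsi_apply (δ : ℝ) (z a : E) :
    dPsi δ z a = (a.1.re, a.2.1.re, fderiv ℝ (psi δ) z.2.2 a.2.2) := rfl

lemma hasFDerivAt_Psi {δ : ℝ} {z : E} (h : Good δ z.2.2) :
    HasFDerivAt (Psi δ) (dPsi δ z) z := by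
  have h1 : HasFDerivAt (fun z : E => z.1.re) re1 z := re1.hasFDerivAt
  have h2 : HasFDerivAt (fun z : E => z.2.1.re) re2 z := re2.hasFDerivAt
  have h3 : HasFDerivAt (fun z : E => psi δ z.2.2) ((fderiv ℝ (psi δ) z.2.2).comp pr3) z :=
    HasFDerivAt.comp (g := psi δ) (f := pr3) z
      ((psi_contDiffAt h).differentiableAt (by norm_num)).hasFDerivAt (pr3.hasFDerivAt (x := z))
  exact h1.prodMk (h2.prodMk h3)

lemma contDiffAt_Psi {δ : ℝ} {z : E} (h : Good δ z.2.2) : ContDiffAt ℝ ∞ (Psi δ) z := by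
  have h1 : ContDiffAt ℝ ∞ (fun z : E => z.1.re) z := re1.contDiff.contDiffAt
  have h2 : ContDiffAt ℝ ∞ (fun z : E => z.2.1.re) z := re2.contDiff.contDiffAt
  have h3 : ContDiffAt ℝ ∞ (fun z : E => psi δ z.2.2) z :=
    ContDiffAt.comp (g := psi δ) (f := pr3) z (psi_contDiffAt h) (pr3.contDiff.contDiffAt)
  exact h1.prodMk (h2.prodMk h3)

variable {g : P → ℝ}

lemma hess_comp (hg : ContDiff ℝ ∞ g) {δ : ℝ} {p : E} (h : Good δ p.2.2) (a b : E) :
    fderiv ℝ (fderiv ℝ (fun z => g (Psi δ z))) p a b =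
      fderiv ℝ (fderiv ℝ g) (Psi δ p) (dPsi δ p a) (dPsi δ p b) +
        fderiv ℝ g (Psi δ p) (0, 0, 1) * fderiv ℝ (fderiv ℝ (psi δ)) p.2.2 a.2.2 b.2.2 := by
  have hu : ContDiffAt ℝ ∞ (fun z => g (Psi δ z)) p := hg.contDiffAt.comp p (contDiffAt_Psi h)
  rw [fderiv2_apply (hu.of_le (by norm_cast))]
  have hopen : IsOpen {z : E | Good δ z.2.2} :=
    (isOpen_good h.1).preimage (continuous_snd.comp continuous_snd)
  have e : (fun q => fderiv ℝ (fun z => g (Psi δ z)) q b) =ᶠ[𝓝 p]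
      fun q => fderiv ℝ g (Psi δ q) (dPsi δ q b) := by
    filter_upwards [hopen.mem_nhds h] with q hq
    have h1 : HasFDerivAt (fun z => g (Psi δ z)) ((fderiv ℝ g (Psi δ q)).comp (dPsi δ q)) q :=
      (hg.differentiable (by norm_num) _).hasFDerivAt.comp q (hasFDerivAt_Psi hq)
    rw [h1.fderiv]
    rfl
  rw [e.fderiv_eq]
  have hg1 : ContDiff ℝ 1 (fderiv ℝ g) := hg.fderiv_right (m := 1) (by norm_cast)
  have h1 : HasFDerivAt (fun q => fderiv ℝ g (Psi δ q))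
      ((fderiv ℝ (fderiv ℝ g) (Psi δ p)).comp (dPsi δ p)) p :=
    (hg1.differentiable one_ne_zero _).hasFDerivAt.comp p (hasFDerivAt_Psi h)
  have h2 : HasFDerivAt (fun q : E => fderiv ℝ (psi δ) q.2.2 b.2.2)
      (((ContinuousLinearMap.apply ℝ ℝ b.2.2).comp (fderiv ℝ (fderiv ℝ (psi δ)) p.2.2)).comp pr3)
      p := by
    have h3 : ContDiffAt ℝ 1 (fderiv ℝ (psi δ)) p.2.2 :=
      (psi_contDiffAt h).fderiv_right (m := 1) (by norm_cast)
    have h4 : HasFDerivAt (fun ξ => fderiv ℝ (psi δ) ξ b.2.2)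
      ((ContinuousLinearMap.apply ℝ ℝ b.2.2).comp (fderiv ℝ (fderiv ℝ (psi δ)) p.2.2)) p.2.2 :=
      (ContinuousLinearMap.apply ℝ ℝ b.2.2).hasFDerivAt.comp p.2.2
        (h3.differentiableAt one_ne_zero).hasFDerivAt
    exact h4.comp p (pr3.hasFDerivAt (x := p))
  have h5 : HasFDerivAt (fun q : E => dPsi δ q b)
      ((0 : E →L[ℝ] ℝ).prod ((0 : E →L[ℝ] ℝ).prod
        (((ContinuousLinearMap.apply ℝ ℝ b.2.2).comp (fderiv ℝ (fderiv ℝ (psi δ)) p.2.2)).comp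
          pr3))) p :=
    (hasFDerivAt_const _ _).prodMk ((hasFDerivAt_const _ _).prodMk h2)
  have h6 := (h1.clm_apply h5).fderiv
  rw [h6]
  simp only [add_apply, ContinuousLinearMap.comp_apply, ContinuousLinearMap.flip_apply,
    ContinuousLinearMap.prod_apply, zero_apply, ContinuousLinearMap.apply_apply, pr3_apply]
  rw [clm_eq (fderiv ℝ g (Psi δ p)) (0, 0, _)]
  simp only [mul_zero, zero_add]
  ring

end Pool.Agent.H220.C6
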