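import Pool.Agent.H220.C6.Levi

set_option autoImplicit false

open Filter Metric Set Topology MeasureTheory
open scoped ContDiff

namespace Pool.Agent.H220.C6

variable {g : P → ℝ}

/-- the determinant of the Hessian in the first two variables -/
noncomputable def hd2 (g : P → ℝ) (p : P) : ℝ :=
  fderiv ℝ (fderiv ℝ g) p (1, 0, 0) (1, 0, 0) * fderiv ℝ (fderiv ℝ g) p (0, 1, 0) (0, 1, 0) -
    fderiv ℝ (fderiv ℝ g) p (1, 0, 0) (0, 1, 0) * fderiv ℝ (fderiv ℝ g) p (0, 1, 0) (1, 0, 0)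

lemma smul_e3 (c : ℝ) : ((0, 0, c) : P) = c • (0, 0, 1) := by simp

/-- the complex Monge–Ampère density of the composition -/
lemma ma_comp (hg : ContDiff ℝ ∞ g) {δ : ℝ} {p : E} (h : Good δ p.2.2) :
    maDensity (fun z => g (Psi δ z)) p =
      1 / 16 * (Complex.normSq p.2.2 / (Complex.normSq p.2.2 + δ) ^ 2 * hd g (Psi δ p) +
        δ / (Complex.normSq p.2.2 + δ) ^ 2 * (fderiv ℝ g (Psi δ p) (0, 0, 1) *
          hd2 g (Psi δ p))) := by
  obtain ⟨z₁, z₂, ξ⟩ := p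
  simp only at h
  set q := Psi δ (z₁, z₂, ξ) with hq
  set B := fderiv ℝ (fderiv ℝ g) q with hB
  set G := fderiv ℝ g q (0, 0, 1) with hG
  have hN := h.2.ne'
  set N := Complex.normSq ξ + δ with hNd
  set px : ℝ := 2 * ξ.re / N with hpx
  set py : ℝ := 2 * ξ.im / N with hpy
  have d1 : dPsi δ (z₁, z₂, ξ) (1, 0, 0) = (1, 0, 0) := by simp
  have d2 : dPsi δ (z₁, z₂, ξ) (0, 1, 0) = (0, 1, 0) := by simp
  have d3 : dPsi δ (z₁, z₂, ξ) (0, 0, 1) = px • (0, 0, 1) := by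
    simp [fderiv_psi h, hpx, hNd]
  have d1' : dPsi δ (z₁, z₂, ξ) (Complex.I • (1, 0, 0)) = 0 := by simp
  have d2' : dPsi δ (z₁, z₂, ξ) (Complex.I • (0, 1, 0)) = 0 := by simp
  have d3' : dPsi δ (z₁, z₂, ξ) (Complex.I • (0, 0, 1)) = py • (0, 0, 1) := by
    simp [fderiv_psi h, hpy, hNd]
  have H := fun a b => hess_comp hg (p := (z₁, z₂, ξ)) h a b
  simp only [← hq, ← hB, ← hG] at H
  have h33 : fderiv ℝ (fderiv ℝ (psi δ)) ξ 1 1 +
      fderiv ℝ (fderiv ℝ (psi δ)) ξ Complex.I Complex.I = 4 * δ / N ^ 2 := by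
    have := laplace_psi h 1
    simpa using this
  have h33' : fderiv ℝ (fderiv ℝ (psi δ)) ξ 1 Complex.I =
      fderiv ℝ (fderiv ℝ (psi δ)) ξ Complex.I 1 := by
    rw [fderiv2_psi h, fderiv2_psi h]
    simp
    ring
  have hpp : px ^ 2 + py ^ 2 = 4 * Complex.normSq ξ / N ^ 2 := by
    rw [hpx, hpy, Complex.normSq_apply]
    field_simp
    ring
  have t1 : (bas 0).2.2 = 0 := rfl
  have t2 : (bas 1).2.2 = 0 := rfl
  have t3 : (bas 2).2.2 = 1 := rfl
  have t1' : (Complex.I • bas 0).2.2 = 0 := by rw [Prod.smul_snd, Prod.smul_snd, t1, smul_zero]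
  have t2' : (Complex.I • bas 1).2.2 = 0 := by rw [Prod.smul_snd, Prod.smul_snd, t2, smul_zero]
  have t3' : (Complex.I • bas 2).2.2 = Complex.I := by
    rw [Prod.smul_snd, Prod.smul_snd, t3, smul_eq_mul, mul_one]
  have b1 : dPsi δ (z₁, z₂, ξ) (bas 0) = (1, 0, 0) := d1
  have b2 : dPsi δ (z₁, z₂, ξ) (bas 1) = (0, 1, 0) := d2
  have b3 : dPsi δ (z₁, z₂, ξ) (bas 2) = px • (0, 0, 1) := d3
  have b1' : dPsi δ (z₁, z₂, ξ) (Complex.I • bas 0) = 0 := d1'
  have b2' : dPsi δ (z₁, z₂, ξ) (Complex.I • bas 1) = 0 := d2'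
  have b3' : dPsi δ (z₁, z₂, ξ) (Complex.I • bas 2) = py • (0, 0, 1) := d3'
  clear_value B G N px py q
  rw [maDensity, Matrix.det_fin_three]
  simp only [complexHessian, H, b1, b2, b3, b1', b2', b3', t1, t2, t3, t1', t2', t3', map_zero,
    zero_apply, mul_zero, add_zero, zero_add, sub_zero, zero_sub, sub_self, Complex.ofReal_zero,
    map_smul, smul_apply, smul_eq_mul, h33']
  have h33'' : fderiv ℝ (fderiv ℝ (psi δ)) ξ 1 1 =
      4 * δ / N ^ 2 - fderiv ℝ (fderiv ℝ (psi δ)) ξ Complex.I Complex.I := by linarith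
  rw [h33'']
  have hdet : dt B = hd g q := by rw [hd, hB]
  have hdet2 : B (1, 0, 0) (1, 0, 0) * B (0, 1, 0) (0, 1, 0) -
      B (1, 0, 0) (0, 1, 0) * B (0, 1, 0) (1, 0, 0) = hd2 g q := by rw [hd2, hB]
  rw [← hdet, ← hdet2, dt_eq]
  have hn : Complex.normSq ξ / N ^ 2 = (px ^ 2 + py ^ 2) / 4 := by
    rw [hpp]; ring
  rw [hn]
  simp only [Complex.add_re, Complex.sub_re, Complex.mul_re, Complex.mul_im, Complex.add_im,
    Complex.sub_im, Complex.ofReal_re, Complex.ofReal_im, Complex.I_re, Complex.I_im,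
    Complex.div_ofNat_re, Complex.div_ofNat_im]
  ring

end Pool.Agent.H220.C6
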