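import Pool.Agent.H220.C6.Func

/-!
# The density is measurable
-/

set_option autoImplicit false

open Filter Metric Set Topology MeasureTheory
open scoped ContDiff Real Manifold

namespace Pool.Agent.H220.C6

variable {α : ℝ}

lemma measurable_hd (U : P → ℝ) : Measurable (hd U) := by
  have h : ∀ a b : P, Measurable fun p => fderiv ℝ (fderiv ℝ U) p a b := by
    intro a b
    have h1 : Measurable fun p => fderiv ℝ (fderiv ℝ U) p a :=
      measurable_fderiv_apply_const ℝ (fderiv ℝ U) a
    exact (ContinuousLinearMap.apply ℝ ℝ b).continuous.measurable.comp h1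
  have e : hd U = fun p => dt (fderiv ℝ (fderiv ℝ U) p) := rfl
  rw [e]
  simp only [dt_eq]
  exact (((((((h _ _).mul (h _ _)).mul (h _ _)).sub (((h _ _).mul (h _ _)).mul (h _ _))).sub
    (((h _ _).mul (h _ _)).mul (h _ _))).add (((h _ _).mul (h _ _)).mul (h _ _))).add
    (((h _ _).mul (h _ _)).mul (h _ _))).sub (((h _ _).mul (h _ _)).mul (h _ _))

lemma measurable_fd (α : ℝ) : Measurable (fd α) := by
  have htt : Measurable tt := by
    unfold tt
    fun_prop
  have hs : MeasurableSet {p : P | 0 ≤ tt p ∧ tt p ≤ 1} :=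
    (measurableSet_le measurable_const htt).inter (measurableSet_le htt measurable_const)
  exact Measurable.ite hs ((measurable_hd _).div (measurable_hd _)) measurable_const

lemma measurable_Fd (α : ℝ) (i : Bool) : Measurable (Fd α i) := by
  have h1 : MeasurableSet {z : E | z.2.2 = 0} :=
    (isClosed_eq (continuous_snd.comp continuous_snd) continuous_const).measurableSet
  have h2 : Measurable (Psi 0) := (qmp_Psi le_rfl).measurable
  have h3 : Measurable (lc i) := by
    cases i with
    | false => exact h2
    | true => exact refl.continuous.measurable.comp h2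
  exact Measurable.ite h1 measurable_const ((measurable_fd α).comp h3)

/-- images of measurable sets under the coordinates are measurable -/
lemma measurable_f {f : X3 → ℝ} (hf : ∀ i z, f (kp i z) = Fd α i z) : Measurable[borel X3] f := by
  let _ : MeasurableSpace X3 := borel X3
  have : BorelSpace X3 := ⟨rfl⟩
  intro B hB
  -- finitely many charts
  obtain ⟨t, ht⟩ : ∃ t : Finset Ix, (univ : Set X3) ⊆ ⋃ j ∈ t, (chr j).source := by
    refine isCompact_univ.elim_finite_subcover (fun j : Ix => (chr j).source)
      (fun j => (chr j).open_source) fun s _ => ?_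
    obtain ⟨i, z, rfl⟩ := kp_surj s
    exact mem_iUnion.2 ⟨(i, z, 1), mem_image_of_mem _ (mem_V i z)⟩
  have h1 : f ⁻¹' B = ⋃ j ∈ t, ((chr j).source ∩ chr j ⁻¹' (Fd α j.1 ⁻¹' B)) := by
    ext s
    simp only [mem_preimage, mem_iUnion, mem_inter_iff, exists_prop]
    constructor
    · intro hs
      obtain ⟨j, hj, hsj⟩ := mem_iUnion₂.1 (ht (mem_univ s))
      refine ⟨j, hj, hsj, ?_⟩
      have h2 : kp j.1 (chr j s) = s := (chr j).left_inv hsj
      rw [← hf, h2]
      exact hs
    · rintro ⟨j, hj, hsj, hs⟩
      have h2 : kp j.1 (chr j s) = s := (chr j).left_inv hsj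
      rw [← h2, hf]
      exact hs
  rw [h1]
  refine Finset.measurableSet_biUnion _ fun j _ => ?_
  have h3 : MeasurableSet (Fd α j.1 ⁻¹' B) := measurable_Fd α j.1 hB
  have h4 : Measurable ((chr j).source.domRestrict (chr j)) :=
    ((chr j).continuousOn.domRestrict).measurable
  have h5 := (MeasurableEmbedding.subtype_coe (chr j).open_source.measurableSet).measurableSet_image.2
    (h4 h3)
  convert h5 using 1
  ext s
  constructor
  · rintro ⟨h6, h7⟩
    exact ⟨⟨s, h6⟩, h7, rfl⟩
  · rintro ⟨⟨s', h6⟩, h7, rfl⟩
    exact ⟨h6, h7⟩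

end Pool.Agent.H220.C6
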