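import Pool.Agent.H220.C6.Prof
import Pool.Agent.H220.C6.Conv

set_option autoImplicit false

open Filter Metric Set Topology MeasureTheory
open scoped ContDiff

namespace Pool.Agent.H220.C6

/-- an even smooth kernel on `P` with support in the unit ball -/
structure Ker (ρ : P → ℝ) : Prop where
  smooth : ContDiff ℝ ∞ ρ
  nonneg : ∀ y, 0 ≤ ρ y
  supp : Function.support ρ ⊆ closedBall 0 1
  int : ∫ y, ρ y = 1
  even : ∀ y, ρ (-y) = ρ y

lemma exists_ker : ∃ ρ : P → ℝ, Ker ρ := by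
  let φ : ContDiffBump (0 : P) := ⟨1 / 2, 1, by norm_num, by norm_num⟩
  refine ⟨φ.normed volume, ⟨φ.contDiff_normed, fun y => φ.nonneg_normed y, ?_, φ.integral_normed,
    fun y => φ.normed_neg y⟩⟩
  rw [φ.support_normed_eq]
  exact ball_subset_closedBall

namespace Ker

variable {ρ : P → ℝ}

lemma compact (h : Ker ρ) : HasCompactSupport ρ :=
  HasCompactSupport.of_support_subset_isCompact (isCompact_closedBall 0 1) h.supp

lemma integrable (h : Ker ρ) {F : P → ℝ} (hF : Continuous F) :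
    Integrable (fun y => ρ y * F y) :=
  (h.smooth.continuous.mul hF).integrable_of_hasCompactSupport h.compact.mul_right

lemma int_mono (h : Ker ρ) {F G : P → ℝ} (hF : Continuous F) (hG : Continuous G)
    (hle : ∀ y, ‖y‖ ≤ 1 → F y ≤ G y) : ∫ y, ρ y * F y ≤ ∫ y, ρ y * G y := by
  refine integral_mono (h.integrable hF) (h.integrable hG) fun y => ?_
  by_cases hy : ρ y = 0
  · simp [hy]
  · have : y ∈ closedBall (0 : P) 1 := h.supp hy
    exact mul_le_mul_of_nonneg_left (hle y (by simpa using this)) (h.nonneg y)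

lemma int_const (h : Ker ρ) (c : ℝ) : ∫ y, ρ y * c = c := by
  rw [integral_mul_const, h.int, one_mul]

/-- integrals of odd functions vanish -/
lemma int_odd (h : Ker ρ) {F : P → ℝ} (hF : ∀ y, F (-y) = -F y) : ∫ y, ρ y * F y = 0 := by
  have h1 : ∫ y, ρ (-y) * F (-y) = ∫ y, ρ y * F y := integral_neg_eq_self (fun y => ρ y * F y) _
  simp only [h.even, hF, mul_neg] at h1
  rw [integral_neg] at h1
  linarith

lemma int_add (h : Ker ρ) {F G : P → ℝ} (hF : Continuous F) (hG : Continuous G) :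
    ∫ y, ρ y * (F y + G y) = (∫ y, ρ y * F y) + ∫ y, ρ y * G y := by
  rw [← integral_add (h.integrable hF) (h.integrable hG)]
  congr 1
  ext y
  ring

end Ker

/-- the mollification -/
noncomputable def mol (ρ U : P → ℝ) (ε : ℝ) (p : P) : ℝ := ∫ y, ρ y * U (p - ε • y)

/-- the scaled kernel -/
noncomputable def ker (ρ : P → ℝ) (ε : ℝ) (t : P) : ℝ :=
  (ε ^ Module.finrank ℝ P)⁻¹ * ρ (ε⁻¹ • t)

section

variable {ρ U : P → ℝ} {ε : ℝ}

lemma ker_contDiff (h : Ker ρ) (ε : ℝ) : ContDiff ℝ ∞ (ker ρ ε) :=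
  contDiff_const.mul (h.smooth.comp (contDiff_const_smul _))

lemma ker_compact (h : Ker ρ) (hε : 0 < ε) : HasCompactSupport (ker ρ ε) := by
  have : HasCompactSupport (fun t => ρ (ε⁻¹ • t)) :=
    h.compact.comp_smul (inv_ne_zero hε.ne')
  exact this.mul_left

/-- change of variables -/
lemma integral_scale (hε : 0 < ε) (F : P → ℝ) :
    ∫ t, F t = ε ^ Module.finrank ℝ P * ∫ y, F (ε • y) := by
  have h1 := Measure.integral_comp_smul_of_nonneg (volume : Measure P) F ε (hR := hε.le)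
  have h2 : 0 < ε ^ Module.finrank ℝ P := pow_pos hε _
  rw [h1, smul_eq_mul, ← mul_assoc, mul_inv_cancel₀ h2.ne', one_mul]

lemma mol_eq_conv (hε : 0 < ε) (p : P) :
    mol ρ U ε p = ∫ t, ker ρ ε t * U (p - t) := by
  rw [integral_scale hε, mol, ← integral_const_mul]
  have h2 : 0 < ε ^ Module.finrank ℝ P := pow_pos hε _
  congr 1
  ext y
  simp only [ker, smul_smul, inv_mul_cancel₀ hε.ne', one_smul]
  rw [← mul_assoc, ← mul_assoc, mul_inv_cancel₀ h2.ne', one_mul]

lemma mol_contDiff (h : Ker ρ) (hU : Continuous U) (hε : 0 < ε) : ContDiff ℝ ∞ (mol ρ U ε) := by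
  have : mol ρ U ε = fun p => ∫ t, ker ρ ε t * U (p - t) := funext fun p => mol_eq_conv hε p
  rw [this]
  exact conv_contDiff (ker_compact h hε) (ker_contDiff h ε) hU

/-- the second derivative of the mollification, with both derivatives on the kernel -/
lemma mol_second (h : Ker ρ) (hU : Continuous U) (hε : 0 < ε) (p a b : P) :
    fderiv ℝ (fderiv ℝ (mol ρ U ε)) p a b =
      ∫ t, fderiv ℝ (fderiv ℝ (ker ρ ε)) t a b * U (p - t) := by
  have : mol ρ U ε = fun p => ∫ t, ker ρ ε t * U (p - t) := funext fun p => mol_eq_conv hε p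
  rw [this]
  exact conv_second (ker_compact h hε) (ker_contDiff h ε) hU p a b

lemma fderiv_scale {f : P → ℝ} (hf : Differentiable ℝ f) (c s : ℝ) (t b : P) :
    fderiv ℝ (fun t => c * f (s • t)) t b = c * s * fderiv ℝ f (s • t) b := by
  have h1 : HasFDerivAt (fun t : P => s • t) (s • ContinuousLinearMap.id ℝ P) t :=
    (hasFDerivAt_id t).const_smul s
  have h2 := (((hf (s • t)).hasFDerivAt.comp t h1).const_mul c).fderiv
  have h3 : (fun t => c * f (s • t)) = fun y => c * (f ∘ fun t : P => s • t) y := rfl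
  rw [h3, h2]
  simp only [smul_apply, ContinuousLinearMap.comp_apply, ContinuousLinearMap.id_apply, map_smul,
    smul_eq_mul]
  ring

lemma ker_second (h : Ker ρ) (ε : ℝ) (t a b : P) :
    fderiv ℝ (fderiv ℝ (ker ρ ε)) t a b =
      (ε ^ Module.finrank ℝ P)⁻¹ * (ε⁻¹ ^ 2 * fderiv ℝ (fderiv ℝ ρ) (ε⁻¹ • t) a b) := by
  rw [← fderiv_fderiv_apply (ker_contDiff h ε), ← fderiv_fderiv_apply h.smooth]
  have e : (fun q => fderiv ℝ (ker ρ ε) q b) =
      fun q => ((ε ^ Module.finrank ℝ P)⁻¹ * ε⁻¹) * (fun y => fderiv ℝ ρ y b) (ε⁻¹ • q) := by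
    ext q
    exact fderiv_scale (h.smooth.differentiable (by norm_num)) _ _ q b
  rw [e, fderiv_scale ((contDiff_fderiv_apply h.smooth b).differentiable (by norm_num))]
  ring

/-- the constant in the bound for the second derivative of the mollification -/
noncomputable def kc (ρ : P → ℝ) (a b : P) : ℝ := ∫ y, |fderiv ℝ (fderiv ℝ ρ) y a b|

lemma second_eq_zero (h : Ker ρ) {y : P} (hy : 1 < ‖y‖) (a b : P) :
    fderiv ℝ (fderiv ℝ ρ) y a b = 0 := by
  have h1 : tsupport ρ ⊆ closedBall 0 1 := closure_minimal h.supp isClosed_closedBall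
  have h2 : y ∉ tsupport (fderiv ℝ (fderiv ℝ ρ)) := fun hy' => by
    have := h1 ((tsupport_fderiv_subset ℝ) ((tsupport_fderiv_subset ℝ) hy'))
    rw [mem_closedBall_zero_iff] at this
    linarith
  have h3 : fderiv ℝ (fderiv ℝ ρ) y = 0 := image_eq_zero_of_notMem_tsupport h2
  rw [h3]
  rfl

lemma second_integrable (h : Ker ρ) (a b : P) :
    Continuous (fun y => fderiv ℝ (fderiv ℝ ρ) y a b) ∧
      HasCompactSupport (fun y => fderiv ℝ (fderiv ℝ ρ) y a b) := by
  have e : (fun y => fderiv ℝ (fderiv ℝ ρ) y a b) =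
      fun y => fderiv ℝ (fun q => fderiv ℝ ρ q b) y a := by
    ext y; rw [fderiv_fderiv_apply h.smooth]
  rw [e]
  exact ⟨(contDiff_fderiv_apply (contDiff_fderiv_apply h.smooth b) a).continuous,
    compact_fderiv_apply (compact_fderiv_apply h.compact b) a⟩

/-- bound for the part of the second derivative which comes from a small function -/
lemma second_bound (h : Ker ρ) (hε : 0 < ε) {R : P → ℝ} (hR : Continuous R) {η : ℝ} (p a b : P)
    (hb : ∀ t : P, ‖t‖ ≤ ε → |R (p - t)| ≤ η * ε ^ 2) :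
    |∫ t, fderiv ℝ (fderiv ℝ (ker ρ ε)) t a b * R (p - t)| ≤ η * kc ρ a b := by
  have h2 : 0 < ε ^ Module.finrank ℝ P := pow_pos hε _
  have e : ∫ t, fderiv ℝ (fderiv ℝ (ker ρ ε)) t a b * R (p - t) =
      ∫ y, ε⁻¹ ^ 2 * (fderiv ℝ (fderiv ℝ ρ) y a b * R (p - ε • y)) := by
    rw [integral_scale hε, ← integral_const_mul]
    congr 1
    ext y
    rw [ker_second h, smul_smul, inv_mul_cancel₀ hε.ne', one_smul]
    rw [← mul_assoc, ← mul_assoc, mul_inv_cancel₀ h2.ne', one_mul, mul_assoc]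
  obtain ⟨c1, c2⟩ := second_integrable h a b
  rw [e, kc, ← integral_const_mul]
  refine (abs_integral_le_integral_abs).trans (integral_mono ?_ ?_ fun y => ?_)
  · refine (Continuous.integrable_of_hasCompactSupport (by fun_prop) ?_).abs
    exact (c2.mul_right).mul_left
  · exact ((c1.integrable_of_hasCompactSupport c2).abs).const_mul _
  · show |ε⁻¹ ^ 2 * (fderiv ℝ (fderiv ℝ ρ) y a b * R (p - ε • y))| ≤
      η * |fderiv ℝ (fderiv ℝ ρ) y a b|
    rw [abs_mul, abs_mul, abs_of_pos (by positivity : 0 < ε⁻¹ ^ 2)]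
    by_cases hy : 1 < ‖y‖
    · rw [second_eq_zero h hy]; simp
    · have h3 : |R (p - ε • y)| ≤ η * ε ^ 2 := hb _ (by
        rw [norm_smul, Real.norm_eq_abs, abs_of_pos hε]
        push Not at hy
        nlinarith)
      calc ε⁻¹ ^ 2 * (|fderiv ℝ (fderiv ℝ ρ) y a b| * |R (p - ε • y)|)
          ≤ ε⁻¹ ^ 2 * (|fderiv ℝ (fderiv ℝ ρ) y a b| * (η * ε ^ 2)) := by gcongr
        _ = η * |fderiv ℝ (fderiv ℝ ρ) y a b| := by field_simp

end

end Pool.Agent.H220.C6
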