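import Pool.Agent.H220.C6.Moll

set_option autoImplicit false

open Filter Metric Set Topology MeasureTheory
open scoped ContDiff

namespace Pool.Agent.H220.C6

variable {ρ U : P → ℝ}

lemma mol_ge (h : Ker ρ) (hU : Prof U) (ε : ℝ) (p : P) : U p ≤ mol ρ U ε p := by
  have h1 : ∫ y, ρ y * (U p + -(ε * fderiv ℝ U p y)) = U p := by
    rw [h.int_add continuous_const (by fun_prop), h.int_const,
      h.int_odd (F := fun y => -(ε * fderiv ℝ U p y)) (fun y => by simp), add_zero]
  have hc := hU.continuous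
  conv_lhs => rw [← h1]
  refine h.int_mono (by fun_prop) (by fun_prop) fun y _ => ?_
  have := hU.lower p (-(ε • y))
  rw [map_neg, map_smul, smul_eq_mul, ← sub_eq_add_neg p] at this
  exact this

lemma mol_le (h : Ker ρ) (hU : Prof U) (R : ℝ) : ∃ C : ℝ, 0 ≤ C ∧ ∀ ε : ℝ, ∀ p : P,
    |p.2.1| ≤ R → mol ρ U ε p ≤ U p + C * ε ^ 2 := by
  obtain ⟨C, hC, hb⟩ := hU.upper R
  refine ⟨C, hC, fun ε p hp => ?_⟩
  have h1 : ∫ y, ρ y * ((U p + C * ε ^ 2) + -(ε * fderiv ℝ U p y)) = U p + C * ε ^ 2 := by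
    rw [h.int_add continuous_const (by fun_prop), h.int_const,
      h.int_odd (F := fun y => -(ε * fderiv ℝ U p y)) (fun y => by simp), add_zero]
  have hc := hU.continuous
  conv_rhs => rw [← h1]
  refine h.int_mono (by fun_prop) (by fun_prop) fun y hy => ?_
  have h2 := hb p (-(ε • y)) hp
  rw [map_neg, map_smul, smul_eq_mul, ← sub_eq_add_neg p, norm_neg, norm_smul] at h2
  have h3 : (‖ε‖ * ‖y‖) ^ 2 ≤ ε ^ 2 := by
    rw [mul_pow, Real.norm_eq_abs, sq_abs]
    have : ‖y‖ ^ 2 ≤ 1 := pow_le_one₀ (norm_nonneg _) hy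
    nlinarith [sq_nonneg ε]
  nlinarith [mul_le_mul_of_nonneg_left h3 hC]

lemma mol_second_diff (h : Ker ρ) (hU : Prof U) (R : ℝ) : ∃ C : ℝ, 0 ≤ C ∧ ∀ ε : ℝ, 0 < ε → ε ≤ 1 →
    ∀ p v : P, |p.2.1| ≤ R → 0 ≤ mol ρ U ε (p + v) + mol ρ U ε (p - v) - 2 * mol ρ U ε p ∧
      mol ρ U ε (p + v) + mol ρ U ε (p - v) - 2 * mol ρ U ε p ≤ C * ‖v‖ ^ 2 := by
  obtain ⟨C, hC, hb⟩ := hU.semi (R + 1)
  refine ⟨C, hC, fun ε hε hε1 p v hp => ?_⟩
  have hc := hU.continuous
  have e : mol ρ U ε (p + v) + mol ρ U ε (p - v) - 2 * mol ρ U ε p =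
      ∫ y, ρ y * ((U (p + v - ε • y) + U (p - v - ε • y)) + -(2 * U (p - ε • y))) := by
    rw [h.int_add (by fun_prop) (by fun_prop), h.int_add (by fun_prop) (by fun_prop)]
    unfold mol
    have : ∫ y, ρ y * -(2 * U (p - ε • y)) = -(2 * ∫ y, ρ y * U (p - ε • y)) := by
      rw [← integral_const_mul, ← integral_neg]
      congr 1; ext y; ring
    rw [this]; ring
  have e1 : ∀ y : P, p + v - ε • y = (p - ε • y) + v := fun y => by abel
  have e2 : ∀ y : P, p - v - ε • y = (p - ε • y) - v := fun y => by abel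
  rw [e]
  constructor
  · rw [← h.int_const 0]
    refine h.int_mono (by fun_prop) (by fun_prop) fun y _ => ?_
    rw [e1, e2]
    have h1 := hU.lower (p - ε • y) v
    have h2 := hU.lower (p - ε • y) (-v)
    rw [map_neg, ← sub_eq_add_neg, ← sub_eq_add_neg] at h2
    linarith
  · rw [← h.int_const (C * ‖v‖ ^ 2)]
    refine h.int_mono (by fun_prop) (by fun_prop) fun y hy => ?_
    rw [e1, e2]
    have h1 := hb (p - ε • y) v (by
      have h2 : |y.2.1| ≤ 1 := (abs_le_norm2 y).trans hy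
      have h3 : (p - ε • y).2.1 = p.2.1 - ε * y.2.1 := rfl
      rw [h3]
      calc |p.2.1 - ε * y.2.1| ≤ |p.2.1| + |ε * y.2.1| := abs_sub _ _
        _ ≤ R + 1 := by
          rw [abs_mul, abs_of_pos hε]
          have := abs_nonneg y.2.1
          nlinarith)
    linarith

lemma mol_hess (h : Ker ρ) (hU : Prof U) (R : ℝ) : ∃ C : ℝ, 0 ≤ C ∧ ∀ ε : ℝ, 0 < ε → ε ≤ 1 →
    ∀ p v : P, |p.2.1| ≤ R → 0 ≤ fderiv ℝ (fderiv ℝ (mol ρ U ε)) p v v ∧
      fderiv ℝ (fderiv ℝ (mol ρ U ε)) p v v ≤ C * ‖v‖ ^ 2 := by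
  obtain ⟨C, hC, hb⟩ := mol_second_diff h hU R
  refine ⟨C, hC, fun ε hε hε1 p v hp => ?_⟩
  have hs := mol_contDiff h hU.continuous hε
  refine second_bounds (hs.differentiable (by norm_num))
    ((hs.fderiv_right (m := 1) (by norm_cast)).differentiable one_ne_zero p) v
    (Eventually.of_forall fun s => ?_) (Eventually.of_forall fun s => ?_)
  · have := (hb ε hε hε1 p (s • v) hp).1
    simpa using this
  · have := (hb ε hε hε1 p (s • v) hp).2
    rw [norm_smul, mul_pow, Real.norm_eq_abs, sq_abs] at this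
    linarith

/-- the mollification of a quadratic polynomial -/
lemma mol_quad (h : Ker ρ) (c : ℝ) (L : P →L[ℝ] ℝ) (B : P →L[ℝ] P →L[ℝ] ℝ) (p : P) (ε : ℝ) (x : P) :
    mol ρ (fun w => c + L (w - p) + 1 / 2 * B (w - p) (w - p)) ε x =
      (c + L (x - p) + 1 / 2 * B (x - p) (x - p)) + ∫ y, ρ y * (ε ^ 2 / 2 * B y y) := by
  have e : ∀ y : P, c + L (x - ε • y - p) + 1 / 2 * B (x - ε • y - p) (x - ε • y - p) =
      (c + L (x - p) + 1 / 2 * B (x - p) (x - p)) +
        ((-(ε * L y) - ε / 2 * B (x - p) y - ε / 2 * B y (x - p)) + ε ^ 2 / 2 * B y y) := by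
    intro y
    rw [show x - ε • y - p = (x - p) - ε • y by abel]
    simp only [map_sub, map_smul, sub_apply, smul_apply, smul_eq_mul]
    ring
  unfold mol
  simp only [e]
  rw [h.int_add continuous_const (by fun_prop), h.int_const,
    h.int_add (by fun_prop) (by fun_prop), h.int_odd (fun y => by simp; ring), zero_add]

lemma fderiv2_quad (c : ℝ) (L : P →L[ℝ] ℝ) (B : P →L[ℝ] P →L[ℝ] ℝ) (hB : ∀ a b, B a b = B b a)
    (p : P) (c' : ℝ) (x a b : P) :
    fderiv ℝ (fderiv ℝ (fun w => (c + L (w - p) + 1 / 2 * B (w - p) (w - p)) + c')) x a b =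
      B a b := by
  have h1 : ∀ x : P, HasFDerivAt (fun w => (c + L (w - p) + 1 / 2 * B (w - p) (w - p)) + c')
      (L + B (x - p)) x := by
    intro x
    have e0 : HasFDerivAt (fun w : P => w - p) (ContinuousLinearMap.id ℝ P) x :=
      (hasFDerivAt_id x).sub_const p
    have e1 : HasFDerivAt (fun w : P => L (w - p)) L x := by
      have := L.hasFDerivAt.comp x e0
      rw [ContinuousLinearMap.comp_id] at this
      exact this
    have e2 : HasFDerivAt (fun w : P => B (w - p)) B x := by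
      have := B.hasFDerivAt.comp x e0
      rw [ContinuousLinearMap.comp_id] at this
      exact this
    have e3 := e2.clm_apply e0
    have e4 := ((e1.const_add c).add (e3.const_mul (1 / 2))).add_const c'
    refine e4.congr_fderiv (ContinuousLinearMap.ext fun z => ?_)
    simp only [add_apply, smul_apply, ContinuousLinearMap.comp_apply, ContinuousLinearMap.id_apply,
      ContinuousLinearMap.flip_apply, smul_eq_mul]
    rw [hB z]
    ring
  have h2 : fderiv ℝ (fun w => (c + L (w - p) + 1 / 2 * B (w - p) (w - p)) + c') =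
      fun x => L + B (x - p) := funext fun x => (h1 x).fderiv
  rw [h2]
  have e0 : HasFDerivAt (fun w : P => w - p) (ContinuousLinearMap.id ℝ P) x :=
    (hasFDerivAt_id x).sub_const p
  have e2 : HasFDerivAt (fun w : P => L + B (w - p)) B x := by
    have := (B.hasFDerivAt.comp x e0).const_add L
    rw [ContinuousLinearMap.comp_id] at this
    exact this
  rw [e2.fderiv]

/-- convergence of the second derivatives at points of twice differentiability -/
lemma mol_tendsto (h : Ker ρ) (hU : Prof U) {p : P} (hp : DifferentiableAt ℝ (fderiv ℝ U) p)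
    (a b : P) :
    Tendsto (fun ε => fderiv ℝ (fderiv ℝ (mol ρ U ε)) p a b) (𝓝[>] 0)
      (𝓝 (fderiv ℝ (fderiv ℝ U) p a b)) := by
  set B := fderiv ℝ (fderiv ℝ U) p with hB
  have hsymm : ∀ a b, B a b = B b a := fun a b => second_symm hU.differentiable hp a b
  have hc := hU.continuous
  set T : P → ℝ := fun w => U p + fderiv ℝ U p (w - p) + 1 / 2 * B (w - p) (w - p) with hT
  have hTc : Continuous T := by
    have : Continuous fun w : P => B (w - p) (w - p) := by fun_prop
    fun_prop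
  rw [Metric.tendsto_nhdsWithin_nhds]
  intro η hη
  have hk0 : 0 ≤ kc ρ a b := integral_nonneg fun _ => abs_nonneg _
  obtain ⟨δ, hδ, hb⟩ := taylor_two hU.differentiable hp (ε := η / (2 * (kc ρ a b + 1)))
    (by positivity)
  refine ⟨δ, hδ, fun {ε} hε hεδ => ?_⟩
  have hε0 : (0 : ℝ) < ε := hε
  rw [dist_zero_right, Real.norm_eq_abs, abs_of_pos hε0] at hεδ
  have e1 : fderiv ℝ (fderiv ℝ (mol ρ U ε)) p a b =
      fderiv ℝ (fderiv ℝ (mol ρ T ε)) p a b +
        ∫ t, fderiv ℝ (fderiv ℝ (ker ρ ε)) t a b * (fun w => U w - T w) (p - t) := by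
    rw [mol_second h hc hε0, mol_second h hTc hε0]
    have hk2 : Continuous (fun t => fderiv ℝ (fderiv ℝ (ker ρ ε)) t a b) ∧
        HasCompactSupport (fun t => fderiv ℝ (fderiv ℝ (ker ρ ε)) t a b) := by
      have e : (fun y => fderiv ℝ (fderiv ℝ (ker ρ ε)) y a b) =
          fun y => fderiv ℝ (fun q => fderiv ℝ (ker ρ ε) q b) y a := by
        ext y; rw [fderiv_fderiv_apply (ker_contDiff h ε)]
      rw [e]
      exact ⟨(contDiff_fderiv_apply (contDiff_fderiv_apply (ker_contDiff h ε) b) a).continuous,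
        compact_fderiv_apply (compact_fderiv_apply (ker_compact h hε0) b) a⟩
    rw [← integral_add]
    · congr 1; ext t; ring
    · exact (hk2.1.mul (by fun_prop)).integrable_of_hasCompactSupport hk2.2.mul_right
    · exact (hk2.1.mul (by fun_prop)).integrable_of_hasCompactSupport hk2.2.mul_right
  have e2 : fderiv ℝ (fderiv ℝ (mol ρ T ε)) p a b = B a b := by
    have : mol ρ T ε = fun x => (U p + fderiv ℝ U p (x - p) + 1 / 2 * B (x - p) (x - p)) +
        ∫ y, ρ y * (ε ^ 2 / 2 * B y y) := funext fun x => mol_quad h _ _ _ _ _ _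
    rw [this]
    exact fderiv2_quad _ _ _ hsymm _ _ _ _ _
  rw [e1, e2, Real.dist_eq, add_sub_cancel_left]
  refine lt_of_le_of_lt (second_bound h hε0 (R := fun w => U w - T w) (hc.sub hTc) p a b
    (η := η / (2 * (kc ρ a b + 1))) fun t ht => ?_) ?_
  · have h1 := hb (-t) (by rw [norm_neg]; linarith)
    have h2 : ‖-t‖ ^ 2 ≤ ε ^ 2 := by rw [norm_neg]; gcongr
    simp only [hT]
    rw [show p - t - p = -t by abel, show p - t = p + -t by abel]
    rw [← hB] at h1
    calc |U (p + -t) - (U p + fderiv ℝ U p (-t) + 1 / 2 * B (-t) (-t))|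
        = |U (p + -t) - U p - fderiv ℝ U p (-t) - 1 / 2 * B (-t) (-t)| := by
          congr 1; ring
      _ ≤ _ := h1
      _ ≤ _ := by gcongr
  · rw [div_mul_eq_mul_div, div_lt_iff₀ (by positivity)]
    nlinarith

lemma mol_lower (h : Ker ρ) (hU : Prof U) {ε : ℝ} (hε : 0 < ε) (p v : P) :
    mol ρ U ε p + fderiv ℝ (mol ρ U ε) p v ≤ mol ρ U ε (p + v) := by
  have hs := mol_contDiff h hU.continuous hε
  have hc := hU.continuous
  -- convexity
  have hconv : ConvexOn ℝ univ (mol ρ U ε) := by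
    refine ⟨convex_univ, fun x _ y _ a b ha hb hab => ?_⟩
    simp only [smul_eq_mul]
    unfold mol
    rw [← integral_const_mul, ← integral_const_mul]
    have e : ∀ s : ℝ, ∀ x : P, ∫ z, s * (ρ z * U (x - ε • z)) = ∫ z, ρ z * (s * U (x - ε • z)) := by
      intro s x; congr 1; ext z; ring
    rw [e, e, ← h.int_add (by fun_prop) (by fun_prop)]
    refine h.int_mono (by fun_prop) (by fun_prop) fun z _ => ?_
    have hq : a • x + b • y - ε • z = a • (x - ε • z) + b • (y - ε • z) := by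
      rw [smul_sub, smul_sub]
      have : ε • z = a • ε • z + b • ε • z := by rw [← add_smul, hab, one_smul]
      conv_lhs => rw [this]
      abel
    rw [hq]
    set q := a • (x - ε • z) + b • (y - ε • z) with hqd
    have h1 := hU.lower q (x - ε • z - q)
    have h2 := hU.lower q (y - ε • z - q)
    rw [add_sub_cancel] at h1 h2
    have h3 : a • (x - ε • z - q) + b • (y - ε • z - q) = 0 := by
      calc _ = (a • (x - ε • z) + b • (y - ε • z)) - (a + b) • q := by module
        _ = 0 := by rw [hab, one_smul, ← hqd, sub_self]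
    have h4 : a * fderiv ℝ U q (x - ε • z - q) + b * fderiv ℝ U q (y - ε • z - q) = 0 := by
      have := congrArg (fderiv ℝ U q) h3
      simpa using this
    have hb' : b = 1 - a := by linarith
    have h5 := mul_le_mul_of_nonneg_left h1 ha
    have h6 := mul_le_mul_of_nonneg_left h2 hb
    have h7 : (a + b) * U q = U q := by rw [hab, one_mul]
    nlinarith
  have hdiff : HasDerivAt (fun s : ℝ => mol ρ U ε (p + s • v)) (fderiv ℝ (mol ρ U ε) p v) 0 := by
    have h1 : HasDerivAt (fun s : ℝ => p + s • v) v 0 := by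
      simpa using! ((hasDerivAt_id (0 : ℝ)).smul_const v).const_add p
    have h2 : HasFDerivAt (mol ρ U ε) (fderiv ℝ (mol ρ U ε) (p + (0 : ℝ) • v)) (p + (0 : ℝ) • v) :=
      (hs.differentiable (by norm_num) _).hasFDerivAt
    have := h2.comp_hasDerivAt (0 : ℝ) h1
    simpa using! this
  have hlim := hdiff.tendsto_slope_zero_right
  have hle : ∀ᶠ s : ℝ in 𝓝[>] 0, s⁻¹ • (mol ρ U ε (p + (0 + s) • v) - mol ρ U ε (p + (0 : ℝ) • v)) ≤
      mol ρ U ε (p + v) - mol ρ U ε p := by
    have h1 : ∀ᶠ s : ℝ in 𝓝[>] 0, s < 1 :=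
      mem_nhdsWithin_of_mem_nhds (Iio_mem_nhds one_pos)
    filter_upwards [h1, self_mem_nhdsWithin] with s hs1 hs0
    have hs0' : (0 : ℝ) < s := hs0
    have h2 := hconv.2 (mem_univ p) (mem_univ (p + v)) (show 0 ≤ 1 - s by linarith) hs0'.le
      (by ring)
    simp only [smul_eq_mul] at h2
    rw [zero_add, zero_smul, add_zero, smul_eq_mul, inv_mul_le_iff₀ hs0']
    have h3 : (1 - s) • p + s • (p + v) = p + s • v := by
      rw [smul_add, sub_smul, one_smul]; abel
    rw [h3] at h2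
    linarith
  have := le_of_tendsto hlim hle
  linarith

end Pool.Agent.H220.C6
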