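import Pool.Agent.H220.C6.Func

/-!
# The solution is not Hölder continuous
-/

set_option autoImplicit false

open Filter Metric Set Topology
open scoped ContDiff Real Manifold

namespace Pool.Agent.H220.C6

variable {α : ℝ}

/-- good rational approximations with large denominators -/
lemma exists_approx (hα : Irrational α) (hα1 : |α| ≤ 1) (N : ℕ) :
    ∃ r : ℕ, N ≤ r ∧ 0 < r ∧ ∃ s : ℤ, |(s : ℝ)| ≤ 2 * r ∧ |α - s / r| ≤ 1 / (r : ℝ) ^ 2 := by
  by_contra hcon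
  push Not at hcon
  have hinf := Real.infinite_rat_abs_sub_lt_one_div_den_sq_of_irrational hα
  refine hinf ?_
  have hfin : ((fun p : ℤ × ℕ => ((p.1 : ℚ) / (p.2 : ℚ))) ''
      ((Icc (-(2 * N : ℤ)) (2 * N)) ×ˢ (Iio N))).Finite :=
    ((finite_Icc _ _).prod (finite_Iio _)).image _
  refine hfin.subset fun q hq => ?_
  have hq' : |α - q| < 1 / (q.den : ℝ) ^ 2 := hq
  have hden : 0 < q.den := q.pos
  have hden' : (1 : ℝ) ≤ q.den := by exact_mod_cast hden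
  have hqe : (q : ℝ) = (q.num : ℝ) / (q.den : ℝ) := by
    have := Rat.num_div_den q
    have h2 : ((q.num / q.den : ℚ) : ℝ) = (q : ℝ) := by rw [this]
    rw [← h2]
    push_cast
    rfl
  have h1 : 1 / (q.den : ℝ) ^ 2 ≤ 1 := by
    rw [div_le_one (by positivity)]
    exact one_le_pow₀ hden'
  have h2 : |(q : ℝ)| ≤ 2 := by
    have h3 : (q : ℝ) = α - (α - q) := by ring
    rw [h3]
    refine (abs_sub _ _).trans ?_
    linarith
  have h3 : |(q.num : ℝ)| ≤ 2 * q.den := by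
    have h4 : (q.num : ℝ) = q * q.den := by
      rw [hqe]; field_simp
    rw [h4, abs_mul, abs_of_pos (by linarith : (0 : ℝ) < q.den)]
    exact mul_le_mul_of_nonneg_right h2 (by linarith)
  have h4 : q.den < N := by
    by_contra h5
    have h6 := hcon q.den (not_lt.1 h5) hden q.num h3
    rw [← hqe] at h6
    linarith
  refine ⟨(q.num, q.den), ⟨?_, h4⟩, Rat.num_div_den q⟩
  have h5 : (q.den : ℝ) ≤ N := by exact_mod_cast h4.le
  have h6 := abs_le.1 h3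
  refine ⟨?_, ?_⟩
  · have : -(2 * (N : ℝ)) ≤ q.num := by linarith [h6.1]
    exact_mod_cast this
  · have : (q.num : ℝ) ≤ 2 * N := by linarith [h6.2]
    exact_mod_cast this

/-- the lower bound of the solution at the test points -/
lemma Ph_test {r : ℕ} {s : ℤ} (hr : 2 ≤ r) (hs : |(s : ℝ)| ≤ 2 * r)
    (hα : |α - s / r| ≤ 1 / (r : ℝ) ^ 2)
    (hexp : Real.exp (-((r : ℝ) ^ 2 / (8 * π ^ 2))) ≤ 1 / (8 * π ^ 2 * (r : ℝ) ^ 2)) :
    1 / (8 * π ^ 2 * (r : ℝ) ^ 2) ≤ Ph α false ((1 / (2 * r) : ℝ), 0,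
      (Real.exp (-((r : ℝ) ^ 2 / (16 * π ^ 2))) : ℝ)) := by
  have hr0 : 0 < r := by omega
  have hr' : (2 : ℝ) ≤ r := by exact_mod_cast hr
  have hr1 : (0 : ℝ) < r := by linarith
  have hpi := Real.pi_pos
  set ξ : ℝ := Real.exp (-((r : ℝ) ^ 2 / (16 * π ^ 2))) with hξ
  have hξ0 : 0 < ξ := Real.exp_pos _
  set τ : ℝ := -((r : ℝ) ^ 2 / (8 * π ^ 2)) with hτ
  have hψ : psi 0 (ξ : ℂ) = τ := by
    rw [psi, add_zero, Complex.normSq_ofReal, hξ, ← Real.exp_add, Real.log_exp, hτ]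
    ring
  have hz : ((ξ : ℝ) : ℂ) ≠ 0 := by exact_mod_cast hξ0.ne'
  have h1 : Ph α false ((1 / (2 * r) : ℝ), 0, (ξ : ℝ)) =
      UU α (1 / (2 * r), 0, τ) - (ell α (1 / (2 * r)) 0 + Real.log (1 + Real.exp τ)) := by
    have hns : Complex.normSq (ξ : ℂ) = Real.exp τ := by
      have hp : 0 < Complex.normSq (ξ : ℂ) := Complex.normSq_pos.2 hz
      rw [← hψ, psi, add_zero, Real.exp_log hp]
    rw [Ph, uu0, if_neg (by exact hz)]
    simp only [UV, Psi, PP, lg, hψ, hns, qq, Complex.ofReal_re, Complex.zero_re]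
    simp
  rw [h1]
  have h2 := GG_le_UU (α := α) hr0 hs hα (1 / (2 * r)) 0 τ
  have h3 : GG r s (1 / (2 * r)) 0 = 4 * (1 / (8 * π ^ 2 * (r : ℝ) ^ 2)) := by
    rw [GG]
    have h4 : 2 * π * (r * (1 / (2 * r)) - s * 0) = π := by field_simp; ring
    rw [h4, Real.cos_pi]
    field_simp
    ring
  have h4 : 1 / (r : ℝ) ^ 4 * (τ + qq 0) = -(1 / (8 * π ^ 2 * (r : ℝ) ^ 2)) := by
    rw [hτ, qq]
    field_simp
    ring
  have h5 : (1 / (r : ℝ) ^ 4) ^ 2 / 2 ≤ 1 / (8 * π ^ 2 * (r : ℝ) ^ 2) := by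
    rw [div_pow, one_pow, div_div, div_le_div_iff₀ (by positivity) (by positivity)]
    have h6 : π ^ 2 < 10 := by
      have := Real.pi_lt_d2
      nlinarith
    have h7 : (64 : ℝ) ≤ (r : ℝ) ^ 6 := by
      calc (64 : ℝ) = 2 ^ 6 := by norm_num
        _ ≤ (r : ℝ) ^ 6 := by gcongr
    have h8 : 0 < (r : ℝ) ^ 2 := by positivity
    nlinarith [mul_le_mul_of_nonneg_left h7 h8.le]
  have h6 : Real.log (1 + Real.exp τ) ≤ Real.exp τ := by
    have := Real.log_le_sub_one_of_pos (show 0 < 1 + Real.exp τ by positivity)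
    linarith
  have h7 : Real.exp τ ≤ 1 / (8 * π ^ 2 * (r : ℝ) ^ 2) := hexp
  linarith

lemma tendsto_sq_exp {b : ℝ} (hb : 0 < b) :
    Tendsto (fun r : ℕ => (r : ℝ) ^ 2 * Real.exp (-(b * (r : ℝ) ^ 2))) atTop (𝓝 0) := by
  have h1 := Real.tendsto_pow_mul_exp_neg_atTop_nhds_zero 1
  have h2 : Tendsto (fun r : ℕ => b * (r : ℝ) ^ 2) atTop atTop :=
    ((tendsto_pow_atTop two_ne_zero).comp tendsto_natCast_atTop_atTop).const_mul_atTop hb
  have h3 := (h1.comp h2).const_mul b⁻¹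
  rw [mul_zero] at h3
  refine h3.congr fun r => ?_
  simp only [Function.comp_apply, pow_one]
  field_simp

theorem not_holder (hα : Irrational α) (hα1 : |α| ≤ 1) {φ : X3 → ℝ}
    (hφ : ∀ i z, φ (kp i z) = Ph α i z) : ¬ IsHolder φ := by
  rintro ⟨β, hβ, H⟩
  obtain ⟨e, he, hsrc, C, W, hW, hWs, hbound⟩ := H (kp false 0)
  have hpi := Real.pi_pos
  -- the transition map is Lipschitz near the origin
  obtain ⟨K, t, ht, hLip⟩ : ∃ K : NNReal, ∃ t ∈ 𝓝 (0 : E),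
      LipschitzOnWith K (fun z => e (kp false z)) t := by
    have h1 : ContMDiffAt 𝓘(ℂ, E) 𝓘(ℂ, E) ω (chr (false, 0, 1)).symm 0 :=
      contMDiffAt_symm_of_mem_maximalAtlas (chr_mem _) (mem_V false 0)
    have h2 : ContMDiffAt 𝓘(ℂ, E) 𝓘(ℂ, E) ω e (kp false 0) :=
      contMDiffAt_of_mem_maximalAtlas he hsrc
    have h3 : ContMDiffAt 𝓘(ℂ, E) 𝓘(ℂ, E) ω (fun z => e (kp false z)) 0 :=
      ContMDiffAt.comp (0 : E) h2 h1
    have h4 : ContDiffAt ℂ ω (fun z => e (kp false z)) 0 := contMDiffAt_iff_contDiffAt.1 h3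
    exact (h4.of_le (m := 1) (by simp)).exists_lipschitzOnWith
  have hWn : kp false ⁻¹' W ∈ 𝓝 (0 : E) := by
    have := map_nhds_kp false (0 : E)
    rw [← this] at hW
    exact hW
  have hn := inter_mem ht hWn
  -- the test points
  set p : ℕ → E := fun r => ((1 / (2 * r) : ℝ), 0, (Real.exp (-((r : ℝ) ^ 2 / (16 * π ^ 2))) : ℝ))
    with hp
  set p' : ℕ → E := fun r => ((1 / (2 * r) : ℝ), 0, 0) with hp'
  have hx : Tendsto (fun r : ℕ => (((1 / (2 * r) : ℝ)) : ℂ)) atTop (𝓝 0) := by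
    have h1 : Tendsto (fun r : ℕ => (1 / (2 * r) : ℝ)) atTop (𝓝 0) := by
      have := (tendsto_one_div_atTop_nhds_zero_nat (𝕜 := ℝ)).const_mul (1 / 2)
      rw [mul_zero] at this
      refine this.congr fun r => ?_
      rw [one_div_mul_one_div]
    have h2 := (Complex.continuous_ofReal.tendsto 0).comp h1
    rw [Complex.ofReal_zero] at h2
    exact h2
  have hy : Tendsto (fun r : ℕ => ((Real.exp (-((r : ℝ) ^ 2 / (16 * π ^ 2))) : ℝ) : ℂ)) atTop
      (𝓝 0) := by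
    have h1 : Tendsto (fun r : ℕ => Real.exp (-((r : ℝ) ^ 2 / (16 * π ^ 2)))) atTop (𝓝 0) := by
      refine Real.tendsto_exp_neg_atTop_nhds_zero.comp ?_
      exact ((tendsto_pow_atTop two_ne_zero).comp
        tendsto_natCast_atTop_atTop).atTop_div_const (by positivity)
    have h2 := (Complex.continuous_ofReal.tendsto 0).comp h1
    rw [Complex.ofReal_zero] at h2
    exact h2
  have hpt : Tendsto p atTop (𝓝 0) := hx.prodMk_nhds (tendsto_const_nhds.prodMk_nhds hy)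
  have hpt' : Tendsto p' atTop (𝓝 0) :=
    hx.prodMk_nhds (tendsto_const_nhds.prodMk_nhds tendsto_const_nhds)
  -- the inequalities which hold for large `r`
  have e1 : ∀ᶠ r : ℕ in atTop, p r ∈ t ∩ kp false ⁻¹' W := hpt hn
  have e2 : ∀ᶠ r : ℕ in atTop, p' r ∈ t ∩ kp false ⁻¹' W := hpt' hn
  have e3 : ∀ᶠ r : ℕ in atTop,
      (r : ℝ) ^ 2 * Real.exp (-(1 / (8 * π ^ 2) * (r : ℝ) ^ 2)) < 1 / (8 * π ^ 2) :=
    (tendsto_sq_exp (by positivity)).eventually_lt_const (by positivity)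
  have e4 : ∀ᶠ r : ℕ in atTop, (|C| * (K : ℝ) ^ β) *
      ((r : ℝ) ^ 2 * Real.exp (-(β / (16 * π ^ 2) * (r : ℝ) ^ 2))) < 1 / (8 * π ^ 2) := by
    have h1 := (tendsto_sq_exp (b := β / (16 * π ^ 2)) (by positivity)).const_mul
      (|C| * (K : ℝ) ^ β)
    rw [mul_zero] at h1
    exact h1.eventually_lt_const (by positivity)
  obtain ⟨N, hN⟩ := eventually_atTop.1 ((e1.and e2).and ((e3.and e4).and (eventually_ge_atTop 2)))
  obtain ⟨r, hrN, hr0, s, hs, hαr⟩ := exists_approx hα hα1 N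
  obtain ⟨⟨h1, h2⟩, ⟨h3, h4⟩, h5⟩ := hN r hrN
  have hr' : (0 : ℝ) < r := by exact_mod_cast hr0
  have h6 : Real.exp (-((r : ℝ) ^ 2 / (8 * π ^ 2))) ≤ 1 / (8 * π ^ 2 * (r : ℝ) ^ 2) := by
    have e : 1 / (8 * π ^ 2) * (r : ℝ) ^ 2 = (r : ℝ) ^ 2 / (8 * π ^ 2) := by ring
    rw [e] at h3
    have e' : 1 / (8 * π ^ 2 * (r : ℝ) ^ 2) = 1 / (8 * π ^ 2) / (r : ℝ) ^ 2 := (div_div _ _ _).symm
    rw [e', le_div_iff₀ (by positivity), mul_comm]
    exact h3.le
  have h7 := Ph_test h5 hs hαr h6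
  have h8 : Ph α false (p' r) = 0 := Ph_zero hα rfl
  have h9 := hbound (kp false (p r)) h1.2 (kp false (p' r)) h2.2
  rw [hφ, hφ, h8, sub_zero] at h9
  have h10 : ‖e (kp false (p r)) - e (kp false (p' r))‖ ≤
      K * Real.exp (-((r : ℝ) ^ 2 / (16 * π ^ 2))) := by
    have h11 := hLip.dist_le_mul (p r) h1.1 (p' r) h2.1
    rw [dist_eq_norm, dist_eq_norm] at h11
    refine h11.trans (mul_le_mul_of_nonneg_left ?_ K.2)
    have h12 : p r - p' r = (0, 0, ((Real.exp (-((r : ℝ) ^ 2 / (16 * π ^ 2))) : ℝ) : ℂ)) := by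
      simp only [hp, hp', Prod.mk_sub_mk, sub_self, sub_zero]
    rw [h12]
    simp only [Prod.norm_def, norm_zero, Complex.norm_real, Real.norm_eq_abs]
    rw [abs_of_pos (Real.exp_pos _)]
    exact max_le (Real.exp_pos _).le (max_le (Real.exp_pos _).le le_rfl)
  have h13 : C * ‖e (kp false (p r)) - e (kp false (p' r))‖ ^ β ≤
      |C| * (K * Real.exp (-((r : ℝ) ^ 2 / (16 * π ^ 2)))) ^ β := by
    refine mul_le_mul (le_abs_self C) (Real.rpow_le_rpow (norm_nonneg _) h10 hβ.le)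
      (Real.rpow_nonneg (norm_nonneg _) _) (abs_nonneg _)
  rw [Real.mul_rpow (NNReal.coe_nonneg K) (Real.exp_pos _).le, ← Real.exp_mul] at h13
  have h14 : -((r : ℝ) ^ 2 / (16 * π ^ 2)) * β = -(β / (16 * π ^ 2) * (r : ℝ) ^ 2) := by ring
  rw [h14] at h13
  have h15 := (h7.trans (le_abs_self _)).trans (h9.trans h13)
  have h16 : 1 / (8 * π ^ 2) ≤ (|C| * (K : ℝ) ^ β) *
      ((r : ℝ) ^ 2 * Real.exp (-(β / (16 * π ^ 2) * (r : ℝ) ^ 2))) := by
    have h17 := mul_le_mul_of_nonneg_left h15 (show 0 ≤ (r : ℝ) ^ 2 by positivity)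
    have h18 : (r : ℝ) ^ 2 * (1 / (8 * π ^ 2 * (r : ℝ) ^ 2)) = 1 / (8 * π ^ 2) := by
      field_simp
    rw [h18] at h17
    refine h17.trans (le_of_eq ?_)
    ring
  linarith

end Pool.Agent.H220.C6
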