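import Pool.Agent.H220.C6.Levi

/-!
# The local potentials of the forms and their Levi forms
-/

set_option autoImplicit false

open Filter Metric Set Topology
open scoped ContDiff Real

namespace Pool.Agent.H220.C6

/-- the logarithmic part of the local potentials -/
noncomputable def lg : Bool → E → ℝ
  | false => fun z => Real.log (1 + Complex.normSq z.2.2 * Real.exp (qq z.2.1.re))
  | true => fun z => Real.log (Complex.normSq z.2.2 + Real.exp (qq z.2.1.re))

/-- the local potentials -/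
noncomputable def PP (a ε : ℝ) (i : Bool) (z : E) : ℝ :=
  ell a z.1.re z.2.1.re + ε * z.2.1.re ^ 2 + lg i z

/-- the signs -/
def sn : Bool → ℝ
  | false => 1
  | true => -1

/-- the multiple of `q` -/
def cn : Bool → ℝ
  | false => 0
  | true => 1

lemma PP_eq (a ε : ℝ) (i : Bool) (z : E) : PP a ε i z =
    (z.1.re - a * z.2.1.re) ^ 2 + ε * z.2.1.re ^ 2 + cn i * (2 * π * z.2.1.re ^ 2) +
      Real.log (1 + Complex.normSq z.2.2 * Real.exp (sn i * (2 * π * z.2.1.re ^ 2))) := by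
  cases i with
  | false => simp [PP, lg, ell, cn, sn, qq]
  | true =>
    simp only [PP, lg, ell, cn, sn, qq]
    have h1 : Complex.normSq z.2.2 + Real.exp (2 * π * z.2.1.re ^ 2) =
        Real.exp (2 * π * z.2.1.re ^ 2) *
          (1 + Complex.normSq z.2.2 * Real.exp (-1 * (2 * π * z.2.1.re ^ 2))) := by
      have h2 : Real.exp (2 * π * z.2.1.re ^ 2) * Real.exp (-1 * (2 * π * z.2.1.re ^ 2)) = 1 := by
        rw [← Real.exp_add]
        simp
      linear_combination -Complex.normSq z.2.2 * h2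
    have h3 : 0 < 1 + Complex.normSq z.2.2 * Real.exp (-1 * (2 * π * z.2.1.re ^ 2)) := by
      have := Complex.normSq_nonneg z.2.2
      positivity
    rw [h1, Real.log_mul (Real.exp_pos _).ne' h3.ne', Real.log_exp]
    ring

lemma arg_pos (i : Bool) (z : E) :
    0 < 1 + Complex.normSq z.2.2 * Real.exp (sn i * (2 * π * z.2.1.re ^ 2)) := by
  have := Complex.normSq_nonneg z.2.2
  positivity

lemma contDiff_PP (a ε : ℝ) (i : Bool) : ContDiff ℝ ∞ (PP a ε i) := by
  have e : PP a ε i = fun z => (z.1.re - a * z.2.1.re) ^ 2 + ε * z.2.1.re ^ 2 +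
      cn i * (2 * π * z.2.1.re ^ 2) +
      Real.log (1 + Complex.normSq z.2.2 * Real.exp (sn i * (2 * π * z.2.1.re ^ 2))) :=
    funext fun z => PP_eq a ε i z
  rw [e]
  have h1 : ContDiff ℝ ∞ (fun z : E => z.1.re) := re1.contDiff
  have h2 : ContDiff ℝ ∞ (fun z : E => z.2.1.re) := re2.contDiff
  have h3 : ContDiff ℝ ∞ (fun z : E => Complex.normSq z.2.2) := contDiff_normSq.comp pr3.contDiff
  have h4 : ContDiff ℝ ∞ (fun z : E => Real.exp (sn i * (2 * π * z.2.1.re ^ 2))) :=
    (contDiff_const.mul (contDiff_const.mul (h2.pow 2))).exp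
  exact ((((h1.sub (contDiff_const.mul h2)).pow 2).add (contDiff_const.mul (h2.pow 2))).add
    (contDiff_const.mul (contDiff_const.mul (h2.pow 2)))).add
      ((contDiff_const.add (h3.mul h4)).log fun z => (arg_pos i z).ne')

/-- the second derivative in one direction is the second derivative along a line -/
lemma second_line {f : E → ℝ} (hf : ContDiff ℝ ∞ f) (z v : E) {h' : ℝ → ℝ} {c : ℝ}
    (h1 : ∀ t, HasDerivAt (fun t : ℝ => f (z + t • v)) (h' t) t) (h2 : HasDerivAt h' c 0) :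
    fderiv ℝ (fderiv ℝ f) z v v = c := by
  have hl : ∀ t : ℝ, HasDerivAt (fun t : ℝ => z + t • v) v t := fun t => by
    have := ((hasDerivAt_id t).smul_const v).const_add z
    simpa using this
  have h3 : ∀ t : ℝ, fderiv ℝ f (z + t • v) v = h' t := fun t => by
    have := ((hf.differentiable (by simp)) (z + t • v)).hasFDerivAt.comp_hasDerivAt t (hl t)
    exact this.unique (h1 t)
  have hf1 : ContDiff ℝ 1 (fderiv ℝ f) := hf.fderiv_right (m := 1) (by norm_cast)
  have h4 : HasDerivAt (fun t : ℝ => fderiv ℝ f (z + t • v)) (fderiv ℝ (fderiv ℝ f) z v) 0 := by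
    have := ((hf1.differentiable one_ne_zero) (z + (0 : ℝ) • v)).hasFDerivAt.comp_hasDerivAt 0
      (hl 0)
    simpa using! this
  have h5 : HasDerivAt (fun t : ℝ => fderiv ℝ f (z + t • v) v) (fderiv ℝ (fderiv ℝ f) z v v) 0 :=
    (ContinuousLinearMap.apply ℝ ℝ v).hasFDerivAt.comp_hasDerivAt 0 h4
  have h6 : (fun t : ℝ => fderiv ℝ f (z + t • v) v) = h' := funext h3
  rw [h6] at h5
  exact h5.unique h2

/-- the first derivative of the product -/
noncomputable def M1 (A B C y0 y1 s : ℝ) (t : ℝ) : ℝ :=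
  ((2 * B + 2 * C * t) + (A + 2 * B * t + C * t ^ 2) * (s * (4 * π * y1 * (y0 + t * y1)))) *
    Real.exp (s * (2 * π * (y0 + t * y1) ^ 2))

lemma hasDerivAt_exp_line (y0 y1 s t : ℝ) :
    HasDerivAt (fun t => Real.exp (s * (2 * π * (y0 + t * y1) ^ 2)))
      (Real.exp (s * (2 * π * (y0 + t * y1) ^ 2)) * (s * (4 * π * y1 * (y0 + t * y1)))) t := by
  have h0 : HasDerivAt (fun t : ℝ => y0 + t * y1) y1 t := by
    simpa using ((hasDerivAt_id t).mul_const y1).const_add y0
  have h1 := (((h0.pow 2).const_mul (2 * π)).const_mul s).exp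
  refine h1.congr_deriv ?_
  change Real.exp (s * (2 * π * (y0 + t * y1) ^ 2)) *
    (s * (2 * π * (((2 : ℕ) : ℝ) * (y0 + t * y1) ^ (2 - 1) * y1))) = _
  rw [show (2 : ℕ) - 1 = 1 from rfl]
  push_cast
  ring

lemma hasDerivAt_quad_line (A B C t : ℝ) :
    HasDerivAt (fun t => A + 2 * B * t + C * t ^ 2) (2 * B + 2 * C * t) t := by
  have h1 := (((hasDerivAt_id t).const_mul (2 * B)).const_add A).add
    (((hasDerivAt_id t).pow 2).const_mul C)
  refine h1.congr_deriv ?_
  change 2 * B * 1 + C * (((2 : ℕ) : ℝ) * t ^ (2 - 1) * 1) = _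
  rw [show (2 : ℕ) - 1 = 1 from rfl]
  push_cast
  ring

lemma hasDerivAt_M0 (A B C y0 y1 s t : ℝ) :
    HasDerivAt (fun t => (A + 2 * B * t + C * t ^ 2) * Real.exp (s * (2 * π * (y0 + t * y1) ^ 2)))
      (M1 A B C y0 y1 s t) t := by
  refine ((hasDerivAt_quad_line A B C t).mul (hasDerivAt_exp_line y0 y1 s t)).congr_deriv ?_
  rw [M1]
  ring

lemma hasDerivAt_M1 (A B C y0 y1 s : ℝ) :
    HasDerivAt (M1 A B C y0 y1 s)
      ((2 * C + 4 * B * (s * (4 * π * y1 * y0)) + A * (s * (4 * π * y1 ^ 2)) +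
        A * (s * (4 * π * y1 * y0)) ^ 2) * Real.exp (s * (2 * π * y0 ^ 2))) 0 := by
  have h0 : HasDerivAt (fun t : ℝ => s * (4 * π * y1 * (y0 + t * y1)))
      (s * (4 * π * y1 * y1)) 0 := by
    simpa using ((((hasDerivAt_id (0 : ℝ)).mul_const y1).const_add y0).const_mul
      (4 * π * y1)).const_mul s
  have h1 : HasDerivAt (fun t : ℝ => 2 * B + 2 * C * t) (2 * C) 0 := by
    simpa using ((hasDerivAt_id (0 : ℝ)).const_mul (2 * C)).const_add (2 * B)
  have h2 := (h1.add ((hasDerivAt_quad_line A B C 0).mul h0)).mul (hasDerivAt_exp_line y0 y1 s 0)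
  refine h2.congr_deriv ?_
  change ((2 * C + ((2 * B + 2 * C * 0) * (s * (4 * π * y1 * (y0 + 0 * y1))) +
      (A + 2 * B * 0 + C * 0 ^ 2) * (s * (4 * π * y1 * y1)))) *
        Real.exp (s * (2 * π * (y0 + 0 * y1) ^ 2)) +
      ((2 * B + 2 * C * 0) + (A + 2 * B * 0 + C * 0 ^ 2) * (s * (4 * π * y1 * (y0 + 0 * y1)))) *
        (Real.exp (s * (2 * π * (y0 + 0 * y1) ^ 2)) * (s * (4 * π * y1 * (y0 + 0 * y1))))) = _
  simp only [mul_zero, zero_mul, add_zero, zero_pow, ne_eq, OfNat.ofNat_ne_zero,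
    not_false_eq_true]
  ring

lemma hasDerivAt_log_line (A B C y0 y1 s : ℝ)
    (hpos : ∀ t, 0 < 1 + (A + 2 * B * t + C * t ^ 2) *
      Real.exp (s * (2 * π * (y0 + t * y1) ^ 2))) :
    (∀ t, HasDerivAt (fun t => Real.log (1 + (A + 2 * B * t + C * t ^ 2) *
      Real.exp (s * (2 * π * (y0 + t * y1) ^ 2))))
        (M1 A B C y0 y1 s t / (1 + (A + 2 * B * t + C * t ^ 2) *
          Real.exp (s * (2 * π * (y0 + t * y1) ^ 2)))) t) ∧
    HasDerivAt (fun t => M1 A B C y0 y1 s t / (1 + (A + 2 * B * t + C * t ^ 2) *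
          Real.exp (s * (2 * π * (y0 + t * y1) ^ 2))))
      (((2 * C + 4 * B * (s * (4 * π * y1 * y0)) + A * (s * (4 * π * y1 ^ 2)) +
        A * (s * (4 * π * y1 * y0)) ^ 2) * Real.exp (s * (2 * π * y0 ^ 2)) *
          (1 + A * Real.exp (s * (2 * π * y0 ^ 2))) -
        ((2 * B + A * (s * (4 * π * y1 * y0))) * Real.exp (s * (2 * π * y0 ^ 2))) ^ 2) /
          (1 + A * Real.exp (s * (2 * π * y0 ^ 2))) ^ 2) 0 := by
  refine ⟨fun t => ((hasDerivAt_M0 A B C y0 y1 s t).const_add 1).log (hpos t).ne', ?_⟩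
  have h1 := (hasDerivAt_M1 A B C y0 y1 s).div ((hasDerivAt_M0 A B C y0 y1 s 0).const_add 1)
    (hpos 0).ne'
  refine h1.congr_deriv ?_
  have e : M1 A B C y0 y1 s 0 = (2 * B + A * (s * (4 * π * y1 * y0))) *
      Real.exp (s * (2 * π * y0 ^ 2)) := by
    simp [M1]
  rw [e]
  simp only [mul_zero, zero_mul, add_zero, zero_pow, ne_eq, OfNat.ofNat_ne_zero,
    not_false_eq_true]
  ring

/-- the second derivative of the potentials -/
lemma second_PP (a ε : ℝ) (i : Bool) (z v : E) :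
    fderiv ℝ (fderiv ℝ (PP a ε i)) z v v =
      2 * (v.1.re - a * v.2.1.re) ^ 2 + 2 * ε * v.2.1.re ^ 2 +
        cn i * (4 * π * v.2.1.re ^ 2) +
      (((2 * Complex.normSq v.2.2 + 4 * (z.2.2.re * v.2.2.re + z.2.2.im * v.2.2.im) *
        (sn i * (4 * π * v.2.1.re * z.2.1.re)) +
        Complex.normSq z.2.2 * (sn i * (4 * π * v.2.1.re ^ 2)) +
        Complex.normSq z.2.2 * (sn i * (4 * π * v.2.1.re * z.2.1.re)) ^ 2) *
          Real.exp (sn i * (2 * π * z.2.1.re ^ 2)) *
          (1 + Complex.normSq z.2.2 * Real.exp (sn i * (2 * π * z.2.1.re ^ 2))) -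
        ((2 * (z.2.2.re * v.2.2.re + z.2.2.im * v.2.2.im) +
          Complex.normSq z.2.2 * (sn i * (4 * π * v.2.1.re * z.2.1.re))) *
            Real.exp (sn i * (2 * π * z.2.1.re ^ 2))) ^ 2) /
          (1 + Complex.normSq z.2.2 * Real.exp (sn i * (2 * π * z.2.1.re ^ 2))) ^ 2) := by
  set A := Complex.normSq z.2.2 with hA
  set B := z.2.2.re * v.2.2.re + z.2.2.im * v.2.2.im with hB
  set C := Complex.normSq v.2.2 with hC
  have hq : ∀ t : ℝ, Complex.normSq (z.2.2 + t • v.2.2) = A + 2 * B * t + C * t ^ 2 := by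
    intro t
    rw [hA, hB, hC, Complex.normSq_apply, Complex.normSq_apply, Complex.normSq_apply]
    simp
    ring
  have hpos : ∀ t, 0 < 1 + (A + 2 * B * t + C * t ^ 2) *
      Real.exp (sn i * (2 * π * (z.2.1.re + t * v.2.1.re) ^ 2)) := by
    intro t
    rw [← hq t]
    have := Complex.normSq_nonneg (z.2.2 + t • v.2.2)
    positivity
  obtain ⟨h1, h2⟩ := hasDerivAt_log_line A B C z.2.1.re v.2.1.re (sn i) hpos
  have hx : ∀ t : ℝ, HasDerivAt (fun t : ℝ => (z.1.re + t * v.1.re) -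
      a * (z.2.1.re + t * v.2.1.re)) (v.1.re - a * v.2.1.re) t := by
    intro t
    have := (((hasDerivAt_id t).mul_const v.1.re).const_add z.1.re).sub
      ((((hasDerivAt_id t).mul_const v.2.1.re).const_add z.2.1.re).const_mul a)
    refine this.congr_deriv ?_
    ring
  have hy : ∀ t : ℝ, HasDerivAt (fun t : ℝ => z.2.1.re + t * v.2.1.re) v.2.1.re t := by
    intro t
    simpa using ((hasDerivAt_id t).mul_const v.2.1.re).const_add z.2.1.re
  refine second_line (contDiff_PP a ε i) z v (h' := fun t =>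
    (2 * (v.1.re - a * v.2.1.re)) * ((z.1.re + t * v.1.re) - a * (z.2.1.re + t * v.2.1.re)) +
      (2 * ε * v.2.1.re) * (z.2.1.re + t * v.2.1.re) +
      (cn i * (4 * π * v.2.1.re)) * (z.2.1.re + t * v.2.1.re) +
      M1 A B C z.2.1.re v.2.1.re (sn i) t / (1 + (A + 2 * B * t + C * t ^ 2) *
          Real.exp (sn i * (2 * π * (z.2.1.re + t * v.2.1.re) ^ 2)))) ?_ ?_
  · intro t
    have e : (fun t : ℝ => PP a ε i (z + t • v)) = fun t : ℝ =>
        ((z.1.re + t * v.1.re) - a * (z.2.1.re + t * v.2.1.re)) ^ 2 +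
          ε * (z.2.1.re + t * v.2.1.re) ^ 2 +
          cn i * (2 * π * (z.2.1.re + t * v.2.1.re) ^ 2) +
          Real.log (1 + (A + 2 * B * t + C * t ^ 2) *
            Real.exp (sn i * (2 * π * (z.2.1.re + t * v.2.1.re) ^ 2))) := by
      funext t
      rw [PP_eq]
      have e1 : (z + t • v).1.re = z.1.re + t * v.1.re := by simp
      have e2 : (z + t • v).2.1.re = z.2.1.re + t * v.2.1.re := by simp
      have e3 : (z + t • v).2.2 = z.2.2 + t • v.2.2 := rfl
      rw [e1, e2, e3, hq]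
    rw [e]
    have h3 := ((((hx t).pow 2).add (((hy t).pow 2).const_mul ε)).add
      ((((hy t).pow 2).const_mul (2 * π)).const_mul (cn i))).add (h1 t)
    refine h3.congr_deriv ?_
    push_cast
    ring
  · have h3 := ((((hx 0).const_mul (2 * (v.1.re - a * v.2.1.re))).add
      ((hy 0).const_mul (2 * ε * v.2.1.re))).add
        ((hy 0).const_mul (cn i * (4 * π * v.2.1.re)))).add h2
    refine h3.congr_deriv ?_
    ring

/-- the Levi form of the potentials -/
lemma levi_PP (a ε : ℝ) (i : Bool) (z v : E) :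
    fderiv ℝ (fderiv ℝ (PP a ε i)) z v v +
      fderiv ℝ (fderiv ℝ (PP a ε i)) z (Complex.I • v) (Complex.I • v) =
      2 * Complex.normSq (v.1 - a * v.2.1) + 2 * ε * Complex.normSq v.2.1 +
      4 * π * Complex.normSq v.2.1 * (cn i + sn i *
        (Complex.normSq z.2.2 * Real.exp (sn i * (2 * π * z.2.1.re ^ 2)) /
          (1 + Complex.normSq z.2.2 * Real.exp (sn i * (2 * π * z.2.1.re ^ 2))))) +
      Real.exp (sn i * (2 * π * z.2.1.re ^ 2)) *
        Complex.normSq (2 * v.2.2 + (sn i * (4 * π * z.2.1.re) : ℝ) * (z.2.2 * v.2.1)) /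
          (1 + Complex.normSq z.2.2 * Real.exp (sn i * (2 * π * z.2.1.re ^ 2))) ^ 2 := by
  rw [second_PP, second_PP]
  have e1 : (Complex.I • v).1.re = - v.1.im := by simp
  have e2 : (Complex.I • v).2.1.re = - v.2.1.im := by simp
  have e3 : (Complex.I • v).2.2.re = - v.2.2.im := by simp
  have e4 : (Complex.I • v).2.2.im = v.2.2.re := by simp
  have e5 : Complex.normSq (Complex.I • v).2.2 = Complex.normSq v.2.2 := by
    rw [Complex.normSq_apply, Complex.normSq_apply, e3, e4]; ring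
  rw [e1, e2, e3, e4, e5]
  have hp := (arg_pos i z).ne'
  set Ex := Real.exp (sn i * (2 * π * z.2.1.re ^ 2)) with hEx
  set A := Complex.normSq z.2.2 with hA
  have f1 : Complex.normSq (v.1 - a * v.2.1) = (v.1.re - a * v.2.1.re) ^ 2 +
      (v.1.im - a * v.2.1.im) ^ 2 := by
    rw [Complex.normSq_apply]; simp; ring
  have f2 : Complex.normSq v.2.1 = v.2.1.re ^ 2 + v.2.1.im ^ 2 := by
    rw [Complex.normSq_apply]; ring
  have f3 : Complex.normSq v.2.2 = v.2.2.re ^ 2 + v.2.2.im ^ 2 := by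
    rw [Complex.normSq_apply]; ring
  have f4 : A = z.2.2.re ^ 2 + z.2.2.im ^ 2 := by
    rw [hA, Complex.normSq_apply]; ring
  have f5 : Complex.normSq (2 * v.2.2 + (sn i * (4 * π * z.2.1.re) : ℝ) * (z.2.2 * v.2.1)) =
      4 * (v.2.2.re ^ 2 + v.2.2.im ^ 2) +
        4 * (sn i * (4 * π * z.2.1.re)) * ((z.2.2.re * v.2.2.re + z.2.2.im * v.2.2.im) * v.2.1.re +
          (z.2.2.re * v.2.2.im - z.2.2.im * v.2.2.re) * v.2.1.im) +
        (sn i * (4 * π * z.2.1.re)) ^ 2 * A * (v.2.1.re ^ 2 + v.2.1.im ^ 2) := by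
    rw [f4, Complex.normSq_apply]
    simp
    ring
  rw [f1, f2, f3, f5]
  clear_value Ex
  clear hA
  generalize z.2.2.re = p at *
  generalize z.2.2.im = q at *
  generalize z.2.1.re = y at *
  generalize v.1.re = v1 at *
  generalize v.1.im = v2 at *
  generalize v.2.1.re = v3 at *
  generalize v.2.1.im = v4 at *
  generalize v.2.2.re = v5 at *
  generalize v.2.2.im = v6 at *
  generalize sn i = s at *
  generalize cn i = k at *
  have hAC : A * (v5 ^ 2 + v6 ^ 2) = (p * v5 + q * v6) ^ 2 + (p * v6 - q * v5) ^ 2 := by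
    rw [f4]; ring
  have hB2 : p * -v6 + q * v5 = -(p * v6 - q * v5) := by ring
  rw [hB2]
  generalize p * v5 + q * v6 = B at *
  generalize p * v6 - q * v5 = B' at *
  clear_value A
  field_simp
  linear_combination (4 * Ex ^ 2) * hAC

end Pool.Agent.H220.C6
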