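import Pool.Agent.H220.C6.Env3

set_option autoImplicit false

open Filter Metric Set Topology MeasureTheory

namespace Pool.Agent.H220.C6

/-- Convex functions on `ℝ³` with supporting affine functions which are nondecreasing in the last
variable, with second differences which are bounded for bounded `y`. -/
structure Prof (U : P → ℝ) : Prop where
  supp : ∀ p, ∃ a : P →L[ℝ] ℝ, 0 ≤ a (0, 0, 1) ∧ ∀ y, U p + a (y - p) ≤ U y
  semi : ∀ R : ℝ, ∃ C : ℝ, 0 ≤ C ∧ ∀ p v : P, |p.2.1| ≤ R →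
    U (p + v) + U (p - v) ≤ 2 * U p + C * ‖v‖ ^ 2
  bdd : ∀ R : ℝ, ∃ M : ℝ, ∀ p : P, |p.1| ≤ R → |p.2.1| ≤ R → p.2.2 ≤ R → |U p| ≤ M

namespace Prof

variable {U : P → ℝ}

lemma exists_quad (h : Prof U) (p : P) : ∃ a : P →L[ℝ] ℝ, 0 ≤ a (0, 0, 1) ∧
    (∀ y, U p + a (y - p) ≤ U y) ∧ HasFDerivAt U a p := by
  obtain ⟨a, ha0, ha⟩ := h.supp p
  obtain ⟨C, hC, hs⟩ := h.semi |p.2.1|
  refine ⟨a, ha0, ha, ?_⟩
  rw [hasFDerivAt_iff_isLittleO_nhds_zero]
  refine Asymptotics.IsBigO.trans_isLittleO (g := fun v : P => ‖v‖ ^ 2) ?_ ?_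
  · refine Asymptotics.IsBigO.of_bound C (Eventually.of_forall fun v => ?_)
    have h1 := ha (p + v)
    have h2 := ha (p - v)
    have h3 := hs p v le_rfl
    rw [add_sub_cancel_left] at h1
    rw [show p - v - p = -v by abel, map_neg] at h2
    rw [Real.norm_eq_abs, abs_of_nonneg (by linarith), norm_pow, norm_norm]
    linarith
  · have : (fun v : P => ‖v‖ ^ 2) = fun v : P => ‖v‖ * ‖v‖ := by ext; ring
    rw [this]
    refine Asymptotics.isLittleO_iff.2 fun c hc => ?_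
    filter_upwards [ball_mem_nhds (0 : P) hc] with v hv
    rw [mem_ball_zero_iff] at hv
    rw [norm_mul, norm_norm]
    gcongr

lemma differentiable (h : Prof U) : Differentiable ℝ U := fun p => by
  obtain ⟨a, -, -, ha⟩ := h.exists_quad p
  exact ha.differentiableAt

lemma lower (h : Prof U) (p v : P) : U p + fderiv ℝ U p v ≤ U (p + v) := by
  obtain ⟨a, -, hs, ha⟩ := h.exists_quad p
  rw [ha.fderiv]
  simpa using hs (p + v)

lemma dtau_nonneg (h : Prof U) (p : P) : 0 ≤ fderiv ℝ U p (0, 0, 1) := by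
  obtain ⟨a, h0, -, ha⟩ := h.exists_quad p
  rw [ha.fderiv]
  exact h0

lemma upper (h : Prof U) (R : ℝ) : ∃ C : ℝ, 0 ≤ C ∧ ∀ p v : P, |p.2.1| ≤ R →
    U (p + v) ≤ U p + fderiv ℝ U p v + C * ‖v‖ ^ 2 := by
  obtain ⟨C, hC, hs⟩ := h.semi R
  refine ⟨C, hC, fun p v hp => ?_⟩
  have h1 := hs p v hp
  have h2 := h.lower p (-v)
  rw [map_neg, ← sub_eq_add_neg, ← sub_eq_add_neg] at h2
  linarith

lemma continuous (h : Prof U) : Continuous U := h.differentiable.continuous

lemma mono (h : Prof U) (x y : ℝ) {τ τ' : ℝ} (hτ : τ ≤ τ') : U (x, y, τ) ≤ U (x, y, τ') := by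
  have h1 := h.lower (x, y, τ) ((τ' - τ) • (0, 0, 1))
  rw [map_smul, smul_eq_mul] at h1
  have h2 := mul_nonneg (sub_nonneg.2 hτ) (h.dtau_nonneg (x, y, τ))
  simp at h1
  linarith

/-- the gradient is locally Lipschitz -/
lemma lipschitzOn (h : Prof U) (R : ℝ) : ∃ K, LipschitzOnWith K (fderiv ℝ U)
    {p : P | |p.2.1| < R} := by
  obtain ⟨C, hC, hs⟩ := h.upper R
  refine ⟨Real.toNNReal (4 * C), LipschitzOnWith.of_dist_le_mul fun p' _ p hp => ?_⟩
  rw [dist_eq_norm, dist_eq_norm, Real.coe_toNNReal _ (by positivity)]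
  set d := ‖p' - p‖ with hd
  rcases eq_or_ne p' p with rfl | hne
  · simp [hd]
  have hd0 : 0 < d := norm_pos_iff.2 (sub_ne_zero.2 hne)
  have key : ∀ v : P, ‖v‖ = d → (fderiv ℝ U p' - fderiv ℝ U p) v ≤ 4 * C * d ^ 2 := by
    intro v hv
    have h1 := h.lower p' v
    have h2 := hs p (p' - p + v) (le_of_lt hp)
    have h3 := h.lower p (p' - p)
    rw [show p + (p' - p + v) = p' + v by abel, map_add] at h2
    rw [show p + (p' - p) = p' by abel] at h3
    have h4 : ‖p' - p + v‖ ≤ 2 * d := (norm_add_le _ _).trans (by rw [hv, ← hd]; linarith)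
    have h5 : ‖p' - p + v‖ ^ 2 ≤ (2 * d) ^ 2 := by gcongr
    rw [sub_apply]
    nlinarith [mul_le_mul_of_nonneg_left h5 hC]
  refine ContinuousLinearMap.opNorm_le_of_unit_norm (by positivity) fun v hv => ?_
  have k1 := key (d • v) (by rw [norm_smul, hv, mul_one, Real.norm_eq_abs, abs_of_pos hd0])
  have k2 := key (-(d • v)) (by
    rw [norm_neg, norm_smul, hv, mul_one, Real.norm_eq_abs, abs_of_pos hd0])
  rw [map_neg] at k2
  rw [map_smul, smul_eq_mul] at k1 k2
  rw [Real.norm_eq_abs, abs_le]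
  constructor
  · by_contra hcon
    push Not at hcon
    nlinarith
  · by_contra hcon
    push Not at hcon
    nlinarith

/-- the gradient is differentiable almost everywhere -/
lemma ae_differentiableAt (h : Prof U) : ∀ᵐ p : P, DifferentiableAt ℝ (fderiv ℝ U) p := by
  have h1 : ∀ n : ℕ, ∀ᵐ p : P, p ∈ {p : P | |p.2.1| < n} →
      DifferentiableWithinAt ℝ (fderiv ℝ U) {p : P | |p.2.1| < n} p := by
    intro n
    obtain ⟨K, hK⟩ := h.lipschitzOn n
    exact hK.ae_differentiableWithinAt_of_mem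
  filter_upwards [ae_all_iff.2 h1] with p hp
  obtain ⟨n, hn⟩ := exists_nat_gt |p.2.1|
  refine (hp n hn).differentiableAt (IsOpen.mem_nhds ?_ hn)
  exact isOpen_lt (by fun_prop) continuous_const

end Prof

/-! ### Second order Taylor expansion -/

section Taylor

variable {F : Type*} [NormedAddCommGroup F] [NormedSpace ℝ F] {f : F → ℝ} {p : F}

lemma second_symm (hf : Differentiable ℝ f) (hp : DifferentiableAt ℝ (fderiv ℝ f) p) (v w : F) :
    fderiv ℝ (fderiv ℝ f) p v w = fderiv ℝ (fderiv ℝ f) p w v :=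
  second_derivative_symmetric_of_eventually_of_real (f' := fderiv ℝ f)
    (Eventually.of_forall fun y => (hf y).hasFDerivAt) hp.hasFDerivAt v w

lemma taylor_two (hf : Differentiable ℝ f) (hp : DifferentiableAt ℝ (fderiv ℝ f) p) {ε : ℝ}
    (hε : 0 < ε) : ∃ δ > 0, ∀ v : F, ‖v‖ ≤ δ →
      |f (p + v) - f p - fderiv ℝ f p v - 1 / 2 * fderiv ℝ (fderiv ℝ f) p v v| ≤ ε * ‖v‖ ^ 2 := by
  set B := fderiv ℝ (fderiv ℝ f) p with hB
  have h1 := (hasFDerivAt_iff_isLittleO_nhds_zero.1 hp.hasFDerivAt)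
  have h2 := Asymptotics.isLittleO_iff.1 h1 hε
  obtain ⟨δ, hδ, h3⟩ := Metric.eventually_nhds_iff.1 h2
  refine ⟨δ / 2, half_pos hδ, fun v hv => ?_⟩
  set g : F → ℝ := fun w => f (p + w) - f p - fderiv ℝ f p w - 1 / 2 * B w w with hg
  have hgd : ∀ w, HasFDerivAt g (fderiv ℝ f (p + w) - fderiv ℝ f p - B w) w := by
    intro w
    have e1 : HasFDerivAt (fun w => f (p + w)) (fderiv ℝ f (p + w)) w := by
      have := (hf (p + w)).hasFDerivAt.comp w ((hasFDerivAt_id w).const_add p)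
      simpa using! this
    have e2 : HasFDerivAt (fun w => B w w) (B w + B.flip w) w := by
      have := (B.hasFDerivAt (x := w)).clm_apply (hasFDerivAt_id w)
      exact this.congr_fderiv (by ext z; simp)
    have e3 : B.flip w = B w := by
      ext z
      exact second_symm hf hp z w
    have := ((e1.sub_const (f p)).sub ((fderiv ℝ f p).hasFDerivAt (x := w))).sub
      (e2.const_mul (1 / 2))
    refine this.congr_fderiv ?_
    rw [e3]
    ext z
    simp only [sub_apply, smul_apply, add_apply, smul_eq_mul]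
    ring
  have h4 := (convex_closedBall (0 : F) ‖v‖).norm_image_sub_le_of_norm_hasFDerivWithin_le
    (f := g) (f' := fun w => fderiv ℝ f (p + w) - fderiv ℝ f p - B w) (C := ε * ‖v‖)
    (fun w _ => (hgd w).hasFDerivWithinAt) (fun w hw => ?_)
    (mem_closedBall_self (norm_nonneg _)) (show v ∈ closedBall (0 : F) ‖v‖ by simp)
  · simp only [hg, sub_zero, add_zero, sub_self, map_zero, mul_zero] at h4
    rw [Real.norm_eq_abs] at h4
    calc _ ≤ _ := h4
      _ = ε * ‖v‖ ^ 2 := by ring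
  · have hw' : ‖w‖ ≤ ‖v‖ := by simpa using hw
    have := h3 (y := w) (by rw [dist_zero_right]; linarith)
    exact this.trans (by gcongr)

/-- bounds for the second derivative from bounds for the second differences -/
lemma second_bounds (hf : Differentiable ℝ f) (hp : DifferentiableAt ℝ (fderiv ℝ f) p) (v : F)
    {c C : ℝ} (h1 : ∀ᶠ s : ℝ in 𝓝[>] 0, c * s ^ 2 ≤ f (p + s • v) + f (p - s • v) - 2 * f p)
    (h2 : ∀ᶠ s : ℝ in 𝓝[>] 0, f (p + s • v) + f (p - s • v) - 2 * f p ≤ C * s ^ 2) :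
    c ≤ fderiv ℝ (fderiv ℝ f) p v v ∧ fderiv ℝ (fderiv ℝ f) p v v ≤ C := by
  set B := fderiv ℝ (fderiv ℝ f) p with hB
  have key : ∀ ε : ℝ, 0 < ε → ∀ᶠ s : ℝ in 𝓝[>] 0,
      |f (p + s • v) + f (p - s • v) - 2 * f p - s ^ 2 * B v v| ≤ ε * s ^ 2 := by
    intro ε hε
    obtain ⟨δ, hδ, ht⟩ := taylor_two hf hp (ε := ε / (2 * (‖v‖ ^ 2 + 1))) (by positivity)
    have hlim : Tendsto (fun s : ℝ => ‖s • v‖) (𝓝[>] 0) (𝓝 0) := by
      apply Tendsto.mono_left _ nhdsWithin_le_nhds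
      have : Continuous fun s : ℝ => ‖s • v‖ := by fun_prop
      simpa using this.tendsto 0
    filter_upwards [hlim.eventually (ge_mem_nhds hδ), self_mem_nhdsWithin] with s hs hs0
    have t1 := ht (s • v) hs
    have t2 := ht (-(s • v)) (by rwa [norm_neg])
    rw [← hB] at t1 t2
    simp only [map_neg, map_smul, neg_apply, smul_apply,
      smul_eq_mul, norm_neg, norm_smul, Real.norm_eq_abs, mul_pow, sq_abs,
      ← sub_eq_add_neg] at t1 t2
    have e : ε / (2 * (‖v‖ ^ 2 + 1)) * (s ^ 2 * ‖v‖ ^ 2) ≤ ε * s ^ 2 / 2 := by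
      have : ε / (2 * (‖v‖ ^ 2 + 1)) * (s ^ 2 * ‖v‖ ^ 2) =
        ε * s ^ 2 / 2 * (‖v‖ ^ 2 / (‖v‖ ^ 2 + 1)) := by field_simp
      rw [this]
      have h3 : ‖v‖ ^ 2 / (‖v‖ ^ 2 + 1) ≤ 1 := by
        rw [div_le_one (by positivity)]; linarith
      have h4 : 0 ≤ ε * s ^ 2 / 2 := by positivity
      nlinarith
    rw [abs_le] at t1 t2 ⊢
    constructor
    · linarith [t1.1, t2.1]
    · linarith [t1.2, t2.2]
  constructor
  · refine le_of_forall_pos_le_add fun ε hε => ?_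
    obtain ⟨s, ⟨hs1, hs2⟩, hs0⟩ := ((h1.and (key ε hε)).and self_mem_nhdsWithin).exists
    have hs0' : 0 < s ^ 2 := pow_pos hs0 2
    rw [abs_le] at hs2
    have : c * s ^ 2 ≤ (B v v + ε) * s ^ 2 := by linarith [hs2.2]
    exact le_of_mul_le_mul_right this hs0'
  · refine le_of_forall_pos_le_add fun ε hε => ?_
    obtain ⟨s, ⟨hs1, hs2⟩, hs0⟩ := ((h2.and (key ε hε)).and self_mem_nhdsWithin).exists
    have hs0' : 0 < s ^ 2 := pow_pos hs0 2
    rw [abs_le] at hs2
    have : B v v * s ^ 2 ≤ (C + ε) * s ^ 2 := by linarith [hs2.1]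
    exact le_of_mul_le_mul_right this hs0'

end Taylor

end Pool.Agent.H220.C6
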