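import Pool.Agent.H220.C6.Func
import Pool.Graph.R_seed8.PNB.Proof

/-!
# The solution is plurisubharmonic with respect to the semipositive form
-/

set_option autoImplicit false

open Filter Metric Set Topology
open scoped ContDiff Real Manifold

namespace Pool.Agent.H220.C6

variable {α : ℝ} {U : P → ℝ}

lemma Psi_le (hU : Prof U) {δ δ' : ℝ} (hδ : 0 < δ) (h : δ ≤ δ') (z : E) :
    U (Psi δ z) ≤ U (Psi δ' z) := by
  refine hU.mono _ _ (Real.log_le_log ?_ (by linarith))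
  have := Complex.normSq_nonneg z.2.2
  linarith

lemma uu0_tendsto (hU : Prof U) (z : E) :
    Tendsto (fun δ : ℝ => U (Psi δ z)) (𝓝[>] 0) (𝓝 (uu0 U z)) := by
  rw [uu0]
  split_ifs with hz
  · have h1 := (hU.tendsto_bot z.1.re z.2.1.re).comp Real.tendsto_log_nhdsGT_zero
    refine h1.congr fun δ => ?_
    simp [Psi, psi, hz]
  · have h0 := Complex.normSq_pos.2 hz
    have h1 : ContinuousAt (fun δ : ℝ => U (Psi δ z)) 0 := by
      refine hU.continuous.continuousAt.comp ?_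
      refine continuousAt_const.prodMk (continuousAt_const.prodMk ?_)
      exact ContinuousAt.log (by fun_prop) (by simpa using h0.ne')
    exact h1.tendsto.mono_left nhdsWithin_le_nhds

lemma uu0_le (hU : Prof U) {δ : ℝ} (hδ : 0 < δ) (z : E) : uu0 U z ≤ U (Psi δ z) := by
  refine le_of_tendsto (uu0_tendsto hU z) ?_
  have h1 : ∀ᶠ δ' : ℝ in 𝓝[>] 0, δ' < δ := mem_nhdsWithin_of_mem_nhds (Iio_mem_nhds hδ)
  filter_upwards [h1, self_mem_nhdsWithin] with δ' h2 h3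
  exact Psi_le hU h3 h2.le z

lemma exists_delta (hU : Prof U) (z : E) {y : ℝ} (hy : uu0 U z < y) :
    ∃ δ : ℝ, 0 < δ ∧ U (Psi δ z) < y := by
  have h1 : ∀ᶠ δ : ℝ in 𝓝[>] 0, U (Psi δ z) < y := (uu0_tendsto hU z).eventually_lt_const hy
  obtain ⟨δ, h2, h3⟩ := (h1.and self_mem_nhdsWithin).exists
  exact ⟨δ, h3, h2⟩

/-- the sub-mean value inequality for the regularised function -/
lemma mean_delta (hU : Prof U) {R δ : ℝ} (hR : 1 < R) (hδ : 0 < δ) {γ : ℂ → E}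
    (hγ : DifferentiableOn ℂ γ (ball 0 R)) {g : ℂ → ℝ} (hg : Continuous g)
    (hle : ∀ ζ : ℂ, ‖ζ‖ = 1 → U (Psi δ (γ ζ)) ≤ g ζ) :
    U (Psi δ (γ 0)) ≤ Real.circleAverage g 0 1 := by
  obtain ⟨a, ha0, ha⟩ := hU.supp (Psi δ (γ 0))
  set L : ℝ := psi δ (γ 0).2.2 with hL
  set N : ℝ := Complex.normSq (γ 0).2.2 + δ with hN
  have hN0 : 0 < N := by have := Complex.normSq_nonneg (γ 0).2.2; linarith
  have hLN : L = Real.log N := rfl
  set a₁ := a (1, 0, 0) with ha₁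
  set a₂ := a (0, 1, 0) with ha₂
  set a₃ := a (0, 0, 1) with ha₃
  set C : ℝ := U (Psi δ (γ 0)) - a₁ * (γ 0).1.re - a₂ * (γ 0).2.1.re - a₃ * (2 * L) with hC
  set h₀ : ℂ → ℂ := fun ζ => Complex.exp (C + a₁ * (γ ζ).1 + a₂ * (γ ζ).2.1) with hh₀
  set h₁ : ℂ → ℂ := fun ζ => (starRingEnd ℂ) (γ 0).2.2 * (γ ζ).2.2 + δ with hh₁
  have hd1 : DifferentiableOn ℂ (fun ζ => (γ ζ).1) (ball 0 R) := hγ.fst
  have hd2 : DifferentiableOn ℂ (fun ζ => (γ ζ).2.1) (ball 0 R) := hγ.snd.fst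
  have hd3 : DifferentiableOn ℂ (fun ζ => (γ ζ).2.2) (ball 0 R) := hγ.snd.snd
  have hdh0 : DifferentiableOn ℂ h₀ (ball 0 R) :=
    (((differentiableOn_const _).add (hd1.const_mul _)).add (hd2.const_mul _)).cexp
  have hdh1 : DifferentiableOn ℂ h₁ (ball 0 R) := (hd3.const_mul _).add_const _
  have hl0 : ∀ ζ, Real.log ‖h₀ ζ‖ = C + a₁ * (γ ζ).1.re + a₂ * (γ ζ).2.1.re := by
    intro ζ
    rw [hh₀]
    simp only [Complex.norm_exp, Real.log_exp, Complex.add_re, Complex.ofReal_re,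
      Complex.re_ofReal_mul]
  have h10 : h₁ 0 = (N : ℂ) := by
    rw [hh₁, hN]
    simp only
    rw [← Complex.normSq_eq_conj_mul_self]
    push_cast
    rfl
  have hl10 : Real.log ‖h₁ 0‖ = L := by
    rw [h10, Complex.norm_real, Real.norm_eq_abs, abs_of_pos hN0, hLN]
  -- the Cauchy–Schwarz inequality
  have hcs : ∀ ζ, h₁ ζ ≠ 0 → 2 * Real.log ‖h₁ ζ‖ ≤ psi δ (γ ζ).2.2 + L := by
    intro ζ hζ
    have hN1 : 0 < Complex.normSq (γ ζ).2.2 + δ := by
      have := Complex.normSq_nonneg (γ ζ).2.2; linarith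
    have h1 : ‖h₁ ζ‖ ^ 2 ≤ (Complex.normSq (γ ζ).2.2 + δ) * N := by
      have h2 : ‖h₁ ζ‖ ≤ ‖(γ 0).2.2‖ * ‖(γ ζ).2.2‖ + δ := by
        refine (norm_add_le _ _).trans ?_
        rw [norm_mul, Complex.norm_conj, Complex.norm_real, Real.norm_eq_abs, abs_of_pos hδ]
      have h3 : ‖h₁ ζ‖ ^ 2 ≤ (‖(γ 0).2.2‖ * ‖(γ ζ).2.2‖ + δ) ^ 2 :=
        pow_le_pow_left₀ (norm_nonneg _) h2 2
      rw [hN, Complex.normSq_eq_norm_sq, Complex.normSq_eq_norm_sq]
      nlinarith [mul_nonneg hδ.le (sq_nonneg (‖(γ 0).2.2‖ - ‖(γ ζ).2.2‖))]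
    have h4 := Real.log_le_log (by positivity) h1
    rw [Real.log_pow, Real.log_mul hN1.ne' hN0.ne'] at h4
    push_cast at h4
    exact h4
  have hsupp : ∀ ζ, U (Psi δ (γ 0)) + (a₁ * ((γ ζ).1.re - (γ 0).1.re) +
      a₂ * ((γ ζ).2.1.re - (γ 0).2.1.re) + a₃ * (psi δ (γ ζ).2.2 - L)) ≤ U (Psi δ (γ ζ)) := by
    intro ζ
    have h1 := ha (Psi δ (γ ζ))
    rw [clm_eq a] at h1
    exact h1
  rcases ha0.lt_or_eq with hpos | hzero
  · have h2 := Pool.Agent.PNB.jensen_sum (ι := Bool) hR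
      (h := fun i => match i with | false => h₀ | true => h₁)
      (fun i => by cases i <;> assumption)
      (α := fun i => match i with | false => 1 | true => 2 * a₃)
      (fun i => match i with | false => one_pos | true => mul_pos two_pos hpos) hg
      (fun ζ hζ hne => by
        rw [Fintype.sum_bool]
        simp only
        have h3 := hcs ζ (hne true)
        have h4 := hsupp ζ
        have h5 := hle ζ hζ
        rw [hl0]
        have h6 := mul_le_mul_of_nonneg_left h3 ha0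
        rw [hC]
        linarith)
      (fun i => by
        cases i
        · exact Complex.exp_ne_zero _
        · change h₁ 0 ≠ 0
          rw [h10]
          exact_mod_cast hN0.ne')
    rw [Fintype.sum_bool] at h2
    simp only at h2
    rw [hl0, hl10, hC] at h2
    linarith
  · have h2 := Pool.Agent.PNB.jensen_sum (ι := Unit) hR (h := fun _ => h₀) (fun _ => hdh0)
      (α := fun _ => 1) (fun _ => one_pos) hg
      (fun ζ hζ hne => by
        simp only [Finset.univ_unique, Finset.sum_const, Finset.card_singleton, one_smul, one_mul]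
        have h4 := hsupp ζ
        have h5 := hle ζ hζ
        rw [← hzero] at h4 hC
        rw [hl0, hC]
        linarith)
      (fun _ => Complex.exp_ne_zero _)
    simp only [Finset.univ_unique, Finset.sum_const, Finset.card_singleton, one_smul,
      one_mul] at h2
    rw [← hzero] at hC
    rw [hl0, hC] at h2
    linarith

/-- the sub-mean value inequality -/
lemma mean_uu0 (hU : Prof U) {R : ℝ} (hR : 1 < R) {γ : ℂ → E}
    (hγ : DifferentiableOn ℂ γ (ball 0 R)) {g : ℂ → ℝ} (hg : Continuous g)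
    (hle : ∀ ζ : ℂ, ‖ζ‖ = 1 → uu0 U (γ ζ) ≤ g ζ) :
    uu0 U (γ 0) ≤ Real.circleAverage g 0 1 := by
  refine le_of_forall_pos_le_add fun ε hε => ?_
  have hK : IsCompact (sphere (0 : ℂ) 1) := isCompact_sphere 0 1
  have hsub : sphere (0 : ℂ) 1 ⊆ ball 0 R := fun ζ hζ => by
    rw [mem_sphere_zero_iff_norm] at hζ
    rw [mem_ball_zero_iff, hζ]
    exact hR
  obtain ⟨δ, hδ, h1⟩ : ∃ δ : ℝ, 0 < δ ∧ ∀ ζ ∈ sphere (0 : ℂ) 1,
      U (Psi δ (γ ζ)) < g ζ + ε := by
    refine hK.induction_on (p := fun s => ∃ δ : ℝ, 0 < δ ∧ ∀ ζ ∈ s, U (Psi δ (γ ζ)) < g ζ + ε)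
      ⟨1, one_pos, fun ζ hζ => absurd hζ (notMem_empty _)⟩ ?_ ?_ ?_
    · rintro s t hst ⟨δ, hδ, h⟩
      exact ⟨δ, hδ, fun ζ hζ => h ζ (hst hζ)⟩
    · rintro s t ⟨δ, hδ, h⟩ ⟨δ', hδ', h'⟩
      refine ⟨min δ δ', lt_min hδ hδ', fun ζ hζ => ?_⟩
      rcases hζ with hζ | hζ
      · exact (Psi_le hU (lt_min hδ hδ') (min_le_left _ _) _).trans_lt (h ζ hζ)
      · exact (Psi_le hU (lt_min hδ hδ') (min_le_right _ _) _).trans_lt (h' ζ hζ)
    · intro ζ hζ
      have h2 : uu0 U (γ ζ) < g ζ + ε := by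
        have := hle ζ (mem_sphere_zero_iff_norm.1 hζ)
        linarith
      obtain ⟨δ, hδ, h3⟩ := exists_delta hU (γ ζ) h2
      have hc : ContinuousAt (fun ζ => U (Psi δ (γ ζ))) ζ := by
        have h4 : ContinuousAt γ ζ :=
          (hγ.continuousOn).continuousAt (isOpen_ball.mem_nhds (hsub hζ))
        exact hU.continuous.continuousAt.comp ((continuous_Psi hδ).continuousAt.comp h4)
      have h5 : ∀ᶠ ζ' in 𝓝 ζ, U (Psi δ (γ ζ')) < g ζ' + ε :=
        hc.eventually_lt (hg.continuousAt.add continuousAt_const) h3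
      exact ⟨{ζ' | U (Psi δ (γ ζ')) < g ζ' + ε}, mem_nhdsWithin_of_mem_nhds h5, δ, hδ,
        fun ζ' hζ' => hζ'⟩
  have h2 := mean_delta hU hR hδ hγ (g := fun ζ => g ζ + ε) (hg.add continuous_const)
    (fun ζ hζ => (h1 ζ (mem_sphere_zero_iff_norm.2 hζ)).le)
  have h3 : Real.circleAverage (fun ζ => g ζ + ε) 0 1 = Real.circleAverage g 0 1 + ε := by
    rw [Real.circleAverage_fun_add hg.continuousOn.circleIntegrable'
      continuousOn_const.circleIntegrable', Real.circleAverage_const]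
  rw [h3] at h2
  exact (uu0_le hU hδ _).trans h2

theorem phi_psh {φ : X3 → ℝ} (hφ : ∀ i z, φ (kp i z) = Ph α i z) : (form α 0).IsPsh φ := by
  intro j
  have key : ∀ z ∈ ball j.2.1 (min j.2.2 (1 / 4)),
      φ (kp j.1 z) + (form α 0).pot j (kp j.1 z) = uu0 (UV α j.1) z := by
    intro z hz
    change φ (kp j.1 z) + PP α 0 j.1 (chr j (kp j.1 z)) = _
    rw [chr_apply j hz, hφ, Ph]
    ring
  have hU := prof_UV α j.1
  refine ⟨?_, ?_⟩
  · rintro _ ⟨z, hz, rfl⟩ y hy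
    simp only at hy
    rw [key z hz] at hy
    refine mem_nhdsWithin_of_mem_nhds ?_
    rw [← map_nhds_kp, mem_map]
    obtain ⟨δ, hδ, h3⟩ := exists_delta hU z hy
    have h4 : ∀ᶠ w in 𝓝 z, UV α j.1 (Psi δ w) < y :=
      (hU.continuous.comp (continuous_Psi hδ)).continuousAt.eventually_lt_const h3
    filter_upwards [h4, isOpen_ball.mem_nhds hz] with w h5 h6
    change φ (kp j.1 w) + (form α 0).pot j (kp j.1 w) < y
    rw [key w h6]
    exact (uu0_le hU hδ w).trans_lt h5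
  · intro r f hr hf g hg hle
    obtain ⟨h1, h2, -⟩ := GG0.lift j hf
    have hsub : ∀ ζ : ℂ, ‖ζ‖ ≤ 1 → ζ ∈ ball (0 : ℂ) r := fun ζ hζ => by
      rw [mem_ball_zero_iff]; linarith
    have h3 : ∀ ζ : ℂ, ‖ζ‖ ≤ 1 → φ (f ζ) + (form α 0).pot j (f ζ) =
        uu0 (UV α j.1) (GG0.ch j (f ζ)) := by
      intro ζ hζ
      obtain ⟨h4, h5⟩ := h2 ζ (hsub ζ hζ)
      have h6 := key _ h4
      rw [← h6]
      have h7 : kp j.1 (GG0.ch j (f ζ)) = f ζ := h5
      rw [h7]
    simp only at hle ⊢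
    rw [h3 0 (by simp)]
    refine mean_uu0 hU hr h1 hg fun ζ hζ => ?_
    rw [← h3 ζ hζ.le]
    exact hle ζ hζ

end Pool.Agent.H220.C6
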