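import Pool.Agent.H220.C6.Levi2

set_option autoImplicit false

open Filter Metric Set Topology MeasureTheory
open scoped ContDiff

namespace Pool.Agent.H220.C6

lemma null_one {N : Set ℝ} (hN : volume N = 0) {δ : ℝ} (hδ : 0 ≤ δ) :
    volume {r : ℝ | 0 < r ∧ Real.log (r ^ 2 + δ) ∈ N} = 0 := by
  set φ : ℝ → ℝ := fun s => Real.sqrt (Real.exp s - δ) with hφ
  have h1 : volume (φ '' (N ∩ {s | δ < Real.exp s})) = 0 := by
    refine addHaar_image_eq_zero_of_differentiableOn_of_addHaar_eq_zero volume ?_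
      (measure_mono_null inter_subset_left hN)
    intro s hs
    have h2 : Real.exp s - δ ≠ 0 := (sub_pos.2 hs.2).ne'
    exact (((Real.differentiableAt_exp).sub_const δ).sqrt h2).differentiableWithinAt
  refine measure_mono_null (fun r hr => ?_) h1
  have h3 : 0 < r ^ 2 := pow_pos hr.1 2
  have h4 : Real.exp (Real.log (r ^ 2 + δ)) = r ^ 2 + δ := Real.exp_log (by linarith)
  refine ⟨Real.log (r ^ 2 + δ), ⟨hr.2, ?_⟩, ?_⟩
  · show δ < Real.exp _; rw [h4]; linarith
  · simp only [hφ]
    rw [h4, add_sub_cancel_right, Real.sqrt_sq hr.1.le]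

lemma measurable_psi (δ : ℝ) : Measurable (psi δ) :=
  Real.measurable_log.comp (Complex.continuous_normSq.measurable.add_const δ)

lemma qmp_psi {δ : ℝ} (hδ : 0 ≤ δ) :
    Measure.QuasiMeasurePreserving (psi δ) (volume : Measure ℂ) (volume : Measure ℝ) := by
  refine ⟨measurable_psi δ, Measure.AbsolutelyContinuous.mk fun N hNm hN => ?_⟩
  rw [Measure.map_apply (measurable_psi δ) hNm]
  have h0 : volume (psi δ ⁻¹' N) = ∫⁻ ξ : ℂ, (psi δ ⁻¹' N).indicator 1 ξ := by
    rw [lintegral_indicator_one ((measurable_psi δ) hNm)]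
  rw [h0, ← Complex.lintegral_comp_polarCoord_symm]
  have h1 : ∀ᵐ p : ℝ × ℝ, p.1 ∉ {r : ℝ | 0 < r ∧ Real.log (r ^ 2 + δ) ∈ N} :=
    Measure.quasiMeasurePreserving_fst.ae
      (measure_eq_zero_iff_ae_notMem.1 (null_one hN hδ))
  have h2 : (fun p : ℝ × ℝ => ENNReal.ofReal p.1 •
      (psi δ ⁻¹' N).indicator (1 : ℂ → ENNReal) (Complex.polarCoord.symm p)) =ᵐ[volume.restrict
        polarCoord.target] fun _ => 0 := by
    refine (ae_restrict_iff' polarCoord.open_target.measurableSet).2 ?_
    filter_upwards [h1] with p hp hpt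
    have hp0 : 0 < p.1 := hpt.1
    rw [indicator_of_notMem, smul_zero]
    intro hcon
    apply hp
    refine ⟨hp0, ?_⟩
    rw [mem_preimage, psi] at hcon
    have e : Complex.normSq (Complex.polarCoord.symm p) = p.1 ^ 2 := by
      rw [Complex.normSq_eq_norm_sq, Complex.norm_polarCoord_symm, sq_abs]
    rwa [e] at hcon
  rw [lintegral_congr_ae h2, lintegral_zero]

lemma qmp_re : Measure.QuasiMeasurePreserving (fun z : ℂ => z.re) (volume : Measure ℂ)
    (volume : Measure ℝ) := by
  have h1 := Complex.volume_preserving_equiv_real_prod.quasiMeasurePreserving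
  have h2 : Measure.QuasiMeasurePreserving (Prod.fst : ℝ × ℝ → ℝ) volume volume :=
    Measure.quasiMeasurePreserving_fst
  exact h2.comp h1

lemma qmp_prod {A B C D : Type*} [MeasureSpace A] [MeasureSpace B] [MeasureSpace C]
    [MeasureSpace D] [SFinite (volume : Measure A)] [SFinite (volume : Measure B)]
    [SFinite (volume : Measure C)] [SFinite (volume : Measure D)] {f : A → C} {g : B → D}
    (hf : Measure.QuasiMeasurePreserving f volume volume)
    (hg : Measure.QuasiMeasurePreserving g volume volume) :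
    Measure.QuasiMeasurePreserving (Prod.map f g) (volume : Measure (A × B))
      (volume : Measure (C × D)) := by
  refine ⟨hf.measurable.prodMap hg.measurable, ?_⟩
  have h : Measure.map (Prod.map f g) ((volume : Measure A).prod (volume : Measure B)) ≪
      (volume : Measure C).prod (volume : Measure D) := by
    rw [← Measure.map_prod_map _ _ hf.measurable hg.measurable]
    exact hf.absolutelyContinuous.prod hg.absolutelyContinuous
  exact h

lemma qmp_Psi {δ : ℝ} (hδ : 0 ≤ δ) :
    Measure.QuasiMeasurePreserving (Psi δ) (volume : Measure E) (volume : Measure P) :=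
  qmp_prod qmp_re (qmp_prod qmp_re (qmp_psi hδ))

lemma ae_Psi {δ : ℝ} (hδ : 0 ≤ δ) {Q : P → Prop} (h : ∀ᵐ p, Q p) : ∀ᵐ z : E, Q (Psi δ z) :=
  (qmp_Psi hδ).ae h

lemma ae_ne_zero : ∀ᵐ z : E, z.2.2 ≠ 0 := by
  have h1 : ∀ᵐ ξ : ℂ, ξ ≠ 0 := by
    have : volume ({0} : Set ℂ) = 0 := measure_singleton 0
    exact measure_eq_zero_iff_ae_notMem.1 this
  have h2 : Measure.QuasiMeasurePreserving (fun z : E => z.2.2) (volume : Measure E)
      (volume : Measure ℂ) := by
    have h3 : Measure.QuasiMeasurePreserving (Prod.snd : ℂ × ℂ × ℂ → ℂ × ℂ) volume volume :=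
      Measure.quasiMeasurePreserving_snd
    have h4 : Measure.QuasiMeasurePreserving (Prod.snd : ℂ × ℂ → ℂ) volume volume :=
      Measure.quasiMeasurePreserving_snd
    exact h4.comp h3
  exact h2.ae h1

end Pool.Agent.H220.C6
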