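import Pool.Agent.H220.C6.Func

/-!
# The Monge–Ampère equation
-/

set_option autoImplicit false

open Filter Metric Set Topology MeasureTheory
open scoped ContDiff Real Manifold

namespace Pool.Agent.H220.C6

variable {α : ℝ}

/-- reduction to the local approximation statement -/
lemma solve_of_loc {φ f : X3 → ℝ} (hφ : ∀ i z, φ (kp i z) = Ph α i z)
    (hf : ∀ i z, f (kp i z) = Fd α i z) (i : Bool) (c : E) {r : ℝ} (hr : 0 < r) (hr4 : r ≤ 1 / 4)
    {g : E → ℝ} (hloc : LocMA (ball c r) (uu0 (UV α i)) g)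
    (hg : ∀ᵐ z, z ∈ ball c r → g z = Fd α i z * maDensity (PP 0 1 i) z) :
    ∃ (e : OpenPartialHomeomorph X3 E) (j : (form α 0).J) (k : (form 0 1).J) (v : ℕ → E → ℝ),
    e ∈ IsManifold.maximalAtlas 𝓘(ℂ, E) ω X3 ∧ kp i c ∈ e.source ∧
    e.source ⊆ (form α 0).V j ∧ e.source ⊆ (form 0 1).V k ∧
    (∀ m, IsSmoothPsh (v m) e.target) ∧
    (∀ m, ∀ z ∈ e.target, v (m + 1) z ≤ v m z) ∧
    (∀ z ∈ e.target,
      Tendsto (fun m => v m z) atTop (𝓝 (φ (e.symm z) + (form α 0).pot j (e.symm z)))) ∧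
    ∀ η : E → ℝ, Continuous η → HasCompactSupport η → tsupport η ⊆ e.target →
      Tendsto (fun m => ∫ z, η z * maDensity (v m) z) atTop
        (𝓝 (∫ z, η z * (f (e.symm z) *
          maDensity (fun w => (form 0 1).pot k (e.symm w)) z))) := by
  obtain ⟨v, h1, h2, h3, h4⟩ := hloc
  have hmin : min r (1 / 4) = r := min_eq_left hr4
  have htar : (chr (i, c, r)).target = ball c r := by rw [chr_target, hmin]
  have happ : ∀ z ∈ ball c r, chr (i, c, r) (kp i z) = z := fun z hz =>
    chr_apply (i, c, r) (by rwa [hmin])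
  refine ⟨chr (i, c, r), (i, c, r), (i, c, r), v, chr_mem _, ?_, subset_rfl, subset_rfl, ?_, ?_,
    ?_, ?_⟩
  · rw [chr_source, hmin]
    exact mem_image_of_mem _ (mem_ball_self hr)
  · rw [htar]; exact h1
  · rw [htar]; exact h2
  · rw [htar]
    intro z hz
    have e1 : φ ((chr (i, c, r)).symm z) + (form α 0).pot (i, c, r) ((chr (i, c, r)).symm z) =
        uu0 (UV α i) z := by
      change φ (kp i z) + PP α 0 i (chr (i, c, r) (kp i z)) = _
      rw [happ z hz, hφ, Ph]
      ring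
    rw [e1]
    exact h3 z hz
  · rw [htar]
    intro η hη hηs hηO
    have e2 : ∫ z, η z * (f ((chr (i, c, r)).symm z) *
        maDensity (fun w => (form 0 1).pot (i, c, r) ((chr (i, c, r)).symm w)) z) =
        ∫ z, η z * g z := by
      refine integral_congr_ae ?_
      filter_upwards [hg] with z hz
      by_cases hzO : z ∈ ball c r
      · have e3 : f ((chr (i, c, r)).symm z) = Fd α i z := hf i z
        have e4 : maDensity (fun w => (form 0 1).pot (i, c, r) ((chr (i, c, r)).symm w)) z =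
            maDensity (PP 0 1 i) z := by
          refine maDensity_congr ?_
          filter_upwards [isOpen_ball.mem_nhds hzO] with w hw
          change PP 0 1 i (chr (i, c, r) (kp i w)) = _
          rw [happ w hw]
        rw [e3, e4, hz hzO]
      · have : η z = 0 := image_eq_zero_of_notMem_tsupport fun h => hzO (hηO h)
        rw [this, zero_mul, zero_mul]
    rw [e2]
    exact h4 η hη hηs hηO

/-- the pointwise identity at generic points -/
lemma fd_mul {p : P} (hp : DifferentiableAt ℝ (fderiv ℝ (UU α)) p) :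
    fd α p * hd G0 p = hd (UU α) p := by
  rw [fd]
  split_ifs with h
  · rw [div_mul_cancel₀ _ (hd_G0_pos p).ne']
  · rw [zero_mul, UU_deg hp]
    rw [not_and_or, not_le, not_le] at h
    exact h

lemma solve_zero {c : E} (hc : c.2.2 ≠ 0) :
    ∃ (r : ℝ) (g : E → ℝ), 0 < r ∧ r ≤ 1 / 4 ∧ LocMA (ball c r) (uu0 (UV α false)) g ∧
      ∀ᵐ z, z ∈ ball c r → g z = Fd α false z * maDensity (PP 0 1 false) z := by
  have hpos : 0 < ‖c.2.2‖ := norm_pos_iff.2 hc
  have hne : ∀ z ∈ ball c (min ‖c.2.2‖ (1 / 4)), z.2.2 ≠ 0 := by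
    intro z hz h0
    have h1 : ‖z - c‖ < ‖c.2.2‖ := by
      rw [mem_ball, dist_eq_norm] at hz
      exact hz.trans_le (min_le_left _ _)
    have h2 : ‖(z - c).2.2‖ ≤ ‖z - c‖ := norm_snd2_le _
    have h3 : (z - c).2.2 = -c.2.2 := by
      change z.2.2 - c.2.2 = _
      rw [h0, zero_sub]
    rw [h3, norm_neg] at h2
    linarith
  refine ⟨min ‖c.2.2‖ (1 / 4), fun z => 1 / 16 * ((Complex.normSq z.2.2)⁻¹ *
    hd (UU α) (Psi 0 z)), lt_min hpos (by norm_num), min_le_right _ _, ?_, ?_⟩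
  · obtain ⟨v, h1, h2, h3, h4⟩ := locMA_interior (prof_UU α)
      (O := ball c (min ‖c.2.2‖ (1 / 4))) (R := ‖c‖ + 1) (fun z hz => by
        rw [mem_ball, dist_eq_norm] at hz
        have h5 : ‖z - c‖ < 1 := hz.trans_le ((min_le_right _ _).trans (by norm_num))
        calc ‖z‖ = ‖(z - c) + c‖ := by rw [sub_add_cancel]
          _ ≤ ‖z - c‖ + ‖c‖ := norm_add_le _ _
          _ ≤ ‖c‖ + 1 := by linarith) hne
    refine ⟨v, h1, h2, fun z hz => ?_, h4⟩
    rw [uu0, if_neg (hne z hz)]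
    exact h3 z hz
  · filter_upwards [ae_Psi le_rfl (prof_UU α).ae_differentiableAt] with z hz hzO
    have hz0 := hne z hzO
    rw [ma_kahler_false hz0, Fd, if_neg hz0]
    change _ = fd α (Psi 0 z) * _
    rw [← fd_mul hz]
    ring

lemma psi_lt {ξ : ℂ} {T : ℝ} (hξ : ξ ≠ 0) (h : ‖ξ‖ ≤ Real.exp T / 4) (hT : T ≤ 0) :
    psi 0 ξ ≤ T := by
  rw [psi, add_zero, Complex.normSq_eq_norm_sq,
    Real.log_le_iff_le_exp (pow_pos (norm_pos_iff.2 hξ) 2)]
  have h1 : Real.exp T ≤ 1 := Real.exp_le_one_iff.2 hT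
  have h2 := Real.exp_pos T
  have h3 := norm_nonneg ξ
  nlinarith

/-- the two ends of the fibres -/
lemma solve_end (i : Bool) {c : E} (hc : c.2.2 = 0) :
    ∃ (r : ℝ) (g : E → ℝ), 0 < r ∧ r ≤ 1 / 4 ∧ LocMA (ball c r) (uu0 (UV α i)) g ∧
      ∀ᵐ z, z ∈ ball c r → g z = Fd α i z * maDensity (PP 0 1 i) z := by
  set R : ℝ := ‖c‖ + 1 with hR
  have hR0 : 1 ≤ R := by have := norm_nonneg c; linarith
  set T : ℝ := -(2 * π * R ^ 2 + 2) with hT
  have hπ := Real.pi_pos
  have hπR : 0 ≤ 2 * π * R ^ 2 := by positivity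
  have hT1 : T ≤ -2 := by rw [hT]; linarith
  have hexp1 : Real.exp T ≤ 1 := Real.exp_le_one_iff.2 (by linarith)
  have hexp0 := Real.exp_pos T
  -- the variable `t` is outside of `[0, 1]`
  have htt : ∀ x y τ : ℝ, |y| ≤ R → τ ≤ T → tt (x, y, τ) < 0 ∧ 1 < tt (x, y, -τ) := by
    intro x y τ hy hτ
    have h1 : y ^ 2 ≤ R ^ 2 := by
      rw [← sq_abs]
      exact pow_le_pow_left₀ (abs_nonneg _) hy 2
    have h2 : 2 * π * y ^ 2 ≤ 2 * π * R ^ 2 := by gcongr
    have h3 : 0 ≤ 2 * π * y ^ 2 := by positivity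
    simp only [tt]
    constructor <;> linarith
  refine ⟨Real.exp T / 4, fun _ => 0, by positivity, by linarith, ?_, ?_⟩
  · refine locMA_end (prof_UV α i) hc (R := R) (T := T) (by positivity) (by linarith) le_rfl
      (by linarith) (by nlinarith) ?_
    have had := (prof_UV α i).ae_differentiableAt
    filter_upwards [had] with p hp h1 h2
    obtain ⟨x, y, τ⟩ := p
    obtain ⟨h3, h4⟩ := htt x y τ h1 h2
    cases i with
    | false => exact UU_deg hp (Or.inl h3)
    | true =>
      change hd (VV α) (x, y, τ) = 0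
      rw [hd_VV]
      exact UU_deg (VV_diff hp) (Or.inr h4)
  · refine Eventually.of_forall fun z hz => ?_
    rw [Fd]
    split_ifs with hz0
    · rw [zero_mul]
    · rw [mem_ball, dist_eq_norm] at hz
      have h1 : ‖z.2.2‖ ≤ Real.exp T / 4 := by
        have h2 : ‖(z - c).2.2‖ ≤ ‖z - c‖ := norm_snd2_le _
        have h3 : (z - c).2.2 = z.2.2 := by
          change z.2.2 - c.2.2 = _
          rw [hc, sub_zero]
        rw [h3] at h2
        linarith
      have h2 := psi_lt hz0 h1 (by linarith)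
      have h3 : |z.2.1.re| ≤ R := by
        refine (abs_re_le z).2.1.trans ?_
        calc ‖z‖ = ‖(z - c) + c‖ := by rw [sub_add_cancel]
          _ ≤ ‖z - c‖ + ‖c‖ := norm_add_le _ _
          _ ≤ R := by rw [hR]; linarith
      obtain ⟨h4, h5⟩ := htt z.1.re z.2.1.re (psi 0 z.2.2) h3 h2
      have h6 : fd α (lc i z) = 0 := by
        rw [fd, if_neg]
        cases i with
        | false =>
          intro h
          exact absurd h.1 (not_le.2 h4)
        | true =>
          intro h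
          exact absurd h.2 (not_le.2 h5)
      rw [h6, zero_mul]

theorem solves {φ f : X3 → ℝ} (hφ : ∀ i z, φ (kp i z) = Ph α i z)
    (hf : ∀ i z, f (kp i z) = Fd α i z) : SolvesMA (form α 0) (form 0 1) φ f := by
  intro x
  obtain ⟨i, c, rfl⟩ := kp_surj x
  by_cases hc : c.2.2 = 0
  · obtain ⟨r, g, hr, hr4, h1, h2⟩ := solve_end i hc
    exact solve_of_loc hφ hf i c hr hr4 h1 h2
  · cases i with
    | false =>
      obtain ⟨r, g, hr, hr4, h1, h2⟩ := solve_zero hc
      exact solve_of_loc hφ hf false c hr hr4 h1 h2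
    | true =>
      have hc' : (iv c).2.2 ≠ 0 := inv_ne_zero hc
      obtain ⟨r, g, hr, hr4, h1, h2⟩ := solve_zero hc'
      have h3 := solve_of_loc hφ hf false (iv c) hr hr4 h1 h2
      have h4 : kp false (iv c) = kp true c := kp_iv true hc
      rwa [h4] at h3

end Pool.Agent.H220.C6
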