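import Pool.Agent.H220.C6.Glue
import Pool.Agent.H220.C6.Env4

/-!
# The threefold: a `ℙ¹`-bundle over the product of two elliptic curves
-/

set_option autoImplicit false
set_option linter.style.haveILetI false

open Filter Metric Set Topology
open scoped Manifold ContDiff Real

namespace Pool.Agent.H220.C6

/-- the points of the threefold -/
structure X3 : Type where
  b : (AddCircle (1 : ℝ) × AddCircle (1 : ℝ)) × (AddCircle (1 : ℝ) × AddCircle (1 : ℝ))
  p : OnePoint ℂ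

/-- the point of the base -/
noncomputable def pr (z : E) :
    (AddCircle (1 : ℝ) × AddCircle (1 : ℝ)) × (AddCircle (1 : ℝ) × AddCircle (1 : ℝ)) :=
  (((z.1.re : AddCircle (1 : ℝ)), (z.1.im : AddCircle (1 : ℝ))),
    ((z.2.1.re : AddCircle (1 : ℝ)), (z.2.1.im : AddCircle (1 : ℝ))))

/-- the trivialisation on the fundamental domain -/
noncomputable def eh (w : ℂ) : ℂ :=
  Complex.exp (2 * π * (⌊w.re⌋ : ℂ) * w - π * (⌊w.re⌋ : ℂ) ^ 2)

/-- the exponent of the factor of automorphy -/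
noncomputable def au (m : ℤ) (w : ℂ) : ℂ := 2 * π * (m : ℂ) * w + π * (m : ℂ) ^ 2

lemma eh_ne (w : ℂ) : eh w ≠ 0 := Complex.exp_ne_zero _

lemma eh_add (m n : ℤ) (w : ℂ) : eh (w + (m + n * Complex.I)) = eh w * Complex.exp (au m w) := by
  have h1 : ⌊(w + (m + n * Complex.I)).re⌋ = ⌊w.re⌋ + m := by
    simp
  rw [eh, h1, eh, ← Complex.exp_add]
  have h2 : 2 * (π : ℂ) * ((⌊w.re⌋ + m : ℤ) : ℂ) * (w + (m + n * Complex.I)) -
      π * ((⌊w.re⌋ + m : ℤ) : ℂ) ^ 2 = (2 * π * (⌊w.re⌋ : ℂ) * w - π * (⌊w.re⌋ : ℂ) ^ 2 + au m w) +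
        (((⌊w.re⌋ + m) * n : ℤ) : ℂ) * (2 * π * Complex.I) := by
    rw [au]
    push_cast
    ring
  rw [h2, Complex.exp_add, Complex.exp_int_mul_two_pi_mul_I, mul_one]

open Classical in
/-- the parametrisations: `false` stands for the coordinates `(z₁, z₂, ξ)`, `true` for
`(z₁, z₂, 1 / ξ)` -/
noncomputable def kp : Bool → E → X3
  | false => fun z => ⟨pr z, ((eh z.2.1 * z.2.2 : ℂ) : OnePoint ℂ)⟩
  | true => fun z => ⟨pr z, if z.2.2 = 0 then OnePoint.infty else
      ((eh z.2.1 * z.2.2⁻¹ : ℂ) : OnePoint ℂ)⟩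

/-- the sign of the coordinate system -/
def sg : Bool → ℂ
  | false => -1
  | true => 1

/-- the deck transformations -/
noncomputable def dk (i : Bool) (a b m n : ℤ) (z : E) : E :=
  (z.1 + (a + b * Complex.I), z.2.1 + (m + n * Complex.I),
    z.2.2 * Complex.exp (sg i * au m z.2.1))

/-- the change of the coordinate system -/
noncomputable def iv (z : E) : E := (z.1, z.2.1, z.2.2⁻¹)

lemma circ_eq {x y : ℝ} : (x : AddCircle (1 : ℝ)) = y ↔ ∃ n : ℤ, y = x + n := by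
  rw [eq_comm, ← sub_eq_zero, ← AddCircle.coe_sub, AddCircle.coe_eq_zero_iff]
  simp only [zsmul_eq_mul, mul_one]
  constructor
  · rintro ⟨n, hn⟩; exact ⟨n, by linarith⟩
  · rintro ⟨n, hn⟩; exact ⟨n, by linarith⟩

lemma pr_eq {z z' : E} : pr z = pr z' ↔ ∃ a b m n : ℤ, z'.1 = z.1 + (a + b * Complex.I) ∧
    z'.2.1 = z.2.1 + (m + n * Complex.I) := by
  simp only [pr, Prod.mk.injEq, circ_eq]
  constructor
  · rintro ⟨⟨⟨a, ha⟩, ⟨b, hb⟩⟩, ⟨m, hm⟩, ⟨n, hn⟩⟩
    exact ⟨a, b, m, n, by apply Complex.ext <;> simp [ha, hb],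
      by apply Complex.ext <;> simp [hm, hn]⟩
  · rintro ⟨a, b, m, n, h1, h2⟩
    refine ⟨⟨⟨a, ?_⟩, ⟨b, ?_⟩⟩, ⟨m, ?_⟩, ⟨n, ?_⟩⟩
    · rw [h1]; simp
    · rw [h1]; simp
    · rw [h2]; simp
    · rw [h2]; simp

lemma pr_dk (i : Bool) (a b m n : ℤ) (z : E) : pr (dk i a b m n z) = pr z :=
  (pr_eq.2 ⟨a, b, m, n, rfl, rfl⟩).symm

lemma kp_dk (i : Bool) (a b m n : ℤ) (z : E) : kp i (dk i a b m n z) = kp i z := by
  have h1 := pr_dk i a b m n z
  have h2 : eh (dk i a b m n z).2.1 = eh z.2.1 * Complex.exp (au m z.2.1) := eh_add m n z.2.1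
  have hne := Complex.exp_ne_zero (au m z.2.1)
  cases i with
  | false =>
    simp only [kp, h1, h2]
    simp only [dk, sg, neg_mul, one_mul, Complex.exp_neg]
    congr 2
    field_simp
  | true =>
    simp only [kp, h1, h2]
    simp only [dk, sg, one_mul, mul_eq_zero, hne, or_false]
    congr 1
    split_ifs with h
    · rfl
    · congr 1
      field_simp

lemma kp_iv (i : Bool) {z : E} (hz : z.2.2 ≠ 0) : kp (!i) (iv z) = kp i z := by
  cases i with
  | false => simp [kp, iv, pr, hz]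
  | true => simp [kp, iv, pr, hz]

lemma eq_dk {i : Bool} {z z' : E} (h : kp i z = kp i z') : ∃ a b m n : ℤ,
    z' = dk i a b m n z := by
  cases i with
  | false =>
    simp only [kp, X3.mk.injEq] at h
    obtain ⟨a, b, m, n, h1, h2⟩ := pr_eq.1 h.1
    refine ⟨a, b, m, n, Prod.ext h1 (Prod.ext h2 ?_)⟩
    have h3 := h.2
    rw [h2, eh_add] at h3
    have h4 : eh z.2.1 * z.2.2 = eh z.2.1 * Complex.exp (au m z.2.1) * z'.2.2 :=
      OnePoint.coe_injective h3
    have h5 : z.2.2 = Complex.exp (au m z.2.1) * z'.2.2 := by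
      have := mul_left_cancel₀ (eh_ne z.2.1) (h4.trans (mul_assoc _ _ _))
      exact this
    simp only [dk, sg, neg_mul, one_mul, Complex.exp_neg]
    rw [h5]
    have hne := Complex.exp_ne_zero (au m z.2.1)
    field_simp
  | true =>
    simp only [kp, X3.mk.injEq] at h
    obtain ⟨a, b, m, n, h1, h2⟩ := pr_eq.1 h.1
    refine ⟨a, b, m, n, Prod.ext h1 (Prod.ext h2 ?_)⟩
    have h3 := h.2
    have hne := Complex.exp_ne_zero (au m z.2.1)
    simp only [dk, sg, one_mul]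
    by_cases hz : z.2.2 = 0
    · by_cases hz' : z'.2.2 = 0
      · rw [hz, hz', zero_mul]
      · rw [if_pos hz, if_neg hz'] at h3
        exact absurd h3 (OnePoint.infty_ne_coe _)
    · by_cases hz' : z'.2.2 = 0
      · rw [if_neg hz, if_pos hz'] at h3
        exact absurd h3 (OnePoint.coe_ne_infty _)
      · rw [if_neg hz, if_neg hz', h2, eh_add] at h3
        have h4 : eh z.2.1 * z.2.2⁻¹ = eh z.2.1 * Complex.exp (au m z.2.1) * z'.2.2⁻¹ :=
          OnePoint.coe_injective h3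
        have h5 : z.2.2⁻¹ = Complex.exp (au m z.2.1) * z'.2.2⁻¹ :=
          mul_left_cancel₀ (eh_ne z.2.1) (h4.trans (mul_assoc _ _ _))
        field_simp at h5
        rw [h5, mul_comm]

lemma ne_zero_of_eq {i : Bool} {z z' : E} (h : kp i z = kp (!i) z') : z.2.2 ≠ 0 := by
  cases i with
  | false =>
    rintro hz
    simp only [kp, X3.mk.injEq, hz, Bool.not_false, mul_zero] at h
    have h3 := h.2
    by_cases hz' : z'.2.2 = 0
    · rw [if_pos hz'] at h3
      exact absurd h3 (OnePoint.coe_ne_infty _)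
    · rw [if_neg hz'] at h3
      have h4 : (0 : ℂ) = eh z'.2.1 * z'.2.2⁻¹ := OnePoint.coe_injective h3
      exact mul_ne_zero (eh_ne _) (inv_ne_zero hz') h4.symm
  | true =>
    rintro hz
    simp only [kp, X3.mk.injEq, hz, Bool.not_true] at h
    exact absurd h.2 (OnePoint.infty_ne_coe _)

lemma eq_iv {i : Bool} {z z' : E} (h : kp i z = kp (!i) z') : z.2.2 ≠ 0 ∧
    ∃ a b m n : ℤ, z' = iv (dk i a b m n z) := by
  have hz := ne_zero_of_eq h
  refine ⟨hz, ?_⟩
  have h1 : kp (!i) z' = kp (!(!i)) z := by rw [Bool.not_not]; exact h.symm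
  have hz' := ne_zero_of_eq h1
  have h2 : kp i (iv z') = kp (!i) z' := by
    have := kp_iv (!i) hz'
    rwa [Bool.not_not] at this
  obtain ⟨a, b, m, n, h3⟩ := eq_dk (h.trans h2.symm)
  refine ⟨a, b, m, n, ?_⟩
  rw [← h3]
  simp [iv]

end Pool.Agent.H220.C6
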