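import Pool.Agent.H220.C6.Surf

/-!
# The topology of the threefold
-/

set_option autoImplicit false
set_option linter.style.haveILetI false

open Filter Metric Set Topology
open scoped Manifold ContDiff Real

namespace Pool.Agent.H220.C6

lemma contDiff_dk (i : Bool) (a b m n : ℤ) : ContDiff ℂ ω (dk i a b m n) := by
  have h1 : ContDiff ℂ ω (fun z : E => z.2.2 * Complex.exp (sg i * au m z.2.1)) := by
    simp only [au]
    fun_prop
  have h2 : ContDiff ℂ ω (fun z : E => z.1 + (a + b * Complex.I)) := by fun_prop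
  have h3 : ContDiff ℂ ω (fun z : E => z.2.1 + (m + n * Complex.I)) := by fun_prop
  exact h2.prodMk (h3.prodMk h1)

lemma contDiffAt_iv {z : E} (hz : z.2.2 ≠ 0) : ContDiffAt ℂ ω iv z := by
  have h1 : ContDiffAt ℂ ω (fun z : E => z.1) z := contDiffAt_fst
  have h2 : ContDiffAt ℂ ω (fun z : E => z.2.1) z := contDiffAt_snd.fst
  have h3 : ContDiffAt ℂ ω (fun z : E => z.2.2) z := contDiffAt_snd.snd
  exact h1.prodMk (h2.prodMk (h3.inv hz))

lemma dk_third_ne {i : Bool} {a b m n : ℤ} {z : E} (hz : z.2.2 ≠ 0) :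
    (dk i a b m n z).2.2 ≠ 0 := mul_ne_zero hz (Complex.exp_ne_zero _)

lemma int_eq_zero {a b : ℤ} (h : ‖(a + b * Complex.I : ℂ)‖ < 1) : a = 0 ∧ b = 0 := by
  have h1 := Complex.abs_re_le_norm (a + b * Complex.I : ℂ)
  have h2 := Complex.abs_im_le_norm (a + b * Complex.I : ℂ)
  have h3 : (a + b * Complex.I : ℂ).re = a := by simp
  have h4 : (a + b * Complex.I : ℂ).im = b := by simp
  rw [h3] at h1
  rw [h4] at h2
  constructor
  · have : |(a : ℝ)| < 1 := h1.trans_lt h
    have h5 : |a| < 1 := by exact_mod_cast this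
    exact Int.abs_lt_one_iff.1 h5
  · have : |(b : ℝ)| < 1 := h2.trans_lt h
    have h5 : |b| < 1 := by exact_mod_cast this
    exact Int.abs_lt_one_iff.1 h5

lemma dk_zero (i : Bool) (z : E) : dk i 0 0 0 0 z = z := by
  simp [dk, au]

/-- base points which are close and differ by a deck transformation are equal -/
lemma dk_close {i : Bool} {a b m n : ℤ} {z : E}
    (h1 : ‖(dk i a b m n z).1 - z.1‖ < 1) (h2 : ‖(dk i a b m n z).2.1 - z.2.1‖ < 1) :
    dk i a b m n z = z := by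
  have h3 : (dk i a b m n z).1 - z.1 = a + b * Complex.I := by simp [dk]
  have h4 : (dk i a b m n z).2.1 - z.2.1 = m + n * Complex.I := by simp [dk]
  rw [h3] at h1
  rw [h4] at h2
  obtain ⟨rfl, rfl⟩ := int_eq_zero h1
  obtain ⟨rfl, rfl⟩ := int_eq_zero h2
  exact dk_zero i z

lemma norm_fst_le' (z : E) : ‖z.1‖ ≤ ‖z‖ := norm_fst_le z
lemma norm_snd1_le (z : E) : ‖z.2.1‖ ≤ ‖z‖ := (norm_fst_le z.2).trans (norm_snd_le z)
lemma norm_snd2_le (z : E) : ‖z.2.2‖ ≤ ‖z‖ := (norm_snd_le z.2).trans (norm_snd_le z)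

lemma ball_close {c z z' : E} {s : ℝ} (hs : s ≤ 1 / 4) (hz : z ∈ ball c s) (hz' : z' ∈ ball c s) :
    ‖z' - z‖ < 1 := by
  rw [mem_ball, dist_eq_norm] at hz hz'
  have : z' - z = (z' - c) - (z - c) := by abel
  rw [this]
  have := norm_sub_le (z' - c) (z - c)
  linarith

/-- the coordinate balls -/
abbrev Ix : Type := Bool × E × ℝ

/-- the gluing data of the threefold -/
noncomputable def GG0 : GData Ix X3 where
  V j := ball j.2.1 (min j.2.2 (1 / 4))
  κ j := kp j.1
  isOpen_V j := isOpen_ball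
  inj := by
    rintro ⟨i, c, r⟩ z hz z' hz' h
    obtain ⟨a, b, m, n, rfl⟩ := eq_dk h
    have h1 := ball_close (min_le_right _ _) hz hz'
    exact (dk_close ((norm_fst_le' (dk i a b m n z - z)).trans_lt h1)
      ((norm_snd1_le (dk i a b m n z - z)).trans_lt h1)).symm
  cover := by
    intro s
    obtain ⟨⟨⟨x₁, y₁⟩, ⟨x₂, y₂⟩⟩, p⟩ := s
    obtain ⟨x₁, rfl⟩ := QuotientAddGroup.mk_surjective x₁
    obtain ⟨y₁, rfl⟩ := QuotientAddGroup.mk_surjective y₁
    obtain ⟨x₂, rfl⟩ := QuotientAddGroup.mk_surjective x₂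
    obtain ⟨y₂, rfl⟩ := QuotientAddGroup.mk_surjective y₂
    induction p using OnePoint.rec with
    | infty =>
      refine ⟨(true, (⟨x₁, y₁⟩, ⟨x₂, y₂⟩, 0), 1), (⟨x₁, y₁⟩, ⟨x₂, y₂⟩, 0),
        mem_ball_self (by norm_num), ?_⟩
      simp only [kp, pr, if_true]
    | coe w =>
      refine ⟨(false, (⟨x₁, y₁⟩, ⟨x₂, y₂⟩, (eh ⟨x₂, y₂⟩)⁻¹ * w), 1),
        (⟨x₁, y₁⟩, ⟨x₂, y₂⟩, (eh ⟨x₂, y₂⟩)⁻¹ * w), mem_ball_self (by norm_num), ?_⟩
      simp only [kp, pr]
      rw [mul_inv_cancel_left₀ (eh_ne _)]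
  trans := by
    rintro ⟨i, c, r⟩ ⟨j, c', r'⟩ z z' hz hz' h
    change kp i z = kp j z' at h
    by_cases hij : j = i
    · subst hij
      obtain ⟨a, b, m, n, rfl⟩ := eq_dk h
      refine ⟨dk j a b m n, (contDiff_dk j a b m n).contDiffAt, ?_⟩
      have h1 : ContinuousAt (dk j a b m n) z := (contDiff_dk j a b m n).continuous.continuousAt
      filter_upwards [h1 (isOpen_ball.mem_nhds hz')] with t ht
      exact ⟨ht, kp_dk j a b m n t⟩
    · have hij' : j = !i := by cases i <;> cases j <;> simp_all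
      subst hij'
      obtain ⟨h0, a, b, m, n, rfl⟩ := eq_iv h
      have h2 : ContDiffAt ℂ ω (fun t => iv (dk i a b m n t)) z :=
        (contDiffAt_iv (dk_third_ne h0)).comp z (contDiff_dk i a b m n).contDiffAt
      refine ⟨fun t => iv (dk i a b m n t), h2, ?_⟩
      have h3 : ∀ᶠ t : E in 𝓝 z, t.2.2 ≠ 0 :=
        (continuous_snd.comp continuous_snd).continuousAt.eventually_ne h0
      filter_upwards [h2.continuousAt (isOpen_ball.mem_nhds hz'), h3] with t ht ht3
      refine ⟨ht, ?_⟩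
      change kp (!i) (iv (dk i a b m n t)) = kp i t
      rw [kp_iv i (dk_third_ne ht3), kp_dk]

@[instance_reducible] noncomputable instance : TopologicalSpace X3 := GG0.top
@[instance_reducible] noncomputable instance : ChartedSpace E X3 := GG0.cs
instance : IsManifold 𝓘(ℂ, E) ω X3 := GG0.man

/-- the chart with the index `j` -/
noncomputable def chr (j : Ix) : OpenPartialHomeomorph X3 E := GG0.ch j

lemma chr_target (j : Ix) : (chr j).target = ball j.2.1 (min j.2.2 (1 / 4)) := rfl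
lemma chr_source (j : Ix) : (chr j).source = kp j.1 '' ball j.2.1 (min j.2.2 (1 / 4)) := rfl
lemma chr_symm (j : Ix) : ((chr j).symm : E → X3) = kp j.1 := rfl
lemma chr_apply (j : Ix) {z : E} (hz : z ∈ ball j.2.1 (min j.2.2 (1 / 4))) :
    chr j (kp j.1 z) = z := GG0.ch_apply j z hz
lemma chr_mem (j : Ix) : chr j ∈ IsManifold.maximalAtlas 𝓘(ℂ, E) ω X3 := GG0.ch_mem j

lemma mem_V (i : Bool) (z : E) : z ∈ GG0.V (i, z, 1) := mem_ball_self (by norm_num)

lemma map_nhds_kp (i : Bool) (z : E) : map (kp i) (𝓝 z) = 𝓝 (kp i z) :=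
  GG0.map_nhds (i, z, 1) (mem_V i z)

lemma continuous_kp (i : Bool) : Continuous (kp i) :=
  continuous_iff_continuousAt.2 fun z => (map_nhds_kp i z).le

lemma isOpenMap_kp (i : Bool) : IsOpenMap (kp i) :=
  IsOpenMap.of_nhds_le fun z => (map_nhds_kp i z).ge

lemma kp_surj (s : X3) : ∃ i z, kp i z = s := by
  obtain ⟨j, z, -, h⟩ := GG0.cover s
  exact ⟨j.1, z, h⟩

/-- a function which is continuous in the coordinates is continuous -/
lemma continuous_of_kp {Y : Type*} [TopologicalSpace Y] {f : X3 → Y}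
    (hf : ∀ i, Continuous fun z => f (kp i z)) : Continuous f := by
  refine continuous_iff_continuousAt.2 fun s => ?_
  obtain ⟨i, z, rfl⟩ := kp_surj s
  rw [ContinuousAt, ← map_nhds_kp, tendsto_map'_iff]
  exact (hf i).continuousAt

lemma b_kp (i : Bool) (z : E) : (kp i z).b = pr z := by cases i <;> rfl

lemma continuous_b : Continuous X3.b := by
  refine continuous_of_kp fun i => ?_
  simp only [b_kp, pr]
  have hc : Continuous (fun x : ℝ => (x : AddCircle (1 : ℝ))) := AddCircle.continuous_mk' 1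
  exact ((hc.comp (by fun_prop)).prodMk (hc.comp (by fun_prop))).prodMk
    ((hc.comp (by fun_prop)).prodMk (hc.comp (by fun_prop)))

end Pool.Agent.H220.C6
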